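import Pool.Agent.Helper34.PN.Defs

namespace Pool.Agent.Helper34.PN

open Finset

theorem card_small_subsets {α : Type} [DecidableEq α] (S : Finset α) (D : ℕ) :
    (S.powerset.filter (fun t => t.card ≤ D)).card ≤ (S.card + 1) ^ D := by
  induction D with
  | zero =>
    have : S.powerset.filter (fun t => t.card ≤ 0) ⊆ {∅} := by
      intro t ht
      rw [Finset.mem_filter] at ht
      rw [Finset.mem_singleton]
      exact Finset.card_eq_zero.mp (Nat.le_zero.mp ht.2)
    have h := Finset.card_le_card this
    simpa using h
  | succ D ih =>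
    have hsub : S.powerset.filter (fun t => t.card ≤ D + 1) ⊆
        (S.powerset.filter (fun t => t.card ≤ D)) ∪
          ((S ×ˢ (S.powerset.filter (fun t => t.card ≤ D))).image (fun p => insert p.1 p.2)) := by
      intro t ht
      rw [Finset.mem_filter, Finset.mem_powerset] at ht
      rw [Finset.mem_union]
      by_cases hc : t.card ≤ D
      · left
        rw [Finset.mem_filter, Finset.mem_powerset]
        exact ⟨ht.1, hc⟩
      · right
        have hpos : 0 < t.card := by omega
        obtain ⟨x, hx⟩ := Finset.card_pos.mp hpos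
        rw [Finset.mem_image]
        refine ⟨(x, t.erase x), ?_, ?_⟩
        · rw [Finset.mem_product, Finset.mem_filter, Finset.mem_powerset]
          refine ⟨ht.1 hx, (Finset.erase_subset _ _).trans ht.1, ?_⟩
          rw [Finset.card_erase_of_mem hx]
          have := ht.2
          omega
        · exact Finset.insert_erase hx
    calc (S.powerset.filter (fun t => t.card ≤ D + 1)).card
        ≤ ((S.powerset.filter (fun t => t.card ≤ D)) ∪
          ((S ×ˢ (S.powerset.filter (fun t => t.card ≤ D))).image
            (fun p => insert p.1 p.2))).card := Finset.card_le_card hsub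
      _ ≤ (S.powerset.filter (fun t => t.card ≤ D)).card +
          ((S ×ˢ (S.powerset.filter (fun t => t.card ≤ D))).image
            (fun p => insert p.1 p.2)).card := Finset.card_union_le _ _
      _ ≤ (S.powerset.filter (fun t => t.card ≤ D)).card +
          S.card * (S.powerset.filter (fun t => t.card ≤ D)).card := by
          gcongr
          exact (Finset.card_image_le).trans (by rw [Finset.card_product])
      _ = (S.card + 1) * (S.powerset.filter (fun t => t.card ≤ D)).card := by ring
      _ ≤ (S.card + 1) * (S.card + 1) ^ D := Nat.mul_le_mul_left _ ih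
      _ = (S.card + 1) ^ (D + 1) := by ring

theorem traces_card {α : Type} [DecidableEq α] (m : ℕ) (hm : 1 ≤ m) (X : Finset α)
    (H : Finset (Finset α)) (hG : Good X H m) (S : Finset α) (hS : S ⊆ X) :
    (H.image (fun E => E ∩ S)).card ≤ (S.card + 1) ^ (2 * m - 2) := by
  have h1 : (H.image (fun E => E ∩ S)).card ≤ (H.image (fun E => E ∩ S)).shatterer.card :=
    Finset.card_le_card_shatterer _
  have h2 : (H.image (fun E => E ∩ S)).shatterer ⊆
      S.powerset.filter (fun t => t.card ≤ 2 * m - 2) := by
    intro t ht
    rw [Finset.mem_shatterer] at ht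
    have htS : t ⊆ S := by
      obtain ⟨u, hu, hut⟩ := ht (Finset.Subset.refl t)
      rw [Finset.mem_image] at hu
      obtain ⟨E, _, rfl⟩ := hu
      intro x hx
      rw [← hut] at hx
      exact (Finset.mem_inter.mp (Finset.mem_inter.mp hx).2).2
    have key : ∀ R : Finset α, R ⊆ t → ∃ E ∈ H, E ∩ t = R := by
      intro R hR
      obtain ⟨u, hu, hut⟩ := ht hR
      rw [Finset.mem_image] at hu
      obtain ⟨E, hE, rfl⟩ := hu
      refine ⟨E, hE, ?_⟩
      rw [← hut]
      ext x
      simp only [Finset.mem_inter]
      constructor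
      · rintro ⟨h, h'⟩
        exact ⟨h', h, htS h'⟩
      · rintro ⟨h, h', _⟩
        exact ⟨h', h⟩
    rw [Finset.mem_filter, Finset.mem_powerset]
    refine ⟨htS, ?_⟩
    by_contra hcon
    obtain ⟨R, hR, hRG⟩ := hG t (htS.trans hS)
    have hcard : (t \ R).card + R.card = t.card := Finset.card_sdiff_add_card_eq_card hR
    by_cases hc : m ≤ R.card
    · obtain ⟨E, hE, hER⟩ := key R hR
      obtain ⟨_, x, hx⟩ := hRG E hE (by rw [hER]; exact hc)
      rw [Finset.mem_inter, Finset.mem_sdiff] at hx
      apply hx.2.2
      rw [← hER, Finset.mem_inter]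
      exact ⟨hx.1, hx.2.1⟩
    · have hc' : m ≤ (t \ R).card := by omega
      obtain ⟨E, hE, hER⟩ := key (t \ R) Finset.sdiff_subset
      obtain ⟨⟨x, hx⟩, _⟩ := hRG E hE (by rw [hER]; exact hc')
      rw [Finset.mem_inter] at hx
      have hx2 : x ∈ t \ R := by
        rw [← hER, Finset.mem_inter]
        exact ⟨hx.1, hR hx.2⟩
      exact (Finset.mem_sdiff.mp hx2).2 hx.2
  exact (h1.trans (Finset.card_le_card h2)).trans (card_small_subsets S (2 * m - 2))

end Pool.Agent.Helper34.PN
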