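import Mathlib

set_option autoImplicit false

universe u

namespace Pool.Agent.Helper27.CoverDecomp

/-- The Euclidean plane. -/
abbrev Plane : Type := EuclideanSpace ℝ (Fin 2)

/-- The translate of the planar set `P` by the vector `v`. -/
def translate (P : Set Plane) (v : Plane) : Set Plane := (fun p => p + v) '' P

/-- The indexed family of translates `translate P (x i)`, `i : ι`, is an `m`-fold covering of `S`. -/
def IsFoldCovering (P S : Set Plane) (m : ℕ) {ι : Type u} (x : ι → Plane) : Prop :=
  ∀ s ∈ S, (m : ℕ∞) ≤ {i : ι | s ∈ translate P (x i)}.encard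

/-- The indexed family of translates `translate P (x i)`, `i : ι`, can be partitioned into two
subfamilies, each of which covers every point of `S`. -/
def Decomposes (P S : Set Plane) {ι : Type u} (x : ι → Plane) : Prop :=
  ∃ c : ι → Bool, ∀ b : Bool, ∀ s ∈ S, ∃ i : ι, c i = b ∧ s ∈ translate P (x i)

/-- `P` is cover-decomposable. -/
def CoverDecomposable (P : Set Plane) : Prop :=
  ∃ m : ℕ, 2 ≤ m ∧ ∀ (ι : Type u) (x : ι → Plane),
    IsFoldCovering P Set.univ m x → Decomposes P Set.univ x

/-- `P` is totally-cover-decomposable. -/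
def TotallyCoverDecomposable (P : Set Plane) : Prop :=
  ∃ m : ℕ, 2 ≤ m ∧ ∀ (S : Set Plane) (ι : Type u) (x : ι → Plane),
    IsFoldCovering P S m x → Decomposes P S x

end Pool.Agent.Helper27.CoverDecomp
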