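import Pool.Agent.Helper27.CoverDecompDefs

set_option autoImplicit false

universe u

namespace Pool.Agent.Helper27.CoverDecomp

theorem mem_translate {P : Set Plane} {v s : Plane} : s ∈ translate P v ↔ s - v ∈ P := by
  constructor
  · rintro ⟨p, hp, rfl⟩
    simpa using hp
  · intro h
    exact ⟨s - v, h, by simp⟩

/-! ### Injective choice for countably many infinite sets -/

theorem exists_injective_choice_nat {ι : Type u} (A : ℕ → Set ι) (hA : ∀ n, (A n).Infinite) :
    ∃ f : ℕ → ι, Function.Injective f ∧ ∀ n, f n ∈ A n := by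
  classical
  have key : ∀ (n : ℕ) (s : Finset ι), ∃ y, y ∈ A n ∧ y ∉ s := fun n s =>
    (hA n).exists_notMem_finset s
  choose g hg hg' using key
  -- the history of choices, as a finset
  let h : ℕ → Finset ι := fun n => Nat.rec ∅ (fun k s => insert (g k s) s) n
  have hsucc : ∀ n, h (n + 1) = insert (g n (h n)) (h n) := fun n => rfl
  have hmono : ∀ m n, m ≤ n → h m ⊆ h n := by
    intro m n hmn
    induction hmn with
    | refl => exact fun _ hx => hx
    | step _ ih =>
      intro x hx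
      rw [Nat.succ_eq_add_one, hsucc]
      exact Finset.mem_insert_of_mem (ih hx)
  refine ⟨fun n => g n (h n), ?_, fun n => hg n (h n)⟩
  have hlt : ∀ m n, m < n → g m (h m) ≠ g n (h n) := by
    intro m n hmn heq
    have h1 : g m (h m) ∈ h n := by
      apply hmono (m + 1) n hmn
      rw [hsucc]
      exact Finset.mem_insert_self _ _
    rw [heq] at h1
    exact hg' n (h n) h1
  intro m n hmn
  rcases lt_trichotomy m n with h1 | h1 | h1
  · exact absurd hmn (hlt m n h1)
  · exact h1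
  · exact absurd hmn.symm (hlt n m h1)

theorem exists_injective_choice {κ : Type*} [Countable κ] {ι : Type u} (A : κ → Set ι)
    (hA : ∀ k, (A k).Infinite) :
    ∃ f : κ → ι, Function.Injective f ∧ ∀ k, f k ∈ A k := by
  classical
  obtain ⟨e, he⟩ := exists_injective_nat κ
  rcases isEmpty_or_nonempty κ with hκ | hκ
  · exact ⟨fun k => (hκ.false k).elim, fun k => (hκ.false k).elim, fun k => (hκ.false k).elim⟩
  · obtain ⟨f, hf, hfA⟩ := exists_injective_choice_nat (fun n => A (Function.invFun e n))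
      (fun n => hA _)
    refine ⟨fun k => f (e k), hf.comp he, fun k => ?_⟩
    have := hfA (e k)
    rwa [Function.leftInverse_invFun he k] at this

/-! ### The colouring lemma on one countable class -/

theorem coloring_of_countable {E : Type*} {ι : Type u} (I : E → Set ι) (C : Set E)
    (hC : C.Countable) (h2 : ∀ s ∈ C, ∃ a b : ι, a ∈ I s ∧ b ∈ I s ∧ a ≠ b)
    (hdisj : ∀ s ∈ C, ∀ t ∈ C, (I s).Finite → (I t).Finite → s ≠ t → Disjoint (I s) (I t))
    (hfin : ∀ s ∈ C, {t | t ∈ C ∧ (I t).Finite ∧ ¬ Disjoint (I s) (I t)}.Finite) :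
    ∃ c : ι → Bool, ∀ b : Bool, ∀ s ∈ C, ∃ i : ι, c i = b ∧ i ∈ I s := by
  classical
  rcases isEmpty_or_nonempty ι with hι | hι
  · refine ⟨fun i => (hι.false i).elim, fun b s hs => ?_⟩
    obtain ⟨i, -⟩ := h2 s hs
    exact (hι.false i).elim
  choose! a a' ha ha' hne using h2
  -- the infinite ones, with the finite ones removed
  let J : E → Set ι := fun s => I s \ ⋃ t ∈ {t | t ∈ C ∧ (I t).Finite ∧ ¬ Disjoint (I s) (I t)}, I t
  have hJ : ∀ s ∈ C, (I s).Infinite → (J s).Infinite := by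
    intro s hs hinf
    apply hinf.sdiff
    apply (hfin s hs).biUnion
    intro t ht
    exact ht.2.1
  have hJavoid : ∀ s ∈ C, ∀ t ∈ C, (I t).Finite → ∀ i ∈ J s, i ∉ I t := by
    intro s hs t ht htf i hi hit
    apply hi.2
    rw [Set.mem_iUnion₂]
    refine ⟨t, ⟨ht, htf, ?_⟩, hit⟩
    rw [Set.not_disjoint_iff]
    exact ⟨i, hi.1, hit⟩
  let D : Set E := {s | s ∈ C ∧ (I s).Infinite}
  have hD : D.Countable := hC.mono fun s hs => hs.1
  have : Countable D := hD.to_subtype
  obtain ⟨f, hf, hfJ⟩ := exists_injective_choice (κ := D × Bool) (fun k => J k.1)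
    (fun k => hJ _ k.1.2.1 k.1.2.2)
  let T : Set ι := {i | (∃ s ∈ C, (I s).Finite ∧ i = a s) ∨ ∃ s : D, i = f (s, true)}
  refine ⟨fun i => decide (i ∈ T), ?_⟩
  intro b s hs
  by_cases hsf : (I s).Finite
  · cases b
    · refine ⟨a' s, ?_, ha' s hs⟩
      simp only [decide_eq_false_iff_not]
      rintro (⟨t, ht, htf, hat⟩ | ⟨t, hat⟩)
      · by_cases hst : s = t
        · subst hst
          exact hne s hs hat.symm
        · have := hdisj s hs t ht hsf htf hst
          rw [Set.disjoint_left] at this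
          exact this (ha' s hs) (hat ▸ ha t ht)
      · have h1 := hfJ (t, true)
        rw [← hat] at h1
        exact hJavoid _ t.2.1 s hs hsf _ h1 (ha' s hs)
    · refine ⟨a s, ?_, ha s hs⟩
      simp only [decide_eq_true_eq]
      exact Or.inl ⟨s, hs, hsf, rfl⟩
  · have hsD : s ∈ D := ⟨hs, hsf⟩
    cases b
    · refine ⟨f (⟨s, hsD⟩, false), ?_, (hfJ (⟨s, hsD⟩, false)).1⟩
      simp only [decide_eq_false_iff_not]
      rintro (⟨t, ht, htf, hat⟩ | ⟨t, hat⟩)
      · have h1 := hfJ (⟨s, hsD⟩, false)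
        have h2 := hJavoid _ hs t ht htf _ h1
        apply h2
        rw [hat]
        exact ha t ht
      · have := hf hat
        simp at this
    · refine ⟨f (⟨s, hsD⟩, true), ?_, (hfJ (⟨s, hsD⟩, true)).1⟩
      simp only [decide_eq_true_eq]
      exact Or.inr ⟨⟨s, hsD⟩, rfl⟩

/-! ### The algebraic construction -/

open Polynomial

/-- Nonconstant rational polynomials with positive leading coefficient. -/
def PosPoly (h : ℚ[X]) : Prop := 1 ≤ h.natDegree ∧ 0 < h.leadingCoeff

theorem posPoly_add_aux {h g : ℚ[X]} (hh : h.natDegree = 0 ∨ PosPoly h) (hg : PosPoly g) :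
    PosPoly (h + g) := by
  obtain ⟨hg1, hg2⟩ := hg
  rcases lt_trichotomy h.natDegree g.natDegree with h1 | h1 | h1
  · have h2 : (h + g).natDegree = g.natDegree := natDegree_add_eq_right_of_natDegree_lt h1
    refine ⟨by omega, ?_⟩
    have h3 : (h + g).leadingCoeff = g.leadingCoeff := by
      unfold leadingCoeff
      rw [h2, coeff_add, coeff_eq_zero_of_natDegree_lt h1, zero_add]
    rw [h3]
    exact hg2
  · have hh' : 0 < h.leadingCoeff := by
      rcases hh with h2 | h2
      · omega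
      · exact h2.2
    have h3 : 0 < (h + g).coeff g.natDegree := by
      rw [coeff_add]
      have h4 : h.coeff g.natDegree = h.leadingCoeff := by
        unfold leadingCoeff
        rw [h1]
      have h5 : g.coeff g.natDegree = g.leadingCoeff := rfl
      rw [h4, h5]
      linarith
    have h6 : (h + g).natDegree = g.natDegree := by
      apply le_antisymm
      · refine (natDegree_add_le _ _).trans ?_
        rw [h1]
        simp
      · exact le_natDegree_of_ne_zero h3.ne'
    refine ⟨by omega, ?_⟩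
    unfold leadingCoeff
    rw [h6]
    exact h3
  · have hh' : 0 < h.leadingCoeff := by
      rcases hh with h2 | h2
      · omega
      · exact h2.2
    have h2 : (h + g).natDegree = h.natDegree := natDegree_add_eq_left_of_natDegree_lt h1
    refine ⟨by omega, ?_⟩
    have h3 : (h + g).leadingCoeff = h.leadingCoeff := by
      unfold leadingCoeff
      rw [h2, coeff_add, coeff_eq_zero_of_natDegree_lt h1, add_zero]
    rw [h3]
    exact hh'

theorem posPoly_add {h k : ℚ[X]} {N : ℕ} {q : ℚ} (hh : h.natDegree = 0 ∨ PosPoly h)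
    (hN : 1 ≤ N) (hq : 0 < q) (hk : k.natDegree < N) : PosPoly (h + (C q * X ^ N - k)) := by
  apply posPoly_add_aux hh
  have hd : (C q * X ^ N : ℚ[X]).natDegree = N := natDegree_C_mul_X_pow N q hq.ne'
  have hd' : (C q * X ^ N - k).natDegree = N := by
    rw [natDegree_sub_eq_left_of_natDegree_lt (by rw [hd]; exact hk), hd]
  have hl' : (C q * X ^ N - k).leadingCoeff = q := by
    rw [leadingCoeff, hd', coeff_sub, coeff_C_mul, coeff_X_pow_self,
      coeff_eq_zero_of_natDegree_lt hk]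
    ring
  exact ⟨by rw [hd']; exact hN, by rw [hl']; exact hq⟩

/-- A set of rational numbers in `(0, 1)` encoding all finite hypergraphs on `ℕ`. -/
def P0 : Set ℝ :=
  {r | ∃ (e : Finset ℕ) (v : ℕ), v ∈ e ∧
    r = 1 / 2 + 1 / 3 ^ (Encodable.encode e + 2) - 1 / 2 ^ (v + 2)}

/-- The one-dimensional set. -/
def P1 (τ : ℝ) : Set ℝ :=
  P0 ∪ {r | 0 < r ∧ r < 1 ∧ ∃ h : ℚ[X], PosPoly h ∧ aeval τ h = r}

theorem P0_range {r : ℝ} (hr : r ∈ P0) : 0 < r ∧ r < 1 := by
  obtain ⟨e, v, -, rfl⟩ := hr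
  have h1 : (0 : ℝ) < 1 / 3 ^ (Encodable.encode e + 2) := by positivity
  have h2 : (1 : ℝ) / 3 ^ (Encodable.encode e + 2) ≤ 1 / 3 ^ 2 :=
    one_div_pow_le_one_div_pow_of_le (by norm_num) (by omega)
  have h3 : (0 : ℝ) < 1 / 2 ^ (v + 2) := by positivity
  have h4 : (1 : ℝ) / 2 ^ (v + 2) ≤ 1 / 2 ^ 2 :=
    one_div_pow_le_one_div_pow_of_le (by norm_num) (by omega)
  have h5 : (1 : ℝ) / 3 ^ 2 = 1 / 9 := by norm_num
  have h6 : (1 : ℝ) / 2 ^ 2 = 1 / 4 := by norm_num
  rw [h5] at h2
  rw [h6] at h4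
  constructor <;> linarith

theorem P0_rat {r : ℝ} (hr : r ∈ P0) : ∃ q : ℚ, (q : ℝ) = r := by
  obtain ⟨e, v, -, rfl⟩ := hr
  refine ⟨1 / 2 + 1 / 3 ^ (Encodable.encode e + 2) - 1 / 2 ^ (v + 2), ?_⟩
  push_cast
  ring

theorem P1_range {τ r : ℝ} (hr : r ∈ P1 τ) : 0 < r ∧ r < 1 := by
  rcases hr with hr | hr
  · exact P0_range hr
  · exact ⟨hr.1, hr.2.1⟩

/-- every element of `P1 τ` is the value at `τ` of a polynomial that is constant or positive. -/
theorem P1_poly {τ r : ℝ} (hr : r ∈ P1 τ) :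
    ∃ h : ℚ[X], (h.natDegree = 0 ∨ PosPoly h) ∧ aeval τ h = r := by
  rcases hr with hr | ⟨-, -, h, hh, hr⟩
  · obtain ⟨q, rfl⟩ := P0_rat hr
    exact ⟨C q, Or.inl (natDegree_C q), by simp⟩
  · exact ⟨h, Or.inr hh, hr⟩

theorem key {τ : ℝ} (hτ : 0 < τ) (ht : Transcendental ℚ τ) {e : ℝ} (he0 : 0 < e) (he1 : e < 1)
    (heG : ∃ k : ℚ[X], aeval τ k = e) {F : Set ℝ} (hF : F.Finite)
    (hFG : ∀ f ∈ F, ∃ k : ℚ[X], aeval τ k = f) :
    ∃ d : ℝ, (∃ k : ℚ[X], aeval τ k = d) ∧
      (∀ p ∈ P1 τ, p + d ∈ P1 τ ∨ p + d - e ∈ P1 τ) ∧ ∀ f ∈ F, f - d ∉ P1 τ := by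
  classical
  obtain ⟨ke, hke⟩ := heG
  choose! kf hkf using hFG
  have hinj := transcendental_iff_injective.mp ht
  -- a degree larger than all degrees involved
  obtain ⟨M, hM⟩ : ∃ M : ℕ, ∀ f ∈ F, (kf f).natDegree ≤ M := by
    have hb : BddAbove ((fun f => (kf f).natDegree) '' F) := (hF.image _).bddAbove
    obtain ⟨M, hM⟩ := hb
    exact ⟨M, fun f hf => hM (Set.mem_image_of_mem _ hf)⟩
  set N : ℕ := max M ke.natDegree + 1 with hN
  have hN1 : 1 ≤ N := by omega
  have hNe : ke.natDegree < N := by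
    have := le_max_right M ke.natDegree
    omega
  have hNf : ∀ f ∈ F, (kf f).natDegree < N := by
    intro f hf
    have h1 := hM f hf
    have h2 := le_max_left M ke.natDegree
    omega
  have hτN : 0 < τ ^ N := by positivity
  obtain ⟨q, hq0, hq⟩ := exists_pos_rat_lt (show 0 < e / τ ^ N by positivity)
  have hqe : (q : ℝ) * τ ^ N < e := by
    rwa [lt_div_iff₀ hτN] at hq
  have hq0' : (0 : ℝ) < q := by exact_mod_cast hq0
  have hd0 : 0 < (q : ℝ) * τ ^ N := by positivity
  have hval : aeval τ (C q * X ^ N) = (q : ℝ) * τ ^ N := by simp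
  refine ⟨q * τ ^ N, ⟨_, hval⟩, ?_, ?_⟩
  · intro p hp
    obtain ⟨hp0, hp1⟩ := P1_range hp
    obtain ⟨h, hh, hhp⟩ := P1_poly hp
    by_cases hlt : p + q * τ ^ N < 1
    · left
      right
      refine ⟨by linarith, hlt, h + (C q * X ^ N - 0), posPoly_add hh hN1 hq0 (by simp; omega), ?_⟩
      rw [sub_zero, map_add, hhp, hval]
    · right
      right
      refine ⟨by linarith, by linarith, h + (C q * X ^ N - ke), posPoly_add hh hN1 hq0 hNe, ?_⟩
      rw [map_add, map_sub, hhp, hval, hke]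
      ring
  · intro f hf hmem
    obtain ⟨h, hh, hhp⟩ := P1_poly hmem
    have h1 : h = kf f - C q * X ^ N := by
      apply hinj
      rw [hhp, map_sub, hval, hkf f hf]
    have hdN : (C q * X ^ N : ℚ[X]).natDegree = N := natDegree_C_mul_X_pow N q hq0.ne'
    have h2 : h.natDegree = N := by
      rw [h1, natDegree_sub_eq_right_of_natDegree_lt (by rw [hdN]; exact hNf f hf), hdN]
    have h3 : h.leadingCoeff = -q := by
      rw [leadingCoeff, h2, h1, coeff_sub, coeff_C_mul, coeff_X_pow_self,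
        coeff_eq_zero_of_natDegree_lt (hNf f hf)]
      ring
    rcases hh with hh | hh
    · omega
    · have := hh.2
      rw [h3] at this
      linarith

/-! ### The planar set -/

/-- The planar set: `P1 τ` placed on the first coordinate axis. -/
def P2 (τ : ℝ) : Set Plane := {p | p 0 ∈ P1 τ ∧ p 1 = 0}

/-- The group generated: values at `τ` of rational polynomials on the first coordinate axis. -/
def G2 (τ : ℝ) : AddSubgroup Plane where
  carrier := {v | (∃ k : ℚ[X], aeval τ k = v 0) ∧ v 1 = 0}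
  zero_mem' := ⟨⟨0, by simp⟩, by simp⟩
  add_mem' := by
    rintro a b ⟨⟨k, hk⟩, ha⟩ ⟨⟨l, hl⟩, hb⟩
    exact ⟨⟨k + l, by simp [hk, hl]⟩, by simp [ha, hb]⟩
  neg_mem' := by
    rintro a ⟨⟨k, hk⟩, ha⟩
    exact ⟨⟨-k, by simp [hk]⟩, by simp [ha]⟩

theorem mem_G2 {τ : ℝ} {v : Plane} : v ∈ G2 τ ↔ (∃ k : ℚ[X], aeval τ k = v 0) ∧ v 1 = 0 := Iff.rfl

theorem P2_subset_G2 {τ : ℝ} {p : Plane} (hp : p ∈ P2 τ) : p ∈ G2 τ := by
  obtain ⟨h, -, hh⟩ := P1_poly hp.1
  exact ⟨⟨h, hh⟩, hp.2⟩

theorem countable_polynomial : Countable ℚ[X] := by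
  rw [← Cardinal.mk_le_aleph0_iff]
  refine Polynomial.cardinalMk_le_max.trans ?_
  simp

theorem G2_countable (τ : ℝ) : (G2 τ : Set Plane).Countable := by
  have : Countable ℚ[X] := countable_polynomial
  have h1 : (Set.range fun k : ℚ[X] => (!₂[aeval τ k, 0] : Plane)).Countable :=
    Set.countable_range _
  refine h1.mono ?_
  rintro v ⟨⟨k, hk⟩, hv⟩
  refine ⟨k, ?_⟩
  ext i
  fin_cases i
  · simpa using hk
  · simpa using hv.symm

theorem class_countable (τ : ℝ) (q : Plane ⧸ G2 τ) :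
    {s : Plane | (QuotientAddGroup.mk s : Plane ⧸ G2 τ) = q}.Countable := by
  obtain ⟨s0, rfl⟩ := QuotientAddGroup.mk_surjective q
  have h1 : ((fun g => s0 + g) '' (G2 τ : Set Plane)).Countable := (G2_countable τ).image _
  refine h1.mono ?_
  intro s hs
  have hs' : (QuotientAddGroup.mk s : Plane ⧸ G2 τ) = QuotientAddGroup.mk s0 := hs
  rw [eq_comm, QuotientAddGroup.eq] at hs'
  exact ⟨-s0 + s, hs', by simp⟩

theorem P2_bounded (τ : ℝ) : Bornology.IsBounded (P2 τ) := by
  rw [Metric.isBounded_iff_subset_closedBall (0 : Plane)]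
  refine ⟨1, ?_⟩
  rintro p ⟨hp0, hp1⟩
  obtain ⟨h0, h1⟩ := P1_range hp0
  rw [Metric.mem_closedBall, dist_zero_right, EuclideanSpace.norm_eq, Fin.sum_univ_two, hp1]
  rw [Real.sqrt_le_left (by norm_num)]
  simp only [Real.norm_eq_abs, sq_abs, norm_zero]
  nlinarith

theorem coverDecomposable_P2 {τ : ℝ} (hτ : 0 < τ) (ht : Transcendental ℚ τ) :
    CoverDecomposable.{u} (P2 τ) := by
  classical
  refine ⟨2, le_rfl, ?_⟩
  intro ι x hcov
  let I : Plane → Set ι := fun s => {i | s - x i ∈ P2 τ}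
  have hI : ∀ s i, i ∈ I s ↔ s - x i ∈ P2 τ := fun s i => Iff.rfl
  have h2 : ∀ s, ∃ a b : ι, a ∈ I s ∧ b ∈ I s ∧ a ≠ b := by
    intro s
    have h := hcov s (Set.mem_univ s)
    have h' : {i : ι | s ∈ translate (P2 τ) (x i)} = I s := by
      ext i
      simp only [Set.mem_ofPred_eq, mem_translate, hI]
    rw [h'] at h
    have h3 : 1 < (I s).encard := lt_of_lt_of_le (by norm_num) h
    obtain ⟨a, b, ha, hb, hab⟩ := Set.one_lt_encard_iff.mp h3
    exact ⟨a, b, ha, hb, hab⟩
  -- points of finite multiplicity are separated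
  have hsep : ∀ s t : Plane, (I s).Finite → (I t).Finite → t - s ∈ G2 τ → s 0 < t 0 →
      t 0 - s 0 < 1 → False := by
    intro s t hs htf hG hlt h1
    obtain ⟨k, hk⟩ := hG.1
    have hst1 : t 1 = s 1 := by
      have := hG.2
      simp only [PiLp.sub_apply] at this
      linarith
    have he : ∃ k : ℚ[X], aeval τ k = t 0 - s 0 := ⟨k, by simpa using hk⟩
    have hFG : ∀ f ∈ (fun i => t 0 - x i 0) '' (I s ∪ I t), ∃ k : ℚ[X], aeval τ k = f := by
      rintro f ⟨i, hi | hi, rfl⟩
      · obtain ⟨l, hl⟩ := (P2_subset_G2 hi).1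
        refine ⟨l + k, ?_⟩
        rw [map_add, hl, hk]
        simp
      · obtain ⟨l, hl⟩ := (P2_subset_G2 hi).1
        exact ⟨l, by rw [hl]; simp⟩
    obtain ⟨d, ⟨kd, hkd⟩, hd, hF⟩ := key hτ ht (sub_pos.mpr hlt) h1 he
      ((hs.union htf).image (fun i => t 0 - x i 0)) hFG
    -- the point at distance `d` to the left of `t`
    let v : Plane := !₂[d, 0]
    have hv0 : v 0 = d := by simp [v]
    have hv1 : v 1 = 0 := by simp [v]
    obtain ⟨j, -, hj, -, -⟩ := h2 (t - v)
    obtain ⟨hj0, hj1⟩ := hj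
    simp only [PiLp.sub_apply, hv0, hv1] at hj0 hj1
    have hmem : j ∈ I s ∪ I t := by
      rcases hd _ hj0 with h | h
      · right
        refine ⟨?_, ?_⟩
        · simp only [PiLp.sub_apply]
          convert h using 1
          ring
        · simp only [PiLp.sub_apply]
          linarith
      · left
        refine ⟨?_, ?_⟩
        · simp only [PiLp.sub_apply]
          convert h using 1
          ring
        · simp only [PiLp.sub_apply]
          linarith
    apply hF _ ⟨j, hmem, rfl⟩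
    convert hj0 using 1
    ring
  -- consequences
  have hclose : ∀ s t : Plane, ∀ i, i ∈ I s → i ∈ I t →
      t - s ∈ G2 τ ∧ |t 0 - s 0| < 1 ∧ t 1 = s 1 := by
    intro s t i his hit
    have h1 : t - s = (t - x i) - (s - x i) := by abel
    refine ⟨?_, ?_, ?_⟩
    · rw [h1]
      exact (G2 τ).sub_mem (P2_subset_G2 hit) (P2_subset_G2 his)
    · have ha := P1_range his.1
      have hb := P1_range hit.1
      simp only [PiLp.sub_apply] at ha hb
      rw [abs_lt]
      constructor <;> linarith [ha.1, ha.2, hb.1, hb.2]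
    · have ha := his.2
      have hb := hit.2
      simp only [PiLp.sub_apply] at ha hb
      linarith
  have hext : ∀ s t : Plane, s 0 = t 0 → s 1 = t 1 → s = t := by
    intro s t h0 h1
    ext i
    fin_cases i
    · exact h0
    · exact h1
  have hdisj : ∀ s t : Plane, (I s).Finite → (I t).Finite → s ≠ t → Disjoint (I s) (I t) := by
    intro s t hs htf hne
    rw [Set.disjoint_left]
    intro i his hit
    obtain ⟨hG, habs, h1⟩ := hclose s t i his hit
    rw [abs_lt] at habs
    rcases lt_trichotomy (s 0) (t 0) with h | h | h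
    · exact hsep s t hs htf hG h (by linarith)
    · exact hne (hext s t h h1.symm)
    · refine hsep t s htf hs ?_ h (by linarith)
      have : s - t = -(t - s) := by abel
      rw [this]
      exact (G2 τ).neg_mem hG
  have hfin : ∀ s : Plane, {t | (I t).Finite ∧ ¬ Disjoint (I s) (I t)}.Finite := by
    intro s
    have hT : ∀ t ∈ {t | (I t).Finite ∧ ¬ Disjoint (I s) (I t)},
        t - s ∈ G2 τ ∧ |t 0 - s 0| < 1 ∧ t 1 = s 1 := by
      rintro t ⟨-, hnd⟩
      rw [Set.not_disjoint_iff] at hnd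
      obtain ⟨i, his, hit⟩ := hnd
      exact hclose s t i his hit
    have hpair : ∀ t t' : Plane, (I t).Finite → (I t').Finite → t - s ∈ G2 τ → t' - s ∈ G2 τ →
        t 1 = s 1 → t' 1 = s 1 → |t 0 - t' 0| < 1 → t = t' := by
      intro t t' htf htf' hG hG' h1 h1' habs
      rw [abs_lt] at habs
      have hG1 : t' - t ∈ G2 τ := by
        have : t' - t = (t' - s) - (t - s) := by abel
        rw [this]
        exact (G2 τ).sub_mem hG' hG
      rcases lt_trichotomy (t 0) (t' 0) with h | h | h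
      · exact (hsep t t' htf htf' hG1 h (by linarith)).elim
      · exact hext t t' h (by rw [h1, h1'])
      · refine (hsep t' t htf' htf ?_ h (by linarith)).elim
        have : t - t' = -(t' - t) := by abel
        rw [this]
        exact (G2 τ).neg_mem hG1
    have hsplit : {t | (I t).Finite ∧ ¬ Disjoint (I s) (I t)} =
        {t | ((I t).Finite ∧ ¬ Disjoint (I s) (I t)) ∧ t 0 ≤ s 0} ∪
        {t | ((I t).Finite ∧ ¬ Disjoint (I s) (I t)) ∧ s 0 < t 0} := by
      ext t
      simp only [Set.mem_ofPred_eq, Set.mem_union]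
      constructor
      · intro h
        rcases le_or_gt (t 0) (s 0) with h' | h'
        · exact Or.inl ⟨h, h'⟩
        · exact Or.inr ⟨h, h'⟩
      · rintro (h | h)
        · exact h.1
        · exact h.1
    rw [hsplit]
    apply Set.Finite.union
    · apply Set.Subsingleton.finite
      rintro t ⟨ht1, ht2⟩ t' ⟨ht1', ht2'⟩
      obtain ⟨hG, habs, h1⟩ := hT t ht1
      obtain ⟨hG', habs', h1'⟩ := hT t' ht1'
      rw [abs_lt] at habs habs'
      apply hpair t t' ht1.1 ht1'.1 hG hG' h1 h1'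
      rw [abs_lt]
      constructor <;> linarith [habs.1, habs.2, habs'.1, habs'.2]
    · apply Set.Subsingleton.finite
      rintro t ⟨ht1, ht2⟩ t' ⟨ht1', ht2'⟩
      obtain ⟨hG, habs, h1⟩ := hT t ht1
      obtain ⟨hG', habs', h1'⟩ := hT t' ht1'
      rw [abs_lt] at habs habs'
      apply hpair t t' ht1.1 ht1'.1 hG hG' h1 h1'
      rw [abs_lt]
      constructor <;> linarith [habs.1, habs.2, habs'.1, habs'.2]
  -- colour class by class
  have hclass : ∀ q : Plane ⧸ G2 τ, ∃ c : ι → Bool, ∀ b : Bool,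
      ∀ s ∈ {s : Plane | (QuotientAddGroup.mk s : Plane ⧸ G2 τ) = q},
        ∃ i : ι, c i = b ∧ i ∈ I s := by
    intro q
    apply coloring_of_countable I _ (class_countable τ q)
    · intro s _
      exact h2 s
    · intro s _ t _ hs htf hne
      exact hdisj s t hs htf hne
    · intro s _
      refine (hfin s).subset ?_
      rintro t ⟨-, h, h'⟩
      exact ⟨h, h'⟩
  choose c hc using hclass
  refine ⟨fun i => c (QuotientAddGroup.mk (x i)) i, ?_⟩
  intro b s _
  obtain ⟨i, hi, his⟩ := hc (QuotientAddGroup.mk s) b s rfl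
  refine ⟨i, ?_, ?_⟩
  · have : (QuotientAddGroup.mk (x i) : Plane ⧸ G2 τ) = QuotientAddGroup.mk s := by
      rw [QuotientAddGroup.eq]
      have h3 := P2_subset_G2 his
      have h4 : -x i + s = s - x i := by abel
      rw [h4]
      exact h3
    simp only [this]
    exact hi
  · rw [mem_translate]
    exact his

/-! ### Failure for arbitrary sets of points -/

theorem pow_unique {a b v w : ℕ}
    (h : (1 : ℝ) / 3 ^ (a + 2) - 1 / 2 ^ (v + 2) = 1 / 3 ^ (b + 2) - 1 / 2 ^ (w + 2)) :
    a = b ∧ v = w := by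
  have main : ∀ a b v w : ℕ, a < b →
      (1 : ℝ) / 3 ^ (a + 2) - 1 / 2 ^ (v + 2) ≠ 1 / 3 ^ (b + 2) - 1 / 2 ^ (w + 2) := by
    intro a b v w hab h
    obtain ⟨k, rfl⟩ := Nat.exists_eq_add_of_lt hab
    -- clear denominators
    have h1 : (2 : ℝ) ^ (v + 2) * 2 ^ (w + 2) * (3 ^ (k + 1) - 1) =
        3 ^ (a + k + 1 + 2) * (2 ^ (w + 2) - 2 ^ (v + 2)) := by
      have h3a : (3 : ℝ) ^ (a + 2) ≠ 0 := by positivity
      have h3b : (3 : ℝ) ^ (a + k + 1 + 2) ≠ 0 := by positivity
      have h2v : (2 : ℝ) ^ (v + 2) ≠ 0 := by positivity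
      have h2w : (2 : ℝ) ^ (w + 2) ≠ 0 := by positivity
      have h4 : (3 : ℝ) ^ (a + k + 1 + 2) = 3 ^ (a + 2) * 3 ^ (k + 1) := by
        rw [← pow_add]
        congr 1
        ring
      have h5 : (1 : ℝ) / 3 ^ (a + 2) - 1 / 3 ^ (a + k + 1 + 2) =
          1 / 2 ^ (v + 2) - 1 / 2 ^ (w + 2) := by linarith
      rw [h4] at h5 ⊢
      field_simp at h5
      linear_combination h5
    have h2 : (2 : ℤ) ^ (v + 2) * 2 ^ (w + 2) * (3 ^ (k + 1) - 1) =
        3 ^ (a + k + 1 + 2) * (2 ^ (w + 2) - 2 ^ (v + 2)) := by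
      exact_mod_cast h1
    have h3 : (3 : ℤ) ∣ 2 ^ (v + 2) * 2 ^ (w + 2) * (3 ^ (k + 1) - 1) := by
      rw [h2]
      exact Dvd.dvd.mul_right (dvd_pow_self 3 (by omega)) _
    have hp : Prime (3 : ℤ) := Int.prime_three
    have hnot2 : ∀ n : ℕ, ¬ (3 : ℤ) ∣ 2 ^ n := by
      intro n hn
      have := hp.dvd_of_dvd_pow hn
      omega
    rcases hp.dvd_or_dvd h3 with h4 | h4
    · rcases hp.dvd_or_dvd h4 with h5 | h5
      · exact hnot2 _ h5
      · exact hnot2 _ h5
    · have h6 : (3 : ℤ) ∣ 3 ^ (k + 1) := dvd_pow_self 3 (by omega)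
      have h7 : (3 : ℤ) ∣ 1 := by
        have := dvd_sub h6 h4
        rwa [sub_sub_cancel] at this
      omega
  rcases lt_trichotomy a b with hab | hab | hab
  · exact (main a b v w hab h).elim
  · refine ⟨hab, ?_⟩
    subst hab
    have h1 : (1 : ℝ) / 2 ^ (v + 2) = 1 / 2 ^ (w + 2) := by linarith
    have h2 : (2 : ℝ) ^ (v + 2) = 2 ^ (w + 2) := by
      have h2v : (2 : ℝ) ^ (v + 2) ≠ 0 := by positivity
      have h2w : (2 : ℝ) ^ (w + 2) ≠ 0 := by positivity
      field_simp at h1
      linarith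
    have h3 := pow_right_injective₀ (show (0 : ℝ) < 2 by norm_num) (by norm_num) h2
    omega
  · exact (main b a w v hab h.symm).elim

theorem mem_P1_iff {τ : ℝ} (ht : Transcendental ℚ τ) (e : Finset ℕ) (v : ℕ) :
    1 / 2 + 1 / 3 ^ (Encodable.encode e + 2) - 1 / 2 ^ (v + 2) ∈ P1 τ ↔ v ∈ e := by
  constructor
  · rintro (⟨e', v', hv', h⟩ | ⟨-, -, h, hh, hval⟩)
    · have h1 : (1 : ℝ) / 3 ^ (Encodable.encode e + 2) - 1 / 2 ^ (v + 2) =
          1 / 3 ^ (Encodable.encode e' + 2) - 1 / 2 ^ (v' + 2) := by linarith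
      obtain ⟨h2, h3⟩ := pow_unique h1
      rw [Encodable.encode_injective h2, h3]
      exact hv'
    · exfalso
      have h1 : h = C (1 / 2 + 1 / 3 ^ (Encodable.encode e + 2) - 1 / 2 ^ (v + 2) : ℚ) := by
        apply transcendental_iff_injective.mp ht
        rw [hval]
        simp
      have h2 : h.natDegree = 0 := by rw [h1]; exact natDegree_C _
      have := hh.1
      omega
  · intro hv
    exact Or.inl ⟨e, v, hv, rfl⟩

theorem not_totallyCoverDecomposable_P2 {τ : ℝ} (ht : Transcendental ℚ τ) :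
    ¬ TotallyCoverDecomposable.{u} (P2 τ) := by
  classical
  rintro ⟨m, hm, h⟩
  let pt : Finset ℕ → Plane := fun e => !₂[1 / 2 + 1 / 3 ^ (Encodable.encode e + 2), 0]
  let x : ULift.{u} (Fin (2 * m - 1)) → Plane := fun i => !₂[1 / 2 ^ ((i.down : ℕ) + 2), 0]
  have hmem : ∀ e i, pt e ∈ translate (P2 τ) (x i) ↔ (i.down : ℕ) ∈ e := by
    intro e i
    rw [mem_translate, ← mem_P1_iff ht e i.down]
    constructor
    · rintro ⟨h0, -⟩
      simpa [pt, x] using h0
    · intro h0
      refine ⟨?_, ?_⟩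
      · simpa [pt, x] using h0
      · simp [pt, x]
  let S : Set Plane := {s | ∃ e : Finset ℕ, e ⊆ Finset.range (2 * m - 1) ∧ e.card = m ∧ s = pt e}
  have hcov : IsFoldCovering (P2 τ) S m x := by
    rintro s ⟨e, he, hcard, rfl⟩
    have h1 : ∀ v ∈ e, v < 2 * m - 1 := fun v hv => Finset.mem_range.mp (he hv)
    let g : e → ULift.{u} (Fin (2 * m - 1)) := fun v => ⟨⟨v.1, h1 v.1 v.2⟩⟩
    have hg : Function.Injective g := by
      intro a b hab
      have : (g a).down.val = (g b).down.val := by rw [hab]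
      exact Subtype.ext this
    have h2 : Set.range g ⊆ {i | pt e ∈ translate (P2 τ) (x i)} := by
      rintro i ⟨v, rfl⟩
      simp only [Set.mem_ofPred_eq, hmem]
      exact v.2
    refine le_trans ?_ (Set.encard_le_encard h2)
    rw [← Set.image_univ, hg.encard_image, Set.encard_univ]
    simp [hcard]
  obtain ⟨c, hc⟩ := h S _ x hcov
  -- one of the colours is used at least `m` times
  let T : Bool → Finset ℕ := fun b =>
    Finset.image (fun i : Fin (2 * m - 1) => (i : ℕ))
      (Finset.univ.filter fun i : Fin (2 * m - 1) => c ⟨i⟩ = b)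
  have hT : (T true).card + (T false).card = 2 * m - 1 := by
    have h1 : ∀ b, (T b).card = (Finset.univ.filter fun i : Fin (2 * m - 1) => c ⟨i⟩ = b).card :=
      fun b => Finset.card_image_of_injective _ Fin.val_injective
    rw [h1, h1]
    have h2 := Finset.card_filter_add_card_filter_not (s := (Finset.univ : Finset (Fin (2 * m - 1))))
      (fun i => c ⟨i⟩ = true)
    simp only [Bool.not_eq_true, Finset.card_univ, Fintype.card_fin] at h2
    exact h2
  have hex : ∃ b, m ≤ (T b).card := by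
    by_contra hno
    push Not at hno
    have h1 := hno true
    have h2 := hno false
    omega
  obtain ⟨b, hb⟩ := hex
  obtain ⟨e, heT, hecard⟩ := Finset.exists_subset_card_eq hb
  have heS : pt e ∈ S := by
    refine ⟨e, ?_, hecard, rfl⟩
    intro v hv
    obtain ⟨i, -, rfl⟩ := Finset.mem_image.mp (heT hv)
    exact Finset.mem_range.mpr i.2
  obtain ⟨i, hi, his⟩ := hc (!b) (pt e) heS
  rw [hmem] at his
  obtain ⟨j, hj, hji⟩ := Finset.mem_image.mp (heT his)
  have hj' := (Finset.mem_filter.mp hj).2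
  have : (⟨j⟩ : ULift.{u} (Fin (2 * m - 1))) = i := by
    apply ULift.down_injective
    exact Fin.ext hji
  rw [this, hi] at hj'
  cases b <;> simp at hj'

theorem exists_transcendental : ∃ τ : ℝ, 0 < τ ∧ Transcendental ℚ τ := by
  by_contra hno
  push Not at hno
  have h1 : Set.Ioi (0 : ℝ) ⊆ {x : ℝ | IsAlgebraic ℚ x} := by
    intro x hx
    have := hno x hx
    rw [Transcendental, not_not] at this
    exact this
  have h2 : (Set.Ioi (0 : ℝ)).Countable := (Algebraic.countable ℚ ℝ).mono h1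
  have h3 := Cardinal.mk_Ioi_real 0
  have h4 := Cardinal.mk_le_aleph0_iff.mpr h2.to_subtype
  rw [h3] at h4
  exact absurd h4 (not_le.mpr Cardinal.aleph0_lt_continuum)

theorem exists_bounded : ∃ P : Set Plane, Bornology.IsBounded P ∧ CoverDecomposable.{u} P ∧
    ¬ TotallyCoverDecomposable.{u} P := by
  obtain ⟨τ, hτ, ht⟩ := exists_transcendental
  exact ⟨P2 τ, P2_bounded τ, coverDecomposable_P2 hτ ht, not_totallyCoverDecomposable_P2 ht⟩

end Pool.Agent.Helper27.CoverDecomp
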