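import Pool.Agent.Helper5.N2.Stmts2

set_option autoImplicit false

namespace N227
open N2

lemma norm_D'_real {f : Sm} (hf : cj f = f) (p : ℝ × ℝ) : ‖(D' f).val p‖ = ‖(D f).val p‖ := by
  have h : D' f = cj (D f) := by rw [← D'_cj, hf]
  rw [h, cj_val, RCLike.norm_conj]

lemma fd_u (f : Sm) (p : ℝ × ℝ) : fderiv ℝ f.val p (1, 0) = (D f).val p + (D' f).val p := by
  rw [D_val, D'_val]; ring

lemma fd_v (f : Sm) (p : ℝ × ℝ) :
    fderiv ℝ f.val p (0, 1) = Complex.I * ((D f).val p - (D' f).val p) := by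
  rw [D_val, D'_val]
  linear_combination (fderiv ℝ f.val p (0, 1)) * Complex.I_mul_I

lemma norm_fderiv_real {f : Sm} (hf : cj f = f) (p : ℝ × ℝ) :
    ‖fderiv ℝ f.val p‖ ≤ 4 * ‖(D f).val p‖ := by
  refine ContinuousLinearMap.opNorm_le_bound _ (by positivity) (fun v => ?_)
  have hv : v = v.1 • ((1 : ℝ), (0 : ℝ)) + v.2 • ((0 : ℝ), (1 : ℝ)) := by
    ext <;> simp
  have h1 : fderiv ℝ f.val p v
      = (v.1 : ℂ) * fderiv ℝ f.val p (1, 0) + (v.2 : ℂ) * fderiv ℝ f.val p (0, 1) := by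
    conv_lhs => rw [hv]
    rw [map_add, map_smul, map_smul]
    simp
  have h2 : ‖fderiv ℝ f.val p (1, 0)‖ ≤ 2 * ‖(D f).val p‖ := by
    rw [fd_u]
    refine (norm_add_le _ _).trans ?_
    rw [norm_D'_real hf]; linarith
  have h3 : ‖fderiv ℝ f.val p (0, 1)‖ ≤ 2 * ‖(D f).val p‖ := by
    rw [fd_v, norm_mul, Complex.norm_I, one_mul]
    refine (norm_sub_le _ _).trans ?_
    rw [norm_D'_real hf]; linarith
  have h4 : |v.1| ≤ ‖v‖ := norm_fst_le v
  have h5 : |v.2| ≤ ‖v‖ := norm_snd_le v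
  rw [h1]
  refine (norm_add_le _ _).trans ?_
  rw [norm_mul, norm_mul, Complex.norm_real, Complex.norm_real, Real.norm_eq_abs, Real.norm_eq_abs]
  have h6 : |v.1| * ‖fderiv ℝ f.val p (1, 0)‖ ≤ ‖v‖ * (2 * ‖(D f).val p‖) :=
    mul_le_mul h4 h2 (norm_nonneg _) (norm_nonneg _)
  have h7 : |v.2| * ‖fderiv ℝ f.val p (0, 1)‖ ≤ ‖v‖ * (2 * ‖(D f).val p‖) :=
    mul_le_mul h5 h3 (norm_nonneg _) (norm_nonneg _)
  linarith

/-- growth of a real function from the growth of its gradient -/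
lemma growth {x : Sm} (hx : cj x = x) {φ : ℝ × ℝ → ℝ} (hφ : ∀ p, ‖(D x).val p‖ ^ 2 ≤ φ p)
    (hs : Sub2 φ) (ε : ℝ) (hε : 0 < ε) :
    ∃ C : ℝ, 0 ≤ C ∧ ∀ p : ℝ × ℝ, ‖x.val p‖ ≤ ε * (p.1 ^ 2 + p.2 ^ 2) + C := by
  obtain ⟨C, hC⟩ := hs ((ε / 4) ^ 2) (by positivity)
  refine ⟨‖x.val 0‖ + 2 * |C| / (ε / 4), by positivity, fun p => ?_⟩
  set T : ℝ := p.1 ^ 2 + p.2 ^ 2 with hT
  have hT0 : 0 ≤ T := by positivity
  set s : ℝ := Real.sqrt ((ε / 4) ^ 2 * T + |C|) with hs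
  have hs0 : 0 ≤ s := Real.sqrt_nonneg _
  have hs2 : s ^ 2 = (ε / 4) ^ 2 * T + |C| := Real.sq_sqrt (by positivity)
  have hb : ∀ q ∈ segment ℝ (0 : ℝ × ℝ) p, ‖fderiv ℝ x.val q‖ ≤ 4 * s := by
    intro q hq
    rw [segment_eq_image] at hq
    obtain ⟨t, ⟨ht0, ht1⟩, rfl⟩ := hq
    refine (norm_fderiv_real hx _).trans ?_
    refine mul_le_mul_of_nonneg_left ?_ (by norm_num)
    refine Real.le_sqrt_of_sq_le ((hφ _).trans ((hC _).trans ?_))
    have h1 : ((1 - t) • (0 : ℝ × ℝ) + t • p).1 ^ 2 + ((1 - t) • (0 : ℝ × ℝ) + t • p).2 ^ 2 ≤ T := by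
      simp only [smul_zero, zero_add, Prod.smul_fst, Prod.smul_snd, smul_eq_mul]
      have : t ^ 2 ≤ 1 := by nlinarith
      calc (t * p.1) ^ 2 + (t * p.2) ^ 2 = t ^ 2 * T := by rw [hT]; ring
        _ ≤ 1 * T := mul_le_mul_of_nonneg_right this hT0
        _ = T := one_mul _
    have h2 : C ≤ |C| := le_abs_self C
    have h3 : (ε / 4) ^ 2 * (((1 - t) • (0 : ℝ × ℝ) + t • p).1 ^ 2 + ((1 - t) • (0 : ℝ × ℝ) + t • p).2 ^ 2)
        ≤ (ε / 4) ^ 2 * T := mul_le_mul_of_nonneg_left h1 (by positivity)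
    linarith
  have hm := Convex.norm_image_sub_le_of_norm_fderiv_le (𝕜 := ℝ) (f := x.val) (C := 4 * s)
    (s := segment ℝ (0 : ℝ × ℝ) p) (x := 0) (y := p)
    (fun q _ => (x.diff q)) hb (convex_segment _ _) (left_mem_segment _ _ _) (right_mem_segment _ _ _)
  rw [sub_zero] at hm
  have hp : ‖p‖ ^ 2 ≤ T := by
    have h1 : ‖p‖ = max |p.1| |p.2| := rfl
    rcases max_cases |p.1| |p.2| with h | h
    · rw [h1, h.1, sq_abs]; rw [hT]; nlinarith [sq_nonneg p.2]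
    · rw [h1, h.1, sq_abs]; rw [hT]; nlinarith [sq_nonneg p.1]
  have hnp : 0 ≤ ‖p‖ := norm_nonneg p
  have h8 : 4 * s * ‖p‖ ≤ ε * T + 2 * |C| / (ε / 4) := by
    have h9 : 4 * s * ‖p‖ ≤ 2 * (s ^ 2 / (ε / 4) + (ε / 4) * ‖p‖ ^ 2) := by
      have ha : 0 < ε / 4 := by positivity
      have h10 : 0 ≤ (s - (ε / 4) * ‖p‖) ^ 2 / (ε / 4) := by positivity
      have h11 : (s - (ε / 4) * ‖p‖) ^ 2 / (ε / 4)
          = s ^ 2 / (ε / 4) + (ε / 4) * ‖p‖ ^ 2 - 2 * s * ‖p‖ := by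
        field_simp; ring
      linarith
    have h12 : s ^ 2 / (ε / 4) = (ε / 4) * T + |C| / (ε / 4) := by
      rw [hs2]; field_simp
    have h13 : (ε / 4) * ‖p‖ ^ 2 ≤ (ε / 4) * T := mul_le_mul_of_nonneg_left hp (by positivity)
    have h14 : 2 * |C| / (ε / 4) = 2 * (|C| / (ε / 4)) := by ring
    rw [h12] at h9
    rw [h14]; linarith
  have h15 : ‖x.val p‖ ≤ ‖x.val p - x.val 0‖ + ‖x.val 0‖ := by
    have := norm_add_le (x.val p - x.val 0) (x.val 0)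
    rwa [sub_add_cancel] at this
  linarith

lemma comp_norm_sq_le {m : ℕ} (N : Nt Sm m) (i : Fin m) (p : ℝ × ℝ) :
    ‖(N.A i).val p‖ ^ 2 ≤ (ev p N.F).re := by
  have h := (ev p).dot_cjv N.A
  rw [N.hAB] at h
  rw [h, Complex.ofReal_re]
  exact Finset.single_le_sum (f := fun i => ‖(ev p) (N.A i)‖ ^ 2) (fun _ _ => by positivity)
    (Finset.mem_univ i)

lemma ps_norm_sq_le {m : ℕ} (N : Nt Sm m) (i : Fin m) (p : ℝ × ℝ) :
    ‖(N.ps i).val p‖ ^ 2 ≤ (ev p N.g).re := by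
  have h := (ev p).dot_cjv N.ps
  rw [N.hpr] at h
  have h2 : ev p N.g = ((∑ i, ‖(ev p) (N.ps i)‖ ^ 2 : ℝ) : ℂ) := h
  rw [h2, Complex.ofReal_re]
  exact Finset.single_le_sum (f := fun i => ‖(ev p) (N.ps i)‖ ^ 2) (fun _ _ => by positivity)
    (Finset.mem_univ i)

theorem st_B0 (hG : ST_GRAD) : ST_B0 := by
  intro m N x hx hA hF hg
  funext j
  refine Sm.ext_ev fun p => ?_
  show (D (N.Ph j)).val p = 0
  set h : Sm := x j - N.ps j with hh
  have hDh : D h = N.Ph j := by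
    have h1 : D (x j) = N.A j := congrFun hA j
    rw [hh, D_sub, h1]; rfl
  have hD'Ph : D' (N.Ph j) = 0 := congrFun N.hPhi j
  -- growth of h
  have hgr : ∀ ε : ℝ, 0 < ε → ∃ C : ℝ, 0 ≤ C ∧ ∀ p : ℝ × ℝ, ‖h.val p‖ ≤ ε * (p.1 ^ 2 + p.2 ^ 2) + C := by
    intro ε hε
    obtain ⟨C1, hC10, hC1⟩ := growth (x := x j) (congrFun hx j) (φ := fun p => (ev p N.F).re)
      (fun q => by
        have h1 : D (x j) = N.A j := congrFun hA j
        rw [h1]; exact comp_norm_sq_le N j q) hF (ε / 2) (by positivity)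
    obtain ⟨C2, hC2⟩ := hg (ε / 2) (by positivity)
    refine ⟨C1 + |C2|, by positivity, fun q => ?_⟩
    have h2 : ‖(N.ps j).val q‖ ≤ ε / 2 * (q.1 ^ 2 + q.2 ^ 2) + C2 :=
      (Real.le_sqrt_of_sq_le (ps_norm_sq_le N j q)).trans (hC2 q)
    have h3 := hC1 q
    have h4 : ‖h.val q‖ ≤ ‖(x j).val q‖ + ‖(N.ps j).val q‖ := by
      rw [hh, sub_val]; exact norm_sub_le _ _
    have h5 := le_abs_self C2
    linarith
  -- the bound
  have key : ∀ ε : ℝ, 0 < ε → ‖(D (N.Ph j)).val p‖ ≤ 1216 * ε := by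
    intro ε hε
    obtain ⟨C, hC0, hC⟩ := hgr ε hε
    set d : ℝ := ‖p‖ + C / ε + 1 with hd
    have hd1 : 1 ≤ d := by
      have : 0 ≤ ‖p‖ + C / ε := by positivity
      linarith
    have hd0 : 0 < d := by linarith
    have hpd : ‖p‖ ≤ d := by
      have : 0 ≤ C / ε := by positivity
      linarith
    have hCd : C ≤ ε * d ^ 2 := by
      have h1 : C / ε ≤ d := by
        have : 0 ≤ ‖p‖ := norm_nonneg _
        linarith
      have h2 : C ≤ ε * d := by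
        rw [div_le_iff₀ hε] at h1; linarith
      have h3 : ε * d ≤ ε * d ^ 2 := mul_le_mul_of_nonneg_left (by nlinarith) hε.le
      linarith
    have hp1 : |p.1| ≤ d := (norm_fst_le p).trans hpd
    have hp2 : |p.2| ≤ d := (norm_snd_le p).trans hpd
    have hM : ∀ r : ℝ × ℝ, |r.1 - p.1| ≤ 2 * d → |r.2 - p.2| ≤ 2 * d → ‖ev r h‖ ≤ 19 * ε * d ^ 2 := by
      intro r h1 h2
      have h3 : |r.1| ≤ 3 * d := by
        have := abs_add_le (r.1 - p.1) p.1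
        rw [sub_add_cancel] at this; linarith
      have h4 : |r.2| ≤ 3 * d := by
        have := abs_add_le (r.2 - p.2) p.2
        rw [sub_add_cancel] at this; linarith
      have h5 : r.1 ^ 2 ≤ (3 * d) ^ 2 := by rw [← sq_abs]; exact pow_le_pow_left₀ (abs_nonneg _) h3 2
      have h6 : r.2 ^ 2 ≤ (3 * d) ^ 2 := by rw [← sq_abs]; exact pow_le_pow_left₀ (abs_nonneg _) h4 2
      have h7 := hC r
      have h8 : ε * (r.1 ^ 2 + r.2 ^ 2) ≤ ε * ((3 * d) ^ 2 + (3 * d) ^ 2) :=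
        mul_le_mul_of_nonneg_left (add_le_add h5 h6) hε.le
      rw [ev_val]
      nlinarith
    have h1 : ∀ q : ℝ × ℝ, |q.1 - p.1| ≤ d → |q.2 - p.2| ≤ d → ‖ev q (N.Ph j)‖ ≤ 152 * ε * d := by
      intro q hq1 hq2
      have hb := hG h q d (19 * ε * d ^ 2) 0 hd0
        (fun r hr1 hr2 => hM r (by
            have := abs_add_le (r.1 - q.1) (q.1 - p.1)
            rw [sub_add_sub_cancel] at this; linarith) (by
            have := abs_add_le (r.2 - q.2) (q.2 - p.2)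
            rw [sub_add_sub_cancel] at this; linarith))
        (fun r _ _ => by rw [hDh, hD'Ph]; simp)
      rw [hDh] at hb
      refine hb.trans (le_of_eq ?_)
      field_simp; ring
    have h2 := hG (N.Ph j) p d (152 * ε * d) 0 hd0 h1
      (fun r _ _ => by rw [← D_comm, hD'Ph, D_zero]; simp)
    refine h2.trans (le_of_eq ?_)
    field_simp; ring
  have h0 : ‖(D (N.Ph j)).val p‖ ≤ 0 := by
    refine le_of_forall_pos_le_add fun ε hε => ?_
    have := key (ε / 1216) (by positivity)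
    have h2 : 1216 * (ε / 1216) = ε := by field_simp
    rw [h2] at this; linarith
  exact norm_le_zero_iff.1 h0

end N227
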