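import Pool.Agent.Helper5.N2.Stmts2

set_option autoImplicit false
open scoped ContDiff

namespace N227
open N2

/-- the square root of a positive real smooth function -/
lemma exists_sqrt (r : Sm) (hr : cj r = r) (hpos : ∀ p, 0 < (ev p r).re) :
    ∃ f : Sm, cj f = f ∧ f * f = r ∧ ∀ p, f.val p = ((Real.sqrt (ev p r).re : ℝ) : ℂ) := by
  have hre : ContDiff ℝ ∞ (fun p => (r.val p).re) :=
    (Complex.reCLM.contDiff).comp r.contDiff
  have hs : ContDiff ℝ ∞ (fun p => Real.sqrt (r.val p).re) :=
    hre.sqrt (fun p => (hpos p).ne')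
  have hc : ContDiff ℝ ∞ (fun p => ((Real.sqrt (r.val p).re : ℝ) : ℂ)) :=
    (Complex.ofRealCLM.contDiff).comp hs
  refine ⟨Sm.mk _ hc, ?_, ?_, fun p => rfl⟩
  · refine Sm.ext fun p => ?_
    rw [cj_val, mk_val, Complex.conj_ofReal]
  · refine Sm.ext fun p => ?_
    have hp : 0 ≤ (r.val p).re := (hpos p).le
    rw [mul_val, mk_val, ← Complex.ofReal_mul, Real.mul_self_sqrt hp]
    have h1 : (starRingEnd ℂ) (r.val p) = r.val p := by
      have := congrArg (fun f : Sm => f.val p) hr
      simpa using this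
    exact (Complex.conj_eq_iff_re.1 h1)

lemma real_of_cj {f : Sm} (hf : cj f = f) (p : ℝ × ℝ) : (((f.val p).re : ℝ) : ℂ) = f.val p := by
  have h1 : (starRingEnd ℂ) (f.val p) = f.val p := by
    have := congrArg (fun f : Sm => f.val p) hf
    simpa using this
  exact (Complex.conj_eq_iff_re.1 h1)

theorem st_EXH2 (h1 : ST_G1) (_h3 : ST_G3) (hE : ST_EXH) : ST_EXH2 := by
  intro m N x hx hA hor
  have hF0 : ∀ p, 0 ≤ (ev p N.F).re := by
    intro p
    have h := (ev p).dot_cjv N.A
    rw [N.hAB] at h
    rw [h, Complex.ofReal_re]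
    positivity
  rcases hor with ⟨c0, hc0, hc⟩ | hcpt
  · obtain ⟨f, hf, hfl, hf0, hfc, hf1, hf2⟩ := hE
    have hb : ∀ p : ℝ × ℝ, 1 / (1 + (p.1 ^ 2 + p.2 ^ 2)) ≤ (1 / c0) * (ev p N.F).re := by
      intro p
      have h := hc p
      have h2 : c0 / (1 + (p.1 ^ 2 + p.2 ^ 2)) = c0 * (1 / (1 + (p.1 ^ 2 + p.2 ^ 2))) := by ring
      rw [h2] at h
      rw [one_div c0, inv_mul_eq_div, le_div_iff₀ hc0]; linarith
    refine ⟨f, 1 / c0, by positivity, hf, hf0, hfc, fun p => (hf1 p).trans (hb p), fun p => ?_⟩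
    refine (hf2 p).trans ((hb p).trans ?_)
    have h5 : 0 ≤ (1 / c0) * (ev p N.F).re := mul_nonneg (by positivity) (hF0 p)
    have h6 : 0 ≤ Real.sqrt (ev p N.g).re := Real.sqrt_nonneg _
    nlinarith
  · -- proper case
    set r : Sm := 1 + dot x x with hr
    have hrr : cj r = r := by rw [hr, map_add, map_one, cj_dot, hx]
    have hxre : ∀ i p, (((x i).val p).re : ℂ) = (x i).val p := fun i p => real_of_cj (congrFun hx i) p
    have hrv : ∀ p, (ev p r).re = 1 + ∑ i, (ev p (x i)).re ^ 2 := by
      intro p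
      have h : ev p (dot x x) = ((∑ i, (ev p (x i)).re ^ 2 : ℝ) : ℂ) := by
        rw [Ev.dot]
        rw [Complex.ofReal_sum]
        refine Finset.sum_congr rfl fun i _ => ?_
        rw [Complex.ofReal_pow, ev_val, hxre i p]; ring
      rw [hr, map_add, map_one, h, Complex.add_re, Complex.one_re, Complex.ofReal_re]
    have hrpos : ∀ p, 0 < (ev p r).re := by
      intro p; rw [hrv p]; positivity
    obtain ⟨f, hf, hff, hfv⟩ := exists_sqrt r hrr hrpos
    -- derivatives
    have hB : Dv' x = N.B := by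
      have := Dv'_cjv x
      rw [hx, hA] at this; exact this
    have hDr : f * D f = dot N.A x := by
      have h := congrArg D hff
      rw [D_mul, hr, D_add, D_one, D_dot, hA, dot_comm x N.A, mul_comm (D f) f] at h
      have h2 : (Cst (2 : ℂ) : Sm) * (f * D f) = Cst 2 * dot N.A x := by
        rw [map_ofNat]; linear_combination h
      exact Cst_mul_cancel two_ne_zero h2
    have hD'r : D' f * D f + f * D' (D f) = N.F - (N.K * N.F) * dot N.ps x := by
      have h := congrArg D' hDr
      rw [D'_mul, D'_dot, hB, (h1 Sm m N).2.2.2.2.2.2.2.2.1, smul_dot, (h1 Sm m N).2.2.2.2.2.2.2.2.2.2.1] at h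
      rw [h]; ring
    have hfpos : ∀ p, 1 ≤ (f.val p).re := by
      intro p
      rw [hfv p, Complex.ofReal_re, Real.one_le_sqrt, hrv p]
      have : 0 ≤ ∑ i, (ev p (x i)).re ^ 2 := by positivity
      linarith
    have hfre : ∀ p, (((f.val p).re : ℝ) : ℂ) = f.val p := real_of_cj hf
    have hfsq : ∀ p, (f.val p).re ^ 2 = 1 + ∑ i, (ev p (x i)).re ^ 2 := by
      intro p
      rw [hfv p, Complex.ofReal_re, Real.sq_sqrt (hrpos p).le, hrv p]
    have hFs : ∀ p, (ev p N.F).re = ∑ i, ‖(N.A i).val p‖ ^ 2 := by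
      intro p
      have h := (ev p).dot_cjv N.A
      rw [N.hAB] at h
      rw [h, Complex.ofReal_re]; rfl
    have hgs : ∀ p, (ev p N.g).re = ∑ i, ‖(N.ps i).val p‖ ^ 2 := by
      intro p
      have h := (ev p).dot_cjv N.ps
      rw [N.hpr] at h
      have h2 : ev p N.g = ((∑ i, ‖(ev p) (N.ps i)‖ ^ 2 : ℝ) : ℂ) := h
      rw [h2, Complex.ofReal_re]; rfl
    -- Cauchy-Schwarz
    have hCS : ∀ (a : Fin m → Sm) (p : ℝ × ℝ), ‖(dot a x).val p‖ ^ 2
        ≤ (∑ i, ‖(a i).val p‖ ^ 2) * ((f.val p).re ^ 2 - 1) := by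
      intro a p
      have e1 : (dot a x).val p = ∑ i, (a i).val p * (x i).val p := (ev p).dot a x
      have e2 : ‖(dot a x).val p‖ ≤ ∑ i, ‖(a i).val p‖ * ‖(x i).val p‖ := by
        rw [e1]
        refine (norm_sum_le _ _).trans (le_of_eq ?_)
        exact Finset.sum_congr rfl fun i _ => norm_mul _ _
      have e3 := Finset.sum_mul_sq_le_sq_mul_sq Finset.univ (fun i => ‖(a i).val p‖)
        (fun i => ‖(x i).val p‖)
      have e4 : ∑ i, ‖(x i).val p‖ ^ 2 = (f.val p).re ^ 2 - 1 := by
        rw [hfsq p, add_sub_cancel_left]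
        refine Finset.sum_congr rfl fun i _ => ?_
        rw [← hxre i p, Complex.norm_real, Real.norm_eq_abs, sq_abs]
        rfl
      rw [e4] at e3
      exact (pow_le_pow_left₀ (norm_nonneg _) e2 2).trans e3
    have hnf : ∀ p, ‖f.val p‖ = (f.val p).re := by
      intro p
      have h0 : 0 ≤ (f.val p).re := by linarith [hfpos p]
      conv_lhs => rw [← hfre p]
      rw [Complex.norm_real, Real.norm_eq_abs, abs_of_nonneg h0]
    have hcpt' : ∀ R : ℝ, IsCompact {p | (ev p f).re ≤ R} := by
      intro R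
      by_cases hR : 0 ≤ R
      · convert hcpt (R ^ 2 - 1) using 1
        ext p
        simp only [Set.mem_ofPred_eq]
        have h2 := hfsq p
        have h4 := hfpos p
        change (f.val p).re ≤ R ↔ _
        constructor
        · intro h5
          have : (f.val p).re ^ 2 ≤ R ^ 2 := pow_le_pow_left₀ (by linarith) h5 2
          linarith
        · intro h5
          have : (f.val p).re ^ 2 ≤ R ^ 2 := by linarith
          exact (pow_le_pow_iff_left₀ (by linarith) hR two_ne_zero).1 this
      · have : {p | (ev p f).re ≤ R} = ∅ := by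
          ext p
          simp only [Set.mem_ofPred_eq, Set.mem_empty_iff_false, iff_false, not_le]
          have h4 := hfpos p
          change R < (f.val p).re
          linarith
        rw [this]; exact isCompact_empty
    refine ⟨f, 1 + |N.k|, by positivity, hf, fun p => ?_, hcpt', fun p => ?_, fun p => ?_⟩
    · have := hfpos p
      change 0 ≤ (f.val p).re
      linarith
    · -- gradient
      have e1 : ‖f.val p‖ * ‖(D f).val p‖ = ‖(dot N.A x).val p‖ := by
        rw [← norm_mul, ← mul_val, hDr]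
      have e2 := hCS N.A p
      rw [← hFs p, ← e1, hnf p, mul_pow] at e2
      have e3 := hF0 p
      have e4 := hfpos p
      have e5 : 0 < (f.val p).re ^ 2 := by positivity
      have e6 : (f.val p).re ^ 2 * ‖(D f).val p‖ ^ 2 ≤ (f.val p).re ^ 2 * (ev p N.F).re := by
        refine e2.trans ?_
        nlinarith
      have e7 : ‖(D f).val p‖ ^ 2 ≤ (ev p N.F).re := le_of_mul_le_mul_left e6 e5
      have e8 : 0 ≤ |N.k| * (ev p N.F).re := mul_nonneg (abs_nonneg _) e3
      change ‖(D f).val p‖ ^ 2 ≤ _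
      linarith
    · -- Laplacian
      have e1 : (D' f).val p * (D f).val p + f.val p * (D' (D f)).val p
          = N.F.val p - (N.K * N.F).val p * (dot N.ps x).val p := by
        have := congrArg (fun u : Sm => u.val p) hD'r
        simpa only [add_val, mul_val, sub_val] using this
      have e2 : ((D' f).val p * (D f).val p).re = ‖(D f).val p‖ ^ 2 := by
        have h : D' f = cj (D f) := by rw [← D'_cj, hf]
        rw [h, cj_val, mul_comm, Complex.mul_conj, Complex.ofReal_re, Complex.normSq_eq_norm_sq]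
      have e3 : (f.val p * (D' (D f)).val p).re = (f.val p).re * ((D' (D f)).val p).re := by
        conv_lhs => rw [← hfre p]
        rw [Complex.re_ofReal_mul]
      have e4 : (N.K * N.F).val p = ((N.k : ℝ) : ℂ) * N.F.val p := rfl
      have eF : N.F.val p = (((ev p N.F).re : ℝ) : ℂ) := (real_of_cj N.hFr p).symm
      have e5 : ((N.K * N.F).val p * (dot N.ps x).val p).re
          = N.k * (ev p N.F).re * ((dot N.ps x).val p).re := by
        rw [e4, eF, ← Complex.ofReal_mul, Complex.re_ofReal_mul]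
      have e6 := congrArg Complex.re e1
      rw [Complex.add_re, Complex.sub_re, e2, e3, e5] at e6
      have e7 := hCS N.ps p
      rw [← hgs p] at e7
      have e8 := hfpos p
      have e9 : ‖(dot N.ps x).val p‖ ≤ Real.sqrt (ev p N.g).re * (f.val p).re := by
        have hg0 : 0 ≤ (ev p N.g).re := by rw [hgs p]; positivity
        have h9 : ‖(dot N.ps x).val p‖ ^ 2 ≤ (Real.sqrt (ev p N.g).re * (f.val p).re) ^ 2 := by
          rw [mul_pow, Real.sq_sqrt hg0]
          refine e7.trans ?_
          nlinarith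
        exact (pow_le_pow_iff_left₀ (norm_nonneg _)
          (mul_nonneg (Real.sqrt_nonneg _) (by linarith)) two_ne_zero).1 h9
      have e10 : -(N.k * (ev p N.F).re * ((dot N.ps x).val p).re)
          ≤ |N.k| * (ev p N.F).re * (Real.sqrt (ev p N.g).re * (f.val p).re) := by
        refine (neg_le_abs _).trans ?_
        rw [abs_mul, abs_mul, abs_of_nonneg (hF0 p)]
        refine mul_le_mul_of_nonneg_left ((Complex.abs_re_le_norm _).trans e9) ?_
        exact mul_nonneg (abs_nonneg _) (hF0 p)
      have e11 : (f.val p).re * ((D' (D f)).val p).re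
          ≤ (f.val p).re * ((ev p N.F).re * (1 + |N.k| * Real.sqrt (ev p N.g).re)) := by
        have e12 : (N.F.val p).re = (ev p N.F).re := rfl
        rw [e12] at e6
        have e13 : 0 ≤ ‖(D f).val p‖ ^ 2 := by positivity
        have e14 : (ev p N.F).re ≤ (f.val p).re * (ev p N.F).re := by
          nlinarith [hF0 p]
        nlinarith
      have e15 : ((D' (D f)).val p).re ≤ (ev p N.F).re * (1 + |N.k| * Real.sqrt (ev p N.g).re) :=
        le_of_mul_le_mul_left e11 (by linarith)
      change ((D' (D f)).val p).re ≤ _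
      refine e15.trans ?_
      have e16 : 0 ≤ Real.sqrt (ev p N.g).re := Real.sqrt_nonneg _
      have e17 : 1 + |N.k| * Real.sqrt (ev p N.g).re ≤ (1 + |N.k|) * (1 + Real.sqrt (ev p N.g).re) := by
        nlinarith [abs_nonneg N.k]
      calc (ev p N.F).re * (1 + |N.k| * Real.sqrt (ev p N.g).re)
          ≤ (ev p N.F).re * ((1 + |N.k|) * (1 + Real.sqrt (ev p N.g).re)) :=
            mul_le_mul_of_nonneg_left e17 (hF0 p)
        _ = (1 + |N.k|) * (ev p N.F).re * (1 + Real.sqrt (ev p N.g).re) := by ring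

end N227
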