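import Pool.Agent.Helper5.N2.Stmts2

set_option autoImplicit false
open scoped ContDiff

namespace N227
open N2

lemma Sub2.of_bdd {φ : ℝ × ℝ → ℝ} {M : ℝ} (h : ∀ p, φ p ≤ M) : Sub2 φ := by
  intro ε hε
  refine ⟨M, fun p => ?_⟩
  have : 0 ≤ ε * (p.1 ^ 2 + p.2 ^ 2) := by positivity
  linarith [h p]

lemma Sub2.mul {φ : ℝ × ℝ → ℝ} (h : Sub2 φ) {c : ℝ} (hc : 0 < c) : Sub2 (fun p => c * φ p) := by
  intro ε hε
  obtain ⟨C, hC⟩ := h (ε / c) (by positivity)
  refine ⟨c * C, fun p => ?_⟩
  have h1 := mul_le_mul_of_nonneg_left (hC p) hc.le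
  have h2 : c * (ε / c * (p.1 ^ 2 + p.2 ^ 2) + C) = ε * (p.1 ^ 2 + p.2 ^ 2) + c * C := by
    field_simp
  rw [h2] at h1; exact h1

theorem st_THB (hCONV : ST_CONV) (hB0 : ST_B0) (hASM : ST_ASM) (hPER : ST_PER) (hEXH2 : ST_EXH2)
    (hA1 : ST_A1) (hA6 : ST_A6) : ST_THB := by
  intro f g11 g12 g22 dt Lap hImm c hc hL hor
  obtain ⟨N, x, hk, hps, hF, hx, hxr, hxA, hg⟩ := hCONV 4 f g11 g12 g22 dt Lap hImm c hc hL
  have hFre : ∀ p, (ev p N.F).re = g11 p / 2 := by
    intro p; rw [ev_val, hF p, Complex.ofReal_re]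
  have hsq : ∀ p, Real.sqrt (ev p N.g).re = ‖Lap f p‖ / |c| := by
    intro p
    rw [hg p, Real.sqrt_div (by positivity), Real.sqrt_sq (norm_nonneg _), Real.sqrt_sq_eq_abs]
  have hc' : 0 < |c| := abs_pos.2 hc
  -- it is enough to prove `P5`
  have fin : N.P5 → ∃ k : ℝ, ∀ p, ‖Lap f p‖ = k := by
    intro h5
    have hcon := hASM N h5
    refine ⟨‖Lap f 0‖, fun p => ?_⟩
    have h1 := hsq p
    have h2 := hsq 0
    rw [hcon p 0, h2] at h1
    rw [div_left_inj' hc'.ne'] at h1
    exact h1.symm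
  -- alternative 2 (a) is enough
  have alt : Sub2 g11 → Sub2 (fun p => Real.sqrt (ev p N.g).re) → ∃ k : ℝ, ∀ p, ‖Lap f p‖ = k := by
    intro h1 h2
    refine fin (hB0 4 N x hxr hxA ?_ h2)
    have h3 := Sub2.mul h1 (c := 1 / 2) (by norm_num)
    have h4 : (fun p => (ev p N.F).re) = fun p => 1 / 2 * g11 p := by
      funext p; rw [hFre p]; ring
    rw [h4]; exact h3
  have altL : Sub2 (fun p => ‖Lap f p‖) → Sub2 (fun p => Real.sqrt (ev p N.g).re) := by
    intro h
    have h3 := Sub2.mul h (c := 1 / |c|) (by positivity)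
    have h4 : (fun p => Real.sqrt (ev p N.g).re) = fun p => 1 / |c| * ‖Lap f p‖ := by
      funext p; rw [hsq p]; ring
    rw [h4]; exact h3
  have altE : Exh N → Sub2 (fun p => Real.sqrt (ev p N.g).re) := by
    intro hE
    rcases lt_or_gt_of_ne N.hk with hneg | hpos
    · have h := hA6 4 N hneg hE
      refine Sub2.of_bdd (M := 0) fun p => ?_
      rw [h p]; simp
    · have h := hA1 4 N hpos hE
      refine Sub2.of_bdd (M := Real.sqrt (1 / N.k)) fun p => ?_
      exact Real.sqrt_le_sqrt (h p)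
  rcases hor with ⟨T, v, hT⟩ | ⟨h11, h2⟩ | ⟨ω1, ω2, hω, hp1, hp2, hq1, hq2⟩
  · -- affine harmonic part
    refine fin ?_
    funext j
    refine Sm.ext_ev fun p => ?_
    show (D (N.Ph j)).val p = 0
    set h : Sm := x j - N.ps j with hh
    have hDh : D h = N.Ph j := by
      have h1 : D (x j) = N.A j := congrFun hxA j
      rw [hh, D_sub, h1]; rfl
    have hv : ∀ q, h.val q = (((T q + v) j : ℝ) : ℂ) := by
      intro q
      rw [hh, sub_val, hx j q, hps j q, ← Complex.ofReal_sub]
      congr 1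
      have := congrArg (fun w : EuclideanSpace ℝ (Fin 4) => w j) (hT q)
      simpa using this
    -- the derivative is constant
    have hd : ∀ (e q : ℝ × ℝ), fderiv ℝ h.val q e = (((T e) j : ℝ) : ℂ) := by
      intro e q
      let L : ℝ × ℝ →L[ℝ] ℂ :=
        Complex.ofRealCLM.comp ((EuclideanSpace.proj j : EuclideanSpace ℝ (Fin 4) →L[ℝ] ℝ).comp T)
      have h1 : h.val = fun q => L q + ((v j : ℝ) : ℂ) := by
        funext q
        rw [hv q]
        simp [L]
      rw [h1, fderiv_add_const, L.fderiv]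
      simp [L]
    have hDc : ∀ q, (D h).val q = (D h).val 0 := by
      intro q
      rw [D_val, D_val, hd, hd, hd, hd]
    have hDc2 : D h = Cst ((D h).val 0) := Sm.ext fun q => by rw [hDc q, Cst_val]
    rw [← hDh, hDc2, D_Cst]; rfl
  · rcases h2 with h2 | ⟨c0, hc0, h2⟩ | h2
    · exact alt h11 (altL h2)
    · refine alt h11 (altE (hEXH2 4 N x hxr hxA (Or.inl ⟨c0 / 2, by positivity, fun p => ?_⟩)))
      rw [hFre p]
      have := h2 p
      have h3 : c0 / 2 / (1 + (p.1 ^ 2 + p.2 ^ 2)) = (c0 / (1 + (p.1 ^ 2 + p.2 ^ 2))) / 2 := by ring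
      rw [h3]; linarith
    · refine alt h11 (altE (hEXH2 4 N x hxr hxA (Or.inr fun R => ?_)))
      have hn : ∀ p, ∑ i, (ev p (x i)).re ^ 2 = ‖f p‖ ^ 2 := by
        intro p
        rw [EuclideanSpace.norm_sq_eq]
        refine Finset.sum_congr rfl fun i _ => ?_
        rw [ev_val, hx i p, Complex.ofReal_re, Real.norm_eq_abs, sq_abs]
      by_cases hR : 0 ≤ R
      · convert h2 (Real.sqrt R) using 1
        ext p
        simp only [Set.mem_ofPred_eq]
        rw [hn p]
        exact (Real.le_sqrt (norm_nonneg _) hR).symm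
      · have : {p | ∑ i, (ev p (x i)).re ^ 2 ≤ R} = ∅ := by
          ext p
          simp only [Set.mem_ofPred_eq, Set.mem_empty_iff_false, iff_false, not_le]
          have : 0 ≤ ∑ i, (ev p (x i)).re ^ 2 := by positivity
          linarith
        rw [this]; exact isCompact_empty
  · have hc11 : Continuous g11 := by
      have h1 : g11 = fun p => 2 * (N.F.val p).re := by
        funext p
        have := hFre p
        rw [ev_val] at this
        rw [this]; ring
      rw [h1]
      exact continuous_const.mul (Complex.continuous_re.comp N.F.contDiff.continuous)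
    have hcL : Continuous (fun p => ‖Lap f p‖) := by
      have h1 : (fun p => ‖Lap f p‖) = fun p => |c| * Real.sqrt (N.g.val p).re := by
        funext p
        have := hsq p
        rw [ev_val] at this
        rw [this]; field_simp
      rw [h1]
      exact continuous_const.mul
        (Real.continuous_sqrt.comp (Complex.continuous_re.comp N.g.contDiff.continuous))
    obtain ⟨M1, hM1⟩ := hPER g11 ω1 ω2 hc11 hω hp1 hp2
    obtain ⟨M2, hM2⟩ := hPER _ ω1 ω2 hcL hω hq1 hq2
    exact alt (Sub2.of_bdd hM1) (altL (Sub2.of_bdd hM2))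

end N227
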