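import Pool.Agent.Helper34.PN.AVG

namespace Pool.Agent.Helper34.PN

open Finset


theorem cell_card_pos {Ω α : Type} [Fintype Ω] (s : Ω → α → Fin 3) (S : Finset α) (ω : Ω) :
    (0 : ℝ) < ((cls s S ω).card : ℝ) := by
  have : ω ∈ cls s S ω := by simp [cls]
  exact_mod_cast Finset.card_pos.mpr ⟨ω, this⟩

theorem cell_sum_avg {Ω α : Type} [Fintype Ω] (s : Ω → α → Fin 3) (S : Finset α) (φ : Ω → ℝ) :
    ∑ ω : Ω, avg s S φ ω = ∑ ω : Ω, φ ω := by
  have h := avg_orth s S φ (fun _ => 1) (fun _ _ _ => rfl)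
  simpa using h

theorem cell_ind {Ω α : Type} [Fintype Ω] [DecidableEq α]
    (s : Ω → α → Fin 3) (W e : Finset α) (ω0 : Ω) (b : α → Fin 3) (δ : ℝ) (hδ : 0 < δ)
    (hI : ∀ x ∈ e, ∑ ω ∈ cls s W ω0, (avg s (W ∪ e.erase x) (ind s x (b x)) ω
        - avg s W (ind s x (b x)) ω0) ^ 2 ≤ ((cls s W ω0).card : ℝ) * δ ^ 2)
    (hp0 : ∀ x ∈ e, 0 ≤ avg s W (ind s x (b x)) ω0)
    (hp1 : ∀ x ∈ e, avg s W (ind s x (b x)) ω0 ≤ 1)
    (T : Finset α) : T ⊆ e →
    ((cls s W ω0).card : ℝ) * (∏ x ∈ T, avg s W (ind s x (b x)) ω0 - (T.card : ℝ) * δ) ≤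
      (((cls s W ω0).filter (fun ω => ∀ x ∈ T, s ω x = b x)).card : ℝ) := by
  classical
  induction T using Finset.induction_on with
  | empty =>
    intro _
    simp
  | insert x T hxT ih =>
    intro hT
    have hxe : x ∈ e := hT (Finset.mem_insert_self x T)
    have hTe : T ⊆ e := fun y hy => hT (Finset.mem_insert_of_mem hy)
    have ih' := ih hTe
    set C := cls s W ω0 with hC
    set p : ℝ := avg s W (ind s x (b x)) ω0 with hp
    set F := C.filter (fun ω => ∀ y ∈ T, s ω y = b y) with hF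
    have horth := avg_orth s (W ∪ e.erase x) (ind s x (b x))
      (fun ω => if ω ∈ F then (1 : ℝ) else 0) (by
        intro ω ω' h
        have hiff : ω' ∈ F ↔ ω ∈ F := by
          rw [hF, Finset.mem_filter, Finset.mem_filter, hC, cls, Finset.mem_filter,
            Finset.mem_filter]
          have hW : ∀ y ∈ W, s ω' y = s ω y := fun y hy => h y (Finset.mem_union_left _ hy)
          have hT' : ∀ y ∈ T, s ω' y = s ω y := fun y hy =>
            h y (Finset.mem_union_right _ (Finset.mem_erase.mpr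
              ⟨fun hh => hxT (hh ▸ hy), hTe hy⟩))
          constructor
          · rintro ⟨⟨_, h1⟩, h2⟩
            exact ⟨⟨Finset.mem_univ _, fun y hy => (hW y hy).symm.trans (h1 y hy)⟩,
              fun y hy => (hT' y hy).symm.trans (h2 y hy)⟩
          · rintro ⟨⟨_, h1⟩, h2⟩
            exact ⟨⟨Finset.mem_univ _, fun y hy => (hW y hy).trans (h1 y hy)⟩,
              fun y hy => (hT' y hy).trans (h2 y hy)⟩
        by_cases hm : ω ∈ F
        · simp only [hiff, hm]
        · simp only [hiff, hm])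
    have hL : ∑ ω : Ω, avg s (W ∪ e.erase x) (ind s x (b x)) ω *
        (if ω ∈ F then (1 : ℝ) else 0) = ∑ ω ∈ F, avg s (W ∪ e.erase x) (ind s x (b x)) ω := by
      rw [← Finset.sum_filter_add_sum_filter_not Finset.univ (fun ω => ω ∈ F)]
      have h0 : ∑ ω ∈ Finset.univ.filter (fun ω => ¬ ω ∈ F),
          avg s (W ∪ e.erase x) (ind s x (b x)) ω * (if ω ∈ F then (1 : ℝ) else 0) = 0 := by
        apply Finset.sum_eq_zero
        intro ω hω
        rw [Finset.mem_filter] at hω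
        rw [if_neg hω.2, mul_zero]
      rw [h0, add_zero]
      have h1 : Finset.univ.filter (fun ω => ω ∈ F) = F := by
        ext ω
        simp
      rw [h1]
      apply Finset.sum_congr rfl
      intro ω hω
      rw [if_pos hω, mul_one]
    have hR : ∑ ω : Ω, ind s x (b x) ω * (if ω ∈ F then (1 : ℝ) else 0)
        = ((C.filter (fun ω => ∀ y ∈ insert x T, s ω y = b y)).card : ℝ) := by
      have h1 : ∀ ω : Ω, ind s x (b x) ω * (if ω ∈ F then (1 : ℝ) else 0)
          = if ω ∈ C.filter (fun ω => ∀ y ∈ insert x T, s ω y = b y) then (1 : ℝ) else 0 := by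
        intro ω
        unfold ind
        by_cases hs : s ω x = b x
        · rw [if_pos hs, one_mul]
          have : ω ∈ F ↔ ω ∈ C.filter (fun ω => ∀ y ∈ insert x T, s ω y = b y) := by
            rw [hF, Finset.mem_filter, Finset.mem_filter]
            constructor
            · rintro ⟨h1, h2⟩
              refine ⟨h1, fun y hy => ?_⟩
              rcases Finset.mem_insert.mp hy with rfl | hy
              · exact hs
              · exact h2 y hy
            · rintro ⟨h1, h2⟩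
              exact ⟨h1, fun y hy => h2 y (Finset.mem_insert_of_mem hy)⟩
          simp only [this]
        · rw [if_neg hs, zero_mul, if_neg]
          rw [Finset.mem_filter]
          rintro ⟨_, h2⟩
          exact hs (h2 x (Finset.mem_insert_self x T))
      rw [Finset.sum_congr rfl (fun ω _ => h1 ω)]
      rw [Finset.sum_ite_mem, Finset.univ_inter, Finset.sum_const, nsmul_eq_mul, mul_one]
    rw [hL, hR] at horth
    -- bound of the error
    have hFC : F ⊆ C := Finset.filter_subset _ _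
    have herr : ∑ ω ∈ C, |avg s (W ∪ e.erase x) (ind s x (b x)) ω - p| ≤ (C.card : ℝ) * δ := by
      have h1 : ∑ ω ∈ C, (2 * δ * |avg s (W ∪ e.erase x) (ind s x (b x)) ω - p|)
          ≤ ∑ ω ∈ C, ((avg s (W ∪ e.erase x) (ind s x (b x)) ω - p) ^ 2 + δ ^ 2) := by
        apply Finset.sum_le_sum
        intro ω _
        have h2 := sq_abs (avg s (W ∪ e.erase x) (ind s x (b x)) ω - p)
        nlinarith [sq_nonneg (|avg s (W ∪ e.erase x) (ind s x (b x)) ω - p| - δ)]
      rw [Finset.sum_add_distrib, ← Finset.mul_sum, Finset.sum_const, nsmul_eq_mul] at h1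
      have h2 := hI x hxe
      have h3 : 2 * δ * ∑ ω ∈ C, |avg s (W ∪ e.erase x) (ind s x (b x)) ω - p|
          ≤ 2 * δ * ((C.card : ℝ) * δ) := by
        linarith
      exact le_of_mul_le_mul_left h3 (by linarith)
    have hlow : p * (F.card : ℝ) - (C.card : ℝ) * δ
        ≤ ∑ ω ∈ F, avg s (W ∪ e.erase x) (ind s x (b x)) ω := by
      have h1 : ∑ ω ∈ F, avg s (W ∪ e.erase x) (ind s x (b x)) ω
          = ∑ ω ∈ F, (avg s (W ∪ e.erase x) (ind s x (b x)) ω - p) + p * (F.card : ℝ) := by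
        rw [Finset.sum_sub_distrib, Finset.sum_const, nsmul_eq_mul]
        ring
      have h2 : -(∑ ω ∈ F, |avg s (W ∪ e.erase x) (ind s x (b x)) ω - p|)
          ≤ ∑ ω ∈ F, (avg s (W ∪ e.erase x) (ind s x (b x)) ω - p) := by
        rw [← Finset.sum_neg_distrib]
        apply Finset.sum_le_sum
        intro ω _
        exact neg_abs_le _
      have h3 : ∑ ω ∈ F, |avg s (W ∪ e.erase x) (ind s x (b x)) ω - p|
          ≤ ∑ ω ∈ C, |avg s (W ∪ e.erase x) (ind s x (b x)) ω - p| :=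
        Finset.sum_le_sum_of_subset_of_nonneg hFC (fun _ _ _ => abs_nonneg _)
      linarith
    rw [horth] at hlow
    have hp0' : 0 ≤ p := hp0 x hxe
    have hp1' : p ≤ 1 := hp1 x hxe
    rw [Finset.prod_insert hxT, Finset.card_insert_of_notMem hxT]
    have hCpos : (0 : ℝ) ≤ (C.card : ℝ) := Nat.cast_nonneg _
    have hTn : (0 : ℝ) ≤ (T.card : ℝ) := Nat.cast_nonneg _
    have h5 : p * ((C.card : ℝ) * (∏ y ∈ T, avg s W (ind s y (b y)) ω0 - (T.card : ℝ) * δ))
        ≤ p * (F.card : ℝ) := mul_le_mul_of_nonneg_left ih' hp0'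
    have h6 : p * ((C.card : ℝ) * ((T.card : ℝ) * δ)) ≤ 1 * ((C.card : ℝ) * ((T.card : ℝ) * δ)) :=
      mul_le_mul_of_nonneg_right hp1' (by positivity)
    push_cast
    rw [← hp]
    nlinarith [h5, h6, hlow]

theorem cell_avg_nonneg {Ω α : Type} [Fintype Ω] (s : Ω → α → Fin 3) (S : Finset α) (φ : Ω → ℝ)
    (ω : Ω) (h : ∀ ω', 0 ≤ φ ω') : 0 ≤ avg s S φ ω :=
  div_nonneg (Finset.sum_nonneg (fun _ _ => h _)) (Nat.cast_nonneg _)

theorem cell_avg_one_sub {Ω α : Type} [Fintype Ω] (s : Ω → α → Fin 3) (S : Finset α) (φ : Ω → ℝ)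
    (ω : Ω) : avg s S (fun ω' => 1 - 2 * φ ω') ω = 1 - 2 * avg s S φ ω := by
  have hc := cell_card_pos s S ω
  unfold avg
  rw [Finset.sum_sub_distrib, ← Finset.mul_sum, Finset.sum_const, nsmul_eq_mul, mul_one,
    sub_div, div_self hc.ne', mul_div_assoc]

theorem cell_ind_nonneg {Ω α : Type} (s : Ω → α → Fin 3) (x : α) (a : Fin 3) (ω : Ω) :
    0 ≤ ind s x a ω := by
  unfold ind
  split_ifs <;> norm_num

theorem cell_avg_total {Ω α : Type} [Fintype Ω] (s : Ω → α → Fin 3) (S : Finset α) (x : α)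
    (ω : Ω) : ∑ a : Fin 3, avg s S (ind s x a) ω = 1 := by
  have hc := cell_card_pos s S ω
  unfold avg
  rw [← Finset.sum_div, Finset.sum_comm]
  have h1 : ∀ ω' : Ω, ∑ a : Fin 3, ind s x a ω' = 1 := by
    intro ω'
    unfold ind
    rw [Finset.sum_ite_eq Finset.univ (s ω' x) (fun _ => (1 : ℝ)), if_pos (Finset.mem_univ _)]
  rw [Finset.sum_congr rfl (fun ω' _ => h1 ω'), Finset.sum_const, nsmul_eq_mul, mul_one,
    div_self hc.ne']

theorem cell {Ω α : Type} [Fintype Ω] [Nonempty Ω] [DecidableEq α] (m : ℕ) (hm : 1 ≤ m)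
    (s : Ω → α → Fin 3) (W e : Finset α) (he : e.card = 2 * m - 1)
    (h1 : ∑ x ∈ e, (energy s x (W ∪ e.erase x) - energy s x W)
      ≤ ((1 / 32 : ℝ) ^ m) ^ 2 / (16 * (m : ℝ) ^ 2) * (Fintype.card Ω : ℝ))
    (h2 : ∑ x ∈ e, ∑ ω : Ω, (avg s W (fun ω' => 1 - 2 * ind s x 0 ω') ω) ^ 2
      ≤ (1 / 8 : ℝ) * (Fintype.card Ω : ℝ)) :
    ∃ ω : Ω, ∃ a : Fin 3, a ≠ 0 ∧ m ≤ (e.filter (fun x => s ω x = a)).card ∧
      ∀ x ∈ e, s ω x = a ∨ s ω x = 0 := by
  classical
  set N : ℝ := (Fintype.card Ω : ℝ) with hN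
  have hNpos : 0 < N := by
    rw [hN]
    exact_mod_cast Fintype.card_pos
  have hmR : (1 : ℝ) ≤ m := by exact_mod_cast hm
  set κ : ℝ := (1 / 32 : ℝ) ^ m with hκ
  have hκpos : 0 < κ := by positivity
  set d1 : ℝ := κ ^ 2 / (16 * (m : ℝ) ^ 2) with hd1
  have hd1pos : 0 < d1 := by positivity
  let Q : α → Fin 3 → Ω → ℝ := fun x a =>
    avg s W (fun ω => (avg s (W ∪ e.erase x) (ind s x a) ω - avg s W (ind s x a) ω) ^ 2)
  have hQnn : ∀ x a ω, 0 ≤ Q x a ω := fun x a ω =>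
    cell_avg_nonneg s W _ ω (fun _ => sq_nonneg _)
  have hJsum : ∑ ω : Ω, ∑ x ∈ e, ∑ a : Fin 3, Q x a ω
      = ∑ x ∈ e, (energy s x (W ∪ e.erase x) - energy s x W) := by
    rw [Finset.sum_comm]
    apply Finset.sum_congr rfl
    intro x _
    rw [Finset.sum_comm, energy_diff s x W (W ∪ e.erase x) Finset.subset_union_left]
    apply Finset.sum_congr rfl
    intro a _
    exact cell_sum_avg s W _
  have hex : ∃ ω0 : Ω, 4 * ∑ x ∈ e, (avg s W (fun ω' => 1 - 2 * ind s x 0 ω') ω0) ^ 2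
      + (∑ x ∈ e, ∑ a : Fin 3, Q x a ω0) / (2 * d1) ≤ 1 := by
    by_contra hcon
    push Not at hcon
    have hlt : ∑ _ω : Ω, (1 : ℝ) < ∑ ω : Ω,
        (4 * ∑ x ∈ e, (avg s W (fun ω' => 1 - 2 * ind s x 0 ω') ω) ^ 2
          + (∑ x ∈ e, ∑ a : Fin 3, Q x a ω) / (2 * d1)) :=
      Finset.sum_lt_sum_of_nonempty Finset.univ_nonempty (fun ω _ => hcon ω)
    rw [Finset.sum_add_distrib, ← Finset.mul_sum, Finset.sum_comm, ← Finset.sum_div, hJsum,
      Finset.sum_const, nsmul_eq_mul, mul_one, Finset.card_univ, ← hN] at hlt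
    have h3 : (∑ x ∈ e, (energy s x (W ∪ e.erase x) - energy s x W)) / (2 * d1) ≤ N / 2 := by
      rw [div_le_iff₀ (by positivity)]
      linarith
    linarith
  obtain ⟨ω0, hω0⟩ := hex
  have hJnn : 0 ≤ ∑ x ∈ e, ∑ a : Fin 3, Q x a ω0 :=
    Finset.sum_nonneg (fun x _ => Finset.sum_nonneg (fun a _ => hQnn x a ω0))
  have hVnn : 0 ≤ ∑ x ∈ e, (avg s W (fun ω' => 1 - 2 * ind s x 0 ω') ω0) ^ 2 :=
    Finset.sum_nonneg (fun x _ => sq_nonneg _)
  have hJ : ∑ x ∈ e, ∑ a : Fin 3, Q x a ω0 ≤ 2 * d1 := by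
    have h3 : (∑ x ∈ e, ∑ a : Fin 3, Q x a ω0) / (2 * d1) ≤ 1 := by linarith
    rwa [div_le_one (by positivity)] at h3
  have hV : ∑ x ∈ e, (avg s W (fun ω' => 1 - 2 * ind s x 0 ω') ω0) ^ 2 ≤ 1 / 4 := by
    have h3 : 0 ≤ (∑ x ∈ e, ∑ a : Fin 3, Q x a ω0) / (2 * d1) := by positivity
    linarith
  have hP0 : ∀ x ∈ e, 1 / 4 ≤ avg s W (ind s x 0) ω0 ∧ avg s W (ind s x 0) ω0 ≤ 3 / 4 := by
    intro x hx
    have h3 : (avg s W (fun ω' => 1 - 2 * ind s x 0 ω') ω0) ^ 2 ≤ 1 / 4 :=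
      (Finset.single_le_sum (f := fun x => (avg s W (fun ω' => 1 - 2 * ind s x 0 ω') ω0) ^ 2)
        (fun y _ => sq_nonneg _) hx).trans hV
    rw [cell_avg_one_sub] at h3
    constructor <;> nlinarith [h3]
  have hPnn : ∀ x a, 0 ≤ avg s W (ind s x a) ω0 := fun x a =>
    cell_avg_nonneg s W _ ω0 (fun ω' => cell_ind_nonneg s x a ω')
  have hPsum : ∀ x, avg s W (ind s x 0) ω0 + avg s W (ind s x 1) ω0
      + avg s W (ind s x 2) ω0 = 1 := by
    intro x
    have h3 := cell_avg_total s W x ω0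
    rwa [Fin.sum_univ_three] at h3
  have hPle : ∀ x a, avg s W (ind s x a) ω0 ≤ 1 := by
    intro x a
    rw [← cell_avg_total s W x ω0]
    exact Finset.single_le_sum (f := fun a => avg s W (ind s x a) ω0)
      (fun b _ => hPnn x b) (Finset.mem_univ a)
  have hchoose : ∃ a : Fin 3, a ≠ 0 ∧
      m ≤ (e.filter (fun x => 1 / 8 ≤ avg s W (ind s x a) ω0)).card := by
    by_contra hcon
    push Not at hcon
    have c1 := hcon 1 (by decide)
    have c2 := hcon 2 (by decide)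
    have hsub : e ⊆ e.filter (fun x => 1 / 8 ≤ avg s W (ind s x 1) ω0) ∪
        e.filter (fun x => 1 / 8 ≤ avg s W (ind s x 2) ω0) := by
      intro x hx
      rw [Finset.mem_union, Finset.mem_filter, Finset.mem_filter]
      by_cases h3 : 1 / 8 ≤ avg s W (ind s x 1) ω0
      · exact Or.inl ⟨hx, h3⟩
      · refine Or.inr ⟨hx, ?_⟩
        have h4 := hPsum x
        have h5 := (hP0 x hx).2
        push Not at h3
        linarith
    have h3 := (Finset.card_le_card hsub).trans (Finset.card_union_le _ _)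
    omega
  obtain ⟨a, ha, hma⟩ := hchoose
  obtain ⟨σ, hσ, hσc⟩ := Finset.exists_subset_card_eq hma
  have hσe : σ ⊆ e := hσ.trans (Finset.filter_subset _ _)
  have hcl := cell_ind s W e ω0 (fun x => if x ∈ σ then a else 0) (κ / (2 * (m : ℝ)))
    (by positivity) (by
      intro x hx
      have hc := cell_card_pos s W ω0
      have h3 : ∀ c : Fin 3, ∑ ω ∈ cls s W ω0, (avg s (W ∪ e.erase x) (ind s x c) ω
          - avg s W (ind s x c) ω0) ^ 2 = ((cls s W ω0).card : ℝ) * Q x c ω0 := by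
        intro c
        have h4 : Q x c ω0 = (∑ ω ∈ cls s W ω0, (avg s (W ∪ e.erase x) (ind s x c) ω
            - avg s W (ind s x c) ω) ^ 2) / ((cls s W ω0).card : ℝ) := rfl
        rw [h4, mul_div_cancel₀ _ hc.ne']
        apply Finset.sum_congr rfl
        intro ω hω
        rw [cls, Finset.mem_filter] at hω
        rw [avg_meas s W (ind s x c) ω0 ω hω.2]
      rw [h3]
      apply mul_le_mul_of_nonneg_left _ hc.le
      have h5 : Q x (if x ∈ σ then a else 0) ω0 ≤ ∑ c : Fin 3, Q x c ω0 :=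
        Finset.single_le_sum (f := fun c => Q x c ω0) (fun c _ => hQnn x c ω0)
          (Finset.mem_univ _)
      have h6 : ∑ c : Fin 3, Q x c ω0 ≤ ∑ x ∈ e, ∑ c : Fin 3, Q x c ω0 :=
        Finset.single_le_sum (f := fun x => ∑ c : Fin 3, Q x c ω0)
          (fun y _ => Finset.sum_nonneg (fun c _ => hQnn y c ω0)) hx
      have h7 : 2 * d1 ≤ (κ / (2 * (m : ℝ))) ^ 2 := by
        rw [hd1, div_pow, mul_div_assoc', div_le_div_iff₀ (by positivity) (by positivity)]
        nlinarith [mul_pos (pow_pos hκpos 2) (pow_pos (lt_of_lt_of_le one_pos hmR) 2)]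
      linarith)
    (fun x _ => hPnn x _) (fun x _ => hPle x _) e (Finset.Subset.refl e)
  have hprod : 4 * κ ≤ ∏ x ∈ e, avg s W (ind s x (if x ∈ σ then a else 0)) ω0 := by
    have h3 : ∏ x ∈ e, (if x ∈ σ then (1 / 8 : ℝ) else 1 / 4)
        ≤ ∏ x ∈ e, avg s W (ind s x (if x ∈ σ then a else 0)) ω0 := by
      apply Finset.prod_le_prod
      · intro x _
        split_ifs <;> norm_num
      · intro x hx
        by_cases hxσ : x ∈ σ
        · simp only [if_pos hxσ]
          exact (Finset.mem_filter.mp (hσ hxσ)).2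
        · simp only [if_neg hxσ]
          exact (hP0 x hx).1
    refine le_trans (le_of_eq ?_) h3
    rw [Finset.prod_ite, Finset.prod_const, Finset.prod_const]
    have h4 : (e.filter (fun x => x ∈ σ)) = σ := by
      ext x
      rw [Finset.mem_filter]
      exact ⟨fun h => h.2, fun h => ⟨hσe h, h⟩⟩
    have h5 : (e.filter (fun x => ¬ x ∈ σ)).card = m - 1 := by
      have h6 := Finset.card_filter_add_card_filter_not (s := e) (fun x => x ∈ σ)
      rw [h4, hσc, he] at h6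
      omega
    rw [h4, hσc, h5, hκ]
    obtain ⟨k, rfl⟩ : ∃ k, m = k + 1 := ⟨m - 1, by omega⟩
    rw [Nat.add_sub_cancel, pow_succ, pow_succ, mul_right_comm, ← mul_pow]
    norm_num
    ring
  have hed : (e.card : ℝ) * (κ / (2 * (m : ℝ))) ≤ κ := by
    have h3 : (e.card : ℝ) ≤ 2 * (m : ℝ) := by
      rw [he]
      have : 2 * m - 1 ≤ 2 * m := Nat.sub_le _ _
      exact_mod_cast this
    rw [← mul_div_assoc, div_le_iff₀ (by positivity)]
    nlinarith
  have hpos : (0 : ℝ) < (((cls s W ω0).filter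
      (fun ω => ∀ x ∈ e, s ω x = if x ∈ σ then a else 0)).card : ℝ) := by
    refine lt_of_lt_of_le ?_ hcl
    have hc := cell_card_pos s W ω0
    apply mul_pos hc
    linarith
  have hpos' : 0 < ((cls s W ω0).filter
      (fun ω => ∀ x ∈ e, s ω x = if x ∈ σ then a else 0)).card := by exact_mod_cast hpos
  obtain ⟨ω, hω⟩ := Finset.card_pos.mp hpos'
  rw [Finset.mem_filter] at hω
  refine ⟨ω, a, ha, ?_, ?_⟩
  · rw [← hσc]
    apply Finset.card_le_card
    intro x hx
    rw [Finset.mem_filter]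
    refine ⟨hσe hx, ?_⟩
    have := hω.2 x (hσe hx)
    rwa [if_pos hx] at this
  · intro x hx
    have h3 := hω.2 x hx
    by_cases hxσ : x ∈ σ
    · left
      rwa [if_pos hxσ] at h3
    · right
      rwa [if_neg hxσ] at h3

end Pool.Agent.Helper34.PN
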