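import Mathlib

set_option autoImplicit false

namespace Pool.Agent.Helper27.PathSys

open SimpleGraph

/-- A path system on the linearly ordered vertex set `Fin n`: a simple path of the complete graph
between any two vertices, the path from `v` to `u` being the reverse of the one from `u` to `v`.
(For `u = v` the only simple path is the trivial one.) -/
structure PathSystem (n : ℕ) where
  /-- the chosen path between `u` and `v` -/
  path : ∀ u v : Fin n, (⊤ : SimpleGraph (Fin n)).Path u v
  /-- the chosen path depends only on the unordered pair -/
  symm : ∀ u v : Fin n, path v u = (path u v).reverse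

namespace PathSystem

variable {n : ℕ} (P : PathSystem n)

/-- Consistency: if `a` lies on the path `P_{u,v}` then `P_{u,v}` is `P_{u,a}` followed by
`P_{a,v}`. -/
def Consistent : Prop :=
  ∀ u v a : Fin n, a ∈ (P.path u v).1.support →
    (P.path u v).1 = (P.path u a).1.append (P.path a v).1

/-- The largest number of edges of a path of the system is `d`. -/
def HasDiameter (d : ℕ) : Prop :=
  IsGreatest {l : ℕ | ∃ u v : Fin n, u ≠ v ∧ (P.path u v).1.length = l} d

/-- The graph of the resume `f` of a system of diameter `2`: `Resume u v z` says that
`P_{u,v}` is the two-edge path `u z v`, that is `f(u,v) = z`. -/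
def Resume (u v z : Fin n) : Prop := (P.path u v).1.support = [u, z, v]

/-- Monotonicity of the resume: `f(i,j) ≤ f(i,k)` whenever both are defined and `j ≤ k`. -/
def Monotone : Prop :=
  ∀ i j k z z' : Fin n, P.Resume i j z → P.Resume i k z' → j ≤ k → z ≤ z'

/-- The total weight of a walk. -/
def weight (w : Sym2 (Fin n) → ℝ) {u v : Fin n} (q : (⊤ : SimpleGraph (Fin n)).Walk u v) : ℝ :=
  (q.edges.map w).sum

/-- Strict metrizability: for some positive edge weights each path of the system is the unique
minimum-weight path of the complete graph between its end points. -/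
def StrictlyMetric : Prop :=
  ∃ w : Sym2 (Fin n) → ℝ, (∀ e ∈ (⊤ : SimpleGraph (Fin n)).edgeSet, 0 < w e) ∧
    ∀ u v : Fin n, u ≠ v → ∀ q : (⊤ : SimpleGraph (Fin n)).Path u v, q ≠ P.path u v →
      weight w (P.path u v).1 < weight w q.1

end PathSystem

end Pool.Agent.Helper27.PathSys
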