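import Pool.Agent.Helper27.PathSysDefs

set_option autoImplicit false

namespace Pool.Agent.Helper27.PathSys

open SimpleGraph

/-- The resume of the counterexample, in terms of `0, ..., 6` instead of `1, ..., 7`. -/
def mid (u v : Fin 7) : Option (Fin 7) :=
  match u, v with
  | 0, 5 => some 1 | 5, 0 => some 1
  | 0, 6 => some 2 | 6, 0 => some 2
  | 1, 2 => some 3 | 2, 1 => some 3
  | 2, 5 => some 4 | 5, 2 => some 4
  | 3, 4 => some 0 | 4, 3 => some 0
  | 3, 5 => some 6 | 5, 3 => some 6
  | _, _ => none

theorem mid_ne : ∀ u v z : Fin 7, mid u v = some z → u ≠ v ∧ u ≠ z ∧ z ≠ v := by decide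

theorem mid_symm : ∀ u v : Fin 7, mid v u = mid u v := by decide

/-- the list of vertices of the path from `u` to `v` -/
def supp (u v : Fin 7) : List (Fin 7) :=
  if u = v then [u] else match mid u v with
    | none => [u, v]
    | some z => [u, z, v]

/-- one-edge path -/
def edgePath {u v : Fin 7} (h : u ≠ v) : (⊤ : SimpleGraph (Fin 7)).Path u v :=
  ⟨Walk.cons (show (⊤ : SimpleGraph (Fin 7)).Adj u v from h) Walk.nil, by
    simp [Walk.isPath_def, h]⟩

/-- two-edge path -/
def twoPath {u z v : Fin 7} (h : u ≠ v) (h1 : u ≠ z) (h2 : z ≠ v) :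
    (⊤ : SimpleGraph (Fin 7)).Path u v :=
  ⟨Walk.cons (show (⊤ : SimpleGraph (Fin 7)).Adj u z from h1)
    (Walk.cons (show (⊤ : SimpleGraph (Fin 7)).Adj z v from h2) Walk.nil), by
    simp [Walk.isPath_def, h, h1, h2]⟩

theorem exists_path (u v : Fin 7) :
    ∃ q : (⊤ : SimpleGraph (Fin 7)).Path u v, q.1.support = supp u v := by
  by_cases h : u = v
  · subst h
    exact ⟨Path.nil, by simp [supp]⟩
  · cases hm : mid u v with
    | none => exact ⟨edgePath h, by simp [supp, h, hm, edgePath]⟩
    | some z =>
      obtain ⟨-, h1, h2⟩ := mid_ne u v z hm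
      exact ⟨twoPath h h1 h2, by simp [supp, h, hm, twoPath]⟩

/-- the counterexample -/
noncomputable def sys : PathSystem 7 where
  path u v := (exists_path u v).choose
  symm u v := by
    apply Subtype.ext
    apply Walk.ext_support
    rw [(exists_path v u).choose_spec]
    change _ = ((exists_path u v).choose.1.reverse).support
    rw [Walk.support_reverse, (exists_path u v).choose_spec]
    revert u v
    decide

theorem sys_support (u v : Fin 7) : (sys.path u v).1.support = supp u v :=
  (exists_path u v).choose_spec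

theorem sys_eq {u v : Fin 7} (q : (⊤ : SimpleGraph (Fin 7)).Path u v)
    (h : q.1.support = supp u v) : sys.path u v = q := by
  apply Subtype.ext
  apply Walk.ext_support
  rw [sys_support, h]

theorem sys_consistent : sys.Consistent := by
  intro u v a ha
  apply Walk.ext_support
  rw [Walk.support_append, sys_support, sys_support, sys_support]
  rw [sys_support] at ha
  revert u v a
  decide

theorem sys_length (u v : Fin 7) : (sys.path u v).1.length + 1 = (supp u v).length := by
  rw [← Walk.length_support, sys_support]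

theorem sys_diameter : sys.HasDiameter 2 := by
  constructor
  · refine ⟨0, 5, by decide, ?_⟩
    have h := sys_length 0 5
    have h2 : (supp 0 5).length = 3 := by decide
    omega
  · rintro l ⟨u, v, -, rfl⟩
    have h := sys_length u v
    have h2 : ∀ u v : Fin 7, (supp u v).length ≤ 3 := by decide
    have h3 := h2 u v
    omega

theorem sys_monotone : sys.Monotone := by
  intro i j k z z' h1 h2 hjk
  unfold PathSystem.Resume at h1 h2
  rw [sys_support] at h1 h2
  revert i j k z z'
  have key : ∀ i j z : Fin 7, supp i j = [i, z, j] → mid i j = some z := by decide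
  have key2 : ∀ i j k : Fin 7, j ≤ k → ∀ z ∈ mid i j, ∀ z' ∈ mid i k, z ≤ z' := by decide
  intro i j k z z' h1 h2 hjk
  exact key2 i j k hjk z (key i j z h1) z' (key i k z' h2)

theorem weight_edgePath (w : Sym2 (Fin 7) → ℝ) {u v : Fin 7} (h : u ≠ v) :
    PathSystem.weight w (edgePath h).1 = w s(u, v) := by
  simp [PathSystem.weight, edgePath]

theorem weight_twoPath (w : Sym2 (Fin 7) → ℝ) {u z v : Fin 7} (h : u ≠ v) (h1 : u ≠ z)
    (h2 : z ≠ v) : PathSystem.weight w (twoPath h h1 h2).1 = w s(u, z) + w s(z, v) := by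
  simp [PathSystem.weight, twoPath]

theorem sys_lt (w : Sym2 (Fin 7) → ℝ)
    (hw : ∀ u v : Fin 7, u ≠ v → ∀ q : (⊤ : SimpleGraph (Fin 7)).Path u v, q ≠ sys.path u v →
      PathSystem.weight w (sys.path u v).1 < PathSystem.weight w q.1)
    (u z v a : Fin 7) (hm : mid u v = some z) (hau : u ≠ a) (hav : a ≠ v) (haz : a ≠ z) :
    w s(u, z) + w s(z, v) < w s(u, a) + w s(a, v) := by
  obtain ⟨h, h1, h2⟩ := mid_ne u v z hm
  have hsys : sys.path u v = twoPath h h1 h2 := by
    apply sys_eq
    simp [supp, h, hm, twoPath]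
  have hne : twoPath h hau hav ≠ sys.path u v := by
    intro heq
    have h3 : (twoPath h hau hav).1.support = (sys.path u v).1.support := by rw [heq]
    rw [sys_support] at h3
    simp [supp, h, hm, twoPath] at h3
    exact haz h3
  have h4 := hw u v h _ hne
  rw [hsys, weight_twoPath, weight_twoPath] at h4
  exact h4

theorem sys_not_strictlyMetric : ¬ sys.StrictlyMetric := by
  rintro ⟨w, -, hw⟩
  have h1 := sys_lt w hw 0 1 5 4 (by decide) (by decide) (by decide) (by decide)
  have h2 := sys_lt w hw 0 2 6 3 (by decide) (by decide) (by decide) (by decide)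
  have h3 := sys_lt w hw 1 3 2 0 (by decide) (by decide) (by decide) (by decide)
  have h4 := sys_lt w hw 2 4 5 6 (by decide) (by decide) (by decide) (by decide)
  have h5 := sys_lt w hw 3 0 4 2 (by decide) (by decide) (by decide) (by decide)
  have h6 := sys_lt w hw 3 6 5 1 (by decide) (by decide) (by decide) (by decide)
  have e1 : w s(1, 0) = w s(0, 1) := by rw [Sym2.eq_swap]
  have e2 : w s(3, 0) = w s(0, 3) := by rw [Sym2.eq_swap]
  have e3 : w s(3, 2) = w s(2, 3) := by rw [Sym2.eq_swap]
  have e4 : w s(3, 1) = w s(1, 3) := by rw [Sym2.eq_swap]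
  have e5 : w s(6, 5) = w s(5, 6) := by rw [Sym2.eq_swap]
  linarith

theorem exists_not_strictlyMetric : ∃ P : PathSystem 7, P.Consistent ∧ P.HasDiameter 2 ∧
    P.Monotone ∧ ¬ P.StrictlyMetric :=
  ⟨sys, sys_consistent, sys_diameter, sys_monotone, sys_not_strictlyMetric⟩

end Pool.Agent.Helper27.PathSys
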