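import Mathlib

/-!
# The differentiation action of a polynomial ring on a polynomial ring
-/

namespace Pool.Agent.Helper27.Pz

open MvPolynomial

variable {K : Type*} [Field K] {σ : Type*} [Fintype σ]

/-- The number `∏ i, b i * (b i - 1) * ... * (b i - a i + 1)`: the coefficient of
`X ^ (b - a)` in the iterated derivative `∂ ^ a (X ^ b)`. -/
def dcoef (a b : σ →₀ ℕ) : ℕ := ∏ i, (b i).descFactorial (a i)

/-- The iterated derivative `∂ ^ a`. -/
noncomputable def dmon (K : Type*) [Field K] {σ : Type*} [Fintype σ] (a : σ →₀ ℕ) :
    MvPolynomial σ K →ₗ[K] MvPolynomial σ K :=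
  (basisMonomials σ K).constr K fun b => monomial (b - a) (dcoef a b : K)

/-- The action of polynomials on polynomials by differentiation (`X i` acts as `∂ / ∂ X i`). -/
noncomputable def act : MvPolynomial σ K →ₗ[K] MvPolynomial σ K →ₗ[K] MvPolynomial σ K :=
  (basisMonomials σ K).constr K fun a => dmon K a

lemma dmon_monomial (a b : σ →₀ ℕ) (c : K) :
    dmon K a (monomial b c) = monomial (b - a) (c * dcoef a b) := by
  have h : monomial b c = c • basisMonomials σ K b := by
    simp [coe_basisMonomials, smul_monomial]
  rw [h, map_smul, dmon, Module.Basis.constr_basis, smul_monomial, smul_eq_mul]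

lemma act_monomial (a b : σ →₀ ℕ) (c e : K) :
    act (monomial a c) (monomial b e) = monomial (b - a) (c * e * dcoef a b) := by
  have h : monomial a c = c • basisMonomials σ K a := by
    simp [coe_basisMonomials, smul_monomial]
  rw [h, map_smul, act, Module.Basis.constr_basis, LinearMap.smul_apply, dmon_monomial,
    smul_monomial, smul_eq_mul, mul_assoc]

omit [Fintype σ] in
lemma descFactorial_add (n k l : ℕ) :
    n.descFactorial (k + l) = n.descFactorial l * (n - l).descFactorial k := by
  have := Nat.descFactorial_mul_descFactorial (k := l) (m := k + l) (n := n) (by omega)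
  rw [show k + l - l = k by omega] at this
  rw [← this, mul_comm]

lemma dcoef_add (a a' b : σ →₀ ℕ) : dcoef (a + a') b = dcoef a' b * dcoef a (b - a') := by
  unfold dcoef
  rw [← Finset.prod_mul_distrib]
  refine Finset.prod_congr rfl fun i _ => ?_
  rw [Finsupp.add_apply, Finsupp.tsub_apply]
  exact descFactorial_add _ _ _

lemma act_mul (φ ψ F : MvPolynomial σ K) : act (φ * ψ) F = act φ (act ψ F) := by
  induction F using MvPolynomial.induction_on' with
  | add p q hp hq => rw [map_add, map_add, map_add, hp, hq]
  | monomial b e =>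
    induction ψ using MvPolynomial.induction_on' with
    | add p q hp hq =>
      rw [mul_add, map_add, LinearMap.add_apply, hp, hq, map_add, LinearMap.add_apply, map_add]
    | monomial a' c' =>
      induction φ using MvPolynomial.induction_on' with
      | add p q hp hq =>
        rw [add_mul, map_add, LinearMap.add_apply, hp, hq, map_add, LinearMap.add_apply]
      | monomial a c =>
        have h1 : b - (a + a') = b - a' - a := by
          ext i
          simp only [Finsupp.tsub_apply, Finsupp.add_apply]
          omega
        rw [monomial_mul, act_monomial, act_monomial, act_monomial, dcoef_add, h1]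
        congr 1
        push_cast
        ring

lemma act_X (i : σ) (F : MvPolynomial σ K) : act (X i) F = pderiv i F := by
  classical
  induction F using MvPolynomial.induction_on' with
  | add p q hp hq => rw [map_add, map_add, hp, hq]
  | monomial b e =>
    have : dcoef (Finsupp.single i 1) b = b i := by
      unfold dcoef
      rw [Finset.prod_eq_single i]
      · simp
      · intro j _ hj
        simp [Ne.symm hj]
      · simp
    rw [X, act_monomial, pderiv_monomial, this, one_mul]

lemma act_C (c : K) (F : MvPolynomial σ K) : act (C c) F = c • F := by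
  induction F using MvPolynomial.induction_on' with
  | add p q hp hq => rw [map_add, smul_add, hp, hq]
  | monomial b e =>
    rw [C_apply, act_monomial, smul_monomial]
    simp [dcoef]

lemma act_one (F : MvPolynomial σ K) : act (1 : MvPolynomial σ K) F = F := by
  have := act_C (1 : K) F
  rwa [map_one, one_smul] at this

lemma act_comm (φ ψ F : MvPolynomial σ K) : act φ (act ψ F) = act ψ (act φ F) := by
  rw [← act_mul, mul_comm, act_mul]

lemma dcoef_eq_zero {a b : σ →₀ ℕ} (h : ¬ a ≤ b) : dcoef a b = 0 := by
  rw [Finsupp.le_def] at h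
  push Not at h
  obtain ⟨i, hi⟩ := h
  exact Finset.prod_eq_zero (Finset.mem_univ i) (Nat.descFactorial_eq_zero_iff_lt.2 hi)

omit [Fintype σ] in
lemma deg_of_mem {n : ℕ} {φ : MvPolynomial σ K} (hφ : φ.IsHomogeneous n) {s : σ →₀ ℕ}
    (hs : s ∈ φ.support) : s.degree = n := by
  by_contra h
  exact (mem_support_iff.1 hs) (hφ.coeff_eq_zero h)

/-- Degree of the result. -/
lemma act_homog {i d : ℕ} {φ F : MvPolynomial σ K} (hφ : φ.IsHomogeneous i)
    (hF : F.IsHomogeneous (i + d)) : (act φ F).IsHomogeneous d := by
  classical
  rw [← φ.support_sum_monomial_coeff, ← F.support_sum_monomial_coeff]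
  simp only [map_sum, LinearMap.sum_apply]
  refine IsHomogeneous.sum _ _ _ fun b hb => IsHomogeneous.sum _ _ _ fun a ha => ?_
  rw [act_monomial]
  have ha' := deg_of_mem hφ ha
  have hb' := deg_of_mem hF hb
  by_cases hab : a ≤ b
  · refine isHomogeneous_monomial _ ?_
    have h2 : b = (b - a) + a := by
      ext j
      simp only [Finsupp.add_apply, Finsupp.tsub_apply]
      have := (Finsupp.le_def.1 hab) j
      omega
    have h3 : b.degree = (b - a).degree + a.degree := by
      conv_lhs => rw [h2]
      exact map_add _ _ _
    omega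
  · rw [dcoef_eq_zero hab]
    simp only [Nat.cast_zero, mul_zero, monomial_zero]
    exact isHomogeneous_zero _ _ _

lemma act_eq_zero_of_lt {i d : ℕ} {φ F : MvPolynomial σ K} (hφ : φ.IsHomogeneous i)
    (hF : F.IsHomogeneous d) (h : d < i) : act φ F = 0 := by
  classical
  rw [← φ.support_sum_monomial_coeff, ← F.support_sum_monomial_coeff]
  simp only [map_sum, LinearMap.sum_apply]
  refine Finset.sum_eq_zero fun b hb => Finset.sum_eq_zero fun a ha => ?_
  rw [act_monomial]
  have ha' := deg_of_mem hφ ha
  have hb' := deg_of_mem hF hb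
  rw [dcoef_eq_zero, Nat.cast_zero, mul_zero, monomial_zero]
  intro hab
  have := Finsupp.degree_mono hab
  omega

/-! ### The pairing -/

/-- The constant coefficient of `φ ∘ w`. -/
noncomputable def pair : MvPolynomial σ K →ₗ[K] MvPolynomial σ K →ₗ[K] K :=
  act.compr₂ (lcoeff K 0)

lemma pair_apply (φ w : MvPolynomial σ K) : pair φ w = coeff 0 (act φ w) := rfl

lemma pair_mul (φ ψ w : MvPolynomial σ K) : pair (φ * ψ) w = pair φ (act ψ w) := by
  rw [pair_apply, act_mul, pair_apply]

/-- The factorial of a multi-index. -/
def mfact (a : σ →₀ ℕ) : ℕ := ∏ i, (a i).factorial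

lemma mfact_ne_zero (a : σ →₀ ℕ) : mfact a ≠ 0 :=
  Finset.prod_ne_zero_iff.2 fun _ _ => Nat.factorial_ne_zero _

lemma pair_monomial_monomial (a b : σ →₀ ℕ) (c e : K) :
    pair (monomial a c) (monomial b e) = if a = b then c * e * mfact a else 0 := by
  classical
  rw [pair_apply, act_monomial, coeff_monomial]
  by_cases hab : a = b
  · subst hab
    simp only [tsub_self, if_true]
    congr 2
    unfold dcoef mfact
    refine Finset.prod_congr rfl fun i _ => ?_
    rw [Nat.descFactorial_self]
  · rw [if_neg hab]
    split_ifs with h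
    · have h2 : ¬ a ≤ b := by
        intro h3
        apply hab
        ext i
        have h4 := DFunLike.congr_fun h i
        have h5 := Finsupp.le_def.1 h3 i
        simp only [Finsupp.tsub_apply, Finsupp.coe_zero, Pi.zero_apply] at h4
        omega
      rw [dcoef_eq_zero h2, Nat.cast_zero, mul_zero]
    · rfl

lemma pair_monomial (a : σ →₀ ℕ) (c : K) (w : MvPolynomial σ K) :
    pair (monomial a c) w = c * coeff a w * mfact a := by
  classical
  induction w using MvPolynomial.induction_on' with
  | add p q hp hq => rw [map_add, hp, hq, coeff_add]; ring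
  | monomial b e =>
    rw [pair_monomial_monomial, coeff_monomial]
    by_cases h : a = b
    · rw [if_pos h, if_pos h.symm]
    · rw [if_neg h, if_neg (Ne.symm h)]; ring

lemma pair_comm (φ w : MvPolynomial σ K) : pair φ w = pair w φ := by
  classical
  induction φ using MvPolynomial.induction_on' with
  | add p q hp hq => rw [map_add, map_add, LinearMap.add_apply, hp, hq]
  | monomial a c =>
    induction w using MvPolynomial.induction_on' with
    | add p q hp hq => rw [map_add, map_add, LinearMap.add_apply, hp, hq]
    | monomial b e =>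
      rw [pair_monomial_monomial, pair_monomial_monomial]
      by_cases h : a = b
      · subst h; simp only [if_true]; ring
      · rw [if_neg h, if_neg (Ne.symm h)]

variable [CharZero K]

/-- A form of degree `k` which pairs to zero with all forms of degree `k` is zero. -/
lemma eq_zero_of_pair {k : ℕ} {w : MvPolynomial σ K} (hw : w.IsHomogeneous k)
    (h : ∀ φ : MvPolynomial σ K, φ.IsHomogeneous k → pair φ w = 0) : w = 0 := by
  ext a
  rw [coeff_zero]
  by_cases ha : a.degree = k
  · have := h (monomial a 1) (isHomogeneous_monomial _ ha)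
    rw [pair_monomial, one_mul] at this
    rcases mul_eq_zero.1 this with h' | h'
    · exact h'
    · exact absurd h' (Nat.cast_ne_zero.2 (mfact_ne_zero a))
  · exact hw.coeff_eq_zero ha

/-- Every linear functional on the forms of degree `k` is given by pairing with a form. -/
lemma exists_pair_eq (k : ℕ) (ξ : MvPolynomial σ K →ₗ[K] K) :
    ∃ φ : MvPolynomial σ K, φ.IsHomogeneous k ∧
      ∀ w : MvPolynomial σ K, w.IsHomogeneous k → pair φ w = ξ w := by
  classical
  set S := (Finsupp.finite_of_degree_eq (σ := σ) k).toFinset with hS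
  refine ⟨∑ a ∈ S, monomial a (ξ (monomial a 1) / mfact a), ?_, ?_⟩
  · refine IsHomogeneous.sum _ _ _ fun a ha => isHomogeneous_monomial _ ?_
    simpa [hS] using ha
  · intro w hw
    conv_rhs => rw [← w.support_sum_monomial_coeff]
    rw [map_sum, map_sum, LinearMap.sum_apply]
    rw [← Finset.sum_subset (s₁ := w.support) (s₂ := S)]
    · refine Finset.sum_congr rfl fun a _ => ?_
      rw [pair_monomial]
      have h1 : monomial a (coeff a w) = coeff a w • monomial a (1 : K) := by
        rw [smul_monomial, smul_eq_mul, mul_one]
      have h2 : (mfact a : K) ≠ 0 := Nat.cast_ne_zero.2 (mfact_ne_zero a)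
      rw [h1, map_smul, smul_eq_mul]
      field_simp
    · intro a ha
      simp only [hS, Set.Finite.mem_toFinset, Set.mem_ofPred_eq]
      exact deg_of_mem hw ha
    · intro a _ ha
      rw [pair_monomial, notMem_support_iff.1 ha]
      ring

/-- Double orthogonality. -/
lemma mem_of_pair {k : ℕ} (V : Submodule K (MvPolynomial σ K))
    (hV : ∀ v ∈ V, v.IsHomogeneous k) {w : MvPolynomial σ K} (hw : w.IsHomogeneous k)
    (h : ∀ φ : MvPolynomial σ K, φ.IsHomogeneous k → (∀ v ∈ V, pair φ v = 0) → pair φ w = 0) :
    w ∈ V := by
  by_contra hwV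
  obtain ⟨ξ, h1, h2⟩ := Submodule.exists_le_ker_of_notMem hwV
  obtain ⟨φ, hφ, h3⟩ := exists_pair_eq k ξ
  apply h1
  rw [← h3 w hw]
  refine h φ hφ fun v hv => ?_
  rw [h3 v (hV v hv)]
  exact h2 hv

/-- Nondegeneracy for the action: a form of degree `k + j` killed by all forms of degree `k`
vanishes. -/
lemma eq_zero_of_act {k j : ℕ} {w : MvPolynomial σ K} (hw : w.IsHomogeneous (k + j))
    (h : ∀ φ : MvPolynomial σ K, φ.IsHomogeneous k → act φ w = 0) : w = 0 := by
  refine eq_zero_of_pair hw fun φ hφ => ?_
  classical
  rw [← φ.support_sum_monomial_coeff, map_sum, LinearMap.sum_apply]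
  refine Finset.sum_eq_zero fun a ha => ?_
  have ha' := deg_of_mem hφ ha
  obtain ⟨b, hb, hbk⟩ := Finsupp.exists_le_degree_eq a k (by omega)
  have h2 : a = (a - b) + b := by
    ext j
    simp only [Finsupp.add_apply, Finsupp.tsub_apply]
    have := (Finsupp.le_def.1 hb) j
    omega
  have h3 : monomial a (coeff a φ) = monomial (a - b) (coeff a φ) * monomial b 1 := by
    rw [monomial_mul, mul_one, ← h2]
  rw [h3, pair_mul, h _ (isHomogeneous_monomial _ hbk), map_zero]

end Pool.Agent.Helper27.Pz
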