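import Pool.Agent.Helper27.PzComp

/-!
# The weak Lefschetz property of a general Perazzo form
-/

namespace Pool.Agent.Helper27.Pz

open MvPolynomial

variable {K : Type*} [Field K] {κ : Type*} [Fintype κ]

lemma derivs_eq_span {J : Type*} [Fintype J] (q : J → MvPolynomial κ K) (k : ℕ) :
    derivs q k = Submodule.span K
      (Set.range fun t : expo κ k × J => act (monomial t.1.1 (1 : K)) (q t.2)) := by
  apply le_antisymm
  · unfold derivs
    rw [Submodule.span_le]
    rintro _ ⟨j, θ, hθ, rfl⟩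
    change act θ (q j) ∈ _
    rw [← θ.support_sum_monomial_coeff, map_sum, LinearMap.sum_apply]
    refine Submodule.sum_mem _ fun a ha => ?_
    rw [show monomial a (coeff a θ) = coeff a θ • monomial a (1 : K) by
      rw [smul_monomial, smul_eq_mul, mul_one], map_smul, LinearMap.smul_apply]
    exact Submodule.smul_mem _ _ (Submodule.subset_span
      ⟨(⟨a, mem_expo.2 (deg_of_mem hθ ha)⟩, j), rfl⟩)
  · rw [Submodule.span_le]
    rintro _ ⟨t, rfl⟩
    exact Submodule.subset_span ⟨t.2, _, isHomogeneous_monomial _ (mem_expo.1 t.1.2), rfl⟩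

lemma isGen_derivs {ι J : Type*} [Fintype ι] [Fintype J] {e r k : ℕ} (g : J → ι)
    (lam : MvPolynomial κ K) (p₀ : ι → MvPolynomial κ K) (hp₀ : ∀ j, (p₀ j).IsHomogeneous e)
    (h : r ≤ Module.finrank K (derivs (fun i => act lam (p₀ (g i))) k)) :
    IsGen e fun p => r ≤ Module.finrank K (derivs (fun i => act lam (p (g i))) k) := by
  have key : ∀ p : ι → MvPolynomial κ K, derivs (fun i => act lam (p (g i))) k =
      Submodule.span K (Set.range fun t : expo κ k × J =>
        ((actBy (monomial t.1.1 (1 : K))) ∘ₗ (actBy lam) ∘ₗ (LinearMap.proj (g t.2))) p) := by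
    intro p
    rw [derivs_eq_span]
    rfl
  have h1 := isGen_of_exists (e := e) (r := r) (fun t : expo κ k × J =>
    (actBy (monomial t.1.1 (1 : K))) ∘ₗ (actBy lam) ∘ₗ
      (LinearMap.proj (R := K) (φ := fun _ : ι => MvPolynomial κ K) (g t.2)))
    p₀ hp₀ (by rw [← key]; exact h)
  refine h1.mono fun p _ h2 => ?_
  rw [key]
  exact h2

/-- A dimension count implies injectivity. -/
lemma inj_of_finrank {J : Type*} [Fintype J] {q : J → MvPolynomial κ K} {k : ℕ}
    (h : Fintype.card J * Module.finrank K (Hom K κ k) ≤ Module.finrank K (derivs q k))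
    {v : J → MvPolynomial κ K} (hv : ∀ j, (v j).IsHomogeneous k)
    (h0 : ∑ j, act (v j) (q j) = 0) (j : J) : v j = 0 := by
  classical
  set Θ : (J → Hom K κ k) →ₗ[K] MvPolynomial κ K :=
    ∑ j, (actTo (q j)) ∘ₗ (Hom K κ k).subtype ∘ₗ (LinearMap.proj j) with hΘ
  have hΘ' : ∀ v : J → Hom K κ k, Θ v = ∑ j, act (v j : MvPolynomial κ K) (q j) := by
    intro v
    rw [hΘ, LinearMap.sum_apply]
    rfl
  have h1 := LinearMap.finrank_range_add_finrank_ker Θ
  have h2 : derivs q k ≤ LinearMap.range Θ := by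
    intro w hw
    obtain ⟨v, hv, rfl⟩ := mem_derivs.1 hw
    exact ⟨fun j => ⟨v j, hv j⟩, hΘ' _⟩
  have h3 := Submodule.finrank_mono h2
  rw [Module.finrank_pi_fintype, Finset.sum_const, Finset.card_univ, smul_eq_mul] at h1
  have h4 : Module.finrank K (LinearMap.ker Θ) = 0 := by omega
  rw [Submodule.finrank_eq_zero] at h4
  have h5 : (fun j => (⟨v j, hv j⟩ : Hom K κ k)) ∈ LinearMap.ker Θ := by
    rw [LinearMap.mem_ker, hΘ']
    exact h0
  rw [h4, Submodule.mem_bot] at h5
  exact congrArg Subtype.val (congrFun h5 j)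

variable [CharZero K]

/-- The sufficient condition in even degree. -/
lemma wlp_of_finrank {n m d : ℕ} (hd : 3 ≤ d) {lam : MvPolynomial (Fin m) K}
    (hlam : lam.IsHomogeneous 1) {p : Fin (n + 1) → MvPolynomial (Fin m) K}
    (hp : ∀ j, (p j).IsHomogeneous (d - 1))
    (h1 : (n + 1) * Module.finrank K (Hom K (Fin m) (d - 2 - d / 2)) ≤
      Module.finrank K (derivs (fun j => act lam (p j)) (d - 2 - d / 2)))
    (h2 : Module.finrank K (Hom K (Fin m) (d - 2 - d / 2 + 1)) ≤
      Module.finrank K (derivs (fun _ : Fin 1 => act lam (p 0)) (d - 2 - d / 2 + 1)))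
    {G : MvPolynomial (Fin m) K} (hG : G.IsHomogeneous d) : HasWLP (perazzo p G) := by
  rw [wlp_iff hd hp hG]
  refine ⟨lam, 0, hlam, ?_, ?_⟩
  · intro w hw h3
    obtain ⟨v, hv, rfl⟩ := mem_derivs.1 hw
    have h4 : ∀ j, v j = 0 := inj_of_finrank (q := fun j => act lam (p j))
      (k := d - 2 - d / 2) (by rwa [Fintype.card_fin]) hv (by
        rw [← h3, map_sum]
        exact Finset.sum_congr rfl fun j _ => act_comm _ _ _)
    exact Finset.sum_eq_zero fun j _ => by rw [h4 j, map_zero, LinearMap.zero_apply]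
  · intro f hf h3 _
    have h4 : f = 0 := inj_of_finrank (q := fun _ : Fin 1 => act lam (p 0))
      (k := d - 2 - d / 2 + 1) (by rwa [Fintype.card_fin, one_mul]) (v := fun _ => f)
      (fun _ => hf) (by
        rw [Fin.sum_univ_one, ← act_mul, mul_comm]
        exact h3 0) 0
    subst h4
    refine ⟨fun j => by simp, ?_⟩
    rw [map_zero, LinearMap.zero_apply]
    exact Submodule.zero_mem _

/-- The necessary condition. -/
lemma finrank_le_of_wlp {ι : Type*} [Fintype ι] {d : ℕ} (hd : 3 ≤ d)
    {p : ι → MvPolynomial κ K} (hp : ∀ j, (p j).IsHomogeneous (d - 1))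
    {G : MvPolynomial κ K} (hG : G.IsHomogeneous d) (h : HasWLP (perazzo p G)) :
    Module.finrank K (derivs p (d - 2 - d / 2)) ≤ Module.finrank K (Hom K κ (d / 2)) := by
  obtain ⟨lam, c, hlam, h1, -⟩ := (wlp_iff hd hp hG).1 h
  have e1 : d - 1 = (d - 2 - d / 2) + (d / 2 + 1) := by omega
  have hinj : ∀ x ∈ derivs p (d - 2 - d / 2), actBy lam x = 0 → x = 0 := h1
  have hfr : Module.finrank K ((derivs p (d - 2 - d / 2)).map (actBy lam)) =
      Module.finrank K (derivs p (d - 2 - d / 2)) := by
    have hi : Function.Injective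
        ((actBy lam).domRestrict (derivs p (d - 2 - d / 2))) := by
      rw [← LinearMap.ker_eq_bot, LinearMap.ker_eq_bot']
      intro x hx
      exact Subtype.ext (hinj x x.2 hx)
    rw [← LinearMap.range_domRestrict]
    exact LinearMap.finrank_range_of_inj hi
  rw [← hfr]
  refine Submodule.finrank_mono ?_
  rintro _ ⟨w, hw, rfl⟩
  rw [actBy_apply]
  exact act_homog hlam (by
    rw [add_comm]
    exact derivs_homog (by rwa [← e1]) hw)

omit [CharZero K] in
lemma not_algebraicIndependent {n m : ℕ} (hnm : m ≤ n) (p : Fin (n + 1) → MvPolynomial (Fin m) K) :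
    ¬ AlgebraicIndependent K p := by
  intro h
  have h1 := h.lift_cardinalMk_le_trdeg
  rw [MvPolynomial.trdeg_of_isDomain] at h1
  simp only [Cardinal.mk_fin, Cardinal.lift_natCast] at h1
  norm_cast at h1
  omega

omit [CharZero K] in
/-- A general tuple of forms is linearly independent. -/
lemma isGen_linearIndependent {n m e : ℕ} (h : n + 1 ≤ Module.finrank K (Hom K (Fin m) e)) :
    IsGen (K := K) (κ := Fin m) (ι := Fin (n + 1)) e fun p => LinearIndependent K p := by
  obtain ⟨f, hf⟩ := exists_linearIndependent_of_le_finrank h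
  have hf' : LinearIndependent K fun i => (f i : MvPolynomial (Fin m) K) :=
    hf.map' (Hom K (Fin m) e).subtype (Submodule.ker_subtype _)
  have h1 := isGen_of_exists (e := e) (r := n + 1) (fun t : Fin (n + 1) =>
    LinearMap.proj (R := K) (φ := fun _ : Fin (n + 1) => MvPolynomial (Fin m) K) t)
    (fun i => (f i : MvPolynomial (Fin m) K)) (fun j => (f j).2) (by
      have : (fun t : Fin (n + 1) => (LinearMap.proj (R := K)
          (φ := fun _ : Fin (n + 1) => MvPolynomial (Fin m) K) t)
          (fun i => (f i : MvPolynomial (Fin m) K))) =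
          fun i => (f i : MvPolynomial (Fin m) K) := rfl
      rw [this, finrank_span_eq_card hf', Fintype.card_fin])
  refine h1.mono fun p _ h2 => ?_
  rw [linearIndependent_iff_card_le_finrank_span, Fintype.card_fin]
  exact h2

/-- Arithmetic: in odd degree the numerical condition fails. -/
lemma arith_odd {n m s : ℕ} (hm : 2 ≤ m) (hnm : m ≤ n) (hs : 1 ≤ s) :
    (m + s - 1).choose (m - 1) < (n + 1) * (m + (s - 1) - 1).choose (m - 1) := by
  obtain ⟨m, rfl⟩ : ∃ m', m = m' + 2 := ⟨m - 2, by omega⟩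
  obtain ⟨s, rfl⟩ : ∃ s', s = s' + 1 := ⟨s - 1, by omega⟩
  have e1 : m + 2 + (s + 1) - 1 = (m + s + 1) + 1 := by omega
  have e2 : m + 2 + (s + 1 - 1) - 1 = m + s + 1 := by omega
  have e3 : m + 2 - 1 = m + 1 := by omega
  rw [e1, e2, e3, Nat.choose_succ_succ]
  have h1 := Nat.choose_succ_right_eq (m + s + 1) m
  rw [show m + s + 1 - m = s + 1 by omega] at h1
  have h2 : (m + s + 1).choose m ≤ (m + s + 1).choose (m + 1) * (m + 1) := by
    rw [h1]
    exact Nat.le_mul_of_pos_right _ (by omega)
  have h3 : 0 < (m + s + 1).choose (m + 1) := Nat.choose_pos (by omega)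
  have h4 : (m + 2 + 1) * (m + s + 1).choose (m + 1) ≤ (n + 1) * (m + s + 1).choose (m + 1) :=
    Nat.mul_le_mul_right _ (by omega)
  nlinarith

/-- Arithmetic: the numerical condition in even degree. -/
lemma arith_even {n m s : ℕ} (hm : 2 ≤ m) (hs : 2 ≤ s) :
    (n + 1) * (m + (s - 2) - 1).choose (m - 1) ≤ (m + s - 1).choose (m - 1) ↔
      (n + 1) * (s * (s - 1)) ≤ (m + s - 1) * (m + s - 2) := by
  obtain ⟨m, rfl⟩ : ∃ m', m = m' + 2 := ⟨m - 2, by omega⟩
  obtain ⟨s, rfl⟩ : ∃ s', s = s' + 2 := ⟨s - 2, by omega⟩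
  have e1 : m + 2 + (s + 2) - 1 = (m + s + 2) + 1 := by omega
  have e2 : m + 2 + (s + 2 - 2) - 1 = m + s + 1 := by omega
  have e3 : m + 2 - 1 = m + 1 := by omega
  have e4 : s + 2 - 1 = s + 1 := by omega
  have e5 : m + 2 + (s + 2) - 2 = m + s + 2 := by omega
  rw [e1, e2, e3, e4, e5]
  -- `C(m+s+3, m+1) (s+2)(s+1) = C(m+s+1, m+1) (m+s+3)(m+s+2)`
  have h1 : (m + s + 2).choose (m + 1) * (s + 1) = (m + s + 1).choose (m + 1) * (m + s + 2) := by
    have := Nat.choose_mul_succ_eq (m + s + 1) (m + 1)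
    rw [show m + s + 1 + 1 - (m + 1) = s + 1 by omega] at this
    linarith
  have h2 : (m + s + 2 + 1).choose (m + 1) * (s + 2) =
      (m + s + 2).choose (m + 1) * (m + s + 2 + 1) := by
    have := Nat.choose_mul_succ_eq (m + s + 2) (m + 1)
    rw [show m + s + 2 + 1 - (m + 1) = s + 2 by omega] at this
    linarith
  have h3 : (m + s + 2 + 1).choose (m + 1) * ((s + 2) * (s + 1)) =
      (m + s + 1).choose (m + 1) * ((m + s + 2 + 1) * (m + s + 2)) := by
    calc (m + s + 2 + 1).choose (m + 1) * ((s + 2) * (s + 1))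
        = ((m + s + 2 + 1).choose (m + 1) * (s + 2)) * (s + 1) := by ring
      _ = ((m + s + 2).choose (m + 1) * (s + 1)) * (m + s + 2 + 1) := by rw [h2]; ring
      _ = _ := by rw [h1]; ring
  have hC : 0 < (m + s + 1).choose (m + 1) := Nat.choose_pos (by omega)
  have hS : 0 < (s + 2) * (s + 1) := by positivity
  constructor
  · intro h
    have h4 := Nat.mul_le_mul_right ((s + 2) * (s + 1)) h
    rw [h3] at h4
    have h5 : (m + s + 1).choose (m + 1) * ((n + 1) * ((s + 2) * (s + 1))) ≤
        (m + s + 1).choose (m + 1) * ((m + s + 2 + 1) * (m + s + 2)) := by linarith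
    exact Nat.le_of_mul_le_mul_left h5 hC
  · intro h
    have h4 := Nat.mul_le_mul_left ((m + s + 1).choose (m + 1)) h
    have h5 : (n + 1) * (m + s + 1).choose (m + 1) * ((s + 2) * (s + 1)) ≤
        (m + s + 2 + 1).choose (m + 1) * ((s + 2) * (s + 1)) := by
      rw [h3]
      linarith
    exact Nat.le_of_mul_le_mul_right h5 hS

lemma arith_lt {m s : ℕ} (hm : 2 ≤ m) :
    (m + s - 1).choose (m - 1) + 1 ≤ (m + (s + 1) - 1).choose (m - 1) := by
  obtain ⟨m, rfl⟩ : ∃ m', m = m' + 2 := ⟨m - 2, by omega⟩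
  have h1 : (m + s + 1 + 1).choose (m + 1) = (m + s + 1).choose m + (m + s + 1).choose (m + 1) :=
    Nat.choose_succ_succ _ _
  have h2 : 0 < (m + s + 1).choose m := Nat.choose_pos (by omega)
  rw [show m + 2 + (s + 1) - 1 = (m + s + 1) + 1 by omega,
    show m + 2 + s - 1 = m + s + 1 by omega, show m + 2 - 1 = m + 1 by omega, h1]
  omega

/-- The weak Lefschetz property of a general Perazzo form. -/
theorem general_perazzo {n m d : ℕ} (hm : 2 ≤ m) (hnm : m ≤ n) (hd : 3 ≤ d)
    (hn : n + 1 ≤ (d + m - 2).choose (m - 1)) :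
    IsGen (K := K) (κ := Fin m) (ι := Fin (n + 1)) (d - 1) fun p =>
      LinearIndependent K p ∧ ¬ AlgebraicIndependent K p ∧
      ∀ G : MvPolynomial (Fin m) K, G.IsHomogeneous d →
        (HasWLP (perazzo p G) ↔ Even d ∧
          (n + 1) * (d / 2 * (d / 2 - 1)) ≤ (m + d / 2 - 1) * (m + d / 2 - 2)) := by
  have hli : IsGen (K := K) (κ := Fin m) (ι := Fin (n + 1)) (d - 1)
      fun p => LinearIndependent K p := by
    refine isGen_linearIndependent ?_
    rw [finrank_hom (by omega)]
    rwa [show m + (d - 1) - 1 = d + m - 2 by omega]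
  by_cases hnum : Even d ∧ (n + 1) * (d / 2 * (d / 2 - 1)) ≤ (m + d / 2 - 1) * (m + d / 2 - 2)
  · obtain ⟨hev, hnum'⟩ := hnum
    obtain ⟨s, hs⟩ := hev
    have hs2 : d / 2 = s := by omega
    have hk : d - 2 - d / 2 = s - 2 := by omega
    rw [hs2, ← arith_even hm (by omega)] at hnum'
    set lam : MvPolynomial (Fin m) K := X ⟨0, by omega⟩ with hlam
    have hlamh : lam.IsHomogeneous 1 := isHomogeneous_X _ _
    have hlam0 : lam ≠ 0 := X_ne_zero _
    have g1 : IsGen (K := K) (κ := Fin m) (ι := Fin (n + 1)) (d - 1) fun p =>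
        (n + 1) * Module.finrank K (Hom K (Fin m) (s - 2)) ≤
          Module.finrank K (derivs (fun j => act lam (p j)) (s - 2)) := by
      obtain ⟨q, hq, h1⟩ := exists_compressed (K := K) (κ := Fin m) (s - 2) s (n + 1)
      have h2 : ∀ j, ∃ q' : MvPolynomial (Fin m) K, q'.IsHomogeneous (1 + (s - 2 + s)) ∧
          act lam q' = q j := fun j => act_surj hlamh hlam0 (hq j)
      choose p₀ hp₀ h3 using h2
      refine isGen_derivs (J := Fin (n + 1)) (fun j => j) lam p₀ (fun j => ?_) ?_
      · have := hp₀ j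
        rwa [show 1 + (s - 2 + s) = d - 1 by omega] at this
      · have h4 : (fun j => act lam (p₀ j)) = q := funext h3
        rw [h4]
        rw [finrank_hom (by omega), finrank_hom (by omega), min_eq_left hnum'] at h1
        rw [finrank_hom (by omega)]
        exact h1
    have g2 : IsGen (K := K) (κ := Fin m) (ι := Fin (n + 1)) (d - 1) fun p =>
        Module.finrank K (Hom K (Fin m) (s - 2 + 1)) ≤
          Module.finrank K (derivs (fun _ : Fin 1 => act lam (p 0)) (s - 2 + 1)) := by
      obtain ⟨q, hq, h1⟩ := exists_compressed (K := K) (κ := Fin m) (s - 2 + 1) (s - 2 + 1) 1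
      obtain ⟨P, hP, h3⟩ := act_surj hlamh hlam0 (hq 0)
      refine isGen_derivs (J := Fin 1) (fun _ => 0) lam (fun _ => P) (fun j => ?_) ?_
      · rwa [show 1 + (s - 2 + 1 + (s - 2 + 1)) = d - 1 by omega] at hP
      · rw [one_mul, min_self] at h1
        have h4 : (fun _ : Fin 1 => act lam P) = q := by
          funext i
          rw [h3, Subsingleton.elim i 0]
        rw [h4]
        exact h1
    refine (hli.and (g1.and g2)).mono fun p hp h => ⟨h.1, not_algebraicIndependent hnm p,
      fun G hG => ⟨fun _ => ⟨⟨s, hs⟩, ?_⟩, fun _ => ?_⟩⟩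
    · rw [hs2, ← arith_even hm (by omega)]
      exact hnum'
    · exact wlp_of_finrank hd hlamh hp (by rw [hk]; exact h.2.1) (by rw [hk]; exact h.2.2) hG
  · have hbig : (m + d / 2 - 1).choose (m - 1) <
        (n + 1) * (m + (d - 2 - d / 2) - 1).choose (m - 1) := by
      rcases Nat.even_or_odd' d with ⟨s, hs | hs⟩
      · rw [show d / 2 = s by omega] at hnum ⊢
        rw [show d - 2 - s = s - 2 by omega]
        by_contra hc
        push Not at hc
        rw [arith_even hm (by omega)] at hc
        exact hnum ⟨⟨s, by omega⟩, hc⟩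
      · rw [show d / 2 = s by omega, show d - 2 - s = s - 1 by omega]
        exact arith_odd hm hnm (by omega)
    have g1 : IsGen (K := K) (κ := Fin m) (ι := Fin (n + 1)) (d - 1) fun p =>
        (m + d / 2 - 1).choose (m - 1) + 1 ≤
          Module.finrank K (derivs (fun j => act 1 (p j)) (d - 2 - d / 2)) := by
      obtain ⟨q, hq, h1⟩ := exists_compressed (K := K) (κ := Fin m)
        (d - 2 - d / 2) (d / 2 + 1) (n + 1)
      refine isGen_derivs (J := Fin (n + 1)) (fun j => j) 1 q (fun j => ?_) ?_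
      · have := hq j
        rwa [show d - 2 - d / 2 + (d / 2 + 1) = d - 1 by omega] at this
      · have h4 : (fun j => act 1 (q j)) = q := funext fun j => act_one _
        rw [h4]
        rw [finrank_hom (by omega), finrank_hom (by omega)] at h1
        refine le_trans (le_min hbig ?_) h1
        exact arith_lt hm
    refine (hli.and g1).mono fun p hp h => ⟨h.1, not_algebraicIndependent hnm p,
      fun G hG => ⟨fun hw => ?_, fun h' => absurd h' hnum⟩⟩
    exfalso
    have h1 := finrank_le_of_wlp hd hp hG hw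
    have h2 := h.2
    have h4 : (fun j => act 1 (p j)) = p := funext fun j => act_one _
    rw [h4] at h2
    rw [finrank_hom (by omega)] at h1
    omega

end Pool.Agent.Helper27.Pz
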