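import Pool.Agent.Helper27.PzDim

/-!
# General tuples of forms have as many independent derivatives as possible
-/

namespace Pool.Agent.Helper27.Pz

open MvPolynomial

variable {K : Type*} [Field K] {κ : Type*} [Fintype κ]

/-- Extraction of a subspace of given dimension. -/
lemma exists_sub_finrank {V : Type*} [AddCommGroup V] [Module K V] (S : Submodule K V) {r : ℕ}
    (h : r ≤ Module.finrank K S) :
    ∃ W : Submodule K V, W ≤ S ∧ Module.finrank K W = r := by
  obtain ⟨f, hf⟩ := exists_linearIndependent_of_le_finrank h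
  refine ⟨Submodule.span K (Set.range fun i => (f i : V)), ?_, ?_⟩
  · rw [Submodule.span_le]
    rintro _ ⟨i, rfl⟩
    exact (f i).2
  · have h1 : LinearIndependent K fun i => (f i : V) :=
      hf.map' S.subtype (Submodule.ker_subtype S)
    rw [finrank_span_eq_card h1, Fintype.card_fin]

/-- The functional on a subspace given by pairing. -/
noncomputable def pairOn (I : Submodule K (MvPolynomial κ K)) :
    MvPolynomial κ K →ₗ[K] (I →ₗ[K] K) where
  toFun g := (pairL g).domRestrict I
  map_add' a b := by
    ext x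
    simp [pairL_apply]
  map_smul' c a := by
    ext x
    simp [pairL_apply]

lemma pairOn_apply (I : Submodule K (MvPolynomial κ K)) (g : MvPolynomial κ K) (x : I) :
    pairOn I g x = pair g x := rfl

/-- The forms of degree `b` orthogonal to `I`. -/
lemma exists_perp (b : ℕ) (I : Submodule K (MvPolynomial κ K)) [FiniteDimensional K I] :
    ∃ V : Submodule K (MvPolynomial κ K), (∀ g ∈ V, g.IsHomogeneous b ∧ ∀ w ∈ I, pair g w = 0) ∧
      Module.finrank K (Hom K κ b) ≤ Module.finrank K V + Module.finrank K I := by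
  set L := (pairOn I).domRestrict (Hom K κ b) with hL
  refine ⟨(LinearMap.ker L).map (Hom K κ b).subtype, ?_, ?_⟩
  · rintro _ ⟨g, hg, rfl⟩
    refine ⟨g.2, fun w hw => ?_⟩
    exact DFunLike.congr_fun (show L g = 0 from hg) (⟨w, hw⟩ : I)
  · rw [Submodule.finrank_map_subtype_eq]
    have h1 := LinearMap.finrank_range_add_finrank_ker L
    have h2 : Module.finrank K (LinearMap.range L) ≤ Module.finrank K I := by
      have h3 := Submodule.finrank_le (LinearMap.range L)
      have h4 : Module.finrank K (I →ₗ[K] K) = Module.finrank K I := Subspace.dual_finrank_eq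
      omega
    omega

variable [CharZero K]

/-- Existence of tuples of forms with many independent derivatives. -/
lemma exists_compressed (a b t : ℕ) :
    ∃ q : Fin t → MvPolynomial κ K, (∀ j, (q j).IsHomogeneous (a + b)) ∧
      min (t * Module.finrank K (Hom K κ a)) (Module.finrank K (Hom K κ b)) ≤
        Module.finrank K (derivs q a) := by
  induction t with
  | zero => exact ⟨Fin.elim0, fun j => j.elim0, by simp⟩
  | succ t ih =>
    obtain ⟨q, hq, h1⟩ := ih
    set I := derivs q a with hI
    have hIh : ∀ w ∈ I, w.IsHomogeneous b := fun w hw => derivs_homog hq hw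
    have := finiteDimensional_of_homog hIh
    obtain ⟨V, hV, h2⟩ := exists_perp b I
    obtain ⟨W, hW, hWr⟩ := exists_sub_finrank (Hom K κ a)
      (r := min (Module.finrank K (Hom K κ a)) (Module.finrank K V)) (min_le_left _ _)
    obtain ⟨q', hq', h3⟩ := exists_form V W (fun g hg => (hV g hg).1) (fun f hf => hW hf)
      (by rw [hWr]; exact min_le_right _ _)
    refine ⟨Fin.snoc (α := fun _ => MvPolynomial κ K) q q', fun j => ?_, ?_⟩
    · refine Fin.lastCases ?_ (fun i => ?_) j
      · rw [Fin.snoc_last]; exact hq'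
      · rw [Fin.snoc_castSucc]; exact hq i
    · have hsub1 : I ≤ derivs (Fin.snoc (α := fun _ => MvPolynomial κ K) q q') a := by
        refine Submodule.span_mono ?_
        rintro _ ⟨j, θ, hθ, rfl⟩
        exact ⟨j.castSucc, θ, hθ, by rw [Fin.snoc_castSucc]⟩
      have hsub2 : W.map (actTo q') ≤
          derivs (Fin.snoc (α := fun _ => MvPolynomial κ K) q q') a := by
        rintro _ ⟨θ, hθ, rfl⟩
        refine Submodule.subset_span ⟨Fin.last t, θ, hW hθ, ?_⟩
        rw [Fin.snoc_last, actTo_apply]
      have hfin : ∀ w ∈ derivs (Fin.snoc (α := fun _ => MvPolynomial κ K) q q') a,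
          w.IsHomogeneous b := fun w hw => derivs_homog (fun j => by
            refine Fin.lastCases ?_ (fun i => ?_) j
            · rw [Fin.snoc_last]; exact hq'
            · rw [Fin.snoc_castSucc]; exact hq i) hw
      have := finiteDimensional_of_homog hfin
      have hkey : ∀ f ∈ W, actTo q' f ∈ I → f = 0 := by
        intro f hf h4
        refine h3 f hf fun g hg => ?_
        rw [mul_comm, pair_mul]
        exact (hV g hg).2 _ h4
      have hdis : Disjoint I (W.map (actTo q')) := by
        rw [Submodule.disjoint_def]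
        rintro _ hx ⟨f, hf, rfl⟩
        rw [hkey f hf hx, map_zero]
      have hWfin : FiniteDimensional K W := finiteDimensional_of_homog (fun f hf => hW hf)
      have hfr : Module.finrank K (W.map (actTo q')) = Module.finrank K W := by
        have hi : Function.Injective ((actTo q').domRestrict W) := by
          rw [← LinearMap.ker_eq_bot, LinearMap.ker_eq_bot']
          intro x hx
          refine Subtype.ext (hkey x x.2 ?_)
          rw [show actTo q' x = 0 from hx]
          exact I.zero_mem
        rw [← LinearMap.range_domRestrict]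
        exact LinearMap.finrank_range_of_inj hi
      have h5 := Submodule.finrank_mono (sup_le hsub1 hsub2)
      have h6 := Submodule.finrank_sup_add_finrank_inf_eq I (W.map (actTo q'))
      rw [hdis.eq_bot, finrank_bot, add_zero, hfr, hWr] at h6
      rw [add_mul, one_mul]
      have h7 := Submodule.finrank_mono (s := I) (t := Hom K κ b) hIh
      generalize Module.finrank K (Hom K κ a) = A at *
      generalize Module.finrank K (Hom K κ b) = B at *
      generalize Module.finrank K V = v at *
      generalize Module.finrank K I = i at *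
      generalize t * A = T at *
      omega

/-! ### Generic properties of tuples of forms -/

variable {ι : Type*} [Fintype ι]

omit [CharZero K] in
/-- The tuple of forms with coefficients `x`. -/
noncomputable def tupOf (e : ℕ) (x : ι × (κ →₀ ℕ) → K) : ι → MvPolynomial κ K :=
  fun j => formOf e fun a => x (j, a)

/-- The coefficients of a tuple. -/
def cf (p : ι → MvPolynomial κ K) : ι × (κ →₀ ℕ) → K := fun t => coeff t.2 (p t.1)

omit [CharZero K] [Fintype ι] in
lemma tupOf_homog (e : ℕ) (x : ι × (κ →₀ ℕ) → K) (j : ι) : (tupOf e x j).IsHomogeneous e :=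
  formOf_homog _ _

omit [CharZero K] [Fintype ι] in
lemma tupOf_cf {e : ℕ} {p : ι → MvPolynomial κ K} (hp : ∀ j, (p j).IsHomogeneous e) :
    tupOf e (cf p) = p := by
  funext j
  exact formOf_coeff (hp j)

/-- The linear polynomial in the coefficients of a tuple given by a functional. -/
noncomputable def linPolyT (e : ℕ) (η : (ι → MvPolynomial κ K) →ₗ[K] K) :
    MvPolynomial (ι × (κ →₀ ℕ)) K :=
  open Classical in
  ∑ j, ∑ a ∈ expo κ e, C (η (Pi.single j (monomial a 1))) * X (j, a)

omit [CharZero K] in
lemma eval_linPolyT (e : ℕ) (η : (ι → MvPolynomial κ K) →ₗ[K] K) (x : ι × (κ →₀ ℕ) → K) :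
    eval x (linPolyT e η) = η (tupOf e x) := by
  classical
  have h : tupOf e x = ∑ j, ∑ a ∈ expo κ e, x (j, a) • Pi.single j (monomial a (1 : K)) := by
    funext i
    rw [Finset.sum_apply, Finset.sum_eq_single i]
    · rw [Finset.sum_apply]
      unfold tupOf formOf
      refine Finset.sum_congr rfl fun a _ => ?_
      rw [Pi.smul_apply, Pi.single_eq_same, smul_monomial, smul_eq_mul, mul_one]
    · intro j _ hj
      rw [Finset.sum_apply]
      refine Finset.sum_eq_zero fun a _ => ?_
      rw [Pi.smul_apply, Pi.single_eq_of_ne (Ne.symm hj), smul_zero]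
    · intro h; exact absurd (Finset.mem_univ _) h
  rw [h]
  unfold linPolyT
  simp only [map_sum, map_smul]
  refine Finset.sum_congr rfl fun j _ => Finset.sum_congr rfl fun a _ => ?_
  rw [map_mul, eval_C, eval_X, smul_eq_mul, mul_comm]

/-- A property of tuples of forms of degree `e` that holds on a nonempty open set. -/
def IsGen (e : ℕ) (Q : (ι → MvPolynomial κ K) → Prop) : Prop :=
  ∃ Δ : MvPolynomial (ι × (κ →₀ ℕ)) K, Δ ≠ 0 ∧
    (∀ x, eval x Δ = eval (cf (tupOf e x)) Δ) ∧
    ∀ p : ι → MvPolynomial κ K, (∀ j, (p j).IsHomogeneous e) → eval (cf p) Δ ≠ 0 → Q p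

omit [CharZero K] [Fintype ι] in
lemma IsGen.and {e : ℕ} {Q Q' : (ι → MvPolynomial κ K) → Prop} (h : IsGen e Q)
    (h' : IsGen e Q') : IsGen e fun p => Q p ∧ Q' p := by
  obtain ⟨Δ, h1, h2, h3⟩ := h
  obtain ⟨Δ', h1', h2', h3'⟩ := h'
  refine ⟨Δ * Δ', mul_ne_zero h1 h1', fun x => ?_, fun p hp h4 => ?_⟩
  · rw [map_mul, map_mul, ← h2, ← h2']
  · rw [map_mul] at h4
    exact ⟨h3 p hp (left_ne_zero_of_mul h4), h3' p hp (right_ne_zero_of_mul h4)⟩

omit [CharZero K] [Fintype ι] in
lemma IsGen.mono {e : ℕ} {Q Q' : (ι → MvPolynomial κ K) → Prop} (h : IsGen e Q)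
    (h' : ∀ p : ι → MvPolynomial κ K, (∀ j, (p j).IsHomogeneous e) → Q p → Q' p) :
    IsGen e Q' := by
  obtain ⟨Δ, h1, h2, h3⟩ := h
  exact ⟨Δ, h1, h2, fun p hp h4 => h' p hp (h3 p hp h4)⟩

omit [CharZero K] [Fintype ι] in
lemma IsGen.exists [Infinite K] {e : ℕ} {Q : (ι → MvPolynomial κ K) → Prop} (h : IsGen e Q) :
    ∃ Δ : MvPolynomial (ι × (κ →₀ ℕ)) K,
      (∃ p : ι → MvPolynomial κ K, (∀ j, (p j).IsHomogeneous e) ∧ eval (cf p) Δ ≠ 0) ∧
      ∀ p : ι → MvPolynomial κ K, (∀ j, (p j).IsHomogeneous e) → eval (cf p) Δ ≠ 0 → Q p := by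
  obtain ⟨Δ, h1, h2, h3⟩ := h
  obtain ⟨x, hx⟩ : ∃ x, eval x Δ ≠ 0 := by
    by_contra hc
    push Not at hc
    exact h1 (MvPolynomial.funext fun x => by rw [hc x, map_zero])
  exact ⟨Δ, ⟨tupOf e x, tupOf_homog e x, by rwa [← h2]⟩, h3⟩

omit [CharZero K] in
/-- Semicontinuity. -/
lemma isGen_of_exists {e r : ℕ} {T : Type*} [Finite T]
    (Ψ : T → (ι → MvPolynomial κ K) →ₗ[K] MvPolynomial κ K) (p₀ : ι → MvPolynomial κ K)
    (hp₀ : ∀ j, (p₀ j).IsHomogeneous e)
    (h : r ≤ Module.finrank K (Submodule.span K (Set.range fun t => Ψ t p₀))) :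
    IsGen e fun p => r ≤ Module.finrank K (Submodule.span K (Set.range fun t => Ψ t p)) := by
  classical
  obtain ⟨u, hu⟩ : ∃ u : Fin r → T, LinearIndependent K fun i => Ψ (u i) p₀ := by
    obtain ⟨b, hb, hb', hli⟩ := exists_linearIndependent K (Set.range fun t => Ψ t p₀)
    have hfin : b.Finite := (Set.finite_range _).subset hb
    have := hfin.fintype
    have hcard : r ≤ Fintype.card b := by
      rw [← hb'] at h
      rwa [← finrank_span_eq_card hli, Subtype.range_coe]
    obtain ⟨emb⟩ : Nonempty (Fin r ↪ b) := by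
      rw [Function.Embedding.nonempty_iff_card_le, Fintype.card_fin]
      exact hcard
    choose g hg using fun i : Fin r => hb (emb i).2
    refine ⟨g, ?_⟩
    have h1 := hli.comp emb emb.injective
    have h2 : (fun i => Ψ (g i) p₀) = Subtype.val ∘ emb := funext hg
    rw [h2]
    exact h1
  obtain ⟨L, hL⟩ := LinearMap.exists_leftInverse_of_injective
    (Fintype.linearCombination K fun i => Ψ (u i) p₀)
    (LinearMap.ker_eq_bot.2 (linearIndependent_iff_injective_fintypeLinearCombination.1 hu))
  have hL' : ∀ i, L (Ψ (u i) p₀) = Pi.single i 1 := by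
    intro i
    have h1 : Ψ (u i) p₀ = Fintype.linearCombination K (fun i => Ψ (u i) p₀)
        (Pi.single i (1 : K)) := by
      rw [Fintype.linearCombination_apply_single, one_smul]
    rw [h1]
    exact DFunLike.congr_fun hL _
  set M : Fin r → Fin r → (ι → MvPolynomial κ K) →ₗ[K] K :=
    fun i j => (LinearMap.proj j) ∘ₗ L ∘ₗ (Ψ (u i)) with hM
  set Δ : MvPolynomial (ι × (κ →₀ ℕ)) K :=
    (Matrix.of fun i j => linPolyT e (M i j)).det with hΔ
  have hev : ∀ x, eval x Δ = (Matrix.of fun i j => M i j (tupOf e x)).det := by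
    intro x
    rw [hΔ, RingHom.map_det]
    congr 1
    ext i j
    simp only [RingHom.mapMatrix_apply, Matrix.map_apply, Matrix.of_apply]
    rw [eval_linPolyT]
  refine ⟨Δ, ?_, ?_, ?_⟩
  · intro h0
    have h1 := hev (cf p₀)
    rw [tupOf_cf hp₀, h0, map_zero] at h1
    have h2 : (Matrix.of fun i j => M i j p₀) = 1 := by
      ext i j
      rw [Matrix.of_apply, hM]
      simp only [LinearMap.coe_comp, Function.comp_apply, LinearMap.coe_proj, Function.eval]
      rw [hL' i, Matrix.one_apply, Pi.single_apply]
      simp only [eq_comm]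
    rw [h2, Matrix.det_one] at h1
    exact zero_ne_one h1
  · intro x
    rw [hev, hev, tupOf_cf (tupOf_homog e x)]
  · intro p hp h1
    rw [hev, tupOf_cf hp] at h1
    have h2 : LinearIndependent K fun i => Ψ (u i) p := by
      rw [Fintype.linearIndependent_iff]
      intro c hc
      have h3 : Matrix.vecMul c (Matrix.of fun i j => M i j p) = 0 := by
        funext j
        rw [Matrix.vecMul, dotProduct, Pi.zero_apply]
        have h4 := congrArg (fun w => L w j) hc
        simp only [map_sum, map_smul, map_zero, Finset.sum_apply, Pi.smul_apply, Pi.zero_apply,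
          smul_eq_mul] at h4
        exact h4
      by_contra hne
      push Not at hne
      obtain ⟨i, hi⟩ := hne
      exact h1 (Matrix.exists_vecMul_eq_zero_iff.1 ⟨c, fun h0 => hi (by rw [h0]; rfl), h3⟩)
    have h3 : Module.finrank K (Submodule.span K (Set.range fun i => Ψ (u i) p)) = r := by
      rw [finrank_span_eq_card h2, Fintype.card_fin]
    have h4 : FiniteDimensional K (Submodule.span K (Set.range fun t => Ψ t p)) :=
      FiniteDimensional.span_of_finite K (Set.finite_range _)
    rw [← h3]
    refine Submodule.finrank_mono (Submodule.span_mono ?_)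
    rintro _ ⟨i, rfl⟩
    exact ⟨u i, rfl⟩

end Pool.Agent.Helper27.Pz
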