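import Pool.Agent.Helper27.PzGen

/-!
# The criterion in terms of the level algebra `B = K[u] ⧸ Ann(p_0, …, p_n)`
-/

namespace Pool.Agent.Helper27.Pz

open MvPolynomial

variable {K : Type*} [Field K] {ι κ : Type*} [Fintype ι] [Fintype κ]

lemma act_eq_zero_iff_pair {φ w : MvPolynomial κ K} {e : ℕ} (hφ : φ.IsHomogeneous e)
    (hw : w.IsHomogeneous e) : act φ w = 0 ↔ pair φ w = 0 := by
  have h : (act φ w).IsHomogeneous 0 := act_homog hφ (by rwa [add_zero])
  rw [eq_C_of_homog_zero h, C_eq_zero, pair_apply]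

/-- The action of a fixed polynomial. -/
noncomputable def actBy (lam : MvPolynomial κ K) : MvPolynomial κ K →ₗ[K] MvPolynomial κ K :=
  act lam

lemma actBy_apply (lam w : MvPolynomial κ K) : actBy lam w = act lam w := rfl

variable [CharZero K]

/-- The orthogonal of `Ann(p)` is the space of derivatives. -/
lemma mem_derivs_of_perp {p : ι → MvPolynomial κ K} {k b : ℕ}
    (hp : ∀ j, (p j).IsHomogeneous (k + b)) {w : MvPolynomial κ K} (hw : w.IsHomogeneous b)
    (h : ∀ g : MvPolynomial κ K, g.IsHomogeneous b → (∀ j, act g (p j) = 0) → pair g w = 0) :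
    w ∈ derivs p k := by
  refine mem_of_pair (derivs p k) (fun v hv => derivs_homog hp hv) hw fun φ hφ h1 => ?_
  refine h φ hφ fun j => ?_
  refine eq_zero_of_pair (k := k) (act_homog hφ (by
    have := hp j
    rwa [add_comm] at this)) fun θ hθ => ?_
  rw [← pair_mul, mul_comm, pair_mul]
  exact h1 _ (Submodule.subset_span ⟨j, θ, hθ, rfl⟩)

/-- The orthogonal of `(Ann(p) : λ)` is `λ` applied to the space of derivatives. -/
lemma mem_map_of_perp {p : ι → MvPolynomial κ K} {lam : MvPolynomial κ K} {k b : ℕ}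
    (hlam : lam.IsHomogeneous 1)
    (hp : ∀ j, (p j).IsHomogeneous (k + (1 + b))) {h : MvPolynomial κ K} (hh : h.IsHomogeneous b)
    (h1 : ∀ g : MvPolynomial κ K, g.IsHomogeneous b → (∀ j, act (lam * g) (p j) = 0) →
      pair g h = 0) :
    ∃ w ∈ derivs p k, h = act lam w := by
  have hmem : h ∈ (derivs p k).map (actBy lam) := by
    refine mem_of_pair _ ?_ hh fun φ hφ h2 => ?_
    · rintro _ ⟨w, hw, rfl⟩
      rw [actBy_apply]
      exact act_homog hlam (derivs_homog hp hw)
    · refine h1 φ hφ fun j => ?_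
      refine eq_zero_of_pair (k := k) (act_homog (hlam.mul hφ) (by
        have := hp j
        rwa [add_comm] at this)) fun θ hθ => ?_
      rw [← pair_mul, show θ * (lam * φ) = φ * lam * θ by ring, pair_mul, pair_mul]
      exact h2 _ (Submodule.mem_map_of_mem (Submodule.subset_span ⟨j, θ, hθ, rfl⟩))
  obtain ⟨w, hw, h3⟩ := hmem
  exact ⟨w, hw, h3.symm⟩

/-- The elements of degree `i + 1` that are multiples of `λ` modulo `Ann(p)`. -/
noncomputable def levSp (p : ι → MvPolynomial κ K) (lam : MvPolynomial κ K) (i : ℕ) :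
    Submodule K (MvPolynomial κ K) where
  carrier := {g | g.IsHomogeneous (i + 1) ∧
    ∃ h : MvPolynomial κ K, h.IsHomogeneous i ∧ ∀ j, act (g - lam * h) (p j) = 0}
  zero_mem' := ⟨isHomogeneous_zero _ _ _, 0, isHomogeneous_zero _ _ _, by simp⟩
  add_mem' := by
    rintro a b ⟨ha, φ, hφ, h1⟩ ⟨hb, φ', hφ', h2⟩
    refine ⟨ha.add hb, φ + φ', hφ.add hφ', fun j => ?_⟩
    rw [show a + b - lam * (φ + φ') = (a - lam * φ) + (b - lam * φ') by ring, map_add,
      LinearMap.add_apply, h1, h2, add_zero]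
  smul_mem' := by
    rintro c a ⟨ha, φ, hφ, h1⟩
    refine ⟨(homogeneousSubmodule κ K (i + 1)).smul_mem c ha, c • φ,
      (homogeneousSubmodule κ K i).smul_mem c hφ, fun j => ?_⟩
    rw [mul_smul_comm, ← smul_sub, map_smul, LinearMap.smul_apply, h1, smul_zero]

lemma injOnDerivs_iff {p : ι → MvPolynomial κ K} {lam : MvPolynomial κ K} {k s : ℕ}
    (hlam : lam.IsHomogeneous 1) (hp : ∀ j, (p j).IsHomogeneous (k + (s + 1))) :
    InjOnDerivs p lam k ↔ LevelSurj p lam s := by
  constructor
  · intro h g hg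
    have hmem : g ∈ levSp p lam s := by
      refine mem_of_pair (levSp p lam s) (fun v hv => hv.1) hg fun w hw h1 => ?_
      suffices hw0 : w = 0 by rw [hw0, map_zero, LinearMap.zero_apply]
      have hwd : w ∈ derivs p k := mem_derivs_of_perp hp hw fun g' hg' h2 => by
        rw [pair_comm]
        refine h1 g' ⟨hg', 0, isHomogeneous_zero _ _ _, fun j => ?_⟩
        rw [mul_zero, sub_zero, h2 j]
      refine h w hwd ?_
      refine eq_zero_of_pair (k := s) (act_homog hlam (by rwa [add_comm] at hw)) fun θ hθ => ?_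
      rw [← pair_mul, pair_comm, mul_comm]
      refine h1 _ ⟨?_, θ, hθ, fun j => ?_⟩
      · have := hlam.mul hθ
        rwa [add_comm] at this
      · rw [sub_self, map_zero, LinearMap.zero_apply]
    exact hmem.2
  · intro h w hw h1
    refine eq_zero_of_pair (derivs_homog hp hw) fun g hg => ?_
    obtain ⟨θ, _, h2⟩ := h g hg
    obtain ⟨v, hv, rfl⟩ := mem_derivs.1 hw
    have h3 : pair (g - lam * θ) (∑ j, act (v j) (p j)) = 0 := by
      rw [map_sum]
      refine Finset.sum_eq_zero fun j _ => ?_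
      rw [← pair_mul, mul_comm, pair_mul, h2 j, map_zero]
    have h4 : pair (lam * θ) (∑ j, act (v j) (p j)) = 0 := by
      rw [mul_comm, pair_mul, h1, map_zero]
    rw [map_sub, LinearMap.sub_apply, h4, sub_zero] at h3
    exact h3

lemma condB_iff {p : ι → MvPolynomial κ K} {G lam : MvPolynomial κ K} {c : ι → K} {k s : ℕ}
    (hlam : lam.IsHomogeneous 1) (hp : ∀ j, (p j).IsHomogeneous (k + (1 + s)))
    (hG : G.IsHomogeneous (k + 1 + (1 + s))) :
    CondB p G lam c k ↔ CondPair p G lam c (k + 1) s := by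
  have hQ : (∑ j, c j • p j + act lam G).IsHomogeneous (k + 1 + s) := by
    refine IsHomogeneous.add (IsHomogeneous.sum _ _ _ fun j _ => ?_) ?_
    · refine (homogeneousSubmodule κ K _).smul_mem _ ?_
      have := hp j
      rwa [show k + (1 + s) = k + 1 + s by ring] at this
    · exact act_homog hlam (by rwa [show k + 1 + (1 + s) = 1 + (k + 1 + s) by ring] at hG)
  have h1 : ∀ f : MvPolynomial κ K, f.IsHomogeneous (k + 1) →
      ((∃ w ∈ derivs p k, act f (∑ j, c j • p j + act lam G) = act lam w) ↔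
        (∀ g : MvPolynomial κ K, g.IsHomogeneous s → (∀ j, act (lam * g) (p j) = 0) →
          act (f * g) (∑ j, c j • p j + act lam G) = 0)) := by
    intro f hf
    constructor
    · rintro ⟨w, hw, h2⟩ g hg h3
      rw [act_eq_zero_iff_pair (hf.mul hg) hQ, mul_comm, pair_mul, h2, ← pair_mul,
        show g * lam = 1 * (lam * g) by ring]
      exact pair_derivs_eq_zero h3 1 hw
    · intro h2
      refine mem_map_of_perp hlam hp (act_homog hf hQ) fun g hg h3 => ?_
      have := h2 g hg h3
      rwa [act_eq_zero_iff_pair (hf.mul hg) hQ, mul_comm, pair_mul] at this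
  have h2 : ∀ f : MvPolynomial κ K, f.IsHomogeneous (k + 1) →
      (act f G ∈ derivs p k ↔
        ∀ g : MvPolynomial κ K, g.IsHomogeneous (s + 1) → (∀ j, act g (p j) = 0) →
          act (f * g) G = 0) := by
    intro f hf
    constructor
    · intro h3 g hg h4
      rw [act_eq_zero_iff_pair (hf.mul hg) (by rwa [add_comm s 1]), mul_comm, pair_mul]
      obtain ⟨v, hv, h5⟩ := mem_derivs.1 h3
      rw [h5, map_sum]
      refine Finset.sum_eq_zero fun j _ => ?_
      rw [← pair_mul, mul_comm, pair_mul, h4 j, map_zero]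
    · intro h3
      refine mem_derivs_of_perp (b := 1 + s) hp (act_homog hf hG) fun g hg h4 => ?_
      have := h3 g (by rwa [add_comm]) h4
      rwa [act_eq_zero_iff_pair (hf.mul hg) hG, mul_comm, pair_mul] at this
  unfold CondB CondPair
  refine forall_congr' fun f => forall_congr' fun hf => forall_congr' fun _ => ?_
  rw [h1 f hf, h2 f hf]

/-- The criterion, in terms of `Ann(p_0, …, p_n)`. -/
theorem wlp_iff' {p : ι → MvPolynomial κ K} {G : MvPolynomial κ K} {d : ℕ} (hd : 3 ≤ d)
    (hp : ∀ j, (p j).IsHomogeneous (d - 1)) (hG : G.IsHomogeneous d) :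
    HasWLP (perazzo p G) ↔
      ∃ (lam : MvPolynomial κ K) (c : ι → K), lam.IsHomogeneous 1 ∧
        LevelSurj p lam (d / 2) ∧ CondPair p G lam c (d - 1 - d / 2) (d / 2) := by
  rw [wlp_iff hd hp hG]
  refine exists_congr fun lam => exists_congr fun c => and_congr_right fun hlam => ?_
  have e1 : d - 1 = (d - 2 - d / 2) + (d / 2 + 1) := by omega
  have e2 : d - 1 - d / 2 = d - 2 - d / 2 + 1 := by omega
  rw [injOnDerivs_iff (s := d / 2) hlam (by rwa [← e1]), e2,
    condB_iff (s := d / 2) hlam (by rwa [add_comm 1 (d / 2), ← e1])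
      (by rwa [show d - 2 - d / 2 + 1 + (1 + d / 2) = d by omega])]

end Pool.Agent.Helper27.Pz
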