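import Pool.Agent.Helper27.PzAct

/-!
# Perazzo forms, their apolar algebras and the weak Lefschetz property
-/

namespace Pool.Agent.Helper27.Pz

open MvPolynomial

variable {K : Type*} [Field K] {σ : Type*} [Fintype σ]

/-- The annihilator `Ann F` of a polynomial `F` under the differentiation action. -/
noncomputable def annIdeal (F : MvPolynomial σ K) : Ideal (MvPolynomial σ K) where
  carrier := {φ | act φ F = 0}
  zero_mem' := by simp
  add_mem' := by
    intro a b ha hb
    simp only [Set.mem_ofPred_eq] at ha hb ⊢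
    rw [map_add, LinearMap.add_apply, ha, hb, add_zero]
  smul_mem' := by
    intro c x hx
    simp only [Set.mem_ofPred_eq] at hx ⊢
    rw [smul_eq_mul, act_mul, hx, map_zero]

/-- The degree `i` piece of the algebra `A_F = R ⧸ Ann F`: the classes of the homogeneous
polynomials of degree `i`. -/
noncomputable def piece (F : MvPolynomial σ K) (i : ℕ) :
    Submodule K (MvPolynomial σ K ⧸ annIdeal F) :=
  (homogeneousSubmodule σ K i).map (Ideal.Quotient.mkₐ K (annIdeal F)).toLinearMap

/-- The weak Lefschetz property of `A_F`: some `ℓ` in `(A_F)_1` makes every multiplication map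
`(A_F)_i → (A_F)_(i+1)` injective or surjective. -/
def HasWLP (F : MvPolynomial σ K) : Prop :=
  ∃ l ∈ piece F 1, ∀ i : ℕ,
    (∀ x ∈ piece F i, l * x = 0 → x = 0) ∨
    (∀ y ∈ piece F (i + 1), ∃ x ∈ piece F i, l * x = y)

/-- The form `X_0 p_0 + ⋯ + X_n p_n + G` in the variables `X_0, …, X_n` (indexed by
`Sum.inl j`) and `U_1, …, U_m` (indexed by `Sum.inr k`). -/
noncomputable def perazzo {ι κ : Type*} [Fintype ι] (p : ι → MvPolynomial κ K)
    (G : MvPolynomial κ K) : MvPolynomial (ι ⊕ κ) K :=
  ∑ j, X (Sum.inl j) * rename Sum.inr (p j) + rename Sum.inr G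

/-- The space spanned by all partial derivatives of order `k` of the polynomials `p j`. -/
noncomputable def derivs {ι κ : Type*} [Fintype κ] (p : ι → MvPolynomial κ K) (k : ℕ) :
    Submodule K (MvPolynomial κ K) :=
  Submodule.span K {w | ∃ j, ∃ θ : MvPolynomial κ K, θ.IsHomogeneous k ∧ w = act θ (p j)}

/-- Let `I = Ann(p_0, …, p_n) ⊆ K[u]` and `B = K[u] ⧸ I`. The multiplication by the linear form
`lam` from degree `i` to degree `i + 1` of `B` is surjective: every form `g` of degree `i + 1` is
congruent to `lam * h` modulo `I` for some form `h` of degree `i`. -/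
def LevelSurj {ι κ : Type*} [Fintype κ] (p : ι → MvPolynomial κ K) (lam : MvPolynomial κ K)
    (i : ℕ) : Prop :=
  ∀ g : MvPolynomial κ K, g.IsHomogeneous (i + 1) →
    ∃ h : MvPolynomial κ K, h.IsHomogeneous i ∧ ∀ j, act (g - lam * h) (p j) = 0

/-- Let `I = Ann(p_0, …, p_n)` and `P = ∑ c_j p_j`. If `f` is a form of degree `a` with
`lam * f ∈ I` and `(f * g) ∘ (P + lam ∘ G) = 0` for all forms `g` of degree `s` with
`lam * g ∈ I`, then `f ∈ I` and `(f * g) ∘ G = 0` for all forms `g ∈ I` of degree `s + 1`. -/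
def CondPair {ι κ : Type*} [Fintype ι] [Fintype κ] (p : ι → MvPolynomial κ K)
    (G lam : MvPolynomial κ K) (c : ι → K) (a s : ℕ) : Prop :=
  ∀ f : MvPolynomial κ K, f.IsHomogeneous a → (∀ j, act (lam * f) (p j) = 0) →
    (∀ g : MvPolynomial κ K, g.IsHomogeneous s → (∀ j, act (lam * g) (p j) = 0) →
      act (f * g) (∑ j, c j • p j + act lam G) = 0) →
    (∀ j, act f (p j) = 0) ∧
      ∀ g : MvPolynomial κ K, g.IsHomogeneous (s + 1) → (∀ j, act g (p j) = 0) →
        act (f * g) G = 0

end Pool.Agent.Helper27.Pz
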