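import Pool.Agent.Helper27.PzCrit

/-!
# Dimensions of spaces of forms
-/

namespace Pool.Agent.Helper27.Pz

open MvPolynomial

variable {K : Type*} [Field K] {κ : Type*} [Fintype κ]

/-- The forms of degree `k`. -/
noncomputable abbrev Hom (K : Type*) [Field K] (κ : Type*) (k : ℕ) :
    Submodule K (MvPolynomial κ K) :=
  homogeneousSubmodule κ K k

instance (k : ℕ) : FiniteDimensional K (Hom K κ k) :=
  finiteDimensional_of_homog (k := k) fun _ h => h

lemma hom_eq_span (k : ℕ) :
    Hom K κ k = Submodule.span K (Set.range fun a : expo κ k => monomial a.1 (1 : K)) := by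
  classical
  apply le_antisymm
  · intro w hw
    have hw' : w.IsHomogeneous k := hw
    rw [← w.support_sum_monomial_coeff]
    refine Submodule.sum_mem _ fun a ha => ?_
    rw [show monomial a (coeff a w) = coeff a w • monomial a (1 : K) by
      rw [smul_monomial, smul_eq_mul, mul_one]]
    exact Submodule.smul_mem _ _ (Submodule.subset_span
      ⟨⟨a, mem_expo.2 (deg_of_mem hw' ha)⟩, rfl⟩)
  · rw [Submodule.span_le]
    rintro _ ⟨a, rfl⟩
    exact isHomogeneous_monomial _ (mem_expo.1 a.2)

lemma finrank_hom_eq_card (k : ℕ) : Module.finrank K (Hom K κ k) = (expo κ k).card := by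
  rw [hom_eq_span, finrank_span_eq_card, Fintype.card_coe]
  have := (basisMonomials κ K).linearIndependent.comp (fun a : expo κ k => a.1)
    Subtype.val_injective
  simpa [Function.comp_def] using this

lemma card_expo (k : ℕ) : (expo κ k).card = (Fintype.card κ + k - 1).choose k := by
  classical
  have h : expo κ k = (Finset.univ : Finset κ).finsuppAntidiag k := by
    ext a
    rw [mem_expo, Finset.mem_finsuppAntidiag]
    simp [Finsupp.degree_eq_sum]
  rw [h, Finset.card_finsuppAntidiag_nat_eq_choose, Finset.card_univ]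

lemma finrank_hom {m : ℕ} (hm : 1 ≤ m) (k : ℕ) :
    Module.finrank K (Hom K (Fin m) k) = (m + k - 1).choose (m - 1) := by
  rw [finrank_hom_eq_card, card_expo, Fintype.card_fin]
  exact Nat.choose_symm_of_eq_add (show m + k - 1 = k + (m - 1) by omega)

variable [CharZero K]

lemma act_surj {f : MvPolynomial κ K} {a e : ℕ} (hf : f.IsHomogeneous a) (hf0 : f ≠ 0)
    {w : MvPolynomial κ K} (hw : w.IsHomogeneous e) :
    ∃ q : MvPolynomial κ K, q.IsHomogeneous (a + e) ∧ act f q = w := by
  have hmem : w ∈ (Hom K κ (a + e)).map (actBy f) := by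
    refine mem_of_pair _ ?_ hw fun φ hφ h2 => ?_
    · rintro _ ⟨q, hq, rfl⟩
      rw [actBy_apply]
      exact act_homog hf hq
    · have h3 : φ * f = 0 := by
        refine eq_zero_of_pair (k := a + e) (by
          have := hf.mul hφ
          rwa [mul_comm] at this) fun q hq => ?_
        rw [pair_comm, pair_mul]
        exact h2 _ (Submodule.mem_map_of_mem hq)
      rw [(mul_eq_zero.1 h3).resolve_right hf0, map_zero, LinearMap.zero_apply]
  obtain ⟨q, hq, h⟩ := hmem
  exact ⟨q, hq, h⟩

/-- A space of forms killed by a nonzero form is not too large. -/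
lemma finrank_add_le {f : MvPolynomial κ K} {a e : ℕ} (hf : f.IsHomogeneous a) (hf0 : f ≠ 0)
    (V : Submodule K (MvPolynomial κ K)) (hV : ∀ v ∈ V, v.IsHomogeneous (a + e))
    (h : ∀ v ∈ V, act f v = 0) :
    Module.finrank K V + Module.finrank K (Hom K κ e) ≤ Module.finrank K (Hom K κ (a + e)) := by
  set L := (actBy f).domRestrict (Hom K κ (a + e)) with hL
  have h1 := LinearMap.finrank_range_add_finrank_ker L
  have h2 : Hom K κ e ≤ LinearMap.range L := by
    intro w hw
    obtain ⟨q, hq, h3⟩ := act_surj hf hf0 hw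
    exact ⟨⟨q, hq⟩, h3⟩
  have h3 : V ≤ (LinearMap.ker L).map (Hom K κ (a + e)).subtype := by
    intro v hv
    exact ⟨⟨v, hV v hv⟩, h v hv, rfl⟩
  have h4 := Submodule.finrank_mono h2
  have h5 := Submodule.finrank_mono h3
  rw [Submodule.finrank_map_subtype_eq] at h5
  omega

variable {ι : Type*} [Fintype ι]

/-- If the space of derivatives is large, the first condition is sufficient. -/
theorem wlp_iff_of_large {p : ι → MvPolynomial κ K} {d : ℕ} (hd : 3 ≤ d)
    (hp : ∀ j, (p j).IsHomogeneous (d - 1))
    (hlarge : Module.finrank K (Hom K κ (d / 2)) <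
      Module.finrank K (derivs p (d - 2 - d / 2)) +
        Module.finrank K (Hom K κ (2 * (d / 2) + 1 - d)))
    {G : MvPolynomial κ K} (hG : G.IsHomogeneous d) :
    HasWLP (perazzo p G) ↔
      ∃ lam : MvPolynomial κ K, lam.IsHomogeneous 1 ∧ LevelSurj p lam (d / 2) := by
  have e1 : d - 1 = (d - 2 - d / 2) + (d / 2 + 1) := by omega
  constructor
  · intro h
    obtain ⟨lam, c, hlam, h1, -⟩ := (wlp_iff' hd hp hG).1 h
    exact ⟨lam, hlam, h1⟩
  · rintro ⟨lam, hlam, h1⟩
    rw [← injOnDerivs_iff (k := d - 2 - d / 2) hlam (by rwa [← e1])] at h1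
    rw [wlp_iff hd hp hG]
    refine ⟨lam, 0, hlam, h1, fun f hf h2 _ => ?_⟩
    have hf0 : f = 0 := by
      by_contra hf0
      have hinj : ∀ x ∈ derivs p (d - 2 - d / 2), actBy lam x = 0 → x = 0 := h1
      have hfr : Module.finrank K ((derivs p (d - 2 - d / 2)).map (actBy lam)) =
          Module.finrank K (derivs p (d - 2 - d / 2)) := by
        have hi : Function.Injective
            ((actBy lam).domRestrict (derivs p (d - 2 - d / 2))) := by
          rw [← LinearMap.ker_eq_bot, LinearMap.ker_eq_bot']
          intro x hx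
          exact Subtype.ext (hinj x x.2 hx)
        rw [← LinearMap.range_domRestrict]
        exact LinearMap.finrank_range_of_inj hi
      have := finrank_add_le (e := 2 * (d / 2) + 1 - d) hf hf0
        ((derivs p (d - 2 - d / 2)).map (actBy lam)) (by
          rintro _ ⟨w, hw, rfl⟩
          rw [actBy_apply, show d - 2 - d / 2 + 1 + (2 * (d / 2) + 1 - d) = d / 2 by omega]
          exact act_homog hlam (by
            rw [add_comm]
            exact derivs_homog (by rwa [← e1]) hw)) (by
          rintro _ ⟨w, hw, rfl⟩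
          rw [actBy_apply]
          obtain ⟨v, hv, rfl⟩ := mem_derivs.1 hw
          rw [map_sum, map_sum]
          refine Finset.sum_eq_zero fun j _ => ?_
          rw [← act_mul, act_comm, mul_comm, h2 j, map_zero])
      rw [hfr, show d - 2 - d / 2 + 1 + (2 * (d / 2) + 1 - d) = d / 2 by omega] at this
      omega
    subst hf0
    refine ⟨fun j => by simp, ?_⟩
    rw [map_zero, LinearMap.zero_apply]
    exact Submodule.zero_mem _

end Pool.Agent.Helper27.Pz
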