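import Pool.Agent.Helper27.PzPts

/-!
# The weak Lefschetz property for a general form `G`
-/

namespace Pool.Agent.Helper27.Pz

open MvPolynomial

variable {K : Type*} [Field K] {ι κ : Type*} [Fintype ι] [Fintype κ]

omit [Fintype ι] in
/-- The forms `f` of degree `k` with `λ f ∘ p_j = 0` for all `j`. -/
noncomputable def Esp (p : ι → MvPolynomial κ K) (lam : MvPolynomial κ K) (k : ℕ) :
    Submodule K (MvPolynomial κ K) where
  carrier := {f | f.IsHomogeneous k ∧ ∀ j, act (lam * f) (p j) = 0}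
  zero_mem' := ⟨isHomogeneous_zero _ _ _, fun j => by simp⟩
  add_mem' := by
    rintro a b ⟨ha, h1⟩ ⟨hb, h2⟩
    refine ⟨ha.add hb, fun j => ?_⟩
    rw [mul_add, map_add, LinearMap.add_apply, h1 j, h2 j, add_zero]
  smul_mem' := by
    rintro c a ⟨ha, h1⟩
    refine ⟨(homogeneousSubmodule κ K k).smul_mem c ha, fun j => ?_⟩
    rw [mul_smul_comm, map_smul, LinearMap.smul_apply, h1 j, smul_zero]

omit [Fintype ι] in
lemma mem_Esp {p : ι → MvPolynomial κ K} {lam : MvPolynomial κ K} {k : ℕ}
    {f : MvPolynomial κ K} :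
    f ∈ Esp p lam k ↔ f.IsHomogeneous k ∧ ∀ j, act (lam * f) (p j) = 0 := Iff.rfl

omit [Fintype κ] in
/-- Multiplication by a fixed polynomial. -/
noncomputable def mulBy (q : MvPolynomial κ K) : MvPolynomial κ K →ₗ[K] MvPolynomial κ K :=
  LinearMap.mulLeft K q

omit [Fintype κ] in
lemma mulBy_apply (q f : MvPolynomial κ K) : mulBy q f = q * f := rfl

omit [Fintype κ] in
lemma finrank_map_mulBy {q : MvPolynomial κ K} (hq : q ≠ 0)
    (E : Submodule K (MvPolynomial κ K)) :
    Module.finrank K (E.map (mulBy q)) = Module.finrank K E := by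
  have hinj : Function.Injective (mulBy q) := by
    intro a b h
    rw [mulBy_apply, mulBy_apply] at h
    exact mul_left_cancel₀ hq h
  exact (LinearEquiv.finrank_eq (Submodule.equivMapOfInjective _ hinj E)).symm

/-- Pairing with a fixed polynomial on the left, as a functional. -/
noncomputable def pairL (φ : MvPolynomial κ K) : MvPolynomial κ K →ₗ[K] K := pair φ

lemma pairL_apply (φ w : MvPolynomial κ K) : pairL φ w = pair φ w := rfl

/-- The key orthogonality. -/
lemma pair_derivs_eq_zero {p : ι → MvPolynomial κ K} {lam g : MvPolynomial κ K} {k : ℕ}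
    (hg : ∀ j, act (lam * g) (p j) = 0) (q : MvPolynomial κ K) {w : MvPolynomial κ K}
    (hw : w ∈ derivs p k) : pair (q * (lam * g)) w = 0 := by
  obtain ⟨v, hv, rfl⟩ := mem_derivs.1 hw
  rw [map_sum]
  refine Finset.sum_eq_zero fun j _ => ?_
  rw [← pair_mul, show q * (lam * g) * v j = (q * v j) * (lam * g) by ring, pair_mul, hg j,
    map_zero]

variable [CharZero K]

/-- For a general form `G`. -/
theorem general_wlp [Nonempty κ] {p : ι → MvPolynomial κ K} {d : ℕ} (hd : 3 ≤ d)
    (hp : ∀ j, (p j).IsHomogeneous (d - 1))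
    (h : ∃ lam : MvPolynomial κ K, lam.IsHomogeneous 1 ∧ InjOnDerivs p lam (d - 2 - d / 2)) :
    ∃ Δ : MvPolynomial (κ →₀ ℕ) K,
      (∃ G : MvPolynomial κ K, G.IsHomogeneous d ∧ eval (fun a => coeff a G) Δ ≠ 0) ∧
      ∀ G : MvPolynomial κ K, G.IsHomogeneous d → eval (fun a => coeff a G) Δ ≠ 0 →
        HasWLP (perazzo p G) := by
  classical
  obtain ⟨lam, hlam, hA, hlam0⟩ : ∃ lam : MvPolynomial κ K, lam.IsHomogeneous 1 ∧
      InjOnDerivs p lam (d - 2 - d / 2) ∧ lam ≠ 0 := by
    obtain ⟨lam, hlam, hA⟩ := h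
    by_cases h0 : lam = 0
    · obtain ⟨k⟩ := ‹Nonempty κ›
      refine ⟨X k, isHomogeneous_X _ _, fun w hw _ => hA w hw ?_, X_ne_zero k⟩
      rw [h0, map_zero, LinearMap.zero_apply]
    · exact ⟨lam, hlam, hA, h0⟩
  set k := d - 2 - d / 2 with hk
  set t := 2 * (d / 2) + 1 - d with ht
  have hdeg : (k + 1) + (t + 1 + (k + 1)) = d := by omega
  set E := Esp p lam (k + 1) with hE
  have hEh : ∀ f ∈ E, f.IsHomogeneous (k + 1) := fun f hf => (mem_Esp.1 hf).1
  have hlt : (lam ^ (t + 1)).IsHomogeneous (t + 1) := by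
    have := hlam.pow (t + 1)
    rwa [one_mul] at this
  have hlt0 : lam ^ (t + 1) ≠ 0 := pow_ne_zero _ hlam0
  have := finiteDimensional_of_homog hEh
  -- the good form
  obtain ⟨G₀, hG₀, hG₀'⟩ := exists_form (a := k + 1) (b := t + 1 + (k + 1))
    (E.map (mulBy (lam ^ (t + 1)))) E (by
      rintro _ ⟨f, hf, rfl⟩
      rw [mulBy_apply]
      exact hlt.mul (hEh f hf)) hEh (le_of_eq (finrank_map_mulBy hlt0 E).symm)
  rw [hdeg] at hG₀
  -- a basis of `E`
  set e := Module.finBasis K E with he
  set M : Fin (Module.finrank K E) → Fin (Module.finrank K E) → MvPolynomial κ K →ₗ[K] K :=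
    fun i j => pairL ((e i : MvPolynomial κ K) * (lam ^ (t + 1) * (e j : MvPolynomial κ K)))
    with hM
  have key : ∀ (G : MvPolynomial κ K) (c : Fin (Module.finrank K E) → K) j,
      (Matrix.vecMul c (Matrix.of fun i j => M i j G)) j =
        pair ((∑ i, c i • (e i : MvPolynomial κ K)) *
          (lam ^ (t + 1) * (e j : MvPolynomial κ K))) G := by
    intro G c j
    rw [Finset.sum_mul, map_sum, LinearMap.sum_apply, Matrix.vecMul, dotProduct]
    refine Finset.sum_congr rfl fun i _ => ?_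
    rw [Matrix.of_apply, hM, pairL_apply, smul_mul_assoc, map_smul, LinearMap.smul_apply,
      smul_eq_mul]
  refine ⟨detPoly d M, ⟨G₀, hG₀, ?_⟩, ?_⟩
  · rw [eval_detPoly d M hG₀]
    intro hdet
    obtain ⟨c, hc0, hc⟩ := Matrix.exists_vecMul_eq_zero_iff.2 hdet
    apply hc0
    have hmem : ∑ i, c i • (e i : MvPolynomial κ K) ∈ E :=
      Submodule.sum_mem _ fun i _ => Submodule.smul_mem _ _ (e i).2
    have h0 : ∑ i, c i • (e i : MvPolynomial κ K) = 0 := by
      refine hG₀' _ hmem ?_
      rintro _ ⟨g, hg, rfl⟩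
      rw [mulBy_apply]
      have hgs : g = ∑ j, e.repr ⟨g, hg⟩ j • (e j : MvPolynomial κ K) := by
        have := congrArg (Submodule.subtype E) (e.sum_repr ⟨g, hg⟩)
        rw [map_sum] at this
        exact this.symm
      rw [hgs, Finset.mul_sum, Finset.mul_sum, map_sum, LinearMap.sum_apply]
      refine Finset.sum_eq_zero fun j _ => ?_
      rw [mul_smul_comm, mul_smul_comm, map_smul, LinearMap.smul_apply, ← key, hc,
        Pi.zero_apply, smul_zero]
    have h1 : ∑ i, c i • e i = 0 := by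
      apply Subtype.ext
      rw [Submodule.coe_zero, ← h0]
      simp
    funext i
    exact (Fintype.linearIndependent_iff.1 e.linearIndependent) c h1 i
  · intro G hG hdet
    rw [eval_detPoly d M hG] at hdet
    rw [wlp_iff hd hp hG]
    refine ⟨lam, 0, hlam, hA, ?_⟩
    rintro f hf h1 ⟨w, hw, h2⟩
    have hfE : f ∈ E := mem_Esp.2 ⟨hf, h1⟩
    have hfs : f = ∑ j, e.repr ⟨f, hfE⟩ j • (e j : MvPolynomial κ K) := by
      have := congrArg (Submodule.subtype E) (e.sum_repr ⟨f, hfE⟩)
      rw [map_sum] at this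
      exact this.symm
    have h3 : Matrix.vecMul (fun j => e.repr ⟨f, hfE⟩ j) (Matrix.of fun i j => M i j G) = 0 := by
      funext j
      rw [key, ← hfs, Pi.zero_apply]
      have hej := (mem_Esp.1 (e j).2).2
      have h4 : pair (f * (lam ^ (t + 1) * (e j : MvPolynomial κ K))) G =
          pair (lam ^ t * (e j : MvPolynomial κ K)) (act lam w) := by
        have h2' : act f (act lam G) = act lam w := by
          simpa only [Pi.zero_apply, zero_smul, Finset.sum_const_zero, zero_add] using h2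
        rw [← h2', show f * (lam ^ (t + 1) * (e j : MvPolynomial κ K)) =
          lam ^ t * (e j : MvPolynomial κ K) * (f * lam) by ring, pair_mul, act_mul]
      rw [h4, ← pair_mul, show lam ^ t * (e j : MvPolynomial κ K) * lam =
        lam ^ t * (lam * (e j : MvPolynomial κ K)) by ring]
      exact pair_derivs_eq_zero hej _ hw
    have h5 : (fun j => e.repr ⟨f, hfE⟩ j) = 0 := by
      by_contra hne
      exact hdet (Matrix.exists_vecMul_eq_zero_iff.1 ⟨_, hne, h3⟩)
    have hf0 : f = 0 := by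
      rw [hfs]
      refine Finset.sum_eq_zero fun j _ => ?_
      rw [show e.repr ⟨f, hfE⟩ j = 0 from congrFun h5 j, zero_smul]
    subst hf0
    refine ⟨fun j => by simp, ?_⟩
    rw [map_zero, LinearMap.zero_apply]
    exact Submodule.zero_mem _

end Pool.Agent.Helper27.Pz
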