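import Pool.Agent.Helper27.PzDefs

/-!
# The weak Lefschetz property of an apolar algebra is decided by one multiplication map
-/

namespace Pool.Agent.Helper27.Pz

open MvPolynomial

variable {K : Type*} [Field K] {σ : Type*} [Fintype σ]

/-- Injectivity in degree `i`, on the level of polynomials. -/
def InjAt (F l : MvPolynomial σ K) (i : ℕ) : Prop :=
  ∀ φ : MvPolynomial σ K, φ.IsHomogeneous i → act (l * φ) F = 0 → act φ F = 0

/-- Surjectivity in degree `i`, on the level of polynomials. -/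
def SurjAt (F l : MvPolynomial σ K) (i : ℕ) : Prop :=
  ∀ ψ : MvPolynomial σ K, ψ.IsHomogeneous (i + 1) →
    ∃ φ : MvPolynomial σ K, φ.IsHomogeneous i ∧ act (ψ - l * φ) F = 0

lemma mk_eq_zero_iff (F φ : MvPolynomial σ K) :
    (Ideal.Quotient.mkₐ K (annIdeal F)) φ = 0 ↔ act φ F = 0 := by
  change Ideal.Quotient.mk (annIdeal F) φ = 0 ↔ _
  rw [Ideal.Quotient.eq_zero_iff_mem]
  rfl

lemma hasWLP_iff (F : MvPolynomial σ K) :
    HasWLP F ↔ ∃ l : MvPolynomial σ K, l.IsHomogeneous 1 ∧ ∀ i, InjAt F l i ∨ SurjAt F l i := by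
  have key : ∀ l : MvPolynomial σ K, ∀ i,
      ((∀ x ∈ piece F i, (Ideal.Quotient.mkₐ K (annIdeal F)) l * x = 0 → x = 0) ∨
        (∀ y ∈ piece F (i + 1), ∃ x ∈ piece F i, (Ideal.Quotient.mkₐ K (annIdeal F)) l * x = y)) ↔
      (InjAt F l i ∨ SurjAt F l i) := by
    intro l i
    refine or_congr ?_ ?_
    · constructor
      · intro h φ hφ h1
        rw [← mk_eq_zero_iff] at h1 ⊢
        rw [map_mul] at h1
        exact h _ ⟨φ, hφ, rfl⟩ h1
      · rintro h x ⟨φ, hφ, rfl⟩ h1
        change Ideal.Quotient.mkₐ K (annIdeal F) l * Ideal.Quotient.mkₐ K (annIdeal F) φ = 0 at h1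
        rw [← map_mul, mk_eq_zero_iff] at h1
        change Ideal.Quotient.mkₐ K (annIdeal F) φ = 0
        rw [mk_eq_zero_iff]
        exact h φ hφ h1
    · constructor
      · intro h ψ hψ
        obtain ⟨x, ⟨φ, hφ, rfl⟩, hx⟩ := h _ ⟨ψ, hψ, rfl⟩
        refine ⟨φ, hφ, ?_⟩
        rw [← mk_eq_zero_iff, map_sub, map_mul, sub_eq_zero]
        exact hx.symm
      · rintro h y ⟨ψ, hψ, rfl⟩
        obtain ⟨φ, hφ, h1⟩ := h ψ hψ
        refine ⟨_, ⟨φ, hφ, rfl⟩, ?_⟩
        rw [← mk_eq_zero_iff, map_sub, map_mul, sub_eq_zero] at h1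
        exact h1.symm
  constructor
  · rintro ⟨_, ⟨l, hl, rfl⟩, h⟩
    exact ⟨l, hl, fun i => (key l i).1 (h i)⟩
  · rintro ⟨l, hl, h⟩
    exact ⟨_, ⟨l, hl, rfl⟩, fun i => (key l i).2 (h i)⟩

lemma surjAt_succ {F l : MvPolynomial σ K} {i : ℕ} (h : SurjAt F l i) : SurjAt F l (i + 1) := by
  classical
  intro ψ hψ
  have hmon : ∀ a ∈ ψ.support, ∃ φ : MvPolynomial σ K, φ.IsHomogeneous (i + 1) ∧
      act (monomial a (coeff a ψ) - l * φ) F = 0 := by
    intro a ha
    have hd := deg_of_mem hψ ha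
    obtain ⟨k, hk⟩ : ∃ k, a k ≠ 0 := by
      by_contra hc
      push Not at hc
      have : a = 0 := by ext k; simpa using hc k
      rw [this, map_zero] at hd
      omega
    have h2 : a = Finsupp.single k 1 + (a - Finsupp.single k 1) := by
      ext j
      simp only [Finsupp.add_apply, Finsupp.tsub_apply]
      by_cases hj : j = k
      · subst hj; simp; omega
      · simp [Ne.symm hj]
    have h3 : monomial a (coeff a ψ) = X k * monomial (a - Finsupp.single k 1) (coeff a ψ) := by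
      rw [X, monomial_mul, one_mul, ← h2]
    have h4 : (a - Finsupp.single k 1).degree = i + 1 := by
      have := congrArg Finsupp.degree h2
      rw [map_add, Finsupp.degree_single] at this
      omega
    obtain ⟨φ, hφ, h5⟩ := h _ (isHomogeneous_monomial (coeff a ψ) h4)
    refine ⟨X k * φ, ?_, ?_⟩
    · have := (isHomogeneous_X K k).mul hφ
      rwa [add_comm] at this
    · rw [h3, show X k * monomial (a - Finsupp.single k 1) (coeff a ψ) - l * (X k * φ) =
        X k * (monomial (a - Finsupp.single k 1) (coeff a ψ) - l * φ) by ring, act_mul, h5,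
        map_zero]
  choose! φ hφ h5 using hmon
  refine ⟨∑ a ∈ ψ.support, φ a, IsHomogeneous.sum _ _ _ fun a ha => hφ a ha, ?_⟩
  have : ψ - l * ∑ a ∈ ψ.support, φ a =
      ∑ a ∈ ψ.support, (monomial a (coeff a ψ) - l * φ a) := by
    rw [Finset.sum_sub_distrib, ← Finset.mul_sum, support_sum_monomial_coeff]
  rw [this, map_sum, LinearMap.sum_apply]
  exact Finset.sum_eq_zero h5

lemma surjAt_mono {F l : MvPolynomial σ K} {i j : ℕ} (hij : i ≤ j) (h : SurjAt F l i) :
    SurjAt F l j := by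
  induction hij with
  | refl => exact h
  | step _ ih => exact surjAt_succ ih

variable [CharZero K]

lemma injAt_of_surjAt {F l : MvPolynomial σ K} {d i k : ℕ} (hF : F.IsHomogeneous d)
    (hd : i + k + 1 = d) (h : SurjAt F l k) : InjAt F l i := by
  intro φ hφ h1
  have h2 : (act φ F).IsHomogeneous ((k + 1) + 0) := act_homog hφ (by rwa [show
    i + (k + 1 + 0) = d by omega])
  refine eq_zero_of_act h2 fun ψ hψ => ?_
  obtain ⟨θ, _, h3⟩ := h ψ hψ
  rw [map_sub, LinearMap.sub_apply, sub_eq_zero] at h3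
  rw [act_comm, h3, ← act_mul, show φ * (l * θ) = θ * (l * φ) by ring, act_mul, h1, map_zero]

/-- The evaluation map `φ ↦ φ ∘ F`. -/
noncomputable def actTo (F : MvPolynomial σ K) : MvPolynomial σ K →ₗ[K] MvPolynomial σ K where
  toFun φ := act φ F
  map_add' a b := by rw [map_add, LinearMap.add_apply]
  map_smul' c a := by rw [map_smul, LinearMap.smul_apply, RingHom.id_apply]

omit [CharZero K] in
lemma actTo_apply (F φ : MvPolynomial σ K) : actTo F φ = act φ F := rfl

/-- A form orthogonal to `(Ann F)_k` is a derivative of `F`. -/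
lemma exists_of_perp {F : MvPolynomial σ K} {i k : ℕ} (hF : F.IsHomogeneous (i + k))
    {w : MvPolynomial σ K} (hw : w.IsHomogeneous k)
    (h : ∀ θ : MvPolynomial σ K, θ.IsHomogeneous k → act θ F = 0 → pair θ w = 0) :
    ∃ φ : MvPolynomial σ K, φ.IsHomogeneous i ∧ act φ F = w := by
  have h1 : w ∈ (homogeneousSubmodule σ K i).map (actTo F) := by
    refine mem_of_pair _ ?_ hw ?_
    · rintro _ ⟨φ, hφ, rfl⟩
      have hφ' : φ.IsHomogeneous i := hφ
      rw [actTo_apply]
      exact act_homog hφ' hF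
    · intro θ hθ h2
      refine h θ hθ ?_
      refine eq_zero_of_pair (k := i) (act_homog hθ (by rwa [add_comm] at hF)) fun φ hφ => ?_
      have := h2 (actTo F φ) (Submodule.mem_map_of_mem hφ)
      rw [actTo_apply, ← pair_mul, mul_comm, pair_mul] at this
      exact this
  obtain ⟨φ, hφ, h3⟩ := h1
  exact ⟨φ, hφ, h3⟩

/-- The forms of degree `k + 1` that are multiples of `l` modulo `Ann F`. -/
noncomputable def multSp (F l : MvPolynomial σ K) (k : ℕ) : Submodule K (MvPolynomial σ K) where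
  carrier := {ψ | ψ.IsHomogeneous (k + 1) ∧
        ∃ φ : MvPolynomial σ K, φ.IsHomogeneous k ∧ act (ψ - l * φ) F = 0}
  zero_mem' := ⟨isHomogeneous_zero _ _ _, 0, isHomogeneous_zero _ _ _, by simp⟩
  add_mem' := by
    rintro a b ⟨ha, φ, hφ, h1⟩ ⟨hb, φ', hφ', h2⟩
    refine ⟨ha.add hb, φ + φ', hφ.add hφ', ?_⟩
    rw [show a + b - l * (φ + φ') = (a - l * φ) + (b - l * φ') by ring, map_add,
      LinearMap.add_apply, h1, h2, add_zero]
  smul_mem' := by
    rintro c a ⟨ha, φ, hφ, h1⟩
    refine ⟨(homogeneousSubmodule σ K (k + 1)).smul_mem c ha, c • φ,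
      (homogeneousSubmodule σ K k).smul_mem c hφ, ?_⟩
    rw [mul_smul_comm, ← smul_sub, map_smul, LinearMap.smul_apply, h1, smul_zero]

lemma surjAt_of_injAt {F l : MvPolynomial σ K} {d i k : ℕ} (hF : F.IsHomogeneous d)
    (hl : l.IsHomogeneous 1) (hd : i + k + 1 = d) (h : InjAt F l i) : SurjAt F l k := by
  intro ψ hψ
  have hmem : ψ ∈ multSp F l k := by
    refine mem_of_pair (multSp F l k) (fun v hv => hv.1) hψ fun w hw hwV => ?_
    suffices hw0 : w = 0 by rw [hw0, map_zero, LinearMap.zero_apply]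
    obtain ⟨φ, hφ, hφw⟩ := exists_of_perp (F := F) (i := i) (k := k + 1)
      (by rwa [show i + (k + 1) = d by omega]) hw (by
        intro θ hθ h3
        rw [pair_comm]
        exact hwV θ ⟨hθ, 0, isHomogeneous_zero _ _ _, by simpa using h3⟩)
    rw [← hφw]
    refine h φ hφ ?_
    refine eq_zero_of_pair (k := k) (act_homog (hl.mul hφ)
      (by rwa [show 1 + i + k = d by omega])) fun θ hθ => ?_
    have h4 : l * θ ∈ multSp F l k := by
      refine ⟨?_, θ, hθ, ?_⟩
      · have := hl.mul hθ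
        rwa [add_comm] at this
      · rw [sub_self, map_zero, LinearMap.zero_apply]
    have h5 := hwV _ h4
    rw [← hφw, pair_comm, mul_comm l θ, pair_mul, ← act_mul] at h5
    exact h5
  exact hmem.2

/-- The weak Lefschetz property is decided in degree `d - 1 - ⌊d/2⌋`. -/
lemma hasWLP_iff_injAt {F : MvPolynomial σ K} {d : ℕ} (hF : F.IsHomogeneous d) (hd : 1 ≤ d) :
    HasWLP F ↔ ∃ l : MvPolynomial σ K, l.IsHomogeneous 1 ∧ InjAt F l (d - 1 - d / 2) := by
  rw [hasWLP_iff]
  constructor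
  · rintro ⟨l, hl, h⟩
    refine ⟨l, hl, ?_⟩
    rcases h (d - 1 - d / 2) with h1 | h1
    · exact h1
    · refine injAt_of_surjAt (k := d / 2) hF (by omega) ?_
      exact surjAt_mono (by omega) h1
  · rintro ⟨l, hl, h⟩
    have h1 : SurjAt F l (d / 2) := surjAt_of_injAt hF hl (by omega) h
    refine ⟨l, hl, fun i => ?_⟩
    by_cases hi : d / 2 ≤ i
    · exact Or.inr (surjAt_mono hi h1)
    · refine Or.inl (injAt_of_surjAt (k := d - 1 - i) hF (by omega) (surjAt_mono (by omega) h1))

end Pool.Agent.Helper27.Pz
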