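import Pool.Agent.Helper27.PzNF

/-!
# A criterion for the weak Lefschetz property of all Perazzo algebras
-/

namespace Pool.Agent.Helper27.Pz

open MvPolynomial

variable {K : Type*} [Field K] {ι κ : Type*} [Fintype ι] [Fintype κ]

lemma mem_derivs {p : ι → MvPolynomial κ K} {k : ℕ} {w : MvPolynomial κ K} :
    w ∈ derivs p k ↔ ∃ v : ι → MvPolynomial κ K, (∀ j, (v j).IsHomogeneous k) ∧
      w = ∑ j, act (v j) (p j) := by
  classical
  constructor
  · intro h
    induction h using Submodule.span_induction with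
    | mem x hx =>
      obtain ⟨j, θ, hθ, rfl⟩ := hx
      refine ⟨Pi.single j θ, fun i => ?_, ?_⟩
      · by_cases hi : i = j
        · subst hi; rwa [Pi.single_eq_same]
        · rw [Pi.single_eq_of_ne hi]; exact isHomogeneous_zero _ _ _
      · rw [Finset.sum_eq_single j]
        · rw [Pi.single_eq_same]
        · intro i _ hi
          rw [Pi.single_eq_of_ne hi, map_zero, LinearMap.zero_apply]
        · intro h; exact absurd (Finset.mem_univ _) h
    | zero => exact ⟨0, fun j => isHomogeneous_zero _ _ _, by simp⟩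
    | add x y _ _ hx hy =>
      obtain ⟨v, hv, rfl⟩ := hx
      obtain ⟨v', hv', rfl⟩ := hy
      refine ⟨v + v', fun j => (hv j).add (hv' j), ?_⟩
      simp only [Pi.add_apply, map_add, LinearMap.add_apply, Finset.sum_add_distrib]
    | smul c x _ hx =>
      obtain ⟨v, hv, rfl⟩ := hx
      refine ⟨c • v, fun j => (homogeneousSubmodule κ K k).smul_mem c (hv j), ?_⟩
      simp only [Pi.smul_apply, map_smul, LinearMap.smul_apply, Finset.smul_sum]
  · rintro ⟨v, hv, rfl⟩
    exact Submodule.sum_mem _ fun j _ => Submodule.subset_span ⟨j, v j, hv j, rfl⟩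

lemma derivs_homog {p : ι → MvPolynomial κ K} {k e : ℕ} (hp : ∀ j, (p j).IsHomogeneous (k + e))
    {w : MvPolynomial κ K} (hw : w ∈ derivs p k) : w.IsHomogeneous e := by
  obtain ⟨v, hv, rfl⟩ := mem_derivs.1 hw
  exact IsHomogeneous.sum _ _ _ fun j _ => act_homog (hv j) (hp j)

omit [Fintype κ] in
lemma perazzo_homog {p : ι → MvPolynomial κ K} {G : MvPolynomial κ K} {d : ℕ} (hd : 1 ≤ d)
    (hp : ∀ j, (p j).IsHomogeneous (d - 1)) (hG : G.IsHomogeneous d) :
    (perazzo p G).IsHomogeneous d := by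
  unfold perazzo
  refine IsHomogeneous.add (IsHomogeneous.sum _ _ _ fun j _ => ?_) (hG.rename_isHomogeneous)
  have := (isHomogeneous_X K (Sum.inl j : ι ⊕ κ)).mul
    ((hp j).rename_isHomogeneous (f := (Sum.inr : κ → ι ⊕ κ)))
  rwa [show 1 + (d - 1) = d by omega] at this

omit [Fintype κ] in
lemma nf_homog {f : MvPolynomial κ K} {v : ι → MvPolynomial κ K} {k : ℕ}
    (hf : f.IsHomogeneous (k + 1)) (hv : ∀ j, (v j).IsHomogeneous k) :
    (nf f v).IsHomogeneous (k + 1) := by
  unfold nf
  refine IsHomogeneous.add (hf.rename_isHomogeneous) (IsHomogeneous.sum _ _ _ fun j _ => ?_)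
  have := (isHomogeneous_X K (Sum.inl j : ι ⊕ κ)).mul
    ((hv j).rename_isHomogeneous (f := (Sum.inr : κ → ι ⊕ κ)))
  rwa [show 1 + k = k + 1 by omega] at this

/-- The action of a linear form times an operator in normal form. -/
lemma act_lin_nf (lam f : MvPolynomial κ K) (c : ι → K) (v p : ι → MvPolynomial κ K)
    (G : MvPolynomial κ K) :
    act (nf lam fun j => C (c j)) (act (nf f v) (perazzo p G)) =
      perazzo (fun j => act (lam * f) (p j))
        (act lam (act f G + ∑ j, act (v j) (p j)) + act f (∑ j, c j • p j)) := by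
  rw [act_nf, act_nf]
  congr 1
  · funext j
    rw [act_mul]
  · congr 1
    rw [map_sum]
    refine Finset.sum_congr rfl fun j _ => ?_
    rw [act_C, map_smul]

/-- Injectivity of the multiplication by `λ + ∑ c_j x_j`. -/
lemma injAt_nf_iff {p : ι → MvPolynomial κ K} {G lam : MvPolynomial κ K} {c : ι → K} {k : ℕ} :
    InjAt (perazzo p G) (nf lam fun j => C (c j)) (k + 1) ↔
      ∀ f : MvPolynomial κ K, f.IsHomogeneous (k + 1) → ∀ w ∈ derivs p k,
        (∀ j, act (lam * f) (p j) = 0) → act lam (act f G + w) + act f (∑ j, c j • p j) = 0 →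
        (∀ j, act f (p j) = 0) ∧ act f G + w = 0 := by
  constructor
  · intro h f hf w hw h1 h2
    obtain ⟨v, hv, rfl⟩ := mem_derivs.1 hw
    have h3 := h (nf f v) (nf_homog hf hv) (by
      rw [act_mul, act_lin_nf, perazzo_eq_zero]
      exact ⟨h1, h2⟩)
    rw [act_nf, perazzo_eq_zero] at h3
    exact h3
  · intro h φ hφ h1
    obtain ⟨f, v, hf, hv, h2⟩ := exists_nf (ι := ι) (κ := κ) hφ
    rw [act_mul, h2, act_lin_nf, perazzo_eq_zero] at h1
    rw [h2, act_nf, perazzo_eq_zero]
    exact h f hf _ (mem_derivs.2 ⟨v, hv, rfl⟩) h1.1 h1.2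

omit [Fintype ι] [Fintype κ] in
lemma eq_C_of_homog_zero {σ : Type*} {φ : MvPolynomial σ K} (h : φ.IsHomogeneous 0) :
    φ = C (coeff 0 φ) := by
  rw [← totalDegree_eq_zero_iff_eq_C]
  exact Nat.le_zero.1 h.totalDegree_le

lemma exists_injAt_iff {p : ι → MvPolynomial κ K} {G : MvPolynomial κ K} {i : ℕ} :
    (∃ l : MvPolynomial (ι ⊕ κ) K, l.IsHomogeneous 1 ∧ InjAt (perazzo p G) l i) ↔
      ∃ (lam : MvPolynomial κ K) (c : ι → K), lam.IsHomogeneous 1 ∧
        InjAt (perazzo p G) (nf lam fun j => C (c j)) i := by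
  constructor
  · rintro ⟨l, hl, h⟩
    obtain ⟨lam, v, hlam, hv, h1⟩ := exists_nf (ι := ι) (κ := κ) (i := 0) hl
    refine ⟨lam, fun j => coeff 0 (v j), hlam, ?_⟩
    have h2 : (fun j => C (coeff 0 (v j))) = v := by
      funext j
      exact (eq_C_of_homog_zero (hv j)).symm
    rw [h2]
    intro φ hφ h3
    refine h φ hφ ?_
    rw [mul_comm, act_mul, h1, ← act_mul, mul_comm]
    exact h3
  · rintro ⟨lam, c, hlam, h⟩
    exact ⟨_, nf_homog (k := 0) hlam fun j => isHomogeneous_C _ _, h⟩

/-- The injectivity condition on the space of derivatives. -/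
def InjOnDerivs (p : ι → MvPolynomial κ K) (lam : MvPolynomial κ K) (k : ℕ) : Prop :=
  ∀ w ∈ derivs p k, act lam w = 0 → w = 0

/-- The second condition. -/
def CondB (p : ι → MvPolynomial κ K) (G lam : MvPolynomial κ K) (c : ι → K) (k : ℕ) : Prop :=
  ∀ f : MvPolynomial κ K, f.IsHomogeneous (k + 1) → (∀ j, act (lam * f) (p j) = 0) →
    (∃ w ∈ derivs p k, act f (∑ j, c j • p j + act lam G) = act lam w) →
    (∀ j, act f (p j) = 0) ∧ act f G ∈ derivs p k

lemma injAt_iff_cond {p : ι → MvPolynomial κ K} {G lam : MvPolynomial κ K} {c : ι → K} {k : ℕ} :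
    InjAt (perazzo p G) (nf lam fun j => C (c j)) (k + 1) ↔
      InjOnDerivs p lam k ∧ CondB p G lam c k := by
  rw [injAt_nf_iff]
  constructor
  · intro h
    constructor
    · intro w hw h1
      have := (h 0 (isHomogeneous_zero _ _ _) w hw (by simp) (by simpa using h1)).2
      simpa using this
    · rintro f hf h1 ⟨w, hw, h2⟩
      have h3 := h f hf (-w) (Submodule.neg_mem _ hw) h1 (by
        rw [map_add, map_neg, ← h2, map_add, act_comm lam f]
        ring)
      refine ⟨h3.1, ?_⟩
      have : act f G = w := by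
        have := h3.2
        rwa [add_neg_eq_zero] at this
      rw [this]
      exact hw
  · rintro ⟨hA, hB⟩ f hf w hw h1 h2
    have h3 := hB f hf h1 ⟨-w, Submodule.neg_mem _ hw, by
      rw [map_add] at h2
      rw [map_add, map_neg, act_comm f lam, ← sub_eq_zero, ← h2]
      ring⟩
    refine ⟨h3.1, hA _ (Submodule.add_mem _ h3.2 hw) ?_⟩
    have h4 : act f (∑ j, c j • p j) = 0 := by
      rw [map_sum]
      refine Finset.sum_eq_zero fun j _ => ?_
      rw [map_smul, h3.1 j, smul_zero]
    rwa [h4, add_zero] at h2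

variable [CharZero K]

/-- The criterion. -/
theorem wlp_iff {p : ι → MvPolynomial κ K} {G : MvPolynomial κ K} {d : ℕ} (hd : 3 ≤ d)
    (hp : ∀ j, (p j).IsHomogeneous (d - 1)) (hG : G.IsHomogeneous d) :
    HasWLP (perazzo p G) ↔
      ∃ (lam : MvPolynomial κ K) (c : ι → K), lam.IsHomogeneous 1 ∧
        InjOnDerivs p lam (d - 2 - d / 2) ∧ CondB p G lam c (d - 2 - d / 2) := by
  rw [hasWLP_iff_injAt (perazzo_homog (by omega) hp hG) (by omega), exists_injAt_iff,
    show d - 1 - d / 2 = (d - 2 - d / 2) + 1 by omega]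
  simp only [injAt_iff_cond]

end Pool.Agent.Helper27.Pz
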