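import Pool.Agent.Helper27.PzGor

/-!
# Action on Perazzo forms: normal forms of differential operators
-/

namespace Pool.Agent.Helper27.Pz

open MvPolynomial

variable {K : Type*} [Field K] {ι κ : Type*} [Fintype ι] [Fintype κ]

omit [Fintype ι] [Fintype κ] in
lemma pderiv_inl_rename (j : ι) (q : MvPolynomial κ K) :
    pderiv (Sum.inl j) (rename (Sum.inr : κ → ι ⊕ κ) q) = 0 := by
  induction q using MvPolynomial.induction_on with
  | C a => rw [rename_C, pderiv_C]
  | add p q hp hq => rw [map_add, map_add, hp, hq, add_zero]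
  | mul_X p k hp =>
    rw [map_mul, rename_X, Derivation.leibniz, hp, smul_zero, add_zero,
      pderiv_X_of_ne (by simp), smul_zero]

lemma act_rename (φ q : MvPolynomial κ K) :
    act (rename (Sum.inr : κ → ι ⊕ κ) φ) (rename Sum.inr q) = rename Sum.inr (act φ q) := by
  induction φ using MvPolynomial.induction_on generalizing q with
  | C a => rw [rename_C, act_C, act_C, map_smul]
  | add p q hp hq => rw [map_add, map_add, LinearMap.add_apply, hp, hq, map_add,
      LinearMap.add_apply, map_add]
  | mul_X p k hp =>
    rw [map_mul, rename_X, act_mul, act_X, pderiv_rename Sum.inr_injective, hp, act_mul, act_X]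

lemma act_rename_X (φ q : MvPolynomial κ K) (j : ι) :
    act (rename (Sum.inr : κ → ι ⊕ κ) φ) (X (Sum.inl j) * rename Sum.inr q) =
      X (Sum.inl j) * rename Sum.inr (act φ q) := by
  induction φ using MvPolynomial.induction_on generalizing q with
  | C a => rw [rename_C, act_C, act_C, map_smul, mul_smul_comm]
  | add p q hp hq => rw [map_add, map_add, LinearMap.add_apply, hp, hq, map_add,
      LinearMap.add_apply, map_add, mul_add]
  | mul_X p k hp =>
    rw [show rename (Sum.inr : κ → ι ⊕ κ) (p * X k) = rename Sum.inr p * X (Sum.inr k) from by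
        rw [map_mul, rename_X], act_mul, act_X, Derivation.leibniz,
      pderiv_rename Sum.inr_injective, pderiv_X_of_ne (by simp), smul_zero, add_zero,
      smul_eq_mul, hp, act_mul, act_X]

lemma act_u_perazzo (φ : MvPolynomial κ K) (p : ι → MvPolynomial κ K) (G : MvPolynomial κ K) :
    act (rename Sum.inr φ) (perazzo p G) = perazzo (fun j => act φ (p j)) (act φ G) := by
  unfold perazzo
  rw [map_add, map_sum, act_rename]
  congr 1
  exact Finset.sum_congr rfl fun j _ => act_rename_X _ _ _

lemma act_x_perazzo (j : ι) (p : ι → MvPolynomial κ K) (G : MvPolynomial κ K) :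
    act (X (Sum.inl j)) (perazzo p G) = rename Sum.inr (p j) := by
  classical
  unfold perazzo
  rw [act_X, map_add, map_sum, pderiv_inl_rename, add_zero]
  rw [Finset.sum_eq_single j]
  · rw [Derivation.leibniz, pderiv_inl_rename, smul_zero, zero_add, pderiv_X_self, smul_eq_mul,
      mul_one]
  · intro i _ hi
    rw [Derivation.leibniz, pderiv_inl_rename, smul_zero, zero_add,
      pderiv_X_of_ne (by simpa using hi), smul_zero]
  · intro h
    exact absurd (Finset.mem_univ _) h

lemma act_xu_perazzo (j : ι) (φ : MvPolynomial κ K) (p : ι → MvPolynomial κ K)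
    (G : MvPolynomial κ K) :
    act (X (Sum.inl j) * rename Sum.inr φ) (perazzo p G) = rename Sum.inr (act φ (p j)) := by
  rw [act_mul, act_comm, act_x_perazzo, act_rename]

lemma act_xx_perazzo (i j : ι) (θ : MvPolynomial (ι ⊕ κ) K) (p : ι → MvPolynomial κ K)
    (G : MvPolynomial κ K) :
    act (X (Sum.inl j) * (X (Sum.inl i) * θ)) (perazzo p G) = 0 := by
  rw [show X (Sum.inl j) * (X (Sum.inl i) * θ) = θ * (X (Sum.inl j) * X (Sum.inl i)) by ring,
    act_mul, act_mul, act_x_perazzo, act_X, pderiv_inl_rename, map_zero]

/-- The operator `f(u) + ∑ x_j v_j(u)`. -/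
noncomputable def nf (f : MvPolynomial κ K) (v : ι → MvPolynomial κ K) :
    MvPolynomial (ι ⊕ κ) K :=
  rename Sum.inr f + ∑ j, X (Sum.inl j) * rename Sum.inr (v j)

omit [Fintype κ] in
lemma perazzo_add (p p' : ι → MvPolynomial κ K) (G G' : MvPolynomial κ K) :
    perazzo p G + perazzo p' G' = perazzo (p + p') (G + G') := by
  unfold perazzo
  simp only [Pi.add_apply, map_add, mul_add, Finset.sum_add_distrib]
  ring

lemma act_nf (f : MvPolynomial κ K) (v p : ι → MvPolynomial κ K) (G : MvPolynomial κ K) :
    act (nf f v) (perazzo p G) =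
      perazzo (fun j => act f (p j)) (act f G + ∑ j, act (v j) (p j)) := by
  unfold nf
  rw [map_add, LinearMap.add_apply, act_u_perazzo, map_sum, LinearMap.sum_apply]
  simp only [act_xu_perazzo]
  unfold perazzo
  rw [map_add, map_sum, add_assoc]

omit [Fintype κ] in
lemma perazzo_eq_zero {p : ι → MvPolynomial κ K} {G : MvPolynomial κ K} :
    perazzo p G = 0 ↔ (∀ j, p j = 0) ∧ G = 0 := by
  classical
  constructor
  · intro h
    have h1 : ∀ j, p j = 0 := by
      intro j
      have h2 : pderiv (Sum.inl j) (perazzo p G) = rename Sum.inr (p j) := by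
        unfold perazzo
        rw [map_add, map_sum, pderiv_inl_rename, add_zero]
        rw [Finset.sum_eq_single j]
        · rw [Derivation.leibniz, pderiv_inl_rename, smul_zero, zero_add, pderiv_X_self,
            smul_eq_mul, mul_one]
        · intro i _ hi
          rw [Derivation.leibniz, pderiv_inl_rename, smul_zero, zero_add,
            pderiv_X_of_ne (by simpa using hi), smul_zero]
        · intro h
          exact absurd (Finset.mem_univ _) h
      rw [h, map_zero] at h2
      exact (map_eq_zero_iff _ (rename_injective _ Sum.inr_injective)).1 h2.symm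
    refine ⟨h1, ?_⟩
    unfold perazzo at h
    simp only [h1, map_zero, mul_zero, Finset.sum_const_zero, zero_add] at h
    exact (map_eq_zero_iff _ (rename_injective _ Sum.inr_injective)).1 h
  · rintro ⟨h1, h2⟩
    unfold perazzo
    simp [h1, h2]

omit [Fintype ι] [Fintype κ] in
lemma homog_induction {σ : Type*} {n : ℕ} {P : MvPolynomial σ K → Prop} (h0 : P 0)
    (hadd : ∀ a b, P a → P b → P (a + b))
    (hmon : ∀ (a : σ →₀ ℕ) (c : K), a.degree = n → P (monomial a c))
    {ψ : MvPolynomial σ K} (hψ : ψ.IsHomogeneous n) : P ψ := by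
  rw [← ψ.support_sum_monomial_coeff]
  exact Finset.sum_induction _ P hadd h0 fun a ha => hmon a _ (deg_of_mem hψ ha)

omit [Fintype ι] [Fintype κ] in
lemma monomial_eq_rename {a : ι ⊕ κ →₀ ℕ} (c : K) (ha : ∀ j, a (Sum.inl j) = 0) :
    ∃ b : κ →₀ ℕ, b.degree = a.degree ∧ monomial a c = rename Sum.inr (monomial b c) := by
  refine ⟨a.comapDomain Sum.inr Sum.inr_injective.injOn, ?_⟩
  have h : (a.comapDomain Sum.inr Sum.inr_injective.injOn).mapDomain Sum.inr = a := by
    refine Finsupp.mapDomain_comapDomain _ Sum.inr_injective _ ?_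
    intro x hx
    rcases x with j | k
    · exact absurd (ha j) (Finsupp.mem_support_iff.1 hx)
    · exact ⟨k, rfl⟩
  constructor
  · conv_rhs => rw [← h]
    rw [Finsupp.degree_mapDomain]
  · rw [rename_monomial, h]

omit [Fintype ι] [Fintype κ] in
lemma monomial_eq_X_mul {σ : Type*} {a : σ →₀ ℕ} (c : K) {k : σ} (hk : a k ≠ 0) :
    monomial a c = X k * monomial (a - Finsupp.single k 1) c ∧
      (a - Finsupp.single k 1).degree + 1 = a.degree := by
  classical
  have h2 : a = Finsupp.single k 1 + (a - Finsupp.single k 1) := by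
    ext j
    simp only [Finsupp.add_apply, Finsupp.tsub_apply]
    by_cases hj : j = k
    · subst hj; simp; omega
    · simp [Ne.symm hj]
  constructor
  · rw [X, monomial_mul, one_mul, ← h2]
  · have := congrArg Finsupp.degree h2
    rw [map_add, Finsupp.degree_single] at this
    omega

/-- Every homogeneous operator of positive degree acts on Perazzo forms as an operator in
normal form. -/
lemma exists_nf {i : ℕ} {ψ : MvPolynomial (ι ⊕ κ) K} (hψ : ψ.IsHomogeneous (i + 1)) :
    ∃ (f : MvPolynomial κ K) (v : ι → MvPolynomial κ K), f.IsHomogeneous (i + 1) ∧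
      (∀ j, (v j).IsHomogeneous i) ∧
      ∀ (p : ι → MvPolynomial κ K) (G : MvPolynomial κ K),
        act ψ (perazzo p G) = act (nf f v) (perazzo p G) := by
  classical
  refine homog_induction (n := i + 1) (P := fun ψ => ∃ (f : MvPolynomial κ K)
    (v : ι → MvPolynomial κ K), f.IsHomogeneous (i + 1) ∧ (∀ j, (v j).IsHomogeneous i) ∧
      ∀ (p : ι → MvPolynomial κ K) (G : MvPolynomial κ K),
        act ψ (perazzo p G) = act (nf f v) (perazzo p G)) ?_ ?_ ?_ hψ
  · refine ⟨0, 0, isHomogeneous_zero _ _ _, fun j => isHomogeneous_zero _ _ _, fun p G => ?_⟩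
    simp [nf]
  · rintro a b ⟨f, v, hf, hv, h⟩ ⟨f', v', hf', hv', h'⟩
    refine ⟨f + f', v + v', hf.add hf', fun j => (hv j).add (hv' j), fun p G => ?_⟩
    rw [map_add, LinearMap.add_apply, h, h']
    have : nf (f + f') (v + v') = nf f v + nf f' v' := by
      unfold nf
      simp only [Pi.add_apply, map_add, mul_add, Finset.sum_add_distrib]
      ring
    rw [this, map_add, LinearMap.add_apply]
  · intro a c ha
    by_cases h0 : ∀ j, a (Sum.inl j) = 0
    · obtain ⟨b, hb, hb'⟩ := monomial_eq_rename c h0
      refine ⟨monomial b c, 0, isHomogeneous_monomial _ (by omega),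
        fun j => isHomogeneous_zero _ _ _, fun p G => ?_⟩
      rw [hb']
      simp [nf]
    · push Not at h0
      obtain ⟨j, hj⟩ := h0
      obtain ⟨h1, h2⟩ := monomial_eq_X_mul c hj
      set a' := a - Finsupp.single (Sum.inl j) 1 with ha'
      by_cases h3 : ∀ j, a' (Sum.inl j) = 0
      · obtain ⟨b, hb, hb'⟩ := monomial_eq_rename c h3
        refine ⟨0, Pi.single j (monomial b c), isHomogeneous_zero _ _ _, fun k => ?_,
          fun p G => ?_⟩
        · by_cases hk : k = j
          · subst hk
            rw [Pi.single_eq_same]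
            exact isHomogeneous_monomial _ (by omega)
          · rw [Pi.single_eq_of_ne hk]
            exact isHomogeneous_zero _ _ _
        · rw [h1, hb']
          have : nf 0 (Pi.single j (monomial b c)) =
              X (Sum.inl j) * rename Sum.inr (monomial b c) := by
            unfold nf
            rw [map_zero, zero_add, Finset.sum_eq_single j]
            · rw [Pi.single_eq_same]
            · intro k _ hk
              rw [Pi.single_eq_of_ne hk, map_zero, mul_zero]
            · intro h; exact absurd (Finset.mem_univ _) h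
          rw [this]
      · push Not at h3
        obtain ⟨k, hk⟩ := h3
        obtain ⟨h4, h5⟩ := monomial_eq_X_mul c hk
        refine ⟨0, 0, isHomogeneous_zero _ _ _, fun j => isHomogeneous_zero _ _ _,
          fun p G => ?_⟩
        rw [h1, h4, act_xx_perazzo]
        simp [nf]

end Pool.Agent.Helper27.Pz
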