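import Pool.Agent.Helper27.PzMain

/-!
# Points in general position and generic forms
-/

namespace Pool.Agent.Helper27.Pz

open MvPolynomial

variable {K : Type*} [Field K] {κ : Type*}

/-- Evaluation at a point as a linear functional. -/
noncomputable def ev (x : κ → K) : MvPolynomial κ K →ₗ[K] K := (aeval x).toLinearMap

lemma ev_apply (x : κ → K) (f : MvPolynomial κ K) : ev x f = eval x f := by
  unfold ev
  rw [AlgHom.toLinearMap_apply, aeval_eq_eval]

lemma finrank_inf_ker {V : Type*} [AddCommGroup V] [Module K V] (S : Submodule K V)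
    [FiniteDimensional K S] (ξ : V →ₗ[K] K) {v : V} (hv : v ∈ S) (h : ξ v ≠ 0) :
    ∃ S' : Submodule K V, FiniteDimensional K S' ∧ (∀ x, x ∈ S' ↔ x ∈ S ∧ ξ x = 0) ∧
      Module.finrank K S' + 1 = Module.finrank K S := by
  refine ⟨(LinearMap.ker (ξ.domRestrict S)).map S.subtype, inferInstance, ?_, ?_⟩
  · intro x
    constructor
    · rintro ⟨y, hy, rfl⟩
      exact ⟨y.2, hy⟩
    · rintro ⟨hx, hx'⟩
      exact ⟨⟨x, hx⟩, hx', rfl⟩
  · rw [Submodule.finrank_map_subtype_eq]
    refine Module.Dual.finrank_ker_add_one_of_ne_zero (f := ξ.domRestrict S) ?_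
    intro h0
    apply h
    exact DFunLike.congr_fun h0 (⟨v, hv⟩ : S)

/-- Points in general position with respect to two spaces of polynomials. -/
lemma exists_points [Infinite K] (N : ℕ) (V W : Submodule K (MvPolynomial κ K))
    [FiniteDimensional K V] [FiniteDimensional K W] (hW : Module.finrank K W = N)
    (hV : N ≤ Module.finrank K V) :
    ∃ P : Fin N → κ → K, (∀ f ∈ W, (∀ k, ev (P k) f = 0) → f = 0) ∧
      ∀ y : Fin N → K, ∃ g ∈ V, ∀ k, ev (P k) g = y k := by
  induction N generalizing V W with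
  | zero =>
    refine ⟨Fin.elim0, fun f hf _ => ?_, fun y => ⟨0, V.zero_mem, fun k => k.elim0⟩⟩
    rw [Submodule.finrank_eq_zero.1 hW] at hf
    exact hf
  | succ N ih =>
    obtain ⟨f0, hf0, hf0'⟩ : ∃ f ∈ W, f ≠ 0 := by
      rw [← Submodule.ne_bot_iff]
      intro h
      rw [h, finrank_bot] at hW
      omega
    obtain ⟨g0, hg0, hg0'⟩ : ∃ g ∈ V, g ≠ 0 := by
      rw [← Submodule.ne_bot_iff]
      intro h
      rw [h, finrank_bot] at hV
      omega
    obtain ⟨x, hx⟩ : ∃ x, eval x (f0 * g0) ≠ 0 := by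
      by_contra hc
      push Not at hc
      exact mul_ne_zero hf0' hg0' (MvPolynomial.funext fun x => by rw [hc x, map_zero])
    rw [map_mul] at hx
    have hx1 : ev x f0 ≠ 0 := by rw [ev_apply]; exact left_ne_zero_of_mul hx
    have hx2 : ev x g0 ≠ 0 := by rw [ev_apply]; exact right_ne_zero_of_mul hx
    obtain ⟨W', fW', mW', hW'⟩ := finrank_inf_ker W (ev x) hf0 hx1
    obtain ⟨V', fV', mV', hV'⟩ := finrank_inf_ker V (ev x) hg0 hx2
    obtain ⟨P, h1, h2⟩ := ih V' W' (by omega) (by omega)
    refine ⟨Fin.cons x P, fun f hf h => ?_, fun y => ?_⟩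
    · refine h1 f ((mW' f).2 ⟨hf, ?_⟩) fun k => ?_
      · have := h 0
        rwa [Fin.cons_zero] at this
      · have := h k.succ
        rwa [Fin.cons_succ] at this
    · set t : K := y 0 / ev x g0 with ht
      obtain ⟨g', hg', h3⟩ := h2 fun k => y k.succ - t * ev (P k) g0
      refine ⟨t • g0 + g', V.add_mem (V.smul_mem _ hg0) ((mV' g').1 hg').1, fun k => ?_⟩
      refine Fin.cases ?_ (fun k => ?_) k
      · rw [Fin.cons_zero, map_add, map_smul, ((mV' g').1 hg').2, add_zero, smul_eq_mul, ht,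
          div_mul_cancel₀ _ hx2]
      · rw [Fin.cons_succ, map_add, map_smul, h3 k, smul_eq_mul]
        ring

lemma finiteDimensional_of_homog [Finite κ] {k : ℕ} {V : Submodule K (MvPolynomial κ K)}
    (hV : ∀ v ∈ V, v.IsHomogeneous k) : FiniteDimensional K V := by
  have h1 : FiniteDimensional K (homogeneousSubmodule κ K k) :=
    Module.Finite.iff_fg.2 (homogeneousSubmodule_fg κ K k)
  exact Submodule.finiteDimensional_of_le (S₂ := homogeneousSubmodule κ K k) hV

variable [Fintype κ] [CharZero K]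

/-- A form `q` for which the pairing `(f, g) ↦ fg ∘ q` is nondegenerate on given spaces. -/
lemma exists_form {a b : ℕ} (V W : Submodule K (MvPolynomial κ K))
    (hV : ∀ v ∈ V, v.IsHomogeneous b) (hW : ∀ v ∈ W, v.IsHomogeneous a)
    (h : Module.finrank K W ≤ Module.finrank K V) :
    ∃ q : MvPolynomial κ K, q.IsHomogeneous (a + b) ∧
      ∀ f ∈ W, (∀ g ∈ V, pair (f * g) q = 0) → f = 0 := by
  have := finiteDimensional_of_homog hV
  have := finiteDimensional_of_homog hW
  obtain ⟨P, h1, h2⟩ := exists_points (Module.finrank K W) V W rfl h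
  obtain ⟨q, hq, h3⟩ := exists_pair_eq (a + b) (∑ k, ev (P k))
  refine ⟨q, hq, fun f hf h4 => h1 f hf fun k => ?_⟩
  obtain ⟨g, hg, h5⟩ := h2 (Pi.single k 1)
  have h6 := h4 g hg
  rw [pair_comm, h3 _ ((hW f hf).mul (hV g hg)), LinearMap.sum_apply,
    Finset.sum_eq_single k] at h6
  · rw [ev_apply, map_mul, ← ev_apply, ← ev_apply, h5 k, Pi.single_eq_same, mul_one] at h6
    exact h6
  · intro i _ hi
    rw [ev_apply, map_mul, ← ev_apply, ← ev_apply, h5 i, Pi.single_eq_of_ne hi, mul_zero]
  · intro h; exact absurd (Finset.mem_univ _) h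

/-! ### Polynomials in the coefficients of forms -/

omit [CharZero K] in
/-- The exponents of degree `e`. -/
noncomputable def expo (κ : Type*) [Fintype κ] (e : ℕ) : Finset (κ →₀ ℕ) :=
  (Finsupp.finite_of_degree_eq (σ := κ) e).toFinset

omit K [Field K] [CharZero K] in
lemma mem_expo {e : ℕ} {a : κ →₀ ℕ} : a ∈ expo κ e ↔ a.degree = e := by
  simp [expo]

/-- The form of degree `e` with coefficients `x`. -/
noncomputable def formOf (e : ℕ) (x : (κ →₀ ℕ) → K) : MvPolynomial κ K :=
  ∑ a ∈ expo κ e, monomial a (x a)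

omit [CharZero K] in
lemma formOf_homog (e : ℕ) (x : (κ →₀ ℕ) → K) : (formOf e x).IsHomogeneous e :=
  IsHomogeneous.sum _ _ _ fun _ ha => isHomogeneous_monomial _ (mem_expo.1 ha)

omit [CharZero K] in
lemma formOf_coeff {e : ℕ} {G : MvPolynomial κ K} (hG : G.IsHomogeneous e) :
    formOf e (fun a => coeff a G) = G := by
  classical
  ext b
  unfold formOf
  rw [coeff_sum]
  by_cases hb : b.degree = e
  · rw [Finset.sum_eq_single b]
    · rw [coeff_monomial, if_pos rfl]
    · intro a _ ha
      rw [coeff_monomial, if_neg ha]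
    · intro h
      exact absurd (mem_expo.2 hb) h
  · rw [hG.coeff_eq_zero hb]
    refine Finset.sum_eq_zero fun a ha => ?_
    rw [coeff_monomial, if_neg]
    rintro rfl
    exact hb (mem_expo.1 ha)

/-- The linear polynomial in the coefficients given by a functional. -/
noncomputable def linPoly (e : ℕ) (η : MvPolynomial κ K →ₗ[K] K) :
    MvPolynomial (κ →₀ ℕ) K :=
  ∑ a ∈ expo κ e, C (η (monomial a 1)) * X a

omit [CharZero K] in
lemma eval_linPoly (e : ℕ) (η : MvPolynomial κ K →ₗ[K] K) (x : (κ →₀ ℕ) → K) :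
    eval x (linPoly e η) = η (formOf e x) := by
  unfold linPoly formOf
  rw [map_sum, map_sum]
  refine Finset.sum_congr rfl fun a _ => ?_
  rw [map_mul, eval_C, eval_X, mul_comm, ← smul_eq_mul, ← map_smul, smul_monomial, smul_eq_mul,
    mul_one]

/-- The determinant of a matrix of functionals as a polynomial in the coefficients. -/
noncomputable def detPoly {n : Type*} [Fintype n] [DecidableEq n] (e : ℕ)
    (M : n → n → MvPolynomial κ K →ₗ[K] K) : MvPolynomial (κ →₀ ℕ) K :=
  (Matrix.of fun i j => linPoly e (M i j)).det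

omit [CharZero K] in
lemma eval_detPoly {n : Type*} [Fintype n] [DecidableEq n] (e : ℕ)
    (M : n → n → MvPolynomial κ K →ₗ[K] K) {G : MvPolynomial κ K} (hG : G.IsHomogeneous e) :
    eval (fun a => coeff a G) (detPoly e M) = (Matrix.of fun i j => M i j G).det := by
  unfold detPoly
  rw [RingHom.map_det]
  congr 1
  ext i j
  simp only [RingHom.mapMatrix_apply, Matrix.map_apply, Matrix.of_apply]
  rw [eval_linPoly, formOf_coeff hG]

end Pool.Agent.Helper27.Pz
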