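import Pool.Agent.Helper27.SqCase

/-!
Algebraic conclusion: if the number of tiles is not a square and the angles of the big triangle
are distinct, the ratios of its sides are algebraic.
-/

open Real

namespace Pool.Agent.Helper27.Sq

theorem cross_alg (b e f : Fin 3 → ℝ) (hb : ∀ k, b k ≠ 0)
    (he : e 0 * b 0 + e 1 * b 1 + e 2 * b 2 = 0) (hf : f 0 * b 0 + f 1 * b 1 + f 2 * b 2 = 0)
    (hea : ∀ k, IsAlgebraic ℚ (e k)) (hfa : ∀ k, IsAlgebraic ℚ (f k))
    (hne : ¬ (e 1 * f 2 - e 2 * f 1 = 0 ∧ e 2 * f 0 - e 0 * f 2 = 0 ∧ e 0 * f 1 - e 1 * f 0 = 0)) :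
    ∀ k l, IsAlgebraic ℚ (b k / b l) := by
  set c : Fin 3 → ℝ := ![e 1 * f 2 - e 2 * f 1, e 2 * f 0 - e 0 * f 2, e 0 * f 1 - e 1 * f 0]
    with hc
  have hca : ∀ k, IsAlgebraic ℚ (c k) := by
    intro k
    fin_cases k
    · exact ((hea 1).mul (hfa 2)).sub ((hea 2).mul (hfa 1))
    · exact ((hea 2).mul (hfa 0)).sub ((hea 0).mul (hfa 2))
    · exact ((hea 0).mul (hfa 1)).sub ((hea 1).mul (hfa 0))
  have hpar : ∀ p q, b p * c q = b q * c p := by
    have h01 : b 0 * c 1 = b 1 * c 0 := by
      simp only [hc, Matrix.cons_val_zero, Matrix.cons_val_one]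
      linear_combination f 2 * he * (-1) + e 2 * hf
    have h02 : b 0 * c 2 = b 2 * c 0 := by
      simp only [hc, Matrix.cons_val_zero, Matrix.cons_val]
      linear_combination f 1 * he + (-1) * e 1 * hf
    have h12 : b 1 * c 2 = b 2 * c 1 := by
      simp only [hc, Matrix.cons_val_one, Matrix.cons_val]
      linear_combination (-1) * f 0 * he + e 0 * hf
    intro p q
    fin_cases p <;> fin_cases q
    · rfl
    · exact h01
    · exact h02
    · exact h01.symm
    · rfl
    · exact h12
    · exact h02.symm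
    · exact h12.symm
    · rfl
  obtain ⟨q, hq⟩ : ∃ q, c q ≠ 0 := by
    by_contra hcon
    push Not at hcon
    exact hne ⟨hcon 0, hcon 1, hcon 2⟩
  intro k l
  have hl : c l ≠ 0 := by
    intro h0
    have := hpar l q
    rw [h0, mul_zero] at this
    exact (mul_ne_zero (hb l) hq) this
  have : b k / b l = c k * (c l)⁻¹ := by
    rw [← div_eq_mul_inv, div_eq_div_iff (hb l) hl, hpar k l, mul_comm]
  rw [this]
  exact (hca k).mul (hca l).inv

theorem ratio_alg (b : Fin 3 → ℝ) (hb : ∀ k, b k ≠ 0) (R : ℝ) (n : ℕ) (hR : R^2 = n)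
    (hn : ¬ IsSquare n) (D : Fin 3 → Fin 3 → ℕ)
    (h : ∀ k, R * b k = (D k 0 : ℝ) * b 0 + D k 1 * b 1 + D k 2 * b 2) :
    ∀ k l, IsAlgebraic ℚ (b k / b l) := by
  have hirr : ∀ q : ℚ, (q:ℝ) ≠ R := by
    intro q hq
    apply hn
    rw [← Rat.isSquare_natCast_iff]
    refine ⟨q, ?_⟩
    have : ((n:ℚ):ℝ) = ((q*q : ℚ) : ℝ) := by
      push_cast; rw [hq, ← hR]; ring
    exact_mod_cast this
  have hlin : ∀ a c : ℤ, (a:ℝ) + c * R = 0 → a = 0 ∧ c = 0 := by
    intro a c hac
    have hc : c = 0 := by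
      by_contra hc
      have hc' : (c:ℝ) ≠ 0 := by exact_mod_cast hc
      apply hirr (-(a:ℚ)/c)
      push_cast
      field_simp
      linarith
    subst hc
    simp only [Int.cast_zero, zero_mul, add_zero, Int.cast_eq_zero] at hac
    exact ⟨hac, rfl⟩
  have hn0 : n ≠ 0 := by
    rintro rfl
    exact hn ⟨0, rfl⟩
  have hRa : IsAlgebraic ℚ R := by
    refine IsAlgebraic.of_pow (n := 2) (by norm_num) ?_
    rw [hR]; exact isAlgebraic_natCast n
  have hna : ∀ a : ℕ, IsAlgebraic ℚ (a:ℝ) := fun a => isAlgebraic_natCast a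
  by_contra hcon
  -- rows
  have H1 := cross_alg b ![(D 0 0:ℝ) - R, D 0 1, D 0 2] ![(D 1 0:ℝ), D 1 1 - R, D 1 2] hb
    (by have := h 0; simp only [Matrix.cons_val_zero, Matrix.cons_val_one, Matrix.cons_val]; linarith)
    (by have := h 1; simp only [Matrix.cons_val_zero, Matrix.cons_val_one, Matrix.cons_val]; linarith)
    (by
      intro k; fin_cases k
      · exact (hna _).sub hRa
      · exact hna _
      · exact hna _)
    (by
      intro k; fin_cases k
      · exact hna _
      · exact (hna _).sub hRa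
      · exact hna _)
  have H2 := cross_alg b ![(D 0 0:ℝ) - R, D 0 1, D 0 2] ![(D 2 0:ℝ), D 2 1, D 2 2 - R] hb
    (by have := h 0; simp only [Matrix.cons_val_zero, Matrix.cons_val_one, Matrix.cons_val]; linarith)
    (by have := h 2; simp only [Matrix.cons_val_zero, Matrix.cons_val_one, Matrix.cons_val]; linarith)
    (by
      intro k; fin_cases k
      · exact (hna _).sub hRa
      · exact hna _
      · exact hna _)
    (by
      intro k; fin_cases k
      · exact hna _
      · exact hna _
      · exact (hna _).sub hRa)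
  have K1 := not_not.1 (fun hh => hcon (H1 hh))
  have K2 := not_not.1 (fun hh => hcon (H2 hh))
  clear H1 H2
  simp only [Matrix.cons_val_zero, Matrix.cons_val_one, Matrix.cons_val] at K1 K2
  obtain ⟨-, -, a3⟩ := K1
  obtain ⟨b1, b2, -⟩ := K2
  -- a3 : (d00 - R)(d11 - R) - d01 d10 = 0
  have c1 := hlin ((D 0 0 : ℤ) * D 1 1 + n - D 0 1 * D 1 0) (-((D 0 0 : ℤ) + D 1 1)) (by
    push_cast; rw [← hR]; linear_combination a3)
  have c2 := hlin (-((D 0 0 : ℤ) * D 2 2 + n - D 0 2 * D 2 0)) ((D 0 0 : ℤ) + D 2 2) (by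
    push_cast; rw [← hR]; linear_combination b2)
  have c3 := hlin ((D 0 1 : ℤ) * D 2 2 - D 0 2 * D 2 1) (-(D 0 1 : ℤ)) (by
    push_cast; linear_combination b1)
  have z0 : D 0 0 = 0 := by have := c1.2; omega
  have z3 : D 0 1 = 0 := by have := c3.2; omega
  have := c1.1
  rw [z0, z3] at this
  simp at this
  exact hn0 this

/-- angles and sides of a triangle tiled by `n` congruent tiles with angles `τ` -/
theorem alg_main (τ θ : Fin 3 → ℝ) (hτ : ∀ j, 0 < τ j) (hτs : τ 0 + τ 1 + τ 2 = π)
    (hθ : ∀ k, 0 < θ k) (hθs : θ 0 + θ 1 + θ 2 = π)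
    (M D : Fin 3 → Fin 3 → ℕ) (hM : ∀ k, θ k = M k 0 * τ 0 + M k 1 * τ 1 + M k 2 * τ 2)
    (S : Fin 3 → ℝ)
    (hS : ∀ k, S k = D k 0 * sin (τ 0) + D k 1 * sin (τ 1) + D k 2 * sin (τ 2))
    (hE : ∀ k l, S k * sin (θ l) = S l * sin (θ k))
    (n : ℕ) (hn : ¬ IsSquare n)
    (hF : ∀ k l m, k ≠ l → l ≠ m → k ≠ m →
      S k * S l * sin (θ m) = n * (sin (τ 0) * sin (τ 1) * sin (τ 2)))
    (hinj : Function.Injective θ) : ∀ k l, IsAlgebraic ℚ (sin (θ k) / sin (θ l)) := by
  have hπ := pi_pos
  have hsτ : ∀ j, 0 < sin (τ j) := by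
    intro j
    apply sin_pos_of_pos_of_lt_pi (hτ j)
    have h0 := hτ 0
    have h1 := hτ 1
    have h2 := hτ 2
    fin_cases j <;> simp <;> linarith
  have hsθ : ∀ j, 0 < sin (θ j) := by
    intro j
    apply sin_pos_of_pos_of_lt_pi (hθ j)
    have h0 := hθ 0
    have h1 := hθ 1
    have h2 := hθ 2
    fin_cases j <;> simp <;> linarith
  have hcol : ((M 0 0 + M 1 0 + M 2 0 : ℝ) - 1) * τ 0 + ((M 0 1 + M 1 1 + M 2 1 : ℝ) - 1) * τ 1
      + ((M 0 2 + M 1 2 + M 2 2 : ℝ) - 1) * τ 2 = 0 := by
    have h0 := hM 0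
    have h1 := hM 1
    have h2 := hM 2
    linarith
  -- a general statement for a vanishing column
  have hcase : ∀ j0 j1 j2 : Fin 3, (∀ f : Fin 3 → ℝ, f 0 + f 1 + f 2 = f j0 + f j1 + f j2) →
      (∀ f : Fin 3 → ℝ, f 0 * f 1 * f 2 = f j0 * f j1 * f j2) →
      (∀ k, M k j0 = 0) → ∀ k l, IsAlgebraic ℚ (sin (θ k) / sin (θ l)) := by
    intro j0 j1 j2 hsum hprod hz
    set x := τ j1 with hx
    set y := τ j2 with hy
    have hj0 : τ j0 = π - (x + y) := by
      have := hsum τ; linarith
    have hθk : ∀ k, θ k = M k j1 * x + M k j2 * y := by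
      intro k
      have := hsum (fun j => M k j * τ j)
      have h2 := hz k
      rw [hM k]
      simp only [h2, Nat.cast_zero, zero_mul, zero_add] at this
      exact this
    have hSk : ∀ k, S k = SS (fun k => D k j0) (fun k => D k j1) (fun k => D k j2) k x y := by
      intro k
      have := hsum (fun j => D k j * sin (τ j))
      rw [hS k, this, hj0, sin_pi_sub]
      rfl
    set B := ∑ k, M k j1 with hB
    set C := ∑ k, M k j2 with hC
    have hline : (B:ℝ) * x + C * y = π := by
      rw [hB, hC, Fin.sum_univ_three, Fin.sum_univ_three]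
      push_cast
      have h0 := hθk 0
      have h1 := hθk 1
      have h2 := hθk 2
      linarith
    have hpos : ∀ k, 0 < M k j1 + M k j2 := by
      intro k
      by_contra hcon
      have h1 : M k j1 = 0 := by omega
      have h2 : M k j2 = 0 := by omega
      have := hθ k
      rw [hθk k, h1, h2] at this
      simp at this
    -- rational angles
    have hrat : ∀ (C : ℕ) (hC : 0 < C) (w : ℝ), (C:ℝ) * w = π → ∀ k : ℕ,
        IsAlgebraic ℚ (sin (k * w)) := by
      intro C hC w hw k
      have h1 := sin_alg (B := 0) (C := C) hC (x := 0) (y := w) (by push_cast; linarith)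
        (by simpa using isAlgebraic_one) 0 k
      simpa using h1
    intro k l
    rcases Nat.eq_zero_or_pos B with hB0 | hB0
    · have hu : ∀ k, M k j1 = 0 := by
        intro k
        have := Finset.sum_eq_zero_iff.1 (hB ▸ hB0) k (Finset.mem_univ k)
        exact this
      have hCpos : 0 < C := by
        have := hpos 0
        rw [hC, Fin.sum_univ_three]
        have := hu 0
        omega
      have hal : ∀ k, IsAlgebraic ℚ (sin (θ k)) := by
        intro k
        rw [hθk k, hu k, Nat.cast_zero, zero_mul, zero_add]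
        apply hrat C hCpos
        rw [hB0] at hline
        push_cast at hline
        linarith
      rw [div_eq_mul_inv]
      exact (hal k).mul (hal l).inv
    rcases Nat.eq_zero_or_pos C with hC0 | hC0
    · have hv : ∀ k, M k j2 = 0 := by
        intro k
        have := Finset.sum_eq_zero_iff.1 (hC ▸ hC0) k (Finset.mem_univ k)
        exact this
      have hal : ∀ k, IsAlgebraic ℚ (sin (θ k)) := by
        intro k
        rw [hθk k, hv k, Nat.cast_zero, zero_mul, add_zero]
        apply hrat B hB0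
        rw [hC0] at hline
        push_cast at hline
        linarith
      rw [div_eq_mul_inv]
      exact (hal k).mul (hal l).inv
    by_cases hz : IsAlgebraic ℚ (Complex.exp (Complex.I * x / C))
    · have hal : ∀ k, IsAlgebraic ℚ (sin (θ k)) := by
        intro k
        rw [hθk k]
        exact sin_alg hC0 hline hz _ _
      rw [div_eq_mul_inv]
      exact (hal k).mul (hal l).inv
    · exfalso
      have hsys : Sys (fun k => M k j1) (fun k => M k j2) (fun k => D k j0) (fun k => D k j1)
          (fun k => D k j2) n x y :=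
        { hx := hτ _
          hy := hτ _
          hxy := by have := hτ j0; linarith
          hpos := hpos
          hs := hline
          hinj := by
            intro k l hkl
            have := hinj.ne hkl
            rwa [hθk k, hθk l] at this
          hn := hn
          hE0 := by
            intro k l
            have := hE k l
            rwa [hSk k, hSk l, hθk k, hθk l] at this
          hF0 := by
            intro k l m h1 h2 h3
            have := hF k l m h1 h2 h3
            rw [hSk k, hSk l, hθk m] at this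
            rw [this]
            have h4 := hprod (fun j => sin (τ j))
            rw [h4, hj0, sin_pi_sub]
          T := fun f hf h0 => transfer hC0 hline hz hf h0 }
      exact hsys.false hB0 hC0
  by_cases hc0 : ∀ k, M k 0 = 0
  · exact hcase 0 1 2 (fun f => rfl) (fun f => rfl) hc0
  by_cases hc1 : ∀ k, M k 1 = 0
  · exact hcase 1 0 2 (fun f => by ring) (fun f => by ring) hc1
  by_cases hc2 : ∀ k, M k 2 = 0
  · exact hcase 2 0 1 (fun f => by ring) (fun f => by ring) hc2
  -- all column sums are positive, hence one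
  have hsumpos : ∀ j, ¬ (∀ k, M k j = 0) → 1 ≤ M 0 j + M 1 j + M 2 j := by
    intro j hj
    by_contra hcon
    apply hj
    intro k
    fin_cases k <;> simp <;> omega
  have p0 := hsumpos 0 hc0
  have p1 := hsumpos 1 hc1
  have p2 := hsumpos 2 hc2
  have q0 : (1:ℝ) ≤ M 0 0 + M 1 0 + M 2 0 := by exact_mod_cast p0
  have q1 : (1:ℝ) ≤ M 0 1 + M 1 1 + M 2 1 := by exact_mod_cast p1
  have q2 : (1:ℝ) ≤ M 0 2 + M 1 2 + M 2 2 := by exact_mod_cast p2
  have t0 : 0 ≤ ((M 0 0 + M 1 0 + M 2 0 : ℝ) - 1) * τ 0 := mul_nonneg (by linarith) (hτ 0).le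
  have t1 : 0 ≤ ((M 0 1 + M 1 1 + M 2 1 : ℝ) - 1) * τ 1 := mul_nonneg (by linarith) (hτ 1).le
  have t2 : 0 ≤ ((M 0 2 + M 1 2 + M 2 2 : ℝ) - 1) * τ 2 := mul_nonneg (by linarith) (hτ 2).le
  have r0 : ((M 0 0 + M 1 0 + M 2 0 : ℝ) - 1) * τ 0 = 0 := by linarith
  have r1 : ((M 0 1 + M 1 1 + M 2 1 : ℝ) - 1) * τ 1 = 0 := by linarith
  have r2 : ((M 0 2 + M 1 2 + M 2 2 : ℝ) - 1) * τ 2 = 0 := by linarith
  have s0 : M 0 0 + M 1 0 + M 2 0 = 1 := by
    have := (mul_eq_zero.1 r0).resolve_right (hτ 0).ne'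
    have : (M 0 0 + M 1 0 + M 2 0 : ℝ) = 1 := by linarith
    exact_mod_cast this
  have s1 : M 0 1 + M 1 1 + M 2 1 = 1 := by
    have := (mul_eq_zero.1 r1).resolve_right (hτ 1).ne'
    have : (M 0 1 + M 1 1 + M 2 1 : ℝ) = 1 := by linarith
    exact_mod_cast this
  have s2 : M 0 2 + M 1 2 + M 2 2 = 1 := by
    have := (mul_eq_zero.1 r2).resolve_right (hτ 2).ne'
    have : (M 0 2 + M 1 2 + M 2 2 : ℝ) = 1 := by linarith
    exact_mod_cast this
  -- each column has its one in some row
  have hcolj : ∀ j, M 0 j + M 1 j + M 2 j = 1 := by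
    intro j; fin_cases j
    · exact s0
    · exact s1
    · exact s2
  have hrow : ∀ k, 0 < M k 0 + M k 1 + M k 2 := by
    intro k
    by_contra hcon
    have h0 : M k 0 = 0 := by omega
    have h1 : M k 1 = 0 := by omega
    have h2 : M k 2 = 0 := by omega
    have := hθ k
    rw [hM k, h0, h1, h2] at this
    simp at this
  have hle : ∀ k j, M k j ≤ 1 := by
    intro k j
    have := hcolj j
    fin_cases k <;> simp <;> omega
  have hrow1 : ∀ k, M k 0 + M k 1 + M k 2 = 1 := by
    intro k
    have a0 := hrow 0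
    have a1 := hrow 1
    have a2 := hrow 2
    fin_cases k <;> simp <;> omega
  have hσ : ∀ k, ∃ j, θ k = τ j ∧ M k j = 1 := by
    intro k
    have h1 := hrow1 k
    have h2 := hM k
    rcases Nat.eq_zero_or_pos (M k 0) with a | a
    · rcases Nat.eq_zero_or_pos (M k 1) with b | b
      · have c : M k 2 = 1 := by omega
        refine ⟨2, ?_, c⟩
        rw [h2, a, b, c]; simp
      · have b' : M k 1 = 1 := by omega
        have c : M k 2 = 0 := by omega
        refine ⟨1, ?_, b'⟩
        rw [h2, a, b', c]; simp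
    · have a' : M k 0 = 1 := by omega
      have b : M k 1 = 0 := by omega
      have c : M k 2 = 0 := by omega
      refine ⟨0, ?_, a'⟩
      rw [h2, a', b, c]; simp
  choose σ hσ1 hσ2 using hσ
  have hσinj : Function.Injective σ := by
    intro k l hkl
    by_contra hne
    apply hinj.ne hne
    rw [hσ1 k, hσ1 l, hkl]
  have hσbij : Function.Bijective σ := Finite.injective_iff_bijective.1 hσinj
  have hsum' : ∀ f : Fin 3 → ℝ, f 0 + f 1 + f 2 = f (σ 0) + f (σ 1) + f (σ 2) := by
    intro f
    have := Equiv.sum_comp (Equiv.ofBijective σ hσbij) f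
    rw [Fin.sum_univ_three, Fin.sum_univ_three] at this
    exact this.symm
  have hprod' : ∀ f : Fin 3 → ℝ, f 0 * f 1 * f 2 = f (σ 0) * f (σ 1) * f (σ 2) := by
    intro f
    have := Equiv.prod_comp (Equiv.ofBijective σ hσbij) f
    rw [Fin.prod_univ_three, Fin.prod_univ_three] at this
    exact this.symm
  set R := S 0 / sin (θ 0) with hR
  have hRk : ∀ k, R * sin (θ k) = S k := by
    intro k
    rw [hR, div_mul_eq_mul_div, hE 0 k, mul_div_assoc, div_self (hsθ 0).ne', mul_one]
  have hR2 : R^2 = n := by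
    have h1 := hF 0 1 2 (by decide) (by decide) (by decide)
    have h2 := hprod' (fun j => sin (τ j))
    simp only [← hσ1] at h2
    rw [h2, ← hRk 0, ← hRk 1] at h1
    have hp : sin (θ 0) * sin (θ 1) * sin (θ 2) ≠ 0 :=
      (mul_pos (mul_pos (hsθ 0) (hsθ 1)) (hsθ 2)).ne'
    apply mul_right_cancel₀ hp
    rw [← h1]; ring
  exact ratio_alg (fun k => sin (θ k)) (fun k => (hsθ k).ne') R n hR2 hn
    (fun k l => D k (σ l)) (by
      intro k
      have h1 := hsum' (fun j => D k j * sin (τ j))
      simp only [← hσ1] at h1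
      rw [hRk k, hS k, h1])

end Pool.Agent.Helper27.Sq
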