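import Mathlib

/-!
Algebraic part of the square-only theorem: functions of two real variables on the
line `B X + C Y = π` which are polynomial in sines of `pX+qY` and integers.
-/

open Real

namespace Pool.Agent.Helper27.Sq

/-- functions of `(X,Y)` generated by natural constants and `sin (pX+qY)` -/
inductive G : (ℝ → ℝ → ℝ) → Prop
  | const (a : ℕ) : G (fun _ _ => (a:ℝ))
  | sn (p q : ℕ) : G (fun X Y => Real.sin (p*X+q*Y))
  | sub {f g} : G f → G g → G (fun X Y => f X Y - g X Y)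
  | add {f g} : G f → G g → G (fun X Y => f X Y + g X Y)
  | mul {f g} : G f → G g → G (fun X Y => f X Y * g X Y)

theorem G.swap {f : ℝ → ℝ → ℝ} (hf : G f) : G (fun X Y => f Y X) := by
  induction hf with
  | const a => exact G.const a
  | sn p q =>
    have : (fun X Y : ℝ => Real.sin (p*Y+q*X)) = (fun X Y : ℝ => Real.sin (q*X+p*Y)) := by
      funext X Y; rw [add_comm]
    rw [this]; exact G.sn q p
  | sub _ _ h1 h2 => exact G.sub h1 h2
  | add _ _ h1 h2 => exact G.add h1 h2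
  | mul _ _ h1 h2 => exact G.mul h1 h2

/-- the subfield of algebraic complex numbers, as a predicate on polynomials -/
def AlgPoly (p : Polynomial ℂ) : Prop := ∃ q : Polynomial (algebraicClosure ℚ ℂ),
  q.map (algebraMap (algebraicClosure ℚ ℂ) ℂ) = p

theorem AlgPoly.add {p q : Polynomial ℂ} (hp : AlgPoly p) (hq : AlgPoly q) : AlgPoly (p+q) := by
  obtain ⟨a, rfl⟩ := hp
  obtain ⟨b, rfl⟩ := hq
  exact ⟨a+b, by simp⟩

theorem AlgPoly.sub {p q : Polynomial ℂ} (hp : AlgPoly p) (hq : AlgPoly q) : AlgPoly (p-q) := by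
  obtain ⟨a, rfl⟩ := hp
  obtain ⟨b, rfl⟩ := hq
  exact ⟨a-b, by simp⟩

theorem AlgPoly.mul {p q : Polynomial ℂ} (hp : AlgPoly p) (hq : AlgPoly q) : AlgPoly (p*q) := by
  obtain ⟨a, rfl⟩ := hp
  obtain ⟨b, rfl⟩ := hq
  exact ⟨a*b, by simp⟩

theorem AlgPoly.C {c : ℂ} (hc : IsAlgebraic ℚ c) : AlgPoly (Polynomial.C c) := by
  refine ⟨Polynomial.C ⟨c, ?_⟩, by simp⟩
  exact mem_algebraicClosure_iff.2 hc

theorem AlgPoly.X : AlgPoly Polynomial.X := ⟨Polynomial.X, by simp⟩

theorem AlgPoly.pow {p : Polynomial ℂ} (hp : AlgPoly p) (k : ℕ) : AlgPoly (p^k) := by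
  obtain ⟨a, rfl⟩ := hp
  exact ⟨a^k, by simp⟩

theorem AlgPoly.eq_zero {p : Polynomial ℂ} (hp : AlgPoly p) {z : ℂ} (hz : Transcendental ℚ z)
    (h0 : p.eval z = 0) : p = 0 := by
  obtain ⟨a, rfl⟩ := hp
  have hz' : Transcendental (algebraicClosure ℚ ℂ) z := by
    intro h
    haveI : Algebra.IsAlgebraic ℚ (algebraicClosure ℚ ℂ) :=
      algebraicClosure.isAlgebraic ℚ ℂ
    exact hz (h.restrictScalars ℚ)
  have := (transcendental_iff.1 hz') a (by
    rw [Polynomial.aeval_def, ← Polynomial.eval_map]; exact h0)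
  rw [this]; simp

theorem G.poly {f : ℝ → ℝ → ℝ} (hf : G f) {B C : ℕ} (hC : 0 < C) :
    ∃ (N : ℕ) (p : Polynomial ℂ), AlgPoly p ∧ ∀ X Y : ℝ, (B:ℝ)*X + C*Y = π →
      (f X Y : ℂ) * (Complex.exp (Complex.I * X / C))^N
        = p.eval (Complex.exp (Complex.I * X / C)) := by
  have hC' : (C:ℂ) ≠ 0 := by exact_mod_cast hC.ne'
  induction hf with
  | const a =>
    refine ⟨0, Polynomial.C (a:ℂ), AlgPoly.C (isAlgebraic_natCast a), fun X Y _ => by simp⟩
  | sub _ _ h1 h2 =>
    obtain ⟨N1, p1, hp1, h1⟩ := h1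
    obtain ⟨N2, p2, hp2, h2⟩ := h2
    refine ⟨N1+N2, p1 * Polynomial.X^N2 - p2*Polynomial.X^N1,
      (hp1.mul (AlgPoly.X.pow _)).sub (hp2.mul (AlgPoly.X.pow _)), fun X Y h => ?_⟩
    simp only [Polynomial.eval_sub, Polynomial.eval_mul, Polynomial.eval_pow, Polynomial.eval_X,
      ← h1 X Y h, ← h2 X Y h]
    push_cast; ring
  | add _ _ h1 h2 =>
    obtain ⟨N1, p1, hp1, h1⟩ := h1
    obtain ⟨N2, p2, hp2, h2⟩ := h2
    refine ⟨N1+N2, p1 * Polynomial.X^N2 + p2*Polynomial.X^N1,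
      (hp1.mul (AlgPoly.X.pow _)).add (hp2.mul (AlgPoly.X.pow _)), fun X Y h => ?_⟩
    simp only [Polynomial.eval_add, Polynomial.eval_mul, Polynomial.eval_pow, Polynomial.eval_X,
      ← h1 X Y h, ← h2 X Y h]
    push_cast; ring
  | mul _ _ h1 h2 =>
    obtain ⟨N1, p1, hp1, h1⟩ := h1
    obtain ⟨N2, p2, hp2, h2⟩ := h2
    refine ⟨N1+N2, p1 * p2, hp1.mul hp2, fun X Y h => ?_⟩
    simp only [Polynomial.eval_mul, ← h1 X Y h, ← h2 X Y h]
    push_cast; ring
  | sn p q =>
    have hζ : IsAlgebraic ℚ (Complex.exp (Complex.I * π / C)) := by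
      refine IsAlgebraic.of_pow (n := 2*C) (by positivity) ?_
      have : (Complex.exp (Complex.I * π / C))^(2*C) = 1 := by
        rw [← Complex.exp_nat_mul, Complex.exp_eq_one_iff]
        refine ⟨1, ?_⟩
        push_cast
        field_simp
      rw [this]; exact isAlgebraic_one
    have hI : IsAlgebraic ℚ Complex.I := by
      refine IsAlgebraic.of_pow (n := 2) (by norm_num) ?_
      rw [Complex.I_sq]
      exact isAlgebraic_one.neg
    have h2 : IsAlgebraic ℚ (2:ℂ) := by exact_mod_cast isAlgebraic_natCast (R := ℚ) (A := ℂ) 2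
    refine ⟨C*p+B*q, Polynomial.C (Complex.I/2 * (Complex.exp (Complex.I * π / C))⁻¹^q)
        * Polynomial.X^(2*(B*q))
        - Polynomial.C (Complex.I/2 * (Complex.exp (Complex.I * π / C))^q)
        * Polynomial.X^(2*(C*p)), ?_, ?_⟩
    · refine AlgPoly.sub (AlgPoly.mul (AlgPoly.C ?_) (AlgPoly.X.pow _))
        (AlgPoly.mul (AlgPoly.C ?_) (AlgPoly.X.pow _))
      · rw [div_eq_mul_inv]
        exact (hI.mul h2.inv).mul (hζ.inv.pow _)
      · rw [div_eq_mul_inv]
        exact (hI.mul h2.inv).mul (hζ.pow _)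
    · intro X Y h
      have hY : (Y:ℂ) = (π - B * X)/C := by
        have h' : (B:ℂ)*X + C*Y = π := by exact_mod_cast h
        field_simp
        linear_combination h'
      simp only [Polynomial.eval_sub, Polynomial.eval_mul, Polynomial.eval_pow, Polynomial.eval_X,
        Polynomial.eval_C]
      push_cast
      rw [Complex.sin]
      simp only [← Complex.exp_neg, ← Complex.exp_nat_mul]
      have e1 : Complex.exp (-(p * X + q * Y) * Complex.I)
          * Complex.exp (((C*p+B*q : ℕ) : ℂ) * (Complex.I * X / C))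
          = Complex.exp ((q:ℂ) * (-(Complex.I * π / C))) *
            Complex.exp (((2*(B*q) : ℕ) : ℂ) * (Complex.I * X / C)) := by
        rw [← Complex.exp_add, ← Complex.exp_add]
        congr 1
        rw [hY]; push_cast; field_simp; ring
      have e2 : Complex.exp ((p * X + q * Y) * Complex.I)
          * Complex.exp (((C*p+B*q : ℕ) : ℂ) * (Complex.I * X / C))
          = Complex.exp ((q:ℂ) * (Complex.I * π / C)) *
            Complex.exp (((2*(C*p) : ℕ) : ℂ) * (Complex.I * X / C)) := by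
        rw [← Complex.exp_add, ← Complex.exp_add]
        congr 1
        rw [hY]; push_cast; field_simp; ring
      linear_combination (Complex.I/2) * e1 - (Complex.I/2) * e2

theorem transfer {B C : ℕ} (hC : 0 < C) {x y : ℝ} (hxy : (B:ℝ)*x + C*y = π)
    (hz : Transcendental ℚ (Complex.exp (Complex.I * x / C))) {f : ℝ → ℝ → ℝ} (hf : G f)
    (h0 : f x y = 0) : ∀ X Y : ℝ, (B:ℝ)*X + C*Y = π → f X Y = 0 := by
  obtain ⟨N, p, hp, h⟩ := hf.poly (B := B) hC
  have h1 := h x y hxy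
  rw [h0] at h1
  have hp0 := hp.eq_zero hz (by rw [← h1]; simp)
  intro X Y hXY
  have h2 := h X Y hXY
  rw [hp0] at h2
  simp only [Polynomial.eval_zero, mul_eq_zero, pow_eq_zero_iff', Complex.exp_ne_zero,
    false_and, or_false] at h2
  exact_mod_cast h2

/-- if the base exponential is algebraic, all the sines are algebraic -/
theorem sin_alg {B C : ℕ} (hC : 0 < C) {x y : ℝ} (hxy : (B:ℝ)*x + C*y = π)
    (hz : IsAlgebraic ℚ (Complex.exp (Complex.I * x / C))) (p q : ℕ) :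
    IsAlgebraic ℚ (Real.sin (p*x+q*y)) := by
  obtain ⟨N, P, ⟨Q, hQ⟩, h⟩ := (G.sn p q).poly (B := B) hC
  have h1 := h x y hxy
  have h2 : IsAlgebraic ℚ (P.eval (Complex.exp (Complex.I * x / C))) := by
    rw [← hQ, Polynomial.eval_map]
    have hz' : Complex.exp (Complex.I * x / C) ∈ algebraicClosure ℚ ℂ :=
      mem_algebraicClosure_iff.2 hz
    have : Polynomial.eval₂ (algebraMap (algebraicClosure ℚ ℂ) ℂ)
        (Complex.exp (Complex.I * x / C)) Q
        = algebraMap (algebraicClosure ℚ ℂ) ℂ (Q.eval ⟨_, hz'⟩) := by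
      rw [← Polynomial.eval₂_at_apply]
      rfl
    rw [this]
    exact mem_algebraicClosure_iff.1 (Subtype.property (Q.eval ⟨_, hz'⟩ : algebraicClosure ℚ ℂ))
  have h3 : IsAlgebraic ℚ ((Real.sin (p*x+q*y) : ℝ) : ℂ) := by
    have : ((Real.sin (p*x+q*y) : ℝ) : ℂ)
        = P.eval (Complex.exp (Complex.I * x / C)) * ((Complex.exp (Complex.I * x / C))^N)⁻¹ := by
      rw [← h1, mul_assoc, mul_inv_cancel₀ (pow_ne_zero _ (Complex.exp_ne_zero _)), mul_one]
    rw [this]
    exact h2.mul (hz.pow _).inv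
  exact (isAlgebraic_algebraMap_iff (R := ℚ) (A := ℂ) (S := ℝ)
    (FaithfulSMul.algebraMap_injective ℝ ℂ)).1 h3

end Pool.Agent.Helper27.Sq
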