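import Pool.Agent.Helper27.SqVert

/-!
Tiles at the corners, relabelling.
-/

open MeasureTheory Set Complex Filter Topology
open scoped ENNReal Real

namespace Pool.Agent.Helper27.Sq

section
variable {T : Fin 3 → ℂ} {n : ℕ} {Q : Fin n → Fin 3 → ℂ}

theorem onl_iff_onLine (hT : AffineIndependent ℝ T) (l : Fin 3) (P : Fin 3 → ℂ) (e : Fin 3) :
    onl (T (l+1)) (T (l+2) - T (l+1)) P e ↔ onLine hT l P e := by
  have hD := DA_ne hT
  unfold onl onLine
  rw [co_cr, co_cr, div_eq_zero_iff, div_eq_zero_iff, or_iff_left hD, or_iff_left hD]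

theorem Tiling.ce1 (h : Tiling T n Q) {k l : Fin 3} (hkl : k ≠ l) :
    ∃ i j e, e ≠ j ∧ Q i j = T k ∧ onLine h.hT l (Q i) e := by
  classical
  set z0 := T (l+1) with hz0
  set u := T (l+2) - T (l+1) with hu
  have hu0 : u ≠ 0 := sub_ne_zero.2 ((P_inj h.hT).ne (f3c l).symm)
  set g : ℂ → ℝ := fun z => if z = T k then 1 else 0 with hg
  have hkey := h.line_key (z0 := z0) hu0 g
  have hnot : ∀ m, m ≠ l → ¬ onl z0 u T m := by
    intro m hm hon
    have h1 := (onl_iff_onLine h.hT l T m).1 hon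
    have hl : l = m + 1 ∨ l = m + 2 := by
      rcases f3d m l with h2 | h2 | h2
      · exact absurd h2.symm hm
      · exact Or.inl h2
      · exact Or.inr h2
    rcases hl with h2 | h2
    · have := h1.1
      rw [← h2, co_self] at this
      exact one_ne_zero this
    · have := h1.2
      rw [← h2, co_self] at this
      exact one_ne_zero this
  have honl : onl z0 u T l := by
    refine ⟨?_, ?_⟩
    · rw [hz0, sub_self, cr_zero_right]
    · rw [hz0, ← hu, cr_self]
  have hT : lsum z0 u g T ≠ 0 := by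
    unfold lsum
    rw [Finset.sum_eq_single l (fun m _ hm => by rw [if_neg (hnot m hm), zero_mul])
      (fun h1 => absurd (Finset.mem_univ l) h1), if_pos honl]
    have ho : ori T ≠ 0 := by rcases ori_cases T with h1 | h1 <;> rw [h1] <;> norm_num
    apply mul_ne_zero ho
    rcases f3d l k with h2 | h2 | h2
    · exact absurd h2 hkl
    · rw [hg]
      simp only
      rw [h2, if_pos rfl, if_neg (fun h3 => (f3c l) (P_inj h.hT h3).symm)]
      norm_num
    · rw [hg]
      simp only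
      rw [h2, if_pos rfl, if_neg (fun h3 => (f3c l) (P_inj h.hT h3))]
      norm_num
  rw [← hkey] at hT
  obtain ⟨i, -, hi⟩ := Finset.exists_ne_zero_of_sum_ne_zero hT
  unfold lsum at hi
  obtain ⟨e, -, he⟩ := Finset.exists_ne_zero_of_sum_ne_zero hi
  by_cases hon : onl z0 u (Q i) e
  · have hon2 := (onl_iff_onLine h.hT l (Q i) e).1 hon
    have h1 := right_ne_zero_of_mul he
    by_cases c1 : Q i (e+1) = T k
    · exact ⟨i, e+1, e, f3a e, c1, hon2⟩
    · by_cases c2 : Q i (e+2) = T k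
      · exact ⟨i, e+2, e, f3b e, c2, hon2⟩
      · exfalso
        apply h1
        rw [hg]
        simp only
        rw [if_neg c1, if_neg c2, sub_self]
  · rw [if_neg hon, zero_mul] at he
    exact absurd rfl he

theorem MM_ne {k j : Fin 3} {i : Fin n} (h : Q i j = T k) : MM T Q k j ≠ 0 := by
  classical
  unfold MM
  rw [Finset.card_ne_zero]
  exact ⟨i, by simp [h]⟩

theorem DD_ne (hT : AffineIndependent ℝ T) {l e : Fin 3} {i : Fin n} (h : onLine hT l (Q i) e) :
    DD hT Q l e ≠ 0 := by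
  classical
  unfold DD
  rw [Finset.card_ne_zero]
  exact ⟨i, by simp [h]⟩

theorem Tiling.ce (h : Tiling T n Q) (k : Fin 3) : ∃ j e j' e' : Fin 3, e ≠ j ∧ e' ≠ j' ∧
    MM T Q k j ≠ 0 ∧ MM T Q k j' ≠ 0 ∧ DD h.hT Q (k+1) e ≠ 0 ∧ DD h.hT Q (k+2) e' ≠ 0 ∧
    (j = j' → 2 ≤ MM T Q k j ∨ e ≠ e') := by
  classical
  obtain ⟨i, j, e, h1, h2, h3⟩ := h.ce1 (f3a k)
  obtain ⟨i', j', e', h1', h2', h3'⟩ := h.ce1 (f3b k)
  refine ⟨j, e, j', e', h1, h1', MM_ne h2, MM_ne h2', DD_ne h.hT h3, DD_ne h.hT h3', ?_⟩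
  rintro rfl
  by_cases hii : i = i'
  · right
    subst hii
    rintro rfl
    -- the same edge on two sides
    have key : ∀ z, co h.hT (k+1) z = 0 → co h.hT (k+2) z = 0 → z = T k := by
      intro z hz1 hz2
      apply co_ext h.hT
      have hs := co_sum h.hT z
      rw [sumR (fun l => co h.hT l z) k] at hs
      intro l
      rcases f3d k l with rfl | rfl | rfl
      · rw [co_self]; linarith
      · rw [hz1, co_ne h.hT (f3a k).symm]
      · rw [hz2, co_ne h.hT (f3b k).symm]
    have e1 := key _ h3.1 h3'.1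
    have e2 := key _ h3.2 h3'.2
    rw [← e2] at e1
    exact f3c e (P_inj (h.hQ i) e1)
  · left
    unfold MM
    have : ({i, i'} : Finset (Fin n)) ⊆ Finset.univ.filter fun x => Q x j = T k := by
      intro x hx
      rw [Finset.mem_insert, Finset.mem_singleton] at hx
      rcases hx with rfl | rfl
      · simp [h2]
      · simp [h2']
    calc 2 = ({i, i'} : Finset (Fin n)).card := (Finset.card_pair hii).symm
      _ ≤ _ := Finset.card_le_card this

/-! ### relabelling -/

theorem tri_perm {V : Type*} [NormedAddCommGroup V] [NormedSpace ℝ V] (P : Fin 3 → V)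
    (σ : Equiv.Perm (Fin 3)) : tri (P ∘ σ) = tri P := by
  unfold tri
  rw [σ.surjective.range_comp]

theorem Tiling.relabel (h : Tiling T n Q) (σ ρ : Equiv.Perm (Fin 3)) :
    Tiling (T ∘ σ) n (fun i => Q i ∘ ρ) where
  hT := h.hT.comp_embedding σ.toEmbedding
  hQ := fun i => (h.hQ i).comp_embedding ρ.toEmbedding
  hcong := fun i j a b => h.hcong i j (ρ a) (ρ b)
  hU := by
    simp only [tri_perm]; exact h.hU
  hd := by
    simp only [tri_perm]; exact h.hd

theorem perm_cases : ∀ (σ : Equiv.Perm (Fin 3)) (k : Fin 3),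
    (σ (k+1) = σ k + 1 ∧ σ (k+2) = σ k + 2) ∨ (σ (k+1) = σ k + 2 ∧ σ (k+2) = σ k + 1) := by
  decide

theorem side_perm {V : Type*} [NormedAddCommGroup V] (P : Fin 3 → V) (σ : Equiv.Perm (Fin 3))
    (k : Fin 3) : side (P ∘ σ) k = side P (σ k) := by
  unfold side
  rcases perm_cases σ k with ⟨h1, h2⟩ | ⟨h1, h2⟩
  · simp only [Function.comp_apply, h1, h2]
  · simp only [Function.comp_apply, h1, h2]
    exact dist_comm _ _

theorem ang_perm (P : Fin 3 → ℂ) (σ : Equiv.Perm (Fin 3)) (k : Fin 3) :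
    ang (P ∘ σ) k = ang P (σ k) := by
  unfold ang
  rcases perm_cases σ k with ⟨h1, h2⟩ | ⟨h1, h2⟩
  · simp only [Function.comp_apply, h1, h2]
  · simp only [Function.comp_apply, h1, h2]
    exact InnerProductGeometry.angle_comm _ _

theorem MM_perm (T : Fin 3 → ℂ) (Q : Fin n → Fin 3 → ℂ) (σ ρ : Equiv.Perm (Fin 3)) (k j : Fin 3) :
    MM (T ∘ σ) (fun i => Q i ∘ ρ) k j = MM T Q (σ k) (ρ j) := rfl

theorem co_perm (hT : AffineIndependent ℝ T) (σ : Equiv.Perm (Fin 3))
    (hT' : AffineIndependent ℝ (T ∘ σ)) (k : Fin 3) (z : ℂ) : co hT' k z = co hT (σ k) z := by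
  have h1 := aff_co hT' (co hT (σ k)) z
  have e : ∀ l, co hT (σ k) ((T ∘ σ) l) = if l = k then 1 else 0 := by
    intro l
    by_cases hl : l = k
    · subst hl; rw [if_pos rfl]; exact co_self hT _
    · rw [if_neg hl]; exact co_ne hT (fun h => hl (σ.injective h).symm)
  rw [h1, e, e, e]
  fin_cases k <;> simp

theorem onLine_perm (hT : AffineIndependent ℝ T) (σ ρ : Equiv.Perm (Fin 3))
    (hT' : AffineIndependent ℝ (T ∘ σ)) (l : Fin 3) (P : Fin 3 → ℂ) (e : Fin 3) :
    onLine hT' l (P ∘ ρ) e ↔ onLine hT (σ l) P (ρ e) := by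
  unfold onLine
  rw [co_perm hT σ hT', co_perm hT σ hT']
  rcases perm_cases ρ e with ⟨h1, h2⟩ | ⟨h1, h2⟩
  · simp only [Function.comp_apply, h1, h2]
  · simp only [Function.comp_apply, h1, h2]
    exact and_comm

theorem DD_perm (hT : AffineIndependent ℝ T) (Q : Fin n → Fin 3 → ℂ) (σ ρ : Equiv.Perm (Fin 3))
    (hT' : AffineIndependent ℝ (T ∘ σ)) (l e : Fin 3) :
    DD hT' (fun i => Q i ∘ ρ) l e = DD hT Q (σ l) (ρ e) := by
  classical
  unfold DD
  congr 1
  ext i
  simp only [Finset.mem_filter, Finset.mem_univ, true_and]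
  exact onLine_perm hT σ ρ hT' l (Q i) e

end

end Pool.Agent.Helper27.Sq
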