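import Pool.Agent.Helper27.SqAn

/-!
Case analysis for the square-only theorem.
-/

open Real

namespace Pool.Agent.Helper27.Sq

/-- `S = d0 sin (X+Y) + d1 sin X + d2 sin Y` -/
noncomputable def SS (d0 d1 d2 : Fin 3 → ℕ) (k : Fin 3) (X Y : ℝ) : ℝ :=
  d0 k * sin (X+Y) + d1 k * sin X + d2 k * sin Y

theorem G_SS (d0 d1 d2 : Fin 3 → ℕ) (k : Fin 3) : G (SS d0 d1 d2 k) := by
  have h0 : G (fun X Y : ℝ => sin (X+Y)) := by
    simpa using G.sn 1 1
  have h1 : G (fun X _ : ℝ => sin X) := by
    simpa using G.sn 1 0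
  have h2 : G (fun _ Y : ℝ => sin Y) := by
    simpa using G.sn 0 1
  exact G.add (G.add ((G.const (d0 k)).mul h0) ((G.const (d1 k)).mul h1)) ((G.const (d2 k)).mul h2)

/-- the system with a transfer principle -/
structure Sys (u v d0 d1 d2 : Fin 3 → ℕ) (n : ℕ) (x y : ℝ) : Prop where
  hx : 0 < x
  hy : 0 < y
  hxy : x + y < π
  hpos : ∀ k, 0 < u k + v k
  hs : ((∑ k, u k : ℕ):ℝ) * x + ((∑ k, v k : ℕ):ℝ) * y = π
  hinj : ∀ k l, k ≠ l → (u k * x + v k * y : ℝ) ≠ u l * x + v l * y
  hn : ¬ IsSquare n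
  hE0 : ∀ k l, SS d0 d1 d2 k x y * sin (u l * x + v l * y)
    = SS d0 d1 d2 l x y * sin (u k * x + v k * y)
  hF0 : ∀ k l m, k ≠ l → l ≠ m → k ≠ m →
    SS d0 d1 d2 k x y * SS d0 d1 d2 l x y * sin (u m * x + v m * y)
      = n * (sin (x+y) * sin x * sin y)
  T : ∀ f : ℝ → ℝ → ℝ, G f → f x y = 0 → ∀ X Y : ℝ,
    ((∑ k, u k : ℕ):ℝ) * X + ((∑ k, v k : ℕ):ℝ) * Y = π → f X Y = 0

theorem SS_swap (d0 d1 d2 : Fin 3 → ℕ) (k : Fin 3) (X Y : ℝ) :
    SS d0 d2 d1 k Y X = SS d0 d1 d2 k X Y := by
  unfold SS; rw [add_comm Y X]; ring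

theorem Sys.swap {u v d0 d1 d2 : Fin 3 → ℕ} {n : ℕ} {x y : ℝ} (h : Sys u v d0 d1 d2 n x y) :
    Sys v u d0 d2 d1 n y x where
  hx := h.hy
  hy := h.hx
  hxy := by linarith [h.hxy]
  hpos k := by have := h.hpos k; omega
  hs := by linarith [h.hs]
  hinj k l hkl := by
    have := h.hinj k l hkl
    rwa [add_comm, add_comm (v l * y : ℝ)]
  hn := h.hn
  hE0 k l := by
    rw [SS_swap d0 d1 d2 k x y, SS_swap d0 d1 d2 l x y, add_comm (v l * y : ℝ),
      add_comm (v k * y : ℝ)]
    exact h.hE0 k l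
  hF0 k l m h1 h2 h3 := by
    rw [SS_swap d0 d1 d2 k x y, SS_swap d0 d1 d2 l x y, add_comm (v m * y : ℝ),
      h.hF0 k l m h1 h2 h3, add_comm x y]
    ring
  T f hf h0 X Y hXY := h.T (fun X Y => f Y X) hf.swap h0 Y X (by linarith)

section
variable {u v d0 d1 d2 : Fin 3 → ℕ} {n : ℕ} {x y : ℝ}

theorem Sys.E (h : Sys u v d0 d1 d2 n x y) (k l : Fin 3) (X Y : ℝ)
    (hXY : ((∑ k, u k : ℕ):ℝ) * X + ((∑ k, v k : ℕ):ℝ) * Y = π) :
    SS d0 d1 d2 k X Y * sin (u l * X + v l * Y)
      = SS d0 d1 d2 l X Y * sin (u k * X + v k * Y) := by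
  have := h.T (fun X Y => SS d0 d1 d2 k X Y * sin (u l * X + v l * Y)
    - SS d0 d1 d2 l X Y * sin (u k * X + v k * Y))
    (((G_SS d0 d1 d2 k).mul (G.sn _ _)).sub ((G_SS d0 d1 d2 l).mul (G.sn _ _)))
    (sub_eq_zero.2 (h.hE0 k l)) X Y hXY
  exact sub_eq_zero.1 this

theorem Sys.F (h : Sys u v d0 d1 d2 n x y) (k l m : Fin 3) (h1 : k ≠ l) (h2 : l ≠ m) (h3 : k ≠ m)
    (X Y : ℝ) (hXY : ((∑ k, u k : ℕ):ℝ) * X + ((∑ k, v k : ℕ):ℝ) * Y = π) :
    SS d0 d1 d2 k X Y * SS d0 d1 d2 l X Y * sin (u m * X + v m * Y)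
      = n * (sin (X+Y) * sin X * sin Y) := by
  have g0 : G (fun X Y : ℝ => sin (X+Y)) := by
    simpa using G.sn 1 1
  have g1 : G (fun X _ : ℝ => sin X) := by
    simpa using G.sn 1 0
  have g2 : G (fun _ Y : ℝ => sin Y) := by
    simpa using G.sn 0 1
  have := h.T (fun X Y => SS d0 d1 d2 k X Y * SS d0 d1 d2 l X Y * sin (u m * X + v m * Y)
    - n * (sin (X+Y) * sin X * sin Y))
    ((((G_SS d0 d1 d2 k).mul (G_SS d0 d1 d2 l)).mul (G.sn _ _)).sub
      ((G.const n).mul ((g0.mul g1).mul g2)))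
    (sub_eq_zero.2 (h.hF0 k l m h1 h2 h3)) X Y hXY
  exact sub_eq_zero.1 this

theorem Sys.n_ne (h : Sys u v d0 d1 d2 n x y) : (n:ℝ) ≠ 0 := by
  intro h0
  have : n = 0 := by exact_mod_cast h0
  exact h.hn (this ▸ ⟨0, rfl⟩)

theorem Sys.sx (h : Sys u v d0 d1 d2 n x y) : 0 < sin x :=
  sin_pos_of_pos_of_lt_pi h.hx (by linarith [h.hxy, h.hy])

theorem Sys.sy (h : Sys u v d0 d1 d2 n x y) : 0 < sin y :=
  sin_pos_of_pos_of_lt_pi h.hy (by linarith [h.hxy, h.hx])

theorem Sys.sxy (h : Sys u v d0 d1 d2 n x y) : 0 < sin (x+y) :=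
  sin_pos_of_pos_of_lt_pi (by linarith [h.hx, h.hy]) h.hxy

theorem sin_frac_pos {a B : ℕ} (ha : 0 < a) (hB : a < B) : 0 < sin (a * (π/B)) := by
  have hB' : (0:ℝ) < B := by exact_mod_cast (by omega : 0 < B)
  have ha' : (0:ℝ) < a := by exact_mod_cast ha
  have hab : (a:ℝ) < B := by exact_mod_cast hB
  apply sin_pos_of_pos_of_lt_pi
  · positivity
  · rw [mul_div_assoc', div_lt_iff₀ hB']
    nlinarith [pi_pos]

theorem sin_one_pos {B : ℕ} (hB : 1 < B) : 0 < sin (π/B) := by
  have := sin_frac_pos (a := 1) one_pos hB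
  simpa using this

theorem sum3 {k l m : Fin 3} (h1 : k ≠ l) (h2 : l ≠ m) (h3 : k ≠ m) (f : Fin 3 → ℕ) :
    ∑ i, f i = f k + f l + f m := by
  rw [Fin.sum_univ_three]
  revert h1 h2 h3
  fin_cases k <;> fin_cases l <;> fin_cases m <;> simp <;> ring

/-- Step A -/
theorem Sys.stepA (h : Sys u v d0 d1 d2 n x y) (hB : 2 ≤ ∑ k, u k) : ∃ k, u k = 0 := by
  by_contra hne
  push Not at hne
  have hu : ∀ k, 0 < u k := fun k => Nat.pos_of_ne_zero (hne k)
  set B := ∑ k, u k with hBdef
  have hlt : ∀ k, u k < B := by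
    intro k
    have h0 := hu 0
    have h1 := hu 1
    have h2 := hu 2
    rw [hBdef, Fin.sum_univ_three]
    fin_cases k <;> simp <;> omega
  have hB' : (0:ℝ) < B := by exact_mod_cast (by omega : 0 < B)
  have hline : (B:ℝ) * (π/B) + ((∑ k, v k : ℕ):ℝ) * 0 = π := by field_simp; ring
  have hθ : ∀ k, 0 < sin (u k * (π/B) + v k * 0) := by
    intro k; simpa using sin_frac_pos (hu k) (hlt k)
  have hF := h.F 0 1 2 (by decide) (by decide) (by decide) _ _ hline
  simp only [sin_zero, mul_zero] at hF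
  have hS : ∀ k, SS d0 d1 d2 k (π/B) 0 = 0 := by
    rcases mul_eq_zero.1 hF with h1 | h1
    · rcases mul_eq_zero.1 h1 with h2 | h2
      · intro k
        have := h.E k 0 _ _ hline
        rw [h2, zero_mul] at this
        exact (mul_eq_zero.1 this).resolve_right (hθ 0).ne'
      · intro k
        have := h.E k 1 _ _ hline
        rw [h2, zero_mul] at this
        exact (mul_eq_zero.1 this).resolve_right (hθ 1).ne'
    · have := hθ 2
      rw [mul_zero] at this
      exact absurd h1 this.ne'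
  have hs1 := sin_one_pos (B := B) (by omega)
  have hd : ∀ k, (d0 k : ℝ) = 0 ∧ (d1 k : ℝ) = 0 := by
    intro k
    have h1 := hS k
    unfold SS at h1
    rw [add_zero, sin_zero, mul_zero, add_zero] at h1
    have h2 : ((d0 k : ℝ) + d1 k) * sin (π/B) = 0 := by linarith
    have h3 := (mul_eq_zero.1 h2).resolve_right hs1.ne'
    have h4 : (0:ℝ) ≤ d0 k := by positivity
    have h5 : (0:ℝ) ≤ d1 k := by positivity
    constructor <;> linarith
  -- cancel one `sin y`
  have h0 := h.hF0 0 1 2 (by decide) (by decide) (by decide)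
  have hSk : ∀ k X Y, SS d0 d1 d2 k X Y = d2 k * sin Y := by
    intro k X Y; unfold SS; rw [(hd k).1, (hd k).2]; ring
  rw [hSk, hSk] at h0
  have g0 : G (fun X Y : ℝ => sin (X+Y)) := by
    simpa using G.sn 1 1
  have g1 : G (fun X _ : ℝ => sin X) := by
    simpa using G.sn 1 0
  have g2 : G (fun _ Y : ℝ => sin Y) := by
    simpa using G.sn 0 1
  have hsy := h.sy
  have h3 := h.T (fun X Y => (d2 0 * sin Y) * d2 1 * sin (u 2 * X + v 2 * Y)
    - n * (sin (X+Y) * sin X))
    (((((G.const (d2 0)).mul g2).mul (G.const (d2 1))).mul (G.sn _ _)).sub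
      ((G.const n).mul (g0.mul g1)))
    (by
      have : sin y * ((d2 0 * sin y) * d2 1 * sin (u 2 * x + v 2 * y)
        - n * (sin (x+y) * sin x)) = 0 := by linear_combination h0
      exact (mul_eq_zero.1 this).resolve_left hsy.ne') _ _ hline
  simp only [sin_zero, mul_zero, zero_mul, add_zero, zero_sub, neg_eq_zero, mul_eq_zero] at h3
  rcases h3 with h3 | h3 | h3
  · exact h.n_ne h3
  · exact hs1.ne' h3
  · exact hs1.ne' h3

theorem Sys.r_zero (h : Sys u v d0 d1 d2 n x y) {k l m : Fin 3} (h1 : k ≠ l) (h2 : l ≠ m)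
    (h3 : k ≠ m) : SS d0 d1 d2 l x y ≠ 0 := by
  intro h0
  have := h.hF0 k l m h1 h2 h3
  rw [h0] at this
  have hp : (n:ℝ) * (sin (x+y) * sin x * sin y) ≠ 0 :=
    mul_ne_zero h.n_ne (mul_pos (mul_pos h.sxy h.sx) h.sy).ne'
  exact hp (by rw [← this]; ring)

/-- the pattern with two vanishing `u` -/
theorem Sys.beta (h : Sys u v d0 d1 d2 n x y) {k l m : Fin 3} (h1 : k ≠ l) (h2 : l ≠ m)
    (h3 : k ≠ m) (uk : u k = 0) (um : u m = 0) (vl : v l = 0) : False := by
  have hul : 0 < u l := by have := h.hpos l; omega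
  have hvk : 0 < v k := by have := h.hpos k; omega
  have hvm : 0 < v m := by have := h.hpos m; omega
  have hB : ∑ i, u i = u l := by rw [sum3 h1 h2 h3]; omega
  have hC : ∑ i, v i = v k + v m := by rw [sum3 h1 h2 h3]; omega
  have hhs := h.hs
  have hT := h.T
  have hE := h.E
  rw [hB, hC] at hhs hT hE
  set B := u l with hBd
  set C := v k + v m with hCd
  have hB' : (0:ℝ) < B := by exact_mod_cast hul
  have hC' : (0:ℝ) < C := by exact_mod_cast (by omega : 0 < C)
  have hsC := sin_one_pos (B := C) (by omega)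
  have hvk' := sin_frac_pos (a := v k) (B := C) hvk (by omega)
  -- at X = 0
  have hl0 : (B:ℝ) * 0 + C * (π/C) = π := by field_simp; ring
  have e1 := hE l k _ _ hl0
  rw [uk, vl] at e1
  simp only [Nat.cast_zero, mul_zero, zero_mul, zero_add, add_zero, sin_zero] at e1
  have e2 := (mul_eq_zero.1 e1).resolve_right hvk'.ne'
  unfold SS at e2
  rw [zero_add, sin_zero, mul_zero, add_zero] at e2
  have e3 : ((d0 l : ℝ) + d2 l) * sin (π/C) = 0 := by linarith
  have e4 := (mul_eq_zero.1 e3).resolve_right hsC.ne'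
  have hd0 : (d0 l : ℝ) = 0 := by
    have h4 : (0:ℝ) ≤ d0 l := by positivity
    have h5 : (0:ℝ) ≤ d2 l := by positivity
    linarith
  have hd2 : (d2 l : ℝ) = 0 := by linarith
  have hSl : ∀ X Y, SS d0 d1 d2 l X Y = d1 l * sin X := by
    intro X Y; unfold SS; rw [hd0, hd2]; ring
  have hr : (d1 l : ℝ) ≠ 0 := by
    intro h0
    apply h.r_zero h1 h2 h3
    rw [hSl, h0, zero_mul]
  have hEl : ∀ X Y : ℝ, (B:ℝ) * X + C * Y = π → d1 l * sin X * sin (v k * Y)
      = SS d0 d1 d2 k X Y * sin (B * X) := by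
    intro X Y hXY
    have := hE l k X Y hXY
    rw [hSl, uk, vl] at this
    simp only [Nat.cast_zero, zero_mul, zero_add, add_zero] at this
    exact this
  rcases Nat.lt_or_ge 2 B with hB3 | hB2
  · -- B ≥ 3
    have hl : (B:ℝ) * (2*π/B) + C * (-(π/C)) = π := by field_simp; ring
    have e5 := hEl _ _ hl
    have e6 : (B:ℝ) * (2*π/B) = 2*π := by field_simp
    rw [e6, sin_two_pi, mul_zero] at e5
    have e7 : sin (2*π/B) > 0 := by
      have := sin_frac_pos (a := 2) (B := B) (by norm_num) hB3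
      have e : ((2:ℕ):ℝ) * (π/B) = 2*π/B := by push_cast; ring
      rwa [e] at this
    have e8 : sin (v k * (-(π/C))) = - sin (v k * (π/C)) := by
      rw [← sin_neg]; congr 1; ring
    rw [e8] at e5
    have := mul_ne_zero (mul_ne_zero hr e7.ne') (neg_ne_zero.2 hvk'.ne')
    exact this e5
  · rcases Nat.lt_or_ge 1 B with hB1 | hB1
    · -- B = 2
      have hBe : B = 2 := by omega
      have hl : (B:ℝ) * (3*π/2) + C * (-(2*π/C)) = π := by
        rw [hBe]; push_cast; field_simp; ring
      have e5 := hEl _ _ hl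
      have e6 : sin ((B:ℝ) * (3*π/2)) = 0 := by
        rw [hBe]
        have : ((2:ℕ):ℝ) * (3*π/2) = (3:ℕ)*π := by push_cast; ring
        rw [this]; exact sin_nat_mul_pi 3
      rw [e6, mul_zero] at e5
      have e7 : sin (3*π/2) = -1 := by
        have : (3*π/2 : ℝ) = π/2 + π := by ring
        rw [this, sin_add_pi, sin_pi_div_two]
      rw [e7] at e5
      have e8 : sin (v k * (-(2*π/C))) = 0 := by
        rcases mul_eq_zero.1 e5 with h | h
        · exact absurd h (mul_ne_zero hr (by norm_num))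
        · exact h
      have e9 : sin (v k * (2*π/C)) = 0 := by
        have : (v k:ℝ) * (-(2*π/C)) = -(v k * (2*π/C)) := by ring
        rw [this, sin_neg, neg_eq_zero] at e8
        exact e8
      rw [sin_eq_zero_iff] at e9
      obtain ⟨z, hz⟩ := e9
      have e10 : (z:ℝ) * C = 2 * v k := by
        have : (z:ℝ) * π * C = v k * (2*π/C) * C := by rw [hz]
        have h' : (v k:ℝ) * (2*π/C) * C = (2 * v k) * π := by field_simp
        rw [h'] at this
        have hπ := pi_pos
        have : ((z:ℝ) * C - 2 * v k) * π = 0 := by linarith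
        have := (mul_eq_zero.1 this).resolve_right hπ.ne'
        linarith
      have e11 : z * C = 2 * v k := by exact_mod_cast e10
      have e12 : z = 1 := by
        have hz0 : 0 < z := by
          by_contra hcon
          push Not at hcon
          have : z * (C:ℤ) ≤ 0 := mul_nonpos_of_nonpos_of_nonneg hcon (by positivity)
          have : (0:ℤ) < v k := by exact_mod_cast hvk
          omega
        have hz2 : z < 2 := by
          by_contra hcon
          push Not at hcon
          have h7 : 2 * (C:ℤ) ≤ z * C := by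
            apply mul_le_mul_of_nonneg_right hcon (by positivity)
          have : (v k : ℤ) < C := by exact_mod_cast (by omega : v k < C)
          omega
        omega
      rw [e12, one_mul] at e11
      have e13 : v k = v m := by
        have : C = 2 * v k := by exact_mod_cast e11
        omega
      apply h.hinj k m h3
      rw [uk, um, e13]
    · -- B = 1
      have hBe : B = 1 := by omega
      have hx1 : x + C * y = π := by
        have := hhs
        rw [hBe] at this
        push_cast at this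
        linarith
      have hq : (d1 l : ℝ)^2 * (sin (v k * y) * sin (v m * y)) = n * (sin (x+y) * sin y) := by
        have f1 := h.hF0 k l m h1 h2 h3
        have f2 := h.hE0 l k
        rw [hSl, um, Nat.cast_zero, zero_mul, zero_add] at f1
        rw [hSl, uk, vl] at f2
        simp only [Nat.cast_zero, zero_mul, zero_add, add_zero] at f2
        rw [← hBd, hBe, Nat.cast_one, one_mul] at f2
        -- f2 : r sin x * sin (v k y) = S_k * sin x
        have f3 : d1 l * sin (v k * y) = SS d0 d1 d2 k x y := by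
          have := h.sx
          have f4 : sin x * (d1 l * sin (v k * y) - SS d0 d1 d2 k x y) = 0 := by
            linear_combination f2
          have := (mul_eq_zero.1 f4).resolve_left this.ne'
          linarith
        rw [← f3] at f1
        have f5 : sin x * ((d1 l : ℝ)^2 * (sin (v k * y) * sin (v m * y))
            - n * (sin (x+y) * sin y)) = 0 := by linear_combination f1
        have := (mul_eq_zero.1 f5).resolve_left h.sx.ne'
        linarith
      rcases Nat.lt_or_ge 2 C with hC3 | hC2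
      · have g0 : G (fun X Y : ℝ => sin (X+Y)) := by
          simpa using G.sn 1 1
        have g2 : G (fun _ Y : ℝ => sin Y) := by
          simpa using G.sn 0 1
        have gk : G (fun _ Y : ℝ => sin (v k * Y)) := by
          simpa using G.sn 0 (v k)
        have gm : G (fun _ Y : ℝ => sin (v m * Y)) := by
          simpa using G.sn 0 (v m)
        have gr : G (fun _ _ : ℝ => (d1 l : ℝ)^2) := by
          have := (G.const (d1 l)).mul (G.const (d1 l))
          simpa [sq] using this
        have t1 := hT (fun X Y => (d1 l : ℝ)^2 * (sin (v k * Y) * sin (v m * Y))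
          - n * (sin (X+Y) * sin Y))
          ((gr.mul (gk.mul gm)).sub ((G.const n).mul (g0.mul g2)))
          (sub_eq_zero.2 hq)
        have hC1 : (0:ℝ) < (C:ℝ) - 1 := by
          have : (2:ℝ) < C := by exact_mod_cast hC3
          linarith
        have hcast : ((C-1 : ℕ):ℝ) = (C:ℝ) - 1 := by
          rw [Nat.cast_sub (by omega)]; simp
        have t2 := t1 (-(π/((C:ℝ)-1))) (π/((C:ℝ)-1)) (by
          rw [hBe]; push_cast; field_simp; ring)
        simp only [neg_add_cancel, sin_zero, zero_mul, mul_zero, sub_zero] at t2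
        have t3 : sin (v k * (π/((C:ℝ)-1))) * sin (v m * (π/((C:ℝ)-1))) = 0 :=
          (mul_eq_zero.1 t2).resolve_left (pow_ne_zero _ hr)
        rw [← hcast] at t3
        have hcase : v k = C - 1 ∨ v m = C - 1 := by
          by_contra hcon
          push Not at hcon
          have a1 := sin_frac_pos (a := v k) (B := C-1) hvk (by omega)
          have a2 := sin_frac_pos (a := v m) (B := C-1) hvm (by omega)
          exact (mul_pos a1 a2).ne' t3
        have hfin : (d1 l : ℝ)^2 * (sin (((C:ℝ)-1) * y) * sin y) = n * (sin (x+y) * sin y) := by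
          rcases hcase with hc | hc
          · have hm1 : v m = 1 := by omega
            rw [hc, hm1, hcast] at hq
            simpa using hq
          · have hk1 : v k = 1 := by omega
            rw [hc, hk1, hcast] at hq
            rw [← hq]
            push_cast
            rw [one_mul]; ring
        have hsin : sin (((C:ℝ)-1) * y) = sin (x+y) := by
          have : x + y = π - ((C:ℝ)-1) * y := by linarith
          rw [this, sin_pi_sub]
        rw [hsin] at hfin
        have hp : sin (x+y) * sin y ≠ 0 := (mul_pos h.sxy h.sy).ne'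
        have := mul_right_cancel₀ hp hfin
        apply h.hn
        refine ⟨d1 l, ?_⟩
        have h9 : (n:ℝ) = (d1 l : ℝ) * d1 l := by rw [← this]; ring
        exact_mod_cast h9
      · have hk1 : v k = 1 := by omega
        have hm1 : v m = 1 := by omega
        apply h.hinj k m h3
        rw [uk, um, hk1, hm1]

theorem sin_nat_le {t : ℝ} (h0 : 0 < t) (h1 : t < π) (q : ℕ) : |sin (q*t)| ≤ q * sin t := by
  have hs := sin_pos_of_pos_of_lt_pi h0 h1
  induction q with
  | zero => simp
  | succ q ih =>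
    push_cast
    rw [add_mul, one_mul, sin_add, add_mul, one_mul]
    calc |sin (q*t) * cos t + cos (q*t) * sin t|
        ≤ |sin (q*t) * cos t| + |cos (q*t) * sin t| := abs_add_le _ _
      _ = |sin (q*t)| * |cos t| + |cos (q*t)| * sin t := by
          rw [abs_mul, abs_mul, abs_of_pos hs]
      _ ≤ q * sin t * 1 + 1 * sin t := by
          gcongr
          · exact abs_cos_le_one t
          · exact abs_cos_le_one _
      _ = q * sin t + sin t := by ring

theorem sin_nat_lt {t : ℝ} (h0 : 0 < t) (h1 : t < π) {q : ℕ} (hq : 2 ≤ q) :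
    sin (q*t) < q * sin t := by
  have hs := sin_pos_of_pos_of_lt_pi h0 h1
  obtain ⟨q, rfl⟩ : ∃ p, q = p + 1 := ⟨q-1, by omega⟩
  have hq1 : (0:ℝ) < q := by exact_mod_cast (by omega : 0 < q)
  have hc : |cos t| < 1 := by
    rw [← sq_lt_one_iff_abs_lt_one]
    nlinarith [sin_sq_add_cos_sq t]
  push_cast
  rw [add_mul, one_mul, sin_add, add_mul, one_mul]
  calc sin (q*t) * cos t + cos (q*t) * sin t
      ≤ |sin (q*t) * cos t| + |cos (q*t) * sin t| := add_le_add (le_abs_self _) (le_abs_self _)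
    _ = |sin (q*t)| * |cos t| + |cos (q*t)| * sin t := by
        rw [abs_mul, abs_mul, abs_of_pos hs]
    _ ≤ q * sin t * |cos t| + 1 * sin t := by
        gcongr
        · exact sin_nat_le h0 h1 q
        · exact abs_cos_le_one _
    _ < q * sin t + sin t := by
        have : q * sin t * |cos t| < q * sin t * 1 :=
          mul_lt_mul_of_pos_left hc (mul_pos hq1 hs)
        linarith

/-- derivative at an end point -/
theorem deriv_end {B C : ℕ} (_hB : 0 < B) (hC : 0 < C) (a b p q : ℝ)
    (h : ∀ X Y : ℝ, (B:ℝ) * X + C * Y = π → a * sin Y * sin (p * X) = b * sin X * sin (q * Y)) :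
    a * p * sin (π/C) = b * sin (q * (π/C)) := by
  have hC' : (0:ℝ) < C := by exact_mod_cast hC
  set Y : ℝ → ℝ := fun X => (π - B * X)/C with hY
  have hY0 : Y 0 = π/C := by simp [hY]
  have hYd : HasDerivAt Y (-(B:ℝ)/C) 0 := by
    have h1 : HasDerivAt (fun X : ℝ => π - B * X) (0 - B * 1) 0 :=
      (hasDerivAt_const 0 π).sub ((hasDerivAt_id' (0:ℝ)).const_mul (B:ℝ))
    have h2 := h1.div_const (C:ℝ)
    rw [mul_one, zero_sub] at h2
    exact h2
  have hf : (fun X => a * sin (Y X) * sin (p * X) - b * sin X * sin (q * Y X)) = fun _ => 0 := by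
    funext X
    have := h X (Y X) (by simp only [hY]; field_simp; ring)
    linarith
  have d1 : HasDerivAt (fun X => a * sin (Y X) * sin (p * X) - b * sin X * sin (q * Y X))
      ((a * (cos (Y 0) * (-(B:ℝ)/C)) * sin (p * 0) + a * sin (Y 0) * (cos (p * 0) * (p * 1)))
      - (b * cos 0 * sin (q * Y 0) + b * sin 0 * (cos (q * Y 0) * (q * (-(B:ℝ)/C))))) 0 := by
    refine HasDerivAt.sub (HasDerivAt.mul (hYd.sin.const_mul a) ?_)
      (HasDerivAt.mul ((hasDerivAt_sin 0).const_mul b) ?_)
    · exact ((hasDerivAt_id' (0:ℝ)).const_mul p).sin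
    · exact (hYd.const_mul q).sin
  have d2 : HasDerivAt (fun X => a * sin (Y X) * sin (p * X) - b * sin X * sin (q * Y X)) 0 0 := by
    rw [hf]; exact hasDerivAt_const 0 0
  have := d1.unique d2
  rw [hY0] at this
  simp only [mul_zero, sin_zero, cos_zero, mul_one, one_mul, zero_add, zero_mul, add_zero] at this
  linarith

/-- the pattern with a mixed third angle -/
theorem Sys.alpha (h : Sys u v d0 d1 d2 n x y) {k l m : Fin 3} (h1 : k ≠ l) (h2 : l ≠ m)
    (h3 : k ≠ m) (uk : u k = 0) (vl : v l = 0) (um : 0 < u m) (vm : 0 < v m) : False := by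
  have hul : 0 < u l := by have := h.hpos l; omega
  have hvk : 0 < v k := by have := h.hpos k; omega
  have hB : ∑ i, u i = u l + u m := by rw [sum3 h1 h2 h3]; omega
  have hC : ∑ i, v i = v k + v m := by rw [sum3 h1 h2 h3]; omega
  have hhs := h.hs
  have hE := h.E
  rw [hB, hC] at hhs hE
  set B := u l + u m with hBd
  set C := v k + v m with hCd
  have hB' : (0:ℝ) < B := by exact_mod_cast (by omega : 0 < B)
  have hC' : (0:ℝ) < C := by exact_mod_cast (by omega : 0 < C)
  have hsB := sin_one_pos (B := B) (by omega)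
  have hsC := sin_one_pos (B := C) (by omega)
  have hvk' := sin_frac_pos (a := v k) (B := C) hvk (by omega)
  have hul' := sin_frac_pos (a := u l) (B := B) hul (by omega)
  -- S_l at X = 0
  have hl0 : (B:ℝ) * 0 + C * (π/C) = π := by field_simp; ring
  have e1 := hE l k _ _ hl0
  rw [uk, vl] at e1
  simp only [Nat.cast_zero, mul_zero, zero_mul, zero_add, add_zero, sin_zero] at e1
  have e2 := (mul_eq_zero.1 e1).resolve_right hvk'.ne'
  unfold SS at e2
  rw [zero_add, sin_zero, mul_zero, add_zero] at e2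
  have e3 : ((d0 l : ℝ) + d2 l) * sin (π/C) = 0 := by linarith
  have e4 := (mul_eq_zero.1 e3).resolve_right hsC.ne'
  have hd0 : (d0 l : ℝ) = 0 := by
    have h4 : (0:ℝ) ≤ d0 l := by positivity
    have h5 : (0:ℝ) ≤ d2 l := by positivity
    linarith
  have hd2 : (d2 l : ℝ) = 0 := by linarith
  have hSl : ∀ X Y, SS d0 d1 d2 l X Y = d1 l * sin X := by
    intro X Y; unfold SS; rw [hd0, hd2]; ring
  -- S_k at Y = 0
  have hl1 : (B:ℝ) * (π/B) + C * 0 = π := by field_simp; ring
  have f1 := hE k l _ _ hl1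
  rw [uk, vl] at f1
  simp only [Nat.cast_zero, mul_zero, zero_mul, add_zero, sin_zero] at f1
  have f2 := (mul_eq_zero.1 f1).resolve_right hul'.ne'
  unfold SS at f2
  rw [add_zero, sin_zero, mul_zero, add_zero] at f2
  have f3 : ((d0 k : ℝ) + d1 k) * sin (π/B) = 0 := by linarith
  have f4 := (mul_eq_zero.1 f3).resolve_right hsB.ne'
  have hc0 : (d0 k : ℝ) = 0 := by
    have h4 : (0:ℝ) ≤ d0 k := by positivity
    have h5 : (0:ℝ) ≤ d1 k := by positivity
    linarith
  have hc1 : (d1 k : ℝ) = 0 := by linarith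
  have hSk : ∀ X Y, SS d0 d1 d2 k X Y = d2 k * sin Y := by
    intro X Y; unfold SS; rw [hc0, hc1]; ring
  have ha : (d2 k : ℝ) ≠ 0 := by
    intro h0
    apply h.r_zero h1.symm h3 h2
    rw [hSk, h0, zero_mul]
  have hb : (d1 l : ℝ) ≠ 0 := by
    intro h0
    apply h.r_zero h1 h2 h3
    rw [hSl, h0, zero_mul]
  have ha' : (0:ℝ) < d2 k := lt_of_le_of_ne (by positivity) ha.symm
  have hb' : (0:ℝ) < d1 l := lt_of_le_of_ne (by positivity) hb.symm
  have hEl : ∀ X Y : ℝ, (B:ℝ) * X + C * Y = π → (d2 k:ℝ) * sin Y * sin (u l * X)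
      = d1 l * sin X * sin (v k * Y) := by
    intro X Y hXY
    have := hE k l X Y hXY
    rw [hSl, hSk, uk, vl] at this
    simp only [Nat.cast_zero, zero_mul, zero_add, add_zero] at this
    exact this
  have g1 := deriv_end (by omega) (by omega) _ _ _ _ hEl
  have g2 := deriv_end (B := C) (C := B) (by omega) (by omega) (d1 l) (d2 k) (v k) (u l)
    (fun X Y hXY => (hEl Y X (by linarith)).symm)
  have hπB : 0 < π/B ∧ π/B < π := by
    refine ⟨by positivity, ?_⟩
    rw [div_lt_iff₀ hB']
    have : (1:ℝ) < B := by exact_mod_cast (by omega : 1 < B)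
    nlinarith [pi_pos]
  have hπC : 0 < π/C ∧ π/C < π := by
    refine ⟨by positivity, ?_⟩
    rw [div_lt_iff₀ hC']
    have : (1:ℝ) < C := by exact_mod_cast (by omega : 1 < C)
    nlinarith [pi_pos]
  have i1 : (d2 k : ℝ) * u l ≤ d1 l * v k := by
    have j := (le_abs_self _).trans (sin_nat_le hπC.1 hπC.2 (v k))
    have : (d2 k : ℝ) * u l * sin (π/C) ≤ d1 l * v k * sin (π/C) := by
      rw [g1, mul_assoc]
      exact mul_le_mul_of_nonneg_left j hb'.le
    exact le_of_mul_le_mul_right this hsC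
  have i2 : (d1 l : ℝ) * v k ≤ d2 k * u l := by
    have j := (le_abs_self _).trans (sin_nat_le hπB.1 hπB.2 (u l))
    have : (d1 l : ℝ) * v k * sin (π/B) ≤ d2 k * u l * sin (π/B) := by
      rw [g2, mul_assoc]
      exact mul_le_mul_of_nonneg_left j ha'.le
    exact le_of_mul_le_mul_right this hsB
  have hq : v k = 1 := by
    by_contra hcon
    have hq2 : 2 ≤ v k := by omega
    have j := sin_nat_lt hπC.1 hπC.2 hq2
    have : (d2 k : ℝ) * u l * sin (π/C) < d1 l * v k * sin (π/C) := by
      rw [g1, mul_assoc]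
      exact mul_lt_mul_of_pos_left j hb'
    have := lt_of_mul_lt_mul_right this hsC.le
    linarith
  have hp : u l = 1 := by
    by_contra hcon
    have hp2 : 2 ≤ u l := by omega
    have j := sin_nat_lt hπB.1 hπB.2 hp2
    have : (d1 l : ℝ) * v k * sin (π/B) < d2 k * u l * sin (π/B) := by
      rw [g2, mul_assoc]
      exact mul_lt_mul_of_pos_left j ha'
    have := lt_of_mul_lt_mul_right this hsB.le
    linarith
  have hab : (d2 k : ℝ) = d1 l := by
    rw [hq, hp] at i1 i2
    push_cast at i1 i2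
    linarith
  have k1 := h.hF0 k l m h1 h2 h3
  rw [hSk, hSl, hab] at k1
  have k2 : (u m * x + v m * y : ℝ) = π - (x+y) := by
    have h0 := hhs
    rw [hBd, hCd, hq, hp] at h0
    push_cast at h0
    linarith
  rw [k2, sin_pi_sub] at k1
  have hP : (sin (x+y) * sin x * sin y) ≠ 0 := (mul_pos (mul_pos h.sxy h.sx) h.sy).ne'
  have k3 : ((d1 l : ℝ) * d1 l) * (sin (x+y) * sin x * sin y)
      = n * (sin (x+y) * sin x * sin y) := by rw [← k1]; ring
  have k4 := mul_right_cancel₀ hP k3
  apply h.hn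
  refine ⟨d1 l, ?_⟩
  exact_mod_cast k4.symm

theorem Sys.false (h : Sys u v d0 d1 d2 n x y) (hB : 0 < ∑ k, u k) (hC : 0 < ∑ k, v k) :
    False := by
  have hex : ∀ k l : Fin 3, k ≠ l → ∃ m, l ≠ m ∧ k ≠ m := by decide
  -- one of the sums is one
  have key : ∀ {u v d0 d1 d2 : Fin 3 → ℕ} {n : ℕ} {x y : ℝ}, Sys u v d0 d1 d2 n x y →
      (∑ k, u k) = 1 → False := by
    intro u v d0 d1 d2 n x y h hB1
    have hC2 : 2 ≤ ∑ k, v k := by
      have a0 := h.hpos 0
      have a1 := h.hpos 1
      have a2 := h.hpos 2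
      rw [Fin.sum_univ_three] at hB1 ⊢
      omega
    obtain ⟨l, hl⟩ := h.swap.stepA hC2
    have hul := h.hpos l
    have : ∀ k, k ≠ l → u k = 0 := by
      intro k hk
      obtain ⟨m, hm1, hm2⟩ := hex k l hk
      rw [sum3 hk hm1 hm2] at hB1
      omega
    obtain ⟨k, hk⟩ : ∃ k : Fin 3, k ≠ l := exists_ne l
    obtain ⟨m, hm1, hm2⟩ := hex k l hk
    exact h.beta hk hm1 hm2 (this k hk) (this m hm1.symm) hl
  rcases Nat.lt_or_ge 1 (∑ k, u k) with hB2 | hB1
  · rcases Nat.lt_or_ge 1 (∑ k, v k) with hC2 | hC1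
    · obtain ⟨k, hk⟩ := h.stepA hB2
      obtain ⟨l, hl⟩ := h.swap.stepA hC2
      have hkl : k ≠ l := by
        intro hkl
        have := h.hpos k
        rw [← hkl] at hl
        omega
      obtain ⟨m, hm1, hm2⟩ := hex k l hkl
      rcases Nat.eq_zero_or_pos (u m) with um | um
      · exact h.beta hkl hm1 hm2 hk um hl
      · rcases Nat.eq_zero_or_pos (v m) with vm | vm
        · exact h.swap.beta hkl.symm hm2 hm1 hl vm hk
        · exact h.alpha hkl hm1 hm2 hk hl um vm
    · exact key h.swap (by omega)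
  · exact key h (by omega)

end

end Pool.Agent.Helper27.Sq
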