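import Pool.Agent.Helper27.SqCE

/-!
Colouring: sign characters of the group of angles.
-/

open MeasureTheory Set Complex Filter Topology
open scoped ENNReal Real

namespace Pool.Agent.Helper27.Sq

/-- monomial in the signs -/
def xm (x : Fin 3 → ℤˣ) (m : Fin 3 → ℤ) : ℤˣ := x 0 ^ m 0 * x 1 ^ m 1 * x 2 ^ m 2

theorem xm_zero (x : Fin 3 → ℤˣ) : xm x 0 = 1 := by simp [xm]

theorem xm_add (x : Fin 3 → ℤˣ) (m m' : Fin 3 → ℤ) : xm x (m + m') = xm x m * xm x m' := by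
  unfold xm
  simp only [Pi.add_apply, zpow_add]
  ac_rfl

theorem xm_single (x : Fin 3 → ℤˣ) (j : Fin 3) : xm x (Pi.single j 1) = x j := by
  unfold xm
  fin_cases j <;> simp

theorem unit_cases (y : ℤˣ) : ((y : ℤ) : ℝ) = 1 ∨ ((y : ℤ) : ℝ) = -1 := by
  rcases Int.units_eq_one_or y with rfl | rfl
  · left; simp
  · right; simp

theorem unit_sq (y : ℤˣ) : ((y : ℤ) : ℝ) * ((y : ℤ) : ℝ) = 1 := by
  rcases unit_cases y with h | h <;> rw [h] <;> norm_num

theorem neg_one_cast (E : ℤ) : (((((-1 : ℤˣ)) ^ E : ℤˣ) : ℤ) : ℝ) = (-1 : ℝ) ^ E := by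
  rcases Int.even_or_odd E with h | h
  · rw [h.neg_one_zpow, h.neg_one_zpow]; simp
  · rw [h.neg_one_zpow, h.neg_one_zpow]; simp

/-- angle combination -/
noncomputable def dotp (t : Fin 3 → ℝ) (m : Fin 3 → ℤ) : ℝ := m 0 * t 0 + m 1 * t 1 + m 2 * t 2

theorem dotp_add (t : Fin 3 → ℝ) (m m' : Fin 3 → ℤ) : dotp t (m + m') = dotp t m + dotp t m' := by
  unfold dotp; simp only [Pi.add_apply]; push_cast; ring

theorem dotp_single (t : Fin 3 → ℝ) (j : Fin 3) : dotp t (Pi.single j 1) = t j := by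
  unfold dotp
  fin_cases j <;> simp

/-- the properties of a colouring -/
structure Coloring (t : Fin 3 → ℝ) (x : Fin 3 → ℤˣ) (w : ℂ → ℝ) : Prop where
  hom : ∀ (r : ℝ) (z : ℂ), w ((r:ℂ) * z) = r * w z
  rot : ∀ (j : Fin 3) (z : ℂ), w (exp ((t j : ℂ) * I) * z) = ((x j : ℤ) : ℝ) * w z
  abs : ∀ z, w z = 0 ∨ w z = ‖z‖ ∨ w z = - ‖z‖

theorem exists_coloring (t : Fin 3 → ℝ) (x : Fin 3 → ℤˣ)
    (hx : ∀ (m : Fin 3 → ℤ) (E : ℤ), m 0 * t 0 + m 1 * t 1 + m 2 * t 2 = E * π →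
      x 0 ^ m 0 * x 1 ^ m 1 * x 2 ^ m 2 = (-1) ^ E) (z0 : ℂ) (hz0 : z0 ≠ 0) :
    ∃ w : ℂ → ℝ, Coloring t x w ∧ w z0 = ‖z0‖ := by
  classical
  set Rep : ℂ → ℝ → (Fin 3 → ℤ) → Prop := fun z r m => z = (r:ℂ) * exp ((dotp t m : ℂ) * I) * z0 with hRep
  have hwd : ∀ z r m r' m', Rep z r m → Rep z r' m' →
      r * (((xm x m : ℤˣ) : ℤ) : ℝ) = r' * (((xm x m' : ℤˣ) : ℤ) : ℝ) := by
    intro z r m r' m' h h'
    have h1 : (r:ℂ) * exp ((dotp t m : ℂ) * I) = (r':ℂ) * exp ((dotp t m' : ℂ) * I) := by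
      have : (r:ℂ) * exp ((dotp t m : ℂ) * I) * z0 = (r':ℂ) * exp ((dotp t m' : ℂ) * I) * z0 :=
        h.symm.trans h'
      exact mul_right_cancel₀ hz0 this
    have h2 : (r:ℂ) * exp ((dotp t (m - m') : ℂ) * I) = (r':ℂ) := by
      have e1 : m = (m - m') + m' := by abel
      rw [e1, dotp_add] at h1
      push_cast at h1
      rw [add_mul, exp_add, ← mul_assoc] at h1
      exact mul_right_cancel₀ (exp_ne_zero _) h1
    rw [exp_mul_I] at h2
    have hre := congrArg Complex.re h2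
    have him := congrArg Complex.im h2
    rw [← ofReal_cos, ← ofReal_sin] at hre him
    have hre' : r * Real.cos (dotp t (m - m')) = r' := by
      have : ((r:ℂ) * ((Real.cos (dotp t (m - m')) : ℂ) + (Real.sin (dotp t (m - m')) : ℂ) * I)).re
        = r * Real.cos (dotp t (m - m')) := by
        rw [re_ofReal_mul, add_re, ofReal_re, re_ofReal_mul, I_re, mul_zero, add_zero]
      rw [← this, hre, ofReal_re]
    have him' : r = 0 ∨ Real.sin (dotp t (m - m')) = 0 := by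
      have : ((r:ℂ) * ((Real.cos (dotp t (m - m')) : ℂ) + (Real.sin (dotp t (m - m')) : ℂ) * I)).im
        = r * Real.sin (dotp t (m - m')) := by
        rw [im_ofReal_mul, add_im, ofReal_im, im_ofReal_mul, I_im, mul_one, zero_add]
      rw [this, ofReal_im] at him
      exact mul_eq_zero.1 him
    clear hre him
    rename' hre' => hre, him' => him
    rcases him with h3 | h3
    · rw [h3, zero_mul] at hre
      rw [h3, ← hre]; ring
    · rw [Real.sin_eq_zero_iff] at h3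
      obtain ⟨E, hE⟩ := h3
      have h4 := hx (m - m') E (by
        have := hE.symm
        unfold dotp at this
        exact this)
      have h5 : xm x m = (-1) ^ E * xm x m' := by
        have e1 : m = (m - m') + m' := by abel
        have e2 : xm x m = xm x (m - m') * xm x m' := by
          conv_lhs => rw [e1]
          rw [xm_add]
        rw [e2]
        congr 1
      rw [← hE, Real.cos_int_mul_pi] at hre
      rw [h5, ← hre, Units.val_mul, Int.cast_mul, neg_one_cast]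
      ring
  set w : ℂ → ℝ := fun z => if h : ∃ r m, Rep z r m then
    h.choose * ‖z0‖ * (((xm x h.choose_spec.choose : ℤˣ) : ℤ) : ℝ) else 0 with hw
  have hw1 : ∀ z r m, Rep z r m → w z = r * ‖z0‖ * (((xm x m : ℤˣ) : ℤ) : ℝ) := by
    intro z r m h
    have hex : ∃ r m, Rep z r m := ⟨r, m, h⟩
    rw [hw]
    simp only
    rw [dif_pos hex]
    have := hwd z _ _ r m hex.choose_spec.choose_spec h
    linear_combination ‖z0‖ * this
  have hw0 : ∀ z, (¬ ∃ r m, Rep z r m) → w z = 0 := by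
    intro z h
    rw [hw]
    simp only
    rw [dif_neg h]
  have hrep_smul : ∀ (s : ℝ) z r m, Rep z r m → Rep ((s:ℂ) * z) (s * r) m := by
    intro s z r m h
    simp only [hRep] at h ⊢
    rw [h]; push_cast; ring
  have hrep_rot : ∀ (m' : Fin 3 → ℤ) z r m, Rep z r m → Rep (exp ((dotp t m' : ℂ) * I) * z) r (m' + m) := by
    intro m' z r m h
    simp only [hRep] at h ⊢
    rw [h, dotp_add]; push_cast
    rw [add_mul, exp_add]; ring
  refine ⟨w, ⟨?_, ?_, ?_⟩, ?_⟩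
  · intro s z
    by_cases hex : ∃ r m, Rep z r m
    · obtain ⟨r, m, h⟩ := hex
      rw [hw1 z r m h, hw1 _ _ _ (hrep_smul s z r m h)]
      ring
    · by_cases hs : s = 0
      · subst hs
        have h0 : Rep ((0:ℝ) * z) 0 0 := by simp [hRep]
        rw [hw1 _ _ _ h0]; ring
      · rw [hw0 z hex, hw0, mul_zero]
        rintro ⟨r, m, h⟩
        apply hex
        refine ⟨s⁻¹ * r, m, ?_⟩
        have := hrep_smul s⁻¹ _ r m h
        have e : ((s⁻¹ : ℝ) : ℂ) * ((s:ℂ) * z) = z := by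
          push_cast
          field_simp [show (s:ℂ) ≠ 0 by exact_mod_cast hs]
        rwa [e] at this
  · intro j z
    have hj : (t j) = dotp t (Pi.single j 1) := (dotp_single t j).symm
    by_cases hex : ∃ r m, Rep z r m
    · obtain ⟨r, m, h⟩ := hex
      have h2 := hrep_rot (Pi.single j 1) z r m h
      rw [← hj] at h2
      rw [hw1 z r m h, hw1 _ _ _ h2, xm_add, xm_single]
      push_cast; ring
    · rw [hw0 z hex, hw0, mul_zero]
      rintro ⟨r, m, h⟩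
      apply hex
      refine ⟨r, - Pi.single j 1 + m, ?_⟩
      have := hrep_rot (- Pi.single j 1) _ r m h
      have e : exp ((dotp t (-Pi.single j 1) : ℂ) * I) * (exp ((t j : ℂ) * I) * z) = z := by
        rw [hj, ← mul_assoc, ← exp_add, ← add_mul, ← ofReal_add, ← dotp_add]
        simp [dotp]
      rwa [e] at this
  · intro z
    by_cases hex : ∃ r m, Rep z r m
    · right
      obtain ⟨r, m, h⟩ := hex
      rw [hw1 z r m h]
      have hn : ‖z‖ = |r| * ‖z0‖ := by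
        rw [h, norm_mul, norm_mul, norm_real, norm_exp_ofReal_mul_I, Real.norm_eq_abs, mul_one]
      rw [hn]
      rcases unit_cases (xm x m) with h1 | h1 <;> rcases abs_cases r with ⟨h2, -⟩ | ⟨h2, -⟩ <;>
        rw [h1, h2]
      · left; ring
      · right; ring
      · right; ring
      · left; ring
    · left; exact hw0 z hex
  · have h0 : Rep z0 1 0 := by simp [hRep, dotp]
    rw [hw1 _ _ _ h0, xm_zero]; simp

theorem Coloring.rot_angle {w : ℂ → ℝ} (hom : ∀ (r : ℝ) (z : ℂ), w ((r:ℂ) * z) = r * w z)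
    {θ y : ℝ} (hy : y * y = 1) (hrot : ∀ z : ℂ, w (exp ((θ : ℂ) * I) * z) = y * w z)
    {u v : ℂ} (hu : u ≠ 0) (hv : v ≠ 0) (h : InnerProductGeometry.angle u v = θ) :
    w v = ‖v‖ / ‖u‖ * y * w u := by
  rw [InnerProductGeometry.angle_comm, angle_eq_abs_arg hv hu] at h
  have hrot' : ∀ z : ℂ, w (exp (((-θ : ℝ) : ℂ) * I) * z) = y * w z := by
    intro z
    have h1 := hrot (exp (((-θ : ℝ) : ℂ) * I) * z)
    have e : exp ((θ : ℂ) * I) * (exp (((-θ : ℝ) : ℂ) * I) * z) = z := by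
      rw [← mul_assoc, ← exp_add]; push_cast; simp
    rw [e] at h1
    rw [h1, ← mul_assoc, hy, one_mul]
  have hvu : v = ((‖v‖ / ‖u‖ : ℝ) : ℂ) * (exp ((arg (v/u) : ℂ) * I) * u) := by
    have h1 := norm_mul_exp_arg_mul_I (v / u)
    rw [norm_div] at h1
    rw [← mul_assoc, h1]
    field_simp
  rcases abs_cases (arg (v/u)) with ⟨h2, -⟩ | ⟨h2, -⟩
  · rw [h2] at h
    rw [h] at hvu
    conv_lhs => rw [hvu]
    rw [hom, hrot]; ring
  · rw [h2] at h
    have h3 : arg (v/u) = -θ := by linarith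
    rw [h3] at hvu
    conv_lhs => rw [hvu]
    rw [hom, hrot']; ring

theorem tri_w {w : ℂ → ℝ} (hom : ∀ (r : ℝ) (z : ℂ), w ((r:ℂ) * z) = r * w z)
    {P : Fin 3 → ℂ} (hP : AffineIndependent ℝ P) {y0 y1 : ℝ} (hy0 : y0 * y0 = 1) (hy1 : y1 * y1 = 1)
    (h0 : ∀ z : ℂ, w (exp ((ang P 0 : ℂ) * I) * z) = y0 * w z)
    (h1 : ∀ z : ℂ, w (exp ((ang P 1 : ℂ) * I) * z) = y1 * w z) :
    w (P 2 - P 1) + w (P 0 - P 2) + w (P 1 - P 0)
      = w (P 1 - P 0) / side P 2 * (side P 2 - y1 * side P 0 - y0 * side P 1) := by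
  have hneg : ∀ z, w (-z) = - w z := by
    intro z
    have := hom (-1) z
    push_cast at this
    rw [neg_one_mul, neg_one_mul] at this
    exact this
  have n10 : P 1 - P 0 ≠ 0 := sub_ne_zero.2 ((P_inj hP).ne (by decide))
  have n01 : P 0 - P 1 ≠ 0 := sub_ne_zero.2 ((P_inj hP).ne (by decide))
  have n21 : P 2 - P 1 ≠ 0 := sub_ne_zero.2 ((P_inj hP).ne (by decide))
  have n20 : P 2 - P 0 ≠ 0 := sub_ne_zero.2 ((P_inj hP).ne (by decide))
  have s0 : side P 0 = ‖P 2 - P 1‖ := by unfold side; rw [dist_comm, dist_eq_norm]; rfl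
  have s1 : side P 1 = ‖P 2 - P 0‖ := by unfold side; rw [dist_eq_norm]; rfl
  have s2 : side P 2 = ‖P 1 - P 0‖ := by unfold side; rw [dist_comm, dist_eq_norm]; rfl
  have s2' : side P 2 = ‖P 0 - P 1‖ := by unfold side; rw [dist_eq_norm]; rfl
  have e1 := Coloring.rot_angle hom hy1 h1 n01 n21 (by
    rw [InnerProductGeometry.angle_comm]; rfl)
  have e2 := Coloring.rot_angle hom hy0 h0 n10 n20 rfl
  have e3 : w (P 0 - P 2) = - w (P 2 - P 0) := by rw [← hneg]; congr 1; ring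
  have e4 : w (P 0 - P 1) = - w (P 1 - P 0) := by rw [← hneg]; congr 1; ring
  rw [← s0, ← s2', e4] at e1
  rw [← s1, ← s2] at e2
  rw [e3, e1, e2]
  have hs := (side_pos hP 2).ne'
  field_simp
  ring

section
variable {T : Fin 3 → ℂ} {n : ℕ} {Q : Fin n → Fin 3 → ℂ}

theorem Tiling.col (h : Tiling T n Q) (i0 : Fin n) (x : Fin 3 → ℤˣ)
    (hx : ∀ (m : Fin 3 → ℤ) (E : ℤ),
      m 0 * ang (Q i0) 0 + m 1 * ang (Q i0) 1 + m 2 * ang (Q i0) 2 = E * π →
      x 0 ^ m 0 * x 1 ^ m 1 * x 2 ^ m 2 = (-1) ^ E) :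
    ∃ K : ℤ, (K : ℝ) * (side (Q i0) 2 - ((x 1 : ℤ) : ℝ) * side (Q i0) 0
        - ((x 0 : ℤ) : ℝ) * side (Q i0) 1)
      = side T 2 - (((x 0 ^ MM T Q 1 0 * x 1 ^ MM T Q 1 1 * x 2 ^ MM T Q 1 2 : ℤˣ) : ℤ) : ℝ) * side T 0
        - (((x 0 ^ MM T Q 0 0 * x 1 ^ MM T Q 0 1 * x 2 ^ MM T Q 0 2 : ℤˣ) : ℤ) : ℝ) * side T 1 := by
  have hz0 : T 1 - T 0 ≠ 0 := sub_ne_zero.2 ((P_inj h.hT).ne (by decide))
  obtain ⟨w, hw, hw0⟩ := exists_coloring (ang (Q i0)) x hx (T 1 - T 0) hz0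
  have hrotN : ∀ (j : Fin 3) (k : ℕ) (z : ℂ), w (exp (((k * ang (Q i0) j : ℝ) : ℂ) * I) * z)
      = (((x j : ℤ) : ℝ))^k * w z := by
    intro j k
    induction k with
    | zero => intro z; simp
    | succ k ih =>
      intro z
      have e : exp ((((k+1 : ℕ) * ang (Q i0) j : ℝ) : ℂ) * I) * z
          = exp ((ang (Q i0) j : ℂ) * I) * (exp (((k * ang (Q i0) j : ℝ) : ℂ) * I) * z) := by
        rw [← mul_assoc, ← exp_add]; push_cast; ring_nf
      rw [e, hw.rot, ih]; ring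
  have hrotT : ∀ (k : Fin 3) (z : ℂ), w (exp ((ang T k : ℂ) * I) * z)
      = (((x 0 ^ MM T Q k 0 * x 1 ^ MM T Q k 1 * x 2 ^ MM T Q k 2 : ℤˣ) : ℤ) : ℝ) * w z := by
    intro k z
    rw [h.angle_sum i0 k]
    have e : exp (((MM T Q k 0 * ang (Q i0) 0 + MM T Q k 1 * ang (Q i0) 1
        + MM T Q k 2 * ang (Q i0) 2 : ℝ) : ℂ) * I) * z
        = exp (((MM T Q k 0 * ang (Q i0) 0 : ℝ) : ℂ) * I) * (exp (((MM T Q k 1 * ang (Q i0) 1 : ℝ) : ℂ) * I)
          * (exp (((MM T Q k 2 * ang (Q i0) 2 : ℝ) : ℂ) * I) * z)) := by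
      rw [← mul_assoc, ← mul_assoc, ← exp_add, ← exp_add]; push_cast; ring_nf
    rw [e, hrotN, hrotN, hrotN]
    push_cast; ring
  set G : ℂ → ℂ → ℝ := fun p q => w (q - p) with hG
  have hkey := h.key G (by
    intro p q r hpqr
    simp only [hG]
    by_cases hqp : q = p
    · subst hqp
      have : w (q - q) = 0 := by
        have := hw.hom 0 (q - q)
        simpa using this
      rw [this, zero_add]
    · have hpar := par_of_cr (sub_ne_zero.2 hqp) hpqr
      set s := ((r - p) / (q - p)).re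
      have e1 : r - q = ((s - 1 : ℝ) : ℂ) * (q - p) := by
        have : r - q = (r - p) - (q - p) := by ring
        rw [this, hpar]; push_cast; ring
      rw [e1, hpar, hw.hom, hw.hom]; ring)
  -- the tiles
  set L := side (Q i0) 2 - ((x 1 : ℤ) : ℝ) * side (Q i0) 0 - ((x 0 : ℤ) : ℝ) * side (Q i0) 1 with hL
  have htile : ∀ i, ∃ K : ℤ, bsum G (Q i) = K * L := by
    intro i
    have hc := h.hcong i i0
    have hs2 := side_pos (h.hQ i0) 2
    have e0 : ∀ z : ℂ, w (exp ((ang (Q i) 0 : ℂ) * I) * z) = ((x 0 : ℤ) : ℝ) * w z := by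
      intro z; rw [ang_congr hc]; exact hw.rot 0 z
    have e1 : ∀ z : ℂ, w (exp ((ang (Q i) 1 : ℂ) * I) * z) = ((x 1 : ℤ) : ℝ) * w z := by
      intro z; rw [ang_congr hc]; exact hw.rot 1 z
    have e2 := tri_w hw.hom (h.hQ i) (unit_sq (x 0)) (unit_sq (x 1)) e0 e1
    have e3 : bsum G (Q i) = ori (Q i) * (w (Q i 1 - Q i 0) / side (Q i) 2
        * (side (Q i) 2 - ((x 1 : ℤ) : ℝ) * side (Q i) 0 - ((x 0 : ℤ) : ℝ) * side (Q i) 1)) := by
      unfold bsum
      rw [← e2]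
    rw [side_congr hc 2, side_congr hc 0, side_congr hc 1] at e3
    have hn : ‖Q i 1 - Q i 0‖ = side (Q i0) 2 := by
      rw [← side_congr hc 2]; unfold side; rw [dist_comm, dist_eq_norm]; rfl
    rw [e3]
    rcases hw.abs (Q i 1 - Q i 0) with h1 | h1 | h1
    · exact ⟨0, by rw [h1]; simp⟩
    · rw [h1, hn, div_self hs2.ne']
      rcases ori_cases (Q i) with h2 | h2
      · exact ⟨1, by rw [h2]; push_cast; ring⟩
      · exact ⟨-1, by rw [h2]; push_cast; ring⟩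
    · rw [h1, hn, neg_div, div_self hs2.ne']
      rcases ori_cases (Q i) with h2 | h2
      · exact ⟨-1, by rw [h2]; push_cast; ring⟩
      · exact ⟨1, by rw [h2]; push_cast; ring⟩
  choose K hK using htile
  have hT2 : ‖T 1 - T 0‖ = side T 2 := by unfold side; rw [dist_comm, dist_eq_norm]; rfl
  have hTb : bsum G T = ori T * (side T 2
      - (((x 0 ^ MM T Q 1 0 * x 1 ^ MM T Q 1 1 * x 2 ^ MM T Q 1 2 : ℤˣ) : ℤ) : ℝ) * side T 0
      - (((x 0 ^ MM T Q 0 0 * x 1 ^ MM T Q 0 1 * x 2 ^ MM T Q 0 2 : ℤˣ) : ℤ) : ℝ) * side T 1) := by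
    have e2 := tri_w hw.hom h.hT (unit_sq _) (unit_sq _) (hrotT 0) (hrotT 1)
    unfold bsum
    simp only [hG]
    rw [e2, hw0, hT2, div_self (side_pos h.hT 2).ne', one_mul]
  rw [Finset.sum_congr rfl (fun i _ => hK i), ← Finset.sum_mul, hTb] at hkey
  rcases ori_cases T with h1 | h1
  · refine ⟨∑ i, K i, ?_⟩
    rw [h1, one_mul] at hkey
    rw [Int.cast_sum]
    exact hkey
  · refine ⟨- ∑ i, K i, ?_⟩
    rw [h1] at hkey
    rw [Int.cast_neg, Int.cast_sum]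
    linarith

theorem Tiling.facts (h : Tiling T n Q) (i0 : Fin n) :
    Facts n (side (Q i0)) (ang (Q i0)) (side T) (ang T) (MM T Q) (DD h.hT Q) where
  n_pos := i0.pos
  a_pos := side_pos (h.hQ i0)
  t_pos := ang_pos (h.hQ i0)
  t_sum := ang_sum (h.hQ i0)
  X_pos := side_pos h.hT
  th_pos := ang_pos h.hT
  th_sum := ang_sum h.hT
  sin_t := ⟨_, div_pos (ar_pos (h.hQ i0)) (pr_pos (h.hQ i0)), sin_ang (h.hQ i0)⟩
  sin_th := ⟨_, div_pos (ar_pos h.hT) (pr_pos h.hT), sin_ang h.hT⟩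
  ang := h.angle_sum i0
  sid := h.side_sum i0
  area := fun k j => by rw [← ar_eq T k, ← ar_eq (Q i0) j, h.area_sum i0]
  ce := h.ce
  vert := h.vert i0
  col := h.col i0

theorem Tiling.factsAll (h : Tiling T n Q) (i0 : Fin n) :
    FactsAll n (side (Q i0)) (ang (Q i0)) (side T) (ang T) (MM T Q) (DD h.hT Q) := by
  intro σ ρ
  have h1 := (h.relabel σ ρ).facts i0
  have e1 : side (Q i0 ∘ ρ) = side (Q i0) ∘ ρ := funext (side_perm (Q i0) ρ)
  have e2 : ang (Q i0 ∘ ρ) = ang (Q i0) ∘ ρ := funext (ang_perm (Q i0) ρ)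
  have e3 : side (T ∘ σ) = side T ∘ σ := funext (side_perm T σ)
  have e4 : ang (T ∘ σ) = ang T ∘ σ := funext (ang_perm T σ)
  have e5 : DD (h.relabel σ ρ).hT (fun i => Q i ∘ ρ) = fun l e => DD h.hT Q (σ l) (ρ e) := by
    funext l e
    exact DD_perm h.hT Q σ ρ _ l e
  rw [e1, e2, e3, e4, e5] at h1
  exact h1

end

end Pool.Agent.Helper27.Sq
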