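import Pool.Agent.Helper27.SqRay
import Pool.Agent.Helper64.Sq.F1

/-!
Conjugate tilings.
-/

open MeasureTheory Set Complex Filter Topology
open scoped ENNReal Real

namespace Pool.Agent.Helper27.Sq

/-- an additive map which is semilinear with respect to a conjugation of cyclotomic numbers -/
structure Semi (d : ℕ) (c : ℤ) (f : ℝ →+ ℝ) (κ : ℝ) : Prop where
  kk : κ * κ = 1
  cos : ∀ (j : ℤ) (x : ℝ), f (Real.cos (j * (π / d)) * x) = Real.cos (c * (j * (π / d))) * f x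
  sin : ∀ (j : ℤ) (x : ℝ), f (Real.sin (j * (π / d)) * x) = κ * Real.sin (c * (j * (π / d))) * f x

theorem exists_semi (d : ℕ) (hd : 0 < d) (c : ℤ) (hc : IsCoprime c (4 * d : ℤ)) (l : ℝ) (hl : l ≠ 0) :
    ∃ (f : ℝ →+ ℝ) (κ : ℝ), Semi d c f κ ∧ f l = 1 := by
  obtain ⟨f, hf1, hf⟩ := Pool.Agent.Helper64.Sq.specF1 (4 * d) (by positivity) c
    (by push_cast; exact hc) l hl
  have hd' : (d:ℝ) ≠ 0 := by exact_mod_cast hd.ne'
  have hodd : Odd c := by
    rw [← Int.not_even_iff_odd]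
    intro heven
    obtain ⟨k, hk⟩ := heven
    obtain ⟨a, b, hab⟩ := hc
    have : (2:ℤ) ∣ 1 := ⟨a * k + b * (2 * d), by rw [← hab, hk]; ring⟩
    omega
  obtain ⟨k, hk⟩ := hodd
  have hcos0 : Real.cos (c * (π/2)) = 0 := by
    rw [Real.cos_eq_zero_iff]
    exact ⟨k, by rw [hk]; push_cast; ring⟩
  refine ⟨f, Real.sin (c * (π/2)), ⟨?_, ?_, ?_⟩, hf1⟩
  · have := Real.sin_sq_add_cos_sq (c * (π/2))
    rw [hcos0] at this
    nlinarith
  · intro j x
    have := hf (2 * j) x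
    have e1 : 2 * π * ((2 * j : ℤ) : ℝ) / ((4 * d : ℕ) : ℝ) = j * (π / d) := by
      push_cast; field_simp; ring
    have e2 : 2 * π * ((c : ℝ) * ((2 * j : ℤ) : ℝ)) / ((4 * d : ℕ) : ℝ) = c * (j * (π / d)) := by
      push_cast; field_simp; ring
    rw [e1, e2] at this
    exact this
  · intro j x
    have := hf (d - 2 * j) x
    have e1 : 2 * π * ((d - 2 * j : ℤ) : ℝ) / ((4 * d : ℕ) : ℝ) = π/2 - j * (π / d) := by
      push_cast; field_simp; ring
    have e2 : 2 * π * ((c : ℝ) * ((d - 2 * j : ℤ) : ℝ)) / ((4 * d : ℕ) : ℝ) = c * (π/2) - c * (j * (π / d)) := by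
      push_cast; field_simp; ring
    rw [e1, e2, Real.cos_pi_div_two_sub, Real.cos_sub, hcos0, zero_mul, zero_add] at this
    exact this

/-- the map on the plane -/
noncomputable def PH (f : ℝ →+ ℝ) (κ : ℝ) (u0 : ℂ) : ℂ →+ ℂ :=
  AddMonoidHom.mk' (fun z => ((f (z / u0).re : ℝ) : ℂ) + ((κ * f (z / u0).im : ℝ) : ℂ) * I) (by
    intro a b
    rw [add_div, add_re, add_im, map_add, map_add]
    push_cast; ring)

theorem PH_apply (f : ℝ →+ ℝ) (κ : ℝ) (u0 z : ℂ) :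
    PH f κ u0 z = ((f (z / u0).re : ℝ) : ℂ) + ((κ * f (z / u0).im : ℝ) : ℂ) * I := rfl

theorem PH_rot {d : ℕ} {c : ℤ} {f : ℝ →+ ℝ} {κ : ℝ} (hs : Semi d c f κ) (u0 : ℂ) (j : ℤ) (z : ℂ) :
    PH f κ u0 (exp (((j * (π / d) : ℝ) : ℂ) * I) * z)
      = exp (((c * (j * (π / d)) : ℝ) : ℂ) * I) * PH f κ u0 z := by
  rw [PH_apply, PH_apply, exp_mul_I, exp_mul_I, ← ofReal_cos, ← ofReal_sin, ← ofReal_cos,
    ← ofReal_sin, mul_div_assoc]
  set y := z / u0
  set C := Real.cos (j * (π / d))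
  set S := Real.sin (j * (π / d))
  have e1 : (((C:ℂ) + (S:ℂ) * I) * y).re = C * y.re + -(S * y.im) := by simp; ring
  have e2 : (((C:ℂ) + (S:ℂ) * I) * y).im = C * y.im + S * y.re := by simp
  rw [e1, e2, map_add, map_add, map_neg, hs.cos, hs.cos, hs.sin, hs.sin]
  have hk := hs.kk
  generalize Real.cos (c * (j * (π / d))) = C'
  generalize Real.sin (c * (j * (π / d))) = S'
  generalize f y.re = X
  generalize f y.im = Y
  apply Complex.ext
  · simp; ring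
  · simp
    linear_combination (S' * X) * hk

theorem PH_real {f : ℝ →+ ℝ} {κ : ℝ} {u0 : ℂ} (hu : u0 ≠ 0) (r : ℝ) :
    PH f κ u0 ((r:ℂ) * u0) = (f r : ℝ) := by
  rw [PH_apply, mul_div_assoc, div_self hu, mul_one]
  simp

/-- good directions -/
def Gd (d : ℕ) (u0 : ℂ) (z : ℂ) : Prop :=
  ∃ (r : ℝ) (j : ℤ), z = (r:ℂ) * (exp (((j * (π / d) : ℝ) : ℂ) * I) * u0)

theorem Gd.smul {d : ℕ} {u0 z : ℂ} (h : Gd d u0 z) (s : ℝ) : Gd d u0 ((s:ℂ) * z) := by
  obtain ⟨r, j, rfl⟩ := h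
  exact ⟨s * r, j, by push_cast; ring⟩

theorem Gd.neg {d : ℕ} {u0 z : ℂ} (h : Gd d u0 z) : Gd d u0 (-z) := by
  have := h.smul (-1)
  push_cast at this
  rwa [neg_one_mul] at this

theorem Gd.rot {d : ℕ} {u0 z : ℂ} (h : Gd d u0 z) (m : ℤ) :
    Gd d u0 (exp (((m * (π / d) : ℝ) : ℂ) * I) * z) := by
  obtain ⟨r, j, rfl⟩ := h
  refine ⟨r, m + j, ?_⟩
  have : exp ((((m + j : ℤ) * (π / d) : ℝ) : ℂ) * I)
      = exp (((m * (π / d) : ℝ) : ℂ) * I) * exp (((j * (π / d) : ℝ) : ℂ) * I) := by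
    rw [← exp_add]; push_cast; ring_nf
  rw [this]; ring

theorem PH_good {d : ℕ} {c : ℤ} {f : ℝ →+ ℝ} {κ : ℝ} (hs : Semi d c f κ) {u0 : ℂ} (hu : u0 ≠ 0)
    (r : ℝ) (j : ℤ) : PH f κ u0 ((r:ℂ) * (exp (((j * (π / d) : ℝ) : ℂ) * I) * u0))
      = (f r : ℂ) * exp (((c * (j * (π / d)) : ℝ) : ℂ) * I) := by
  have : (r:ℂ) * (exp (((j * (π / d) : ℝ) : ℂ) * I) * u0)
      = exp (((j * (π / d) : ℝ) : ℂ) * I) * ((r:ℂ) * u0) := by ring
  rw [this, PH_rot hs, PH_real hu, mul_comm]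

theorem PH_par {d : ℕ} {c : ℤ} {f : ℝ →+ ℝ} {κ : ℝ} (hs : Semi d c f κ) {u0 : ℂ} (hu : u0 ≠ 0)
    (z : ℂ) (hz : Gd d u0 z) (s : ℝ) : cr (PH f κ u0 z) (PH f κ u0 ((s:ℂ) * z)) = 0 := by
  obtain ⟨r, j, rfl⟩ := hz
  have : (s:ℂ) * ((r:ℂ) * (exp (((j * (π / d) : ℝ) : ℂ) * I) * u0))
      = ((s * r : ℝ) : ℂ) * (exp (((j * (π / d) : ℝ) : ℂ) * I) * u0) := by push_cast; ring
  rw [this, PH_good hs hu, PH_good hs hu, cr_smul_left, cr_smul_right, cr_self]; ring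

theorem f_abs (f : ℝ →+ ℝ) (r : ℝ) : |f (|r|)| = |f r| := by
  rcases abs_cases r with ⟨h, -⟩ | ⟨h, -⟩
  · rw [h]
  · rw [h, map_neg, abs_neg]

theorem PH_norm {d : ℕ} {c : ℤ} {f : ℝ →+ ℝ} {κ : ℝ} (hs : Semi d c f κ) {u0 : ℂ} (hu : ‖u0‖ = 1)
    {z : ℂ} (hz : Gd d u0 z) : ‖PH f κ u0 z‖ = |f (‖z‖)| := by
  have hu0 : u0 ≠ 0 := by rintro rfl; simp at hu
  obtain ⟨r, j, rfl⟩ := hz
  rw [PH_good hs hu0, norm_mul, norm_mul, norm_mul, norm_exp_ofReal_mul_I, norm_exp_ofReal_mul_I, hu]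
  simp only [mul_one, norm_real, Real.norm_eq_abs]
  rw [f_abs]

theorem rot_rep {u v : ℂ} (hcr : cr u v ≠ 0) : v = ((‖v‖ / ‖u‖ : ℝ) : ℂ) *
    (exp ((((if 0 < cr u v then (1:ℝ) else -1) * InnerProductGeometry.angle u v : ℝ) : ℂ) * I) * u) := by
  have hu : u ≠ 0 := by rintro rfl; exact hcr (cr_zero_left _)
  have hv : v ≠ 0 := by rintro rfl; exact hcr (cr_zero_right _)
  have hun := norm_pos_iff.2 hu
  have him : (v / u).im = cr u v / ‖u‖^2 := by
    rw [Complex.div_im, ← normSq_eq_norm_sq]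
    unfold cr
    have : normSq u ≠ 0 := fun h => hu (normSq_eq_zero.1 h)
    field_simp
  have harg : (if 0 < cr u v then (1:ℝ) else -1) * InnerProductGeometry.angle u v = arg (v/u) := by
    rw [InnerProductGeometry.angle_comm, angle_eq_abs_arg hv hu]
    split_ifs with h
    · have : 0 ≤ (v/u).im := by rw [him]; positivity
      rw [one_mul, abs_of_nonneg (arg_nonneg_iff.2 this)]
    · have h' : cr u v < 0 := lt_of_le_of_ne (not_lt.1 h) hcr
      have : (v/u).im < 0 := by rw [him]; exact div_neg_of_neg_of_pos h' (by positivity)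
      rw [abs_of_neg (arg_neg_iff.2 this)]; ring
  rw [harg]
  have h1 := norm_mul_exp_arg_mul_I (v / u)
  rw [norm_div] at h1
  rw [← mul_assoc, h1]
  field_simp

theorem rot_P {P : Fin 3 → ℂ} (hP : AffineIndependent ℝ P) (k : Fin 3) :
    P (k+2) - P k = ((side P (k+1) / side P (k+2) : ℝ) : ℂ) *
      (exp (((ori P * ang P k : ℝ) : ℂ) * I) * (P (k+1) - P k)) := by
  have h := rot_rep (cr_ne hP k)
  have e1 : ‖P (k+2) - P k‖ = side P (k+1) := by
    unfold side; rw [f3s3, f3s4, dist_eq_norm]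
  have e2 : ‖P (k+1) - P k‖ = side P (k+2) := by
    unfold side; rw [f3s1, f3s2, dist_comm, dist_eq_norm]
  rw [e1, e2, ← DA_cyc] at h
  exact h

section
variable {d : ℕ} {c : ℤ} {f : ℝ →+ ℝ} {κ : ℝ} {u0 : ℂ}

theorem good_step {P : Fin 3 → ℂ} (hP : AffineIndependent ℝ P)
    (hang : ∀ k, ∃ m : ℤ, ang P k = m * (π / d)) (k : Fin 3) (h : Gd d u0 (P (k+1) - P k)) :
    Gd d u0 (P (k+2) - P k) := by
  obtain ⟨m, hm⟩ := hang k
  rw [rot_P hP k]
  apply Gd.smul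
  rcases ori_cases P with h1 | h1
  · rw [h1, one_mul, hm]; exact h.rot m
  · have : (-1 : ℝ) * ang P k = ((-m : ℤ) : ℝ) * (π / d) := by rw [hm]; push_cast; ring
    rw [h1, this]; exact h.rot (-m)

theorem good_all {P : Fin 3 → ℂ} (hP : AffineIndependent ℝ P)
    (hang : ∀ k, ∃ m : ℤ, ang P k = m * (π / d)) (k : Fin 3) (h : Gd d u0 (P (k+2) - P (k+1))) :
    ∀ l, Gd d u0 (P (l+2) - P (l+1)) := by
  -- E_k good → E_{k+2} good
  have step : ∀ k, Gd d u0 (P (k+2) - P (k+1)) → Gd d u0 (P (k+2+2) - P (k+2+1)) := by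
    intro k h
    have h1 := good_step hP hang (k+1) (by rw [f3s3]; exact h)
    rw [f3s4] at h1
    have h2 := h1.neg
    rw [neg_sub] at h2
    rw [f3s2, f3s1]
    exact h2
  have h2 := step k h
  have h3 := step (k+2) h2
  intro l
  rcases f3d k l with rfl | rfl | rfl
  · exact h
  · have e : k + 2 + 2 = k + 1 := f3s2 k
    rw [e] at h3
    exact h3
  · exact h2

theorem DA_PH (hs : Semi d c f κ) (hu : ‖u0‖ = 1) {P : Fin 3 → ℂ} (hP : AffineIndependent ℝ P)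
    (hang : ∀ k, ∃ m : ℤ, ang P k = m * (π / d)) (hgood : ∀ k, Gd d u0 (P (k+2) - P (k+1)))
    (k : Fin 3) :
    DA (PH f κ u0 ∘ P) = ori P * (f (side P (k+1)) * f (side P (k+2)) * Real.sin (c * ang P k)) ∧
    (f (side P (k+2)) ≠ 0 → ∃ q : ℝ, PH f κ u0 (P (k+2)) - PH f κ u0 (P k)
      = (q:ℂ) * (exp (((ori P * (c * ang P k) : ℝ) : ℂ) * I) * (PH f κ u0 (P (k+1)) - PH f κ u0 (P k)))) := by
  have hu0 : u0 ≠ 0 := by rintro rfl; simp at hu
  have hg : Gd d u0 (P (k+1) - P k) := by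
    have := hgood (k+2)
    rw [f3s2, f3s1] at this
    exact this
  obtain ⟨m, hm⟩ := hang k
  obtain ⟨r, j, hr⟩ := hg
  have hs2 := side_pos hP (k+2)
  have e2 : ‖P (k+1) - P k‖ = side P (k+2) := by
    unfold side; rw [f3s1, f3s2, dist_comm, dist_eq_norm]
  have habs : |r| = side P (k+2) := by
    rw [← e2, hr, norm_mul, norm_mul, norm_exp_ofReal_mul_I, hu]; simp
  obtain ⟨ε, hε, hεm⟩ : ∃ ε : ℤ, (ε : ℝ) = ori P ∧ (ε = 1 ∨ ε = -1) := by
    rcases ori_cases P with h1 | h1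
    · exact ⟨1, by rw [h1]; simp, Or.inl rfl⟩
    · exact ⟨-1, by rw [h1]; simp, Or.inr rfl⟩
  have hv : P (k+2) - P k = ((side P (k+1) / side P (k+2) * r : ℝ) : ℂ) *
      (exp ((((ε * m + j : ℤ) * (π / d) : ℝ) : ℂ) * I) * u0) := by
    rw [rot_P hP k, hr, ← hε, hm]
    have : exp ((((ε * m + j : ℤ) * (π / d) : ℝ) : ℂ) * I)
        = exp ((((ε : ℝ) * (m * (π / d)) : ℝ) : ℂ) * I) * exp (((j * (π / d) : ℝ) : ℂ) * I) := by
      rw [← exp_add]; push_cast; ring_nf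
    rw [this]; push_cast; ring
  have hΦu : PH f κ u0 (P (k+1)) - PH f κ u0 (P k) = (f r : ℂ) * exp (((c * (j * (π / d)) : ℝ) : ℂ) * I) := by
    rw [← map_sub, hr, PH_good hs hu0]
  have hΦv : PH f κ u0 (P (k+2)) - PH f κ u0 (P k) = (f (side P (k+1) / side P (k+2) * r) : ℂ)
      * exp (((c * ((ε * m + j : ℤ) * (π / d)) : ℝ) : ℂ) * I) := by
    rw [← map_sub, hv, PH_good hs hu0]
  have hexp : exp (((c * ((ε * m + j : ℤ) * (π / d)) : ℝ) : ℂ) * I)
      = exp (((ori P * (c * ang P k) : ℝ) : ℂ) * I) * exp (((c * (j * (π / d)) : ℝ) : ℂ) * I) := by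
    rw [← exp_add, ← hε, hm]; push_cast; ring_nf
  obtain ⟨η, hη, hf2, hf1⟩ : ∃ η : ℝ, η * η = 1 ∧ f r = η * f (side P (k+2)) ∧
      f (side P (k+1) / side P (k+2) * r) = η * f (side P (k+1)) := by
    rcases abs_cases r with ⟨h, -⟩ | ⟨h, -⟩
    · rw [h] at habs
      refine ⟨1, by norm_num, by rw [habs, one_mul], ?_⟩
      rw [habs, div_mul_cancel₀ _ hs2.ne', one_mul]
    · rw [h] at habs
      have hr' : r = - side P (k+2) := by linarith
      refine ⟨-1, by norm_num, by rw [hr', map_neg]; ring, ?_⟩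
      rw [hr', mul_neg, div_mul_cancel₀ _ hs2.ne', map_neg]; ring
  constructor
  · rw [DA_cyc _ k]
    simp only [Function.comp_apply]
    rw [hΦu, hΦv, cr_smul_left, cr_smul_right, hf1, hf2, hexp]
    have hcre : cr (exp (((c * (j * (π / d)) : ℝ) : ℂ) * I))
        (exp (((ori P * (c * ang P k) : ℝ) : ℂ) * I) * exp (((c * (j * (π / d)) : ℝ) : ℂ) * I))
        = ori P * Real.sin (c * ang P k) := by
      have hsin : Real.sin (ori P * (c * ang P k)) = ori P * Real.sin (c * ang P k) := by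
        rcases ori_cases P with h1 | h1 <;> rw [h1]
        · rw [one_mul, one_mul]
        · rw [neg_one_mul, neg_one_mul, Real.sin_neg]
      rw [← hsin, exp_mul_I, exp_mul_I, ← ofReal_cos, ← ofReal_sin, ← ofReal_cos, ← ofReal_sin]
      have := Real.sin_sq_add_cos_sq (c * (j * (π / d)))
      revert this
      generalize Real.cos (c * (j * (π / d))) = C'
      generalize Real.sin (c * (j * (π / d))) = S'
      generalize Real.cos (ori P * (c * ang P k)) = C2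
      generalize Real.sin (ori P * (c * ang P k)) = S2
      intro this
      unfold cr
      simp
      linear_combination S2 * this
    rw [hcre]
    linear_combination (f (side P (k+1)) * f (side P (k+2)) * (ori P * Real.sin (c * ang P k))) * hη
  · intro hne
    refine ⟨f (side P (k+1)) / f (side P (k+2)), ?_⟩
    rw [hΦu, hΦv, hexp, hf1, hf2]
    have hne' : ((f (side P (k+2)) : ℝ) : ℂ) ≠ 0 := by exact_mod_cast hne
    push_cast
    field_simp

end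

end Pool.Agent.Helper27.Sq
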