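import Pool.Agent.Helper27.SqConj

/-!
Conjugate tilings: the main inequality.
-/

open MeasureTheory Set Complex Filter Topology
open scoped ENNReal Real

namespace Pool.Agent.Helper27.Sq

theorem ai_of_DA {P : Fin 3 → ℂ} (h : DA P ≠ 0) : AffineIndependent ℝ P := by
  rw [ai_iff]
  intro a b c h1 h2
  have h3 : (b:ℂ) * (P 1 - P 0) + (c:ℂ) * (P 2 - P 0) = 0 := by
    have ha : (a:ℂ) = -b - c := by
      have : a = -b - c := by linarith
      rw [this]; push_cast; ring
    simp only [Complex.real_smul] at h2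
    rw [ha] at h2
    linear_combination h2
  have h4 : c * DA P = 0 := by
    have := congrArg (cr (P 1 - P 0)) h3
    rw [cr_add_right, cr_smul_right, cr_smul_right, cr_self, cr_zero_right] at this
    unfold DA
    linarith
  have h5 : b * DA P = 0 := by
    have := congrArg (cr (P 2 - P 0)) h3
    rw [cr_add_right, cr_smul_right, cr_smul_right, cr_self, cr_zero_right, cr_swap] at this
    unfold DA
    linarith
  have hc := (mul_eq_zero.1 h4).resolve_right h
  have hb := (mul_eq_zero.1 h5).resolve_right h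
  exact ⟨by linarith, hb, hc⟩

theorem exp_real {q s A B : ℝ} (hs : s ≠ 0)
    (h : (q:ℂ) * exp ((A:ℂ) * I) = (s:ℂ) * exp ((B:ℂ) * I)) : ∃ K : ℤ, A - B = K * π := by
  have h2 : (q:ℂ) * exp (((A - B : ℝ) : ℂ) * I) = (s:ℂ) := by
    have e : exp (((A - B : ℝ) : ℂ) * I) = exp ((A:ℂ) * I) * exp (-((B:ℂ) * I)) := by
      rw [← exp_add]; push_cast; ring_nf
    rw [e, ← mul_assoc, h, mul_assoc, ← exp_add]; simp
  rw [exp_mul_I, ← ofReal_cos, ← ofReal_sin] at h2
  have hre := congrArg Complex.re h2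
  have him := congrArg Complex.im h2
  rw [re_ofReal_mul, add_re, ofReal_re, re_ofReal_mul, I_re, mul_zero, add_zero, ofReal_re] at hre
  rw [im_ofReal_mul, add_im, ofReal_im, im_ofReal_mul, I_im, mul_one, zero_add, ofReal_im] at him
  rcases mul_eq_zero.1 him with h3 | h3
  · rw [h3, zero_mul] at hre
    exact absurd hre.symm hs
  · rw [Real.sin_eq_zero_iff] at h3
    obtain ⟨K, hK⟩ := h3
    exact ⟨K, hK.symm⟩

theorem sin_ne {d : ℕ} (hd : 0 < d) {c : ℤ} (hc : IsCoprime c (4 * d : ℤ)) {θ : ℝ} {m : ℤ}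
    (hm : θ = m * (π / d)) (h0 : 0 < θ) (h1 : θ < π) : Real.sin (c * θ) ≠ 0 := by
  intro h
  rw [Real.sin_eq_zero_iff] at h
  obtain ⟨K, hK⟩ := h
  have hd' : (d:ℝ) ≠ 0 := by exact_mod_cast hd.ne'
  have h2 : (K:ℝ) * d = c * m := by
    rw [hm] at hK
    have hpi := Real.pi_ne_zero
    field_simp at hK
    linarith
  have h3 : K * d = c * m := by exact_mod_cast h2
  have hcop : IsCoprime (d:ℤ) c := (hc.of_mul_right_right).symm
  have hdm : (d:ℤ) ∣ m := hcop.dvd_of_dvd_mul_left ⟨K, by rw [← h3]; ring⟩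
  obtain ⟨m', hm'⟩ := hdm
  have h4 : θ = m' * π := by
    rw [hm, hm']; push_cast; field_simp
  rw [h4] at h0 h1
  have h5 : (0:ℝ) < m' := by
    by_contra hcon
    push Not at hcon
    have := mul_nonpos_of_nonpos_of_nonneg hcon Real.pi_pos.le
    linarith
  have h6 : (m':ℝ) < 1 := by
    by_contra hcon
    push Not at hcon
    have := mul_le_mul_of_nonneg_right hcon Real.pi_pos.le
    linarith
  have h7 : 0 < m' := by exact_mod_cast h5
  have h8 : m' < 1 := by exact_mod_cast h6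
  omega

theorem side_vec (P : Fin 3 → ℂ) (k : Fin 3) : side P k = ‖P (k+2) - P (k+1)‖ := by
  unfold side; rw [dist_comm, dist_eq_norm]

section
variable {T : Fin 3 → ℂ} {n : ℕ} {Q : Fin n → Fin 3 → ℂ}

theorem exists_gen (p : ℂ → Prop) (hp : ∀ᵐ x : ℂ, p x) {U : Set ℂ}
    (hU : IsOpen U) (hne : U.Nonempty) : ∃ x ∈ U, p x := by
  have h1 : ∃ᵐ x : ℂ, x ∈ U := frequently_ae_mem_iff.2 (hU.measure_pos volume hne).ne'
  obtain ⟨x, hx1, hx2⟩ := (h1.and_eventually hp).exists
  exact ⟨x, hx1, hx2⟩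

theorem int_nonempty {P : Fin 3 → ℂ} (hP : AffineIndependent ℝ P) : (interior (tri P)).Nonempty :=
  ⟨_, (bas P hP).centroid_mem_interior_convexHull⟩

/-- all tiles have good directions -/
theorem Tiling.all_good (h : Tiling T n Q) (i0 : Fin n) {d : ℕ}
    (hang : ∀ k, ∃ m : ℤ, ang (Q i0) k = m * (π / d)) {u0 : ℂ}
    (hT : ∀ k, Gd d u0 (T (k+2) - T (k+1))) (i : Fin n) (k : Fin 3) :
    Gd d u0 (Q i (k+2) - Q i (k+1)) := by
  classical
  have hangQ : ∀ i k, ∃ m : ℤ, ang (Q i) k = m * (π / d) := by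
    intro i k
    rw [ang_congr (h.hcong i i0)]; exact hang k
  have hdich : ∀ i, (∀ k, Gd d u0 (Q i (k+2) - Q i (k+1))) ∨ (∀ k, ¬ Gd d u0 (Q i (k+2) - Q i (k+1))) := by
    intro i
    by_cases hex : ∃ k, Gd d u0 (Q i (k+2) - Q i (k+1))
    · obtain ⟨k, hk⟩ := hex
      left; exact good_all (h.hQ i) (hangQ i) k hk
    · right; push Not at hex; exact hex
  rcases hdich i with hi | hi
  · exact hi k
  exfalso
  have hgen : ∀ᵐ x : ℂ, (∀ i, (∀ k, (Q i k - x).im ≠ 0) ∧ (∀ k, co (h.hQ i) k x ≠ 0)) ∧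
      ((∀ k, (T k - x).im ≠ 0) ∧ (∀ k, co h.hT k x ≠ 0)) := by
    filter_upwards [ae_all_iff.2 (fun i => gen_ae (h.hQ i)), gen_ae h.hT] with x h1 h2
    exact ⟨h1, h2⟩
  obtain ⟨x, hx, hxQ, hxT⟩ := exists_gen _ hgen isOpen_interior (int_nonempty (h.hQ i))
  have hray := h.ray (AddMonoidHom.id ℂ) (Gd d u0) (fun z hz r => hz.smul r)
    (fun z _ r => by simp only [AddMonoidHom.id_apply]; rw [cr_smul_right, cr_self, mul_zero]) x
  have hid : ∀ P : Fin 3 → ℂ, (AddMonoidHom.id ℂ) ∘ P = P := fun P => rfl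
  have hT1 : bsum (GG (AddMonoidHom.id ℂ) (Gd d u0) x) T = 1 := by
    rw [bsum_good (AddMonoidHom.id ℂ) (Gd d u0) hT h.hT hxT.1 hxT.2]
    simp only [hid]
    rw [if_pos (interior_mono (h.sub i) hx), mul_one, ori_sq]
  have hQ1 : ∀ j, bsum (GG (AddMonoidHom.id ℂ) (Gd d u0) x) (Q j) = 0 := by
    intro j
    rcases hdich j with hj | hj
    · rw [bsum_good (AddMonoidHom.id ℂ) (Gd d u0) hj (h.hQ j) (hxQ j).1 (hxQ j).2]
      simp only [hid]
      rw [if_neg]
      · ring
      · intro hxj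
        by_cases hij : i = j
        · subst hij
          exact hi 0 (hj 0)
        · exact Set.disjoint_left.1 (h.hd hij) hx hxj
    · exact bsum_bad _ _ hj x
  rw [Finset.sum_congr rfl (fun j _ => hQ1 j), hT1, Finset.sum_const_zero] at hray
  exact one_ne_zero hray.symm

theorem Tiling.conj (h : Tiling T n Q) (i0 : Fin n) (d : ℕ) (hd : 0 < d)
    (hrat : ∀ j, ∃ k : ℤ, ang (Q i0) j * d = k * π) : Conj (ang (Q i0)) (MM T Q) d := by
  classical
  intro c hc
  have hd' : (d:ℝ) ≠ 0 := by exact_mod_cast hd.ne'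
  have hang : ∀ k, ∃ m : ℤ, ang (Q i0) k = m * (π / d) := by
    intro k
    obtain ⟨m, hm⟩ := hrat k
    exact ⟨m, by field_simp; linarith⟩
  have hangQ : ∀ i k, ∃ m : ℤ, ang (Q i) k = m * (π / d) := by
    intro i k
    rw [ang_congr (h.hcong i i0)]; exact hang k
  have hangT : ∀ k, ∃ m : ℤ, ang T k = m * (π / d) := by
    intro k
    obtain ⟨m0, h0⟩ := hang 0
    obtain ⟨m1, h1⟩ := hang 1
    obtain ⟨m2, h2⟩ := hang 2
    refine ⟨MM T Q k 0 * m0 + MM T Q k 1 * m1 + MM T Q k 2 * m2, ?_⟩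
    rw [h.angle_sum i0 k, h0, h1, h2]; push_cast; ring
  have hT10 : T 1 - T 0 ≠ 0 := sub_ne_zero.2 ((P_inj h.hT).ne (by decide))
  have hT10n := norm_pos_iff.2 hT10
  set u0 : ℂ := (T 1 - T 0) / (‖T 1 - T 0‖ : ℂ) with hu0
  have hu : ‖u0‖ = 1 := by
    rw [hu0, norm_div, norm_real, norm_norm, div_self hT10n.ne']
  have hu0' : u0 ≠ 0 := by rintro h0; rw [h0] at hu; simp at hu
  have hTgood : ∀ k, Gd d u0 (T (k+2) - T (k+1)) := by
    apply good_all h.hT hangT 2
    refine ⟨‖T 1 - T 0‖, 0, ?_⟩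
    have hne : (‖T 1 - T 0‖ : ℂ) ≠ 0 := by exact_mod_cast hT10n.ne'
    rw [hu0]
    simp only [Int.cast_zero, zero_mul, ofReal_zero, exp_zero, one_mul]
    field_simp
    rfl
  have hQgood := h.all_good i0 hang hTgood
  -- the map
  set κ0 := ar (Q i0) / pr (Q i0) with hκ0
  have hκ0pos : 0 < κ0 := div_pos (ar_pos (h.hQ i0)) (pr_pos (h.hQ i0))
  obtain ⟨f, κ, hs, hf1⟩ := exists_semi d hd c hc (1/κ0) (by positivity)
  have hfa : ∀ i k, f (side (Q i) k) = κ * Real.sin (c * ang (Q i) k) := by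
    intro i k
    obtain ⟨m, hm⟩ := hangQ i0 k
    have h1 := sin_ang (h.hQ i0) k
    have h2 : side (Q i0) k = Real.sin (m * (π / d)) * (1/κ0) := by
      rw [← hm, h1, ← hκ0]; field_simp
    rw [side_congr (h.hcong i i0), ang_congr (h.hcong i i0), h2, hs.sin, hf1, hm]; ring
  set S := Real.sin (c * ang (Q i0) 0) * Real.sin (c * ang (Q i0) 1) * Real.sin (c * ang (Q i0) 2) with hS
  have hlt : ∀ (P : Fin 3 → ℂ), AffineIndependent ℝ P → ∀ k, ang P k < π := by
    intro P hP k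
    have h1 := ang_sum hP
    rw [sumR (ang P) k] at h1
    have := ang_pos hP (k+1)
    have := ang_pos hP (k+2)
    linarith
  have hsinQ : ∀ k, Real.sin (c * ang (Q i0) k) ≠ 0 := by
    intro k
    obtain ⟨m, hm⟩ := hang k
    exact sin_ne hd hc hm (ang_pos (h.hQ i0) k) (hlt _ (h.hQ i0) k)
  have hS0 : S ≠ 0 := mul_ne_zero (mul_ne_zero (hsinQ 0) (hsinQ 1)) (hsinQ 2)
  set Φ := PH f κ u0 with hΦ
  have hDAQ : ∀ i, DA (Φ ∘ Q i) = ori (Q i) * S := by
    intro i
    rw [(DA_PH hs hu (h.hQ i) (hangQ i) (hQgood i) 0).1, hfa, hfa, hS]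
    rw [ang_congr (h.hcong i i0), ang_congr (h.hcong i i0), ang_congr (h.hcong i i0)]
    have hk := hs.kk
    simp only [zero_add]
    linear_combination (ori (Q i) * Real.sin (c * ang (Q i0) 1) * Real.sin (c * ang (Q i0) 2)
      * Real.sin (c * ang (Q i0) 0)) * hk
  have hΦQ : ∀ i, AffineIndependent ℝ (Φ ∘ Q i) := by
    intro i
    apply ai_of_DA
    rw [hDAQ]
    have : ori (Q i) ≠ 0 := by rcases ori_cases (Q i) with h1 | h1 <;> rw [h1] <;> norm_num
    exact mul_ne_zero this hS0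
  obtain ⟨e, he, hoe⟩ : ∃ e : ℤ, (e = 1 ∨ e = -1) ∧ ∀ i, ori (Φ ∘ Q i) = e * ori (Q i) := by
    rcases lt_or_gt_of_ne hS0 with hneg | hpos
    · refine ⟨-1, Or.inr rfl, fun i => ?_⟩
      have h1 := hDAQ i
      rcases ori_cases (Q i) with h2 | h2
      · rw [h2] at h1 ⊢
        unfold ori
        rw [if_neg (by rw [h1]; linarith)]; simp
      · rw [h2] at h1 ⊢
        unfold ori
        rw [if_pos (by rw [h1]; linarith)]; simp
    · refine ⟨1, Or.inl rfl, fun i => ?_⟩
      have h1 := hDAQ i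
      rcases ori_cases (Q i) with h2 | h2
      · rw [h2] at h1 ⊢
        unfold ori
        rw [if_pos (by rw [h1]; linarith)]; simp
      · rw [h2] at h1 ⊢
        unfold ori
        rw [if_neg (by rw [h1]; linarith)]; simp
  have hee : (e:ℝ) * e = 1 := by rcases he with rfl | rfl <;> norm_num
  -- side lengths of the images
  have hsideΦ : ∀ i k, side (Φ ∘ Q i) k = |f (side (Q i) k)| := by
    intro i k
    rw [side_vec, side_vec]
    simp only [Function.comp_apply]
    rw [← map_sub, hΦ, PH_norm hs hu (hQgood i k)]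
  have hcongΦ : ∀ i k, ang (Φ ∘ Q i) k = ang (Φ ∘ Q i0) k := by
    intro i k
    apply ang_congr
    have hside : ∀ k, side (Φ ∘ Q i) k = side (Φ ∘ Q i0) k := by
      intro k
      rw [hsideΦ, hsideΦ, side_congr (h.hcong i i0)]
    have e0 := hside 0
    have e1 := hside 1
    have e2 := hside 2
    intro a b
    rw [edist_dist, edist_dist]
    congr 1
    unfold side at e0 e1 e2
    fin_cases a <;> fin_cases b <;> simp at e0 e1 e2 ⊢
    · exact e2
    · rw [dist_comm, e1, dist_comm]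
    · rw [dist_comm, e2, dist_comm]
    · exact e0
    · exact e1
    · rw [dist_comm, e0, dist_comm]
  -- the ray identity for the tiles
  have hgenQ : ∀ᵐ x : ℂ, ∀ i, (∀ k, (Φ (Q i k) - x).im ≠ 0) ∧ (∀ k, co (hΦQ i) k x ≠ 0) :=
    ae_all_iff.2 (fun i => gen_ae (hΦQ i))
  have hray : ∀ x : ℂ, (∀ i, (∀ k, (Φ (Q i k) - x).im ≠ 0) ∧ (∀ k, co (hΦQ i) k x ≠ 0)) →
      (e:ℝ) * ∑ i, (if x ∈ interior (tri (Φ ∘ Q i)) then (1:ℝ) else 0) = bsum (GG Φ (Gd d u0) x) T := by
    intro x hx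
    rw [← h.ray Φ (Gd d u0) (fun z hz r => hz.smul r) (fun z hz r => PH_par hs hu0' z hz r) x,
      Finset.mul_sum]
    refine Finset.sum_congr rfl (fun i _ => ?_)
    rw [bsum_good Φ (Gd d u0) (hQgood i) (hΦQ i) (hx i).1 (hx i).2, hoe i]
    have := ori_sq (Q i)
    linear_combination (-(e:ℝ) * (if x ∈ interior (tri (Φ ∘ Q i)) then (1:ℝ) else 0)) * this
  -- nondegeneracy of the image of `T`
  set κT := ar T / pr T with hκT
  have hκTpos : 0 < κT := div_pos (ar_pos h.hT) (pr_pos h.hT)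
  have hfT : ∀ k, f (side T k) = κ * Real.sin (c * ang T k) * f (1/κT) := by
    intro k
    obtain ⟨m, hm⟩ := hangT k
    have h1 := sin_ang h.hT k
    have h2 : side T k = Real.sin (m * (π / d)) * (1/κT) := by
      rw [← hm, h1, ← hκT]; field_simp
    rw [h2, hs.sin, hm]
  have hsinT : ∀ k, Real.sin (c * ang T k) ≠ 0 := by
    intro k
    obtain ⟨m, hm⟩ := hangT k
    exact sin_ne hd hc hm (ang_pos h.hT k) (hlt _ h.hT k)
  have hfμ : f (1/κT) ≠ 0 := by
    intro h0
    have hz : ∀ k, Φ (T (k+2)) - Φ (T (k+1)) = 0 := by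
      intro k
      have := PH_norm hs hu (hTgood k)
      rw [← side_vec, hfT k, h0, mul_zero, abs_zero] at this
      rw [← map_sub]
      exact norm_eq_zero.1 this
    obtain ⟨x, hx, hxQ⟩ := exists_gen _ hgenQ isOpen_interior (int_nonempty (hΦQ i0))
    have h1 := hray x hxQ
    have h2 : bsum (GG Φ (Gd d u0) x) T = 0 := by
      have g : ∀ p q : ℂ, Φ q - Φ p = 0 → GG Φ (Gd d u0) x p q = 0 := by
        intro p q hpq
        unfold GG
        rw [sub_eq_zero.1 hpq, cx_self]; simp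
      unfold bsum
      rw [g (T 1) (T 2) (hz 0), g (T 2) (T 0) (hz 1), g (T 0) (T 1) (hz 2)]
      ring
    rw [h2] at h1
    have h3 : ∑ i, (if x ∈ interior (tri (Φ ∘ Q i)) then (1:ℝ) else 0) = 0 := by
      rcases mul_eq_zero.1 h1 with h3 | h3
      · rw [h3] at hee; simp at hee
      · exact h3
    rw [Finset.sum_eq_zero_iff_of_nonneg (fun i _ => by split_ifs <;> norm_num)] at h3
    have := h3 i0 (Finset.mem_univ _)
    rw [if_pos hx] at this
    exact one_ne_zero this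
  have hΦT : AffineIndependent ℝ (Φ ∘ T) := by
    apply ai_of_DA
    rw [(DA_PH hs hu h.hT hangT hTgood 0).1, hfT, hfT]
    have : ori T ≠ 0 := by rcases ori_cases T with h1 | h1 <;> rw [h1] <;> norm_num
    have hκ : κ ≠ 0 := by
      intro h0
      have := hs.kk
      rw [h0] at this; simp at this
    exact mul_ne_zero this (mul_ne_zero (mul_ne_zero (mul_ne_zero (mul_ne_zero hκ (hsinT _)) hfμ)
      (mul_ne_zero (mul_ne_zero hκ (hsinT _)) hfμ)) (hsinT _))
  have hcover : ∀ᵐ x : ℂ, ∑ i, (if x ∈ interior (tri (Φ ∘ Q i)) then (1:ℝ) else 0)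
      = if x ∈ interior (tri (Φ ∘ T)) then (1:ℝ) else 0 := by
    filter_upwards [hgenQ, gen_ae hΦT] with x hxQ hxT
    have h1 := hray x hxQ
    rw [bsum_good Φ (Gd d u0) hTgood hΦT hxT.1 hxT.2] at h1
    have hnn : 0 ≤ ∑ i, (if x ∈ interior (tri (Φ ∘ Q i)) then (1:ℝ) else 0) :=
      Finset.sum_nonneg (fun i _ => by split_ifs <;> norm_num)
    have hnn2 : 0 ≤ (if x ∈ interior (tri (Φ ∘ T)) then (1:ℝ) else 0) := by split_ifs <;> norm_num
    rcases he with rfl | rfl <;> rcases ori_cases T with h2 | h2 <;>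
      rcases ori_cases (Φ ∘ T) with h3 | h3 <;> rw [h2, h3] at h1 <;> push_cast at h1 <;> linarith
  -- corner inequality
  have hcorner : ∀ k, (MM T Q k 0 : ℝ) * ang (Φ ∘ Q i0) 0 + MM T Q k 1 * ang (Φ ∘ Q i0) 1
      + MM T Q k 2 * ang (Φ ∘ Q i0) 2 ≤ ang (Φ ∘ T) k := by
    intro k
    have hev1 : ∀ᶠ r in 𝓝[>] (0:ℝ), ∀ i j, Q i j = T k →
        volume (interior (tri (Φ ∘ Q i)) ∩ Metric.ball (Φ (T k)) r)
          = cst r * ENNReal.ofReal (ang (Φ ∘ Q i) j) := by
      refine eventually_all.2 (fun i => eventually_all.2 (fun j => ?_))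
      by_cases hij : Q i j = T k
      · filter_upwards [near_vertex (hΦQ i) j] with r hr _
        rw [← hij]; exact hr
      · exact Eventually.of_forall (fun r h1 => absurd h1 hij)
    have hev2 := near_vertex hΦT k
    have hev3 : ∀ᶠ r in 𝓝[>] (0:ℝ), 0 < r := self_mem_nhdsWithin
    obtain ⟨r, hr1, hr2, hr3⟩ := (hev1.and (hev2.and hev3)).exists
    set B := Metric.ball (Φ (T k)) r with hB
    have hint : ∑ i, volume (interior (tri (Φ ∘ Q i)) ∩ B) = volume (interior (tri (Φ ∘ T)) ∩ B) := by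
      have e1 : ∀ P : Fin 3 → ℂ, volume (interior (tri P) ∩ B)
          = ∫⁻ x in B, ENNReal.ofReal (if x ∈ interior (tri P) then (1:ℝ) else 0) := by
        intro P
        rw [← Measure.restrict_apply isOpen_interior.measurableSet, ← lintegral_indicator_one
          isOpen_interior.measurableSet]
        refine lintegral_congr (fun x => ?_)
        by_cases hx : x ∈ interior (tri P)
        · rw [indicator_of_mem hx, if_pos hx]; simp
        · rw [indicator_of_notMem hx, if_neg hx]; simp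
      rw [e1, Finset.sum_congr rfl (fun i _ => e1 _), ← lintegral_finsetSum']
      · refine lintegral_congr_ae ?_
        filter_upwards [ae_restrict_of_ae hcover] with x hx
        rw [← hx, ENNReal.ofReal_sum_of_nonneg (fun i _ => by split_ifs <;> norm_num)]
      · intro i _
        apply Measurable.aemeasurable
        apply ENNReal.measurable_ofReal.comp
        exact Measurable.ite isOpen_interior.measurableSet measurable_const measurable_const
    have hle : cst r * ENNReal.ofReal ((MM T Q k 0 : ℝ) * ang (Φ ∘ Q i0) 0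
        + MM T Q k 1 * ang (Φ ∘ Q i0) 1 + MM T Q k 2 * ang (Φ ∘ Q i0) 2)
        ≤ cst r * ENNReal.ofReal (ang (Φ ∘ T) k) := by
      have hr2' : volume (interior (tri (Φ ∘ T)) ∩ B) = cst r * ENNReal.ofReal (ang (Φ ∘ T) k) := hr2
      rw [← hr2', ← hint]
      have e2 : (MM T Q k 0 : ℝ) * ang (Φ ∘ Q i0) 0 + MM T Q k 1 * ang (Φ ∘ Q i0) 1
          + MM T Q k 2 * ang (Φ ∘ Q i0) 2
          = ∑ i, ∑ j, if Q i j = T k then ang (Φ ∘ Q i) j else 0 := by
        rw [Finset.sum_comm, ← Fin.sum_univ_three (fun j => (MM T Q k j : ℝ) * ang (Φ ∘ Q i0) j)]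
        refine Finset.sum_congr rfl (fun j _ => ?_)
        rw [← Finset.sum_filter, MM]
        rw [Finset.sum_congr rfl (fun i _ => hcongΦ i j), Finset.sum_const, nsmul_eq_mul]
      rw [e2, ENNReal.ofReal_sum_of_nonneg (fun i _ => Finset.sum_nonneg (fun j _ => by
        split_ifs; exacts [ang_nonneg _ _, le_refl _])), Finset.mul_sum]
      refine Finset.sum_le_sum (fun i _ => ?_)
      by_cases hex : ∃ j, Q i j = T k
      · obtain ⟨j, hj⟩ := hex
        rw [hr1 i j hj, Finset.sum_eq_single j]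
        · rw [if_pos hj]
        · intro b _ hb
          rw [if_neg]
          intro h1
          rw [← hj] at h1
          exact hb (P_inj (h.hQ i) h1)
        · intro h1; exact absurd (Finset.mem_univ j) h1
      · push Not at hex
        rw [Finset.sum_eq_zero (fun j _ => if_neg (hex j))]
        simp
    have h5 := (ENNReal.mul_le_mul_iff_right (cst_ne_zero hr3) cst_ne_top).1 hle
    exact (ENNReal.ofReal_le_ofReal_iff (ang_nonneg _ _)).1 h5
  -- the angles of the conjugate tile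
  have hangle : ∀ k, ∃ K : ℤ, ang (Φ ∘ Q i0) k = e * c * ang (Q i0) k - K * π := by
    intro k
    have hne : f (side (Q i0) (k+2)) ≠ 0 := by
      rw [hfa]
      have hκ : κ ≠ 0 := by
        intro h0
        have := hs.kk
        rw [h0] at this; simp at this
      exact mul_ne_zero hκ (hsinQ _)
    obtain ⟨q, hq⟩ := (DA_PH hs hu (h.hQ i0) (hangQ i0) (hQgood i0) k).2 hne
    have hr := rot_P (hΦQ i0) k
    simp only [Function.comp_apply] at hr
    have hr' : Φ (Q i0 (k+2)) - Φ (Q i0 k) = ((side (Φ ∘ Q i0) (k+1) / side (Φ ∘ Q i0) (k+2) : ℝ) : ℂ) *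
      (exp (((ori (Φ ∘ Q i0) * ang (Φ ∘ Q i0) k : ℝ) : ℂ) * I) * (Φ (Q i0 (k+1)) - Φ (Q i0 k))) := hr
    have hne2 : Φ (Q i0 (k+1)) - Φ (Q i0 k) ≠ 0 :=
      sub_ne_zero.2 ((P_inj (hΦQ i0)).ne (f3a k).symm)
    rw [hq] at hr'
    have hr'' : (q:ℂ) * exp (((ori (Q i0) * (c * ang (Q i0) k) : ℝ) : ℂ) * I)
        * (Φ (Q i0 (k+1)) - Φ (Q i0 k))
        = ((side (Φ ∘ Q i0) (k+1) / side (Φ ∘ Q i0) (k+2) : ℝ) : ℂ)
          * exp (((ori (Φ ∘ Q i0) * ang (Φ ∘ Q i0) k : ℝ) : ℂ) * I) * (Φ (Q i0 (k+1)) - Φ (Q i0 k)) := by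
      rw [mul_assoc, mul_assoc]; exact hr'
    have h6 := mul_right_cancel₀ hne2 hr''
    obtain ⟨K, hK⟩ := exp_real (div_pos (side_pos (hΦQ i0) (k+1)) (side_pos (hΦQ i0) (k+2))).ne' h6
    have ho := hoe i0
    have hos := ori_sq (Q i0)
    rcases ori_cases (Q i0) with h7 | h7
    · rw [h7, mul_one] at ho
      rw [ho, h7] at hK
      refine ⟨e * K, ?_⟩
      push_cast
      linear_combination (-(ang (Φ ∘ Q i0) k)) * hee - (e:ℝ) * hK
    · rw [h7] at ho
      rw [ho, h7] at hK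
      refine ⟨- (e * K), ?_⟩
      push_cast
      linear_combination (-(ang (Φ ∘ Q i0) k)) * hee + (e:ℝ) * hK
  choose K hK using hangle
  refine ⟨e, K, he, ?_, ?_, ?_⟩
  · intro j
    rw [← hK]; exact ang_pos (hΦQ i0) j
  · rw [← hK, ← hK, ← hK]; exact ang_sum (hΦQ i0)
  · rw [← hK, ← hK, ← hK, ← ang_sum hΦT]
    have a0 := hcorner 0
    have a1 := hcorner 1
    have a2 := hcorner 2
    linarith

end

end Pool.Agent.Helper27.Sq
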