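import Mathlib

/-!
# Square-only triangles: definitions

A triangle is given by its three vertices `T : Fin 3 → V` (affinely independent).
-/

namespace Pool.Agent.Helper27.Sq

/-- The closed triangle with vertices `P 0`, `P 1`, `P 2`. -/
def tri {V : Type*} [NormedAddCommGroup V] [NormedSpace ℝ V] (P : Fin 3 → V) : Set V :=
  convexHull ℝ (Set.range P)

/-- The length of the side opposite to the vertex `P k` (indices mod 3). -/
noncomputable def side {V : Type*} [NormedAddCommGroup V] (P : Fin 3 → V) (k : Fin 3) : ℝ :=
  dist (P (k+1)) (P (k+2))

/-- The triangle `T` can be cut into `n` congruent triangles: there are `n` non-degenerate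
triangles, labelled so that corresponding sides are equal (`Congruent` is Mathlib's congruence of
labelled families of points, reflections allowed), whose union is `T` and whose interiors are
pairwise disjoint. -/
def CanCut {V : Type*} [NormedAddCommGroup V] [NormedSpace ℝ V] (T : Fin 3 → V) (n : ℕ) : Prop :=
  ∃ Q : Fin n → Fin 3 → V,
    (∀ i, AffineIndependent ℝ (Q i)) ∧
    (∀ i j, Congruent (Q i) (Q j)) ∧
    (⋃ i, tri (Q i)) = tri T ∧
    Pairwise fun i j => Disjoint (interior (tri (Q i))) (interior (tri (Q j)))

/-- `T` is square-only: it can be cut into `n` congruent triangles only for square `n`. -/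
def SquareOnly {V : Type*} [NormedAddCommGroup V] [NormedSpace ℝ V] (T : Fin 3 → V) : Prop :=
  ∀ n : ℕ, CanCut T n → IsSquare n

end Pool.Agent.Helper27.Sq
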