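import Pool.Agent.Helper27.SqDefs

/-!
# The exceptional triangles

`Exc x` says that the triangle with side lengths `x 0`, `x 1`, `x 2` belongs to one of the eight
explicit families of scalene or isosceles triangles which are not square-only.
-/

namespace Pool.Agent.Helper27.Sq

/-- The eight families, as triples of side lengths:
(R) right triangles with integer legs `p`, `q`, `p² + q²` not a square;
(S) the half of an equilateral triangle;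
(F1), (F2) one rational parameter `0 < s < 1`;
(G1)-(G4) positive integers `a`, `b`, `c` with `c² = a² + ab + b²`. -/
def Exc (x : Fin 3 → ℝ) : Prop :=
  (∃ p q : ℕ, 0 < p ∧ 0 < q ∧ ¬ IsSquare (p^2 + q^2) ∧ x = ![(p:ℝ), q, √((p:ℝ)^2 + q^2)]) ∨
  x = ![1, √3, 2] ∨
  (∃ s : ℚ, 0 < s ∧ s < 1 ∧
    ((¬ IsSquare ((2 - s^2) * (3 - s^2)) ∧
        x = ![2 - (s:ℝ)^2, (1 - (s:ℝ)^2) * (3 - (s:ℝ)^2), 1]) ∨
     (¬ IsSquare (2 - s^2) ∧
        x = ![(s:ℝ) * (2 - (s:ℝ)^2), 1, 1 - (s:ℝ)^2]))) ∨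
  (∃ a b c : ℕ, 0 < a ∧ 0 < b ∧ c^2 = a^2 + a*b + b^2 ∧
    ((¬ IsSquare (3 * (a+b) * (2*a+b)) ∧
        x = ![3 * (a:ℝ) * (a+b), (c:ℝ) * (2*a+b), (c:ℝ)^2]) ∨
     (¬ IsSquare (a * (a+b)) ∧
        x = ![(a:ℝ) + b, c, b]) ∨
     (¬ IsSquare ((a+b) * (2*a+b)) ∧
        x = ![(c:ℝ) * (a+b), (b:ℝ) * (2*a+b), (a:ℝ) * c]) ∨
     (¬ IsSquare ((2*a+b) * (a+2*b)) ∧
        x = ![(a:ℝ) * (a+2*b), (b:ℝ) * (2*a+b), (c:ℝ)^2])))

/-- The side lengths of `T` are proportional, in some order, to those of an exceptional triangle. -/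
def Exceptional {V : Type*} [NormedAddCommGroup V] (T : Fin 3 → V) : Prop :=
  ∃ x : Fin 3 → ℝ, Exc x ∧ ∃ (σ : Equiv.Perm (Fin 3)) (r : ℝ), 0 < r ∧ ∀ k, side T k = r * x (σ k)

end Pool.Agent.Helper27.Sq
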