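import Pool.Agent.Helper27.SqSpec

/-!
Numerical facts about a tiling, and specifications of the arithmetic part of the classification.
-/

open scoped Real

namespace Pool.Agent.Helper27.Sq

/-- The numerical facts about a tiling of a triangle with sides `X`, angles `th` by `n` triangles
with sides `a`, angles `t`.  `M k j` is the number of tile vertices `j` at the corner `k`, `D l e`
the number of tile edges `e` on the side `l`. -/
structure Facts (n : ℕ) (a t X th : Fin 3 → ℝ) (M D : Fin 3 → Fin 3 → ℕ) : Prop where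
  n_pos : 0 < n
  a_pos : ∀ j, 0 < a j
  t_pos : ∀ j, 0 < t j
  t_sum : t 0 + t 1 + t 2 = π
  X_pos : ∀ k, 0 < X k
  th_pos : ∀ k, 0 < th k
  th_sum : th 0 + th 1 + th 2 = π
  sin_t : ∃ κ : ℝ, 0 < κ ∧ ∀ j, Real.sin (t j) = κ * a j
  sin_th : ∃ κ : ℝ, 0 < κ ∧ ∀ k, Real.sin (th k) = κ * X k
  ang : ∀ k, th k = M k 0 * t 0 + M k 1 * t 1 + M k 2 * t 2
  sid : ∀ l, X l = D l 0 * a 0 + D l 1 * a 1 + D l 2 * a 2
  area : ∀ k j, X (k+1) * X (k+2) * Real.sin (th k) = n * (a (j+1) * a (j+2) * Real.sin (t j))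
  /-- at the corner `k` there is a tile with the vertex `j` at the corner and the edge `e ≠ j` on
  the side `k+1`, and a tile with the vertex `j'` at the corner and the edge `e' ≠ j'` on the side
  `k+2`; if both are the same tile then the edges are different -/
  ce : ∀ k, ∃ j e j' e' : Fin 3, e ≠ j ∧ e' ≠ j' ∧ M k j ≠ 0 ∧ M k j' ≠ 0 ∧
    D (k+1) e ≠ 0 ∧ D (k+2) e' ≠ 0 ∧ (j = j' → 2 ≤ M k j ∨ e ≠ e')
  /-- `m j` is the number of tile vertices `j` at a suitable point which is not a corner -/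
  vert : ∀ p q : Fin 3, M 0 q + M 1 q + M 2 q < M 0 p + M 1 p + M 2 p →
    ∃ (m : Fin 3 → ℕ) (E : ℕ), (E = 1 ∨ E = 2) ∧ m p < m q ∧
      m 0 * t 0 + m 1 * t 1 + m 2 * t 2 = E * π
  /-- colouring: `x j` is the sign of the angle `t j` under a character `χ` with `χ π = -1` -/
  col : ∀ x : Fin 3 → ℤˣ, (∀ (m : Fin 3 → ℤ) (E : ℤ),
      m 0 * t 0 + m 1 * t 1 + m 2 * t 2 = E * π → x 0 ^ m 0 * x 1 ^ m 1 * x 2 ^ m 2 = (-1) ^ E) →
    ∃ K : ℤ, (K : ℝ) * (a 2 - ((x 1 : ℤ) : ℝ) * a 0 - ((x 0 : ℤ) : ℝ) * a 1)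
      = X 2 - (((x 0 ^ M 1 0 * x 1 ^ M 1 1 * x 2 ^ M 1 2 : ℤˣ) : ℤ) : ℝ) * X 0
        - (((x 0 ^ M 0 0 * x 1 ^ M 0 1 * x 2 ^ M 0 2 : ℤˣ) : ℤ) : ℝ) * X 1

/-- the facts hold for all relabellings of the triangle and of the tile -/
def FactsAll (n : ℕ) (a t X th : Fin 3 → ℝ) (M D : Fin 3 → Fin 3 → ℕ) : Prop :=
  ∀ σ ρ : Equiv.Perm (Fin 3), Facts n (a ∘ ρ) (t ∘ ρ) (X ∘ σ) (th ∘ σ)
    (fun k j => M (σ k) (ρ j)) (fun l e => D (σ l) (ρ e))

/-- side lengths `X` proportional to an exceptional triple, up to order -/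
def ExcX (X : Fin 3 → ℝ) : Prop :=
  ∃ x : Fin 3 → ℝ, Exc x ∧ ∃ (σ : Equiv.Perm (Fin 3)) (r : ℝ), 0 < r ∧ ∀ k, X k = r * x (σ k)

/-- module N (items (5)-(8) of the note): the case in which the angles of the tile are not all
rational multiples of `π` -/
def SpecN : Prop :=
  ∀ (n : ℕ) (a t X th : Fin 3 → ℝ) (M D : Fin 3 → Fin 3 → ℕ), FactsAll n a t X th M D →
    ¬ IsSquare n → Function.Injective X →
    ¬ (∃ d : ℕ, 0 < d ∧ ∀ j, ∃ k : ℤ, t j * d = k * π) → ExcX X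

/-- the conjugate tilings -/
def Conj (t : Fin 3 → ℝ) (M : Fin 3 → Fin 3 → ℕ) (d : ℕ) : Prop :=
  ∀ c : ℤ, IsCoprime c (4 * d : ℤ) → ∃ (e : ℤ) (k : Fin 3 → ℤ), (e = 1 ∨ e = -1) ∧
    (∀ j, 0 < e * c * t j - k j * π) ∧
    (e * c * t 0 - k 0 * π) + (e * c * t 1 - k 1 * π) + (e * c * t 2 - k 2 * π) = π ∧
    (M 0 0 + M 1 0 + M 2 0 : ℝ) * (e * c * t 0 - k 0 * π)
      + (M 0 1 + M 1 1 + M 2 1 : ℝ) * (e * c * t 1 - k 1 * π)
      + (M 0 2 + M 1 2 + M 2 2 : ℝ) * (e * c * t 2 - k 2 * π) ≤ π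

/-- module R (item (9), last part, uses `SpecG`): all angles of the tile are rational multiples
of `π` -/
def SpecR : Prop :=
  ∀ (n : ℕ) (a t X th : Fin 3 → ℝ) (M D : Fin 3 → Fin 3 → ℕ), FactsAll n a t X th M D →
    ¬ IsSquare n → Function.Injective X →
    ∀ d : ℕ, 0 < d → (∀ j, ∃ k : ℤ, t j * d = k * π) → Conj t M d → ExcX X

end Pool.Agent.Helper27.Sq
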