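import Pool.Agent.Helper27.SqConj2
import Pool.Agent.Helper5.SqH.Final
import Pool.Agent.Helper95.SqR
import Pool.Agent.Helper64.Sq.N

/-!
Assembly: the classification of the square-only triangles.
-/

open Set
open scoped Real

namespace Pool.Agent.Helper27.Sq

theorem CanCut.perm {V : Type*} [NormedAddCommGroup V] [NormedSpace ℝ V] {T : Fin 3 → V} {n : ℕ}
    (h : CanCut T n) (σ : Equiv.Perm (Fin 3)) : CanCut (T ∘ σ) n := by
  obtain ⟨Q, h1, h2, h3, h4⟩ := h
  exact ⟨Q, h1, h2, by rw [h3, tri_perm], h4⟩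

/-- an exceptional triangle is not square-only -/
theorem not_squareOnly_of_exceptional (T : Fin 3 → Plane) (hT : AffineIndependent ℝ T)
    (h : Exceptional T) : ¬ SquareOnly T := by
  obtain ⟨x, hx, σ, r, hr, hside⟩ := h
  set e : Plane ≃ₗᵢ[ℝ] ℂ := Complex.orthonormalBasisOneI.repr.symm
  have hT' : AffineIndependent ℝ (e ∘ T) :=
    hT.map' e.toLinearEquiv.toLinearMap.toAffineMap e.injective
  have hP : AffineIndependent ℝ ((e ∘ T) ∘ σ.symm) := hT'.comp_embedding σ.symm.toEmbedding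
  have hs : ∀ k, side ((e ∘ T) ∘ σ.symm) k = r * x k := by
    intro k
    rw [side_perm, side_map, hside, Equiv.apply_symm_apply]
  obtain ⟨n, hn, hc⟩ := Pool.Agent.Helper5.SqH.specH x hx _ hP r hr hs
  intro hsq
  apply hn
  apply hsq n
  have h1 := (hc.perm σ).map e.symm
  have h2 : e.symm ∘ (((e ∘ T) ∘ σ.symm) ∘ σ) = T := by
    funext k; simp
  rwa [h2] at h1

theorem excX_of_cut (hN : SpecN) (T : Fin 3 → Plane) (hT : AffineIndependent ℝ T) {n : ℕ}
    (hc : CanCut T n) (hn : ¬ IsSquare n) (hsc : Function.Injective (side T)) : ExcX (side T) := by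
  set e : Plane ≃ₗᵢ[ℝ] ℂ := Complex.orthonormalBasisOneI.repr.symm
  obtain ⟨Q, h1, h2, h3, h4⟩ := hc.map e
  have hT' : AffineIndependent ℝ (e ∘ T) :=
    hT.map' e.toLinearEquiv.toLinearMap.toAffineMap e.injective
  have h : Tiling (e ∘ T) n Q := ⟨hT', h1, h2, h3, h4⟩
  have hs : side (e ∘ T) = side T := funext (side_map e T)
  have hn0 : 0 < n := Nat.pos_of_ne_zero (by rintro rfl; exact hn ⟨0, rfl⟩)
  have hF := h.factsAll ⟨0, hn0⟩
  rw [hs] at hF
  by_cases hrat : ∃ d : ℕ, 0 < d ∧ ∀ j, ∃ k : ℤ, ang (Q ⟨0, hn0⟩) j * d = k * π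
  · obtain ⟨d, hd, hk⟩ := hrat
    exact Pool.Agent.Helper95.SqR.specR n _ _ _ _ _ _ hF hn hsc d hd hk
      (h.conj ⟨0, hn0⟩ d hd hk)
  · exact hN n _ _ _ _ _ _ hF hn hsc hrat

/-- **the classification** -/
theorem squareOnly_class (hN : SpecN) (T : Fin 3 → Plane) (hT : AffineIndependent ℝ T) :
    SquareOnly T ↔ Function.Injective (side T) ∧ ¬ Exceptional T := by
  constructor
  · intro h
    refine ⟨?_, fun he => not_squareOnly_of_exceptional T hT he h⟩
    rw [inj_iff]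
    refine ⟨fun h0 => ?_, fun h0 => ?_, fun h0 => ?_⟩
    · exact not_squareOnly_of_iso T hT 2 h0 h
    · exact not_squareOnly_of_iso T hT 0 h0 h
    · exact not_squareOnly_of_iso T hT 1 h0 h
  · rintro ⟨hsc, hne⟩ n hc
    by_contra hn
    exact hne (excX_of_cut hN T hT hc hn hsc)

theorem classification (T : Fin 3 → Plane) (hT : AffineIndependent ℝ T) :
    SquareOnly T ↔ (side T 0 ≠ side T 1 ∧ side T 1 ≠ side T 2 ∧ side T 2 ≠ side T 0) ∧
      ¬ Exceptional T := by
  rw [← inj_iff]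
  exact squareOnly_class Pool.Agent.Helper64.Sq.specN T hT

end Pool.Agent.Helper27.Sq
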