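import Pool.Agent.Helper27.SqSect
import Pool.Agent.Helper27.SqDefs

/-!
Geometry of tilings of a triangle by triangles, in the complex plane: barycentric coordinates,
angles at the vertices.
-/

open MeasureTheory Set Complex Filter Topology
open scoped ENNReal Real

namespace Pool.Agent.Helper27.Sq

theorem f3a : ∀ k : Fin 3, k ≠ k + 1 := by decide
theorem f3b : ∀ k : Fin 3, k ≠ k + 2 := by decide
theorem f3c : ∀ k : Fin 3, k + 1 ≠ k + 2 := by decide
theorem f3d : ∀ k i : Fin 3, i = k ∨ i = k + 1 ∨ i = k + 2 := by decide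

/-- barycentric coordinates of a nondegenerate triangle -/
noncomputable def bas (P : Fin 3 → ℂ) (hP : AffineIndependent ℝ P) : AffineBasis (Fin 3) ℝ ℂ :=
  ⟨P, hP, by
    rw [hP.affineSpan_eq_top_iff_card_eq_finrank_add_one]
    simp [Complex.finrank_real_complex]⟩

section
variable {P : Fin 3 → ℂ} (hP : AffineIndependent ℝ P)

@[simp] theorem bas_apply (k : Fin 3) : (bas P hP) k = P k := rfl

/-- barycentric coordinate -/
noncomputable def co (k : Fin 3) : ℂ →ᵃ[ℝ] ℝ := (bas P hP).coord k

theorem co_self (k : Fin 3) : co hP k (P k) = 1 := (bas P hP).coord_apply_eq k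

theorem co_ne {k l : Fin 3} (h : k ≠ l) : co hP k (P l) = 0 := (bas P hP).coord_apply_ne h

theorem co_sum (x : ℂ) : co hP 0 x + co hP 1 x + co hP 2 x = 1 := by
  have := (bas P hP).sum_coord_apply_eq_one x
  rw [Fin.sum_univ_three] at this
  exact this

theorem tri_eq : tri P = {x | ∀ i, 0 ≤ co hP i x} :=
  (bas P hP).convexHull_eq_nonneg_coord

theorem int_eq : interior (tri P) = {x | ∀ i, 0 < co hP i x} :=
  (bas P hP).interior_convexHull

theorem co_continuous (k : Fin 3) : Continuous (co hP k) :=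
  continuous_barycentric_coord (bas P hP) k

theorem co_rep (x : ℂ) : x = co hP 0 x • P 0 + co hP 1 x • P 1 + co hP 2 x • P 2 := by
  have := (bas P hP).linear_combination_coord_eq_self x
  rw [Fin.sum_univ_three] at this
  exact this.symm

theorem co_ext {x y : ℂ} (h : ∀ i, co hP i x = co hP i y) : x = y := (bas P hP).ext_elem h

theorem aff_comb (f : ℂ →ᵃ[ℝ] ℝ) (p a b : ℂ) (s t : ℝ) :
    f (p + (s:ℂ) * (a - p) + (t:ℂ) * (b - p)) = f p + s * (f a - f p) + t * (f b - f p) := by
  have h1 : ∀ z : ℂ, f (z + p) = f.linear z + f p := fun z => by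
    have := f.map_vadd p z
    simpa [vadd_eq_add] using this
  have e : p + (s:ℂ) * (a - p) + (t:ℂ) * (b - p) = (s • (a - p) + t • (b - p)) + p := by
    simp only [Complex.real_smul]; ring
  have ha : f.linear (a - p) = f a - f p := by
    have := h1 (a - p)
    rw [sub_add_cancel] at this
    rw [this]; ring
  have hb : f.linear (b - p) = f b - f p := by
    have := h1 (b - p)
    rw [sub_add_cancel] at this
    rw [this]; ring
  rw [e, h1, map_add, map_smul, map_smul, ha, hb, smul_eq_mul, smul_eq_mul]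
  ring

/-- value of an affine function through barycentric coordinates -/
theorem aff_co (f : ℂ →ᵃ[ℝ] ℝ) (x : ℂ) :
    f x = co hP 0 x * f (P 0) + co hP 1 x * f (P 1) + co hP 2 x * f (P 2) := by
  have h1 := co_rep hP x
  have h2 := co_sum hP x
  have h3 : x = P 0 + ((co hP 1 x : ℝ) : ℂ) * (P 1 - P 0) + ((co hP 2 x : ℝ) : ℂ) * (P 2 - P 0) := by
    have h4 : ((co hP 0 x : ℝ) : ℂ) = 1 - (co hP 1 x : ℝ) - (co hP 2 x : ℝ) := by
      have : co hP 0 x = 1 - co hP 1 x - co hP 2 x := by linarith
      rw [this]; push_cast; ring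
    simp only [Complex.real_smul] at h1
    rw [h4] at h1
    linear_combination h1
  have h5 := aff_comb f (P 0) (P 1) (P 2) (co hP 1 x) (co hP 2 x)
  rw [← h3] at h5
  rw [h5]
  have : co hP 0 x = 1 - co hP 1 x - co hP 2 x := by linarith
  rw [this]; ring

theorem P_mem (k : Fin 3) : P k ∈ tri P := subset_convexHull ℝ _ (mem_range_self k)

theorem tri_convex : Convex ℝ (tri P) := convex_convexHull ℝ _

theorem tri_compact : IsCompact (tri P) := (Set.finite_range P).isCompact_convexHull (𝕜 := ℝ)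

include hP in
theorem P_inj : Function.Injective P := hP.injective

include hP in
theorem cr_ne (k : Fin 3) : cr (P (k+1) - P k) (P (k+2) - P k) ≠ 0 := by
  intro h
  set u := P (k+1) - P k with hu
  set v := P (k+2) - P k with hv
  have k1 : k ≠ k + 1 := f3a k
  have k2 : k ≠ k + 2 := f3b k
  have k12 : k + 1 ≠ k + 2 := f3c k
  have e1 : ((u.re : ℝ) : ℂ) * v = (v.re : ℝ) * u := by
    apply Complex.ext
    · simp; ring
    · unfold cr at h
      simp; linarith
  have e2 : ((u.im : ℝ) : ℂ) * v = (v.im : ℝ) * u := by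
    apply Complex.ext
    · unfold cr at h
      simp; linarith
    · simp; ring
  have a1 := aff_comb (co hP (k+1)) (P k) (P (k+1)) (P (k+2)) (-v.re) u.re
  have a2 := aff_comb (co hP (k+1)) (P k) (P (k+1)) (P (k+2)) (-v.im) u.im
  rw [co_self, co_ne hP k1.symm, co_ne hP k12] at a1 a2
  have b1 : P k + ((-v.re : ℝ) : ℂ) * (P (k+1) - P k) + ((u.re:ℝ):ℂ) * (P (k+2) - P k) = P k := by
    rw [← hu, ← hv]; push_cast; linear_combination e1
  have b2 : P k + ((-v.im : ℝ) : ℂ) * (P (k+1) - P k) + ((u.im:ℝ):ℂ) * (P (k+2) - P k) = P k := by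
    rw [← hu, ← hv]; push_cast; linear_combination e2
  rw [b1, co_ne hP k1.symm] at a1
  rw [b2, co_ne hP k1.symm] at a2
  have hv0 : v = 0 := by
    apply Complex.ext
    · simp; linarith
    · simp; linarith
  have := P_inj hP (sub_eq_zero.1 (hv ▸ hv0))
  exact k2 this.symm

/-- the angle of the triangle at the vertex `P k` -/
noncomputable def ang {V : Type*} [NormedAddCommGroup V] [InnerProductSpace ℝ V]
    (P : Fin 3 → V) (k : Fin 3) : ℝ :=
  InnerProductGeometry.angle (P (k+1) - P k) (P (k+2) - P k)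

include hP in
theorem near_vertex (k : Fin 3) : ∀ᶠ r in 𝓝[>] (0:ℝ),
    volume (interior (tri P) ∩ Metric.ball (P k) r) = cst r * ENNReal.ofReal (ang P k) := by
  have k1 : k ≠ k + 1 := f3a k
  have k2 : k ≠ k + 2 := f3b k
  have k12 : k + 1 ≠ k + 2 := f3c k
  have hopen : IsOpen {x | 0 < co hP k x} := isOpen_lt continuous_const (co_continuous hP k)
  have hmem : P k ∈ {x | 0 < co hP k x} := by
    simp [co_self]
  obtain ⟨ε, hε, hball⟩ := Metric.isOpen_iff.1 hopen _ hmem
  have hev : ∀ᶠ r in 𝓝[>] (0:ℝ), r ∈ Ioo 0 ε := Ioo_mem_nhdsGT hε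
  filter_upwards [hev] with r hr
  have hcr := cr_ne hP k
  unfold ang
  rw [← vol_sect hcr r]
  have hall : ∀ i : Fin 3, i = k ∨ i = k + 1 ∨ i = k + 2 := f3d k
  have hpre : (fun z => P k + z) ⁻¹' (interior (tri P) ∩ Metric.ball (P k) r)
      = sect (P (k+1) - P k) (P (k+2) - P k) r := by
    ext z
    rw [int_eq hP]
    simp only [mem_preimage, mem_inter_iff, mem_ofPred_eq, Metric.mem_ball, dist_self_add_left, sect]
    constructor
    · rintro ⟨h1, h2⟩
      refine ⟨h2, co hP (k+1) (P k + z), co hP (k+2) (P k + z), h1 _, h1 _, ?_⟩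
      have h3 := co_rep hP (P k + z)
      have h4 := co_sum hP (P k + z)
      have h5 : ∀ f : Fin 3 → ℂ, f 0 + f 1 + f 2 = f k + f (k+1) + f (k+2) := by
        intro f; revert f; fin_cases k <;> intro f <;> simp <;> ring
      have h6 : ∀ f : Fin 3 → ℝ, f 0 + f 1 + f 2 = f k + f (k+1) + f (k+2) := by
        intro f; revert f; fin_cases k <;> intro f <;> simp <;> ring
      rw [h5 (fun i => co hP i (P k + z) • P i)] at h3
      rw [h6 (fun i => co hP i (P k + z))] at h4
      have h7 : ((co hP k (P k + z) : ℝ) : ℂ)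
          = 1 - (co hP (k+1) (P k + z) : ℝ) - (co hP (k+2) (P k + z) : ℝ) := by
        have : co hP k (P k + z) = 1 - co hP (k+1) (P k + z) - co hP (k+2) (P k + z) := by linarith
        rw [this]; push_cast; ring
      simp only [Complex.real_smul] at h3
      rw [h7] at h3
      linear_combination h3
    · rintro ⟨h1, s, t, hs, ht, h2⟩
      refine ⟨?_, h1⟩
      have hz : ∀ i, co hP i (P k + z) = co hP i (P k) + s * (co hP i (P (k+1)) - co hP i (P k))
          + t * (co hP i (P (k+2)) - co hP i (P k)) := by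
        intro i
        rw [← aff_comb, h2]
        congr 1; ring
      intro i
      rcases hall i with rfl | rfl | rfl
      · apply hball
        rw [Metric.mem_ball, dist_self_add_left]
        exact h1.trans hr.2
      · rw [hz, co_self, co_ne hP k1.symm, co_ne hP k12]
        linarith
      · rw [hz, co_self, co_ne hP k2.symm, co_ne hP k12.symm]
        linarith
  rw [← hpre, measure_preimage_add]

end

/-- a tiling of the triangle `T` by congruent triangles `Q i` -/
structure Tiling (T : Fin 3 → ℂ) (n : ℕ) (Q : Fin n → Fin 3 → ℂ) : Prop where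
  hT : AffineIndependent ℝ T
  hQ : ∀ i, AffineIndependent ℝ (Q i)
  hcong : ∀ i j, Congruent (Q i) (Q j)
  hU : (⋃ i, tri (Q i)) = tri T
  hd : Pairwise fun i j => Disjoint (interior (tri (Q i))) (interior (tri (Q j)))

section
variable {T : Fin 3 → ℂ} {n : ℕ} {Q : Fin n → Fin 3 → ℂ}

theorem Tiling.sub (h : Tiling T n Q) (i : Fin n) : tri (Q i) ⊆ tri T := by
  rw [← h.hU]; exact subset_iUnion (fun i => tri (Q i)) i

theorem Tiling.aed (h : Tiling T n Q) {i j : Fin n} (hij : i ≠ j) :
    AEDisjoint volume (tri (Q i)) (tri (Q j)) := by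
  unfold AEDisjoint
  have h1 : tri (Q i) ∩ tri (Q j) ⊆ frontier (tri (Q i)) ∪ frontier (tri (Q j)) := by
    rintro x ⟨hx1, hx2⟩
    by_cases h3 : x ∈ interior (tri (Q i))
    · by_cases h4 : x ∈ interior (tri (Q j))
      · exact absurd h4 (Set.disjoint_left.1 (h.hd hij) h3)
      · exact Or.inr ⟨subset_closure hx2, h4⟩
    · exact Or.inl ⟨subset_closure hx1, h3⟩
  refine measure_mono_null h1 (measure_union_null ?_ ?_)
  · exact tri_convex.addHaar_frontier volume
  · exact tri_convex.addHaar_frontier volume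

theorem Tiling.add (h : Tiling T n Q) (ν : Measure ℂ) (hν : ν ≪ volume) :
    ν (tri T) = ∑ i, ν (tri (Q i)) := by
  rw [← h.hU, measure_iUnion₀ (fun i j hij => hν (h.aed hij))
    (fun i => tri_compact.isClosed.measurableSet.nullMeasurableSet), tsum_fintype]

theorem Tiling.vertex (h : Tiling T n Q) {k : Fin 3} {i : Fin n} (hk : T k ∈ tri (Q i)) :
    ∃ j, Q i j = T k := by
  have hmem : ∀ j, Q i j ∈ tri T := fun j => h.sub i (P_mem j)
  by_contra hcon
  push Not at hcon
  -- all vertices of the tile have `co k < 1`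
  have h1 : ∀ j, co h.hT k (Q i j) < 1 := by
    intro j
    have h2 : ∀ l, 0 ≤ co h.hT l (Q i j) := by
      have := hmem j
      rw [tri_eq h.hT] at this
      exact this
    have h3 := co_sum h.hT (Q i j)
    by_contra h4
    push Not at h4
    apply hcon j
    apply co_ext h.hT
    have a0 := h2 0
    have a1 := h2 1
    have a2 := h2 2
    intro l
    by_cases hl : l = k
    · subst hl
      rw [co_self]
      apply le_antisymm _ h4
      fin_cases l <;> simp at h4 ⊢ <;> linarith
    · rw [co_ne h.hT hl]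
      fin_cases k <;> fin_cases l <;> simp at hl h4 ⊢ <;> linarith
  have h5 := aff_co (h.hQ i) (co h.hT k) (T k)
  rw [co_self] at h5
  have h6 := co_sum (h.hQ i) (T k)
  have h7 : ∀ l, 0 ≤ co (h.hQ i) l (T k) := by
    rw [tri_eq (h.hQ i)] at hk
    exact hk
  have c0 : co (h.hQ i) 0 (T k) * co h.hT k (Q i 0) ≤ co (h.hQ i) 0 (T k) * 1 :=
    mul_le_mul_of_nonneg_left (h1 0).le (h7 0)
  have c1 : co (h.hQ i) 1 (T k) * co h.hT k (Q i 1) ≤ co (h.hQ i) 1 (T k) * 1 :=
    mul_le_mul_of_nonneg_left (h1 1).le (h7 1)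
  have c2 : co (h.hQ i) 2 (T k) * co h.hT k (Q i 2) ≤ co (h.hQ i) 2 (T k) * 1 :=
    mul_le_mul_of_nonneg_left (h1 2).le (h7 2)
  have d0 : co (h.hQ i) 0 (T k) * (1 - co h.hT k (Q i 0)) = 0 := by linarith
  have d1 : co (h.hQ i) 1 (T k) * (1 - co h.hT k (Q i 1)) = 0 := by linarith
  have d2 : co (h.hQ i) 2 (T k) * (1 - co h.hT k (Q i 2)) = 0 := by linarith
  have e0 := (mul_eq_zero.1 d0).resolve_right (by have := h1 0; linarith)
  have e1 := (mul_eq_zero.1 d1).resolve_right (by have := h1 1; linarith)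
  have e2 := (mul_eq_zero.1 d2).resolve_right (by have := h1 2; linarith)
  rw [e0, e1, e2] at h6
  norm_num at h6

theorem vol_int_inter {P : Fin 3 → ℂ} (A : Set ℂ) :
    volume (interior (tri P) ∩ A) = volume (tri P ∩ A) := by
  apply le_antisymm (measure_mono (inter_subset_inter_left _ interior_subset))
  have h1 : tri P ∩ A ⊆ (interior (tri P) ∩ A) ∪ frontier (tri P) := by
    rintro x ⟨hx1, hx2⟩
    by_cases h : x ∈ interior (tri P)
    · exact Or.inl ⟨h, hx2⟩
    · exact Or.inr ⟨subset_closure hx1, h⟩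
  calc volume (tri P ∩ A) ≤ volume ((interior (tri P) ∩ A) ∪ frontier (tri P)) := measure_mono h1
    _ ≤ volume (interior (tri P) ∩ A) + volume (frontier (tri P)) := measure_union_le _ _
    _ = volume (interior (tri P) ∩ A) := by
        rw [(tri_convex (P := P)).addHaar_frontier volume, add_zero]

/-- contribution of a tile at a vertex -/
theorem Tiling.contrib (h : Tiling T n Q) (k : Fin 3) (i : Fin n) : ∀ᶠ r in 𝓝[>] (0:ℝ),
    volume (tri (Q i) ∩ Metric.ball (T k) r)
      = ∑ j, if Q i j = T k then cst r * ENNReal.ofReal (ang (Q i) j) else 0 := by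
  by_cases hk : ∃ j, Q i j = T k
  · obtain ⟨j, hj⟩ := hk
    filter_upwards [near_vertex (h.hQ i) j] with r hr
    rw [← hj, ← vol_int_inter, hr, Finset.sum_eq_single j]
    · simp
    · intro b _ hb
      rw [if_neg]
      intro h1
      exact hb (P_inj (h.hQ i) h1)
    · intro h1; exact absurd (Finset.mem_univ j) h1
  · have hnot : T k ∉ tri (Q i) := fun h1 => hk (h.vertex h1)
    have hopen : IsOpen (tri (Q i))ᶜ := tri_compact.isClosed.isOpen_compl
    obtain ⟨ε, hε, hball⟩ := Metric.isOpen_iff.1 hopen _ hnot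
    have hev : ∀ᶠ r in 𝓝[>] (0:ℝ), r ∈ Ioo 0 ε := Ioo_mem_nhdsGT hε
    filter_upwards [hev] with r hr
    have h1 : tri (Q i) ∩ Metric.ball (T k) r = ∅ := by
      rw [eq_empty_iff_forall_notMem]
      rintro x ⟨hx1, hx2⟩
      exact hball (Metric.ball_subset_ball hr.2.le hx2) hx1
    rw [h1, measure_empty, Finset.sum_eq_zero]
    intro j _
    rw [if_neg]
    intro h2
    exact hk ⟨j, h2⟩

theorem ang_nonneg (P : Fin 3 → ℂ) (k : Fin 3) : 0 ≤ ang P k :=
  InnerProductGeometry.angle_nonneg _ _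

/-- **angle relation** -/
theorem Tiling.angle_rel (h : Tiling T n Q) (k : Fin 3) :
    ang T k = ∑ i, ∑ j, if Q i j = T k then ang (Q i) j else 0 := by
  have h1 : ∀ᶠ r in 𝓝[>] (0:ℝ), ∀ i, volume (tri (Q i) ∩ Metric.ball (T k) r)
      = ∑ j, if Q i j = T k then cst r * ENNReal.ofReal (ang (Q i) j) else 0 :=
    eventually_all.2 (fun i => h.contrib k i)
  have h2 := near_vertex h.hT k
  have h3 : ∀ᶠ r in 𝓝[>] (0:ℝ), 0 < r := self_mem_nhdsWithin
  obtain ⟨r, hr1, hr2, hr3⟩ := (h1.and (h2.and h3)).exists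
  have hadd := h.add (volume.restrict (Metric.ball (T k) r)) Measure.restrict_le_self.absolutelyContinuous
  rw [Measure.restrict_apply (tri_compact.isClosed.measurableSet)] at hadd
  have hadd' : volume (tri T ∩ Metric.ball (T k) r)
      = ∑ i, volume (tri (Q i) ∩ Metric.ball (T k) r) := by
    rw [hadd]
    exact Finset.sum_congr rfl (fun i _ =>
      Measure.restrict_apply (tri_compact.isClosed.measurableSet))
  rw [← vol_int_inter, hr2] at hadd'
  have h4 : ∑ i, volume (tri (Q i) ∩ Metric.ball (T k) r)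
      = cst r * ENNReal.ofReal (∑ i, ∑ j, if Q i j = T k then ang (Q i) j else 0) := by
    rw [ENNReal.ofReal_sum_of_nonneg (fun i _ => Finset.sum_nonneg (fun j _ => by
      split_ifs; exacts [ang_nonneg _ _, le_refl _])), Finset.mul_sum]
    refine Finset.sum_congr rfl (fun i _ => ?_)
    rw [hr1 i, ENNReal.ofReal_sum_of_nonneg (fun j _ => by
      split_ifs; exacts [ang_nonneg _ _, le_refl _]), Finset.mul_sum]
    refine Finset.sum_congr rfl (fun j _ => ?_)
    split_ifs
    · rfl
    · simp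
  rw [h4] at hadd'
  have h5 := (ENNReal.mul_right_inj (cst_ne_zero hr3) cst_ne_top).1 hadd'
  rwa [ENNReal.ofReal_eq_ofReal_iff (ang_nonneg _ _) (Finset.sum_nonneg (fun i _ =>
    Finset.sum_nonneg (fun j _ => by split_ifs; exacts [ang_nonneg _ _, le_refl _])))] at h5

end

end Pool.Agent.Helper27.Sq
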