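import Pool.Agent.Helper27.SqMain

/-!
The key lemma: sums over directed edges of functions which are additive along lines.
-/

open MeasureTheory Set Complex Filter Topology
open scoped ENNReal Real

namespace Pool.Agent.Helper27.Sq

theorem cr_self (u : ℂ) : cr u u = 0 := by unfold cr; ring
theorem cr_neg_right (u v : ℂ) : cr u (-v) = - cr u v := by unfold cr; simp; ring
theorem cr_neg_left (u v : ℂ) : cr (-u) v = - cr u v := by unfold cr; simp; ring
theorem cr_swap (u v : ℂ) : cr u v = - cr v u := by unfold cr; ring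
theorem cr_add_right (u v w : ℂ) : cr u (v + w) = cr u v + cr u w := by unfold cr; simp; ring
theorem cr_sub_right (u v w : ℂ) : cr u (v - w) = cr u v - cr u w := by unfold cr; simp; ring
theorem cr_add_left (u v w : ℂ) : cr (u + v) w = cr u w + cr v w := by unfold cr; simp; ring
theorem cr_sub_left (u v w : ℂ) : cr (u - v) w = cr u w - cr v w := by unfold cr; simp; ring
theorem cr_smul_right (u v : ℂ) (t : ℝ) : cr u ((t:ℂ) * v) = t * cr u v := by
  unfold cr; simp; ring
theorem cr_smul_left (u v : ℂ) (t : ℝ) : cr ((t:ℂ) * u) v = t * cr u v := by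
  unfold cr; simp; ring
theorem cr_zero_right (u : ℂ) : cr u 0 = 0 := by unfold cr; simp
theorem cr_zero_left (u : ℂ) : cr 0 u = 0 := by unfold cr; simp
theorem cr_I (u : ℂ) : cr u (I * u) = ‖u‖^2 := by
  unfold cr; rw [Complex.sq_norm, Complex.normSq_apply]; simp

/-- a vector parallel to `u` is a real multiple of `u` -/
theorem par_of_cr {u w : ℂ} (hu : u ≠ 0) (h : cr u w = 0) : w = (((w / u).re : ℝ) : ℂ) * u := by
  have h1 : (w / u).im = 0 := by
    rw [Complex.div_im]
    unfold cr at h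
    have : normSq u ≠ 0 := fun h => hu (normSq_eq_zero.1 h)
    field_simp
    linarith
  have h2 : w / u = (((w / u).re : ℝ) : ℂ) := by
    apply Complex.ext
    · simp
    · simp [h1]
  rw [← h2]; field_simp

/-- signed double area -/
noncomputable def DA (P : Fin 3 → ℂ) : ℝ := cr (P 1 - P 0) (P 2 - P 0)

theorem DA_cyc (P : Fin 3 → ℂ) (k : Fin 3) : DA P = cr (P (k+1) - P k) (P (k+2) - P k) := by
  unfold DA
  fin_cases k
  · rfl
  · simp [cr]; ring
  · simp [cr]; ring

theorem DA_ne {P : Fin 3 → ℂ} (hP : AffineIndependent ℝ P) : DA P ≠ 0 := cr_ne hP 0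

/-- orientation -/
noncomputable def ori (P : Fin 3 → ℂ) : ℝ := if 0 < DA P then 1 else -1

theorem ori_sq (P : Fin 3 → ℂ) : ori P * ori P = 1 := by unfold ori; split_ifs <;> norm_num

theorem ori_cases (P : Fin 3 → ℂ) : ori P = 1 ∨ ori P = -1 := by unfold ori; split_ifs <;> simp

theorem ori_DA {P : Fin 3 → ℂ} (hP : AffineIndependent ℝ P) : ori P * DA P = |DA P| := by
  unfold ori
  split_ifs with h
  · rw [one_mul, abs_of_pos h]
  · have h1 : DA P < 0 := lt_of_le_of_ne (not_lt.1 h) (DA_ne hP)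
    rw [abs_of_neg h1]; ring

section
variable {P : Fin 3 → ℂ} (hP : AffineIndependent ℝ P)

include hP in
/-- explicit formula for the barycentric coordinates -/
theorem co_cr (k : Fin 3) (z : ℂ) :
    co hP k z = cr (P (k+2) - P (k+1)) (z - P (k+1)) / DA P := by
  have hD := DA_ne hP
  rw [eq_div_iff hD]
  have h1 := co_rep hP z
  have h2 := co_sum hP z
  rw [sumC (fun l => co hP l z • P l) k] at h1
  rw [sumR (fun l => co hP l z) k] at h2
  have h3 : ((co hP (k+1) z : ℝ) : ℂ) = 1 - (co hP k z : ℝ) - (co hP (k+2) z : ℝ) := by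
    have : co hP (k+1) z = 1 - co hP k z - co hP (k+2) z := by linarith
    rw [this]; push_cast; ring
  have h4 : z - P (k+1) = ((co hP k z : ℝ) : ℂ) * (P k - P (k+1))
      + ((co hP (k+2) z : ℝ):ℂ) * (P (k+2) - P (k+1)) := by
    simp only [Complex.real_smul] at h1
    rw [h3] at h1
    linear_combination h1
  rw [h4, cr_add_right, cr_smul_right, cr_smul_right, cr_self, mul_zero, add_zero, DA_cyc P k]
  have h5 : cr (P (k+2) - P (k+1)) (P k - P (k+1)) = cr (P (k+1) - P k) (P (k+2) - P k) := by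
    unfold cr; simp; ring
  rw [h5]

theorem co_add (k : Fin 3) (z v : ℂ) : co hP k (z + v) = co hP k z + (co hP k).linear v := by
  have := (co hP k).map_vadd z v
  rw [vadd_eq_add, vadd_eq_add, add_comm v z] at this
  rw [this, add_comm]

theorem co_add_smul (k : Fin 3) (z v : ℂ) (t : ℝ) :
    co hP k (z + (t:ℂ) * v) = co hP k z + t * (co hP k).linear v := by
  rw [co_add]
  have : (t:ℂ) * v = t • v := by simp
  rw [this, map_smul, smul_eq_mul]

theorem lin_cr (k : Fin 3) (v : ℂ) :
    (co hP k).linear v = cr (P (k+2) - P (k+1)) v / DA P := by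
  have h1 := co_add hP k (P (k+1)) v
  rw [co_cr, co_cr, add_sub_cancel_left, sub_self, cr_zero_right, zero_div, zero_add] at h1
  exact h1.symm

end

/-- the triangle `P` contains the points `z + ε v` for small `ε > 0` in its interior -/
def Up (P : Fin 3 → ℂ) (z v : ℂ) : Prop :=
  ∀ᶠ ε : ℝ in 𝓝[>] (0:ℝ), z + (ε:ℂ) * v ∈ interior (tri P)

/-- the triangle `P` does not contain the points `z + ε v` for small `ε > 0` -/
def Out (P : Fin 3 → ℂ) (z v : ℂ) : Prop :=
  ∀ᶠ ε : ℝ in 𝓝[>] (0:ℝ), z + (ε:ℂ) * v ∉ tri P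

theorem Up.not_out {P : Fin 3 → ℂ} {z v : ℂ} (h : Up P z v) : ¬ Out P z v := by
  intro h2
  obtain ⟨ε, h3, h4⟩ := (h.and h2).exists
  exact h4 (interior_subset h3)

theorem ev_pos {a c : ℝ} (h : 0 < a ∨ (a = 0 ∧ 0 < c)) : ∀ᶠ ε : ℝ in 𝓝[>] (0:ℝ), 0 < a + ε * c := by
  rcases h with h | ⟨rfl, h⟩
  · have hcont : Continuous fun ε : ℝ => a + ε * c := by fun_prop
    have h0 : (0:ℝ) < a + 0 * c := by linarith
    exact nhdsWithin_le_nhds ((hcont.tendsto 0).eventually_const_lt h0)
  · have hev : ∀ᶠ ε : ℝ in 𝓝[>] (0:ℝ), 0 < ε := self_mem_nhdsWithin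
    filter_upwards [hev] with ε hε
    have := mul_pos hε h
    linarith

theorem ev_neg {a c : ℝ} (h : a < 0 ∨ (a = 0 ∧ c < 0)) : ∀ᶠ ε : ℝ in 𝓝[>] (0:ℝ), a + ε * c < 0 := by
  have := ev_pos (a := -a) (c := -c) (by
    rcases h with h | ⟨h, h'⟩
    · left; linarith
    · right; constructor <;> linarith)
  filter_upwards [this] with ε hε
  linarith

/-- `P` is in general position with respect to `z`, `v` -/
def Gen {P : Fin 3 → ℂ} (hP : AffineIndependent ℝ P) (z v : ℂ) : Prop :=
  ∀ k, co hP k z ≠ 0 ∨ (co hP k).linear v ≠ 0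

theorem up_iff {P : Fin 3 → ℂ} (hP : AffineIndependent ℝ P) {z v : ℂ} (hg : Gen hP z v) :
    (Up P z v ↔ ∀ k, 0 < co hP k z ∨ (co hP k z = 0 ∧ 0 < (co hP k).linear v)) ∧
    (Up P z v ∨ Out P z v) := by
  by_cases hall : ∀ k, 0 < co hP k z ∨ (co hP k z = 0 ∧ 0 < (co hP k).linear v)
  · have hup : Up P z v := by
      unfold Up
      have : ∀ᶠ ε : ℝ in 𝓝[>] (0:ℝ), ∀ k, 0 < co hP k z + ε * (co hP k).linear v :=
        eventually_all.2 (fun k => ev_pos (hall k))
      filter_upwards [this] with ε hε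
      rw [int_eq hP]
      intro k
      rw [co_add_smul]
      exact hε k
    exact ⟨⟨fun _ => hall, fun _ => hup⟩, Or.inl hup⟩
  · have hout : Out P z v := by
      push Not at hall
      obtain ⟨k, hk1, hk2⟩ := hall
      have hneg : co hP k z < 0 ∨ (co hP k z = 0 ∧ (co hP k).linear v < 0) := by
        rcases hk1.lt_or_eq with h | h
        · left; exact h
        · right
          refine ⟨h, lt_of_le_of_ne (hk2 h) ?_⟩
          rcases hg k with h3 | h3
          · exact absurd h h3
          · exact h3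
      unfold Out
      filter_upwards [ev_neg hneg] with ε hε hmem
      rw [tri_eq hP] at hmem
      have := hmem k
      rw [co_add_smul] at this
      linarith
    exact ⟨⟨fun h => absurd hout h.not_out, fun h => absurd h hall⟩, Or.inr hout⟩

open Classical in
theorem Tiling.up_count {T : Fin 3 → ℂ} {n : ℕ} {Q : Fin n → Fin 3 → ℂ} (h : Tiling T n Q) {z v : ℂ}
    (hT : Up T z v ∨ Out T z v) (hQ : ∀ i, Up (Q i) z v ∨ Out (Q i) z v) :
    ∑ i, (if Up (Q i) z v then (1:ℝ) else 0) = if Up T z v then 1 else 0 := by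
  by_cases hup : Up T z v
  · rw [if_pos hup]
    have hex : ∃ i, Up (Q i) z v := by
      by_contra hcon
      push Not at hcon
      have hall : ∀ i, Out (Q i) z v := fun i => (hQ i).resolve_left (hcon i)
      have h1 : ∀ᶠ ε : ℝ in 𝓝[>] (0:ℝ), ∀ i, z + (ε:ℂ) * v ∉ tri (Q i) := eventually_all.2 hall
      obtain ⟨ε, h2, h3⟩ := (hup.and h1).exists
      have h4 := interior_subset h2
      rw [← h.hU, mem_iUnion] at h4
      obtain ⟨i, hi⟩ := h4
      exact h3 i hi
    obtain ⟨i, hi⟩ := hex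
    rw [Finset.sum_eq_single i]
    · rw [if_pos hi]
    · intro j _ hj
      rw [if_neg]
      intro hj2
      obtain ⟨ε, h2, h3⟩ := (hi.and hj2).exists
      exact Set.disjoint_left.1 (h.hd hj.symm) h2 h3
    · intro h1; exact absurd (Finset.mem_univ i) h1
  · rw [if_neg hup]
    apply Finset.sum_eq_zero
    intro i _
    rw [if_neg]
    intro hi
    have hout := hT.resolve_left hup
    obtain ⟨ε, h2, h3⟩ := (hi.and hout).exists
    exact h3 (h.sub i (interior_subset h2))

/-- **jump lemma** -/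
theorem jump {ι : Type*} [Fintype ι] (c : ι → ℝ) (p q : ι → ℝ) (F : Set ℝ) (hF : F.Finite)
    (h : ∀ t ∉ F, ∑ i, c i * ((if p i < t then (1:ℝ) else 0) - (if q i < t then (1:ℝ) else 0)) = 0)
    (g : ℝ → ℝ) : ∑ i, c i * (g (p i) - g (q i)) = 0 := by
  classical
  set X : Finset ℝ := Finset.univ.image p ∪ Finset.univ.image q with hX
  have hpX : ∀ i, p i ∈ X := fun i => Finset.mem_union_left _ (Finset.mem_image_of_mem p (Finset.mem_univ i))
  have hqX : ∀ i, q i ∈ X := fun i => Finset.mem_union_right _ (Finset.mem_image_of_mem q (Finset.mem_univ i))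
  have hm : ∀ x, ∑ i, c i * ((if p i = x then (1:ℝ) else 0) - (if q i = x then (1:ℝ) else 0)) = 0 := by
    intro x
    have hfin : ((X : Set ℝ) ∪ F \ {x}).Finite := (X.finite_toSet.union hF).subset (by
      rintro y (hy | hy)
      · exact Or.inl hy
      · exact Or.inr hy.1)
    have hfin2 : (((X : Set ℝ) ∪ F) \ {x}).Finite := (X.finite_toSet.union hF).subset sdiff_subset
    have hopen : IsOpen ((((X : Set ℝ) ∪ F) \ {x})ᶜ) := hfin2.isClosed.isOpen_compl
    obtain ⟨δ, hδ, hball⟩ := Metric.isOpen_iff.1 hopen x (by simp)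
    have hnot : ∀ y, |y - x| < δ → y ≠ x → y ∉ (X : Set ℝ) ∧ y ∉ F := by
      intro y hy hne
      have := hball (by rw [Metric.mem_ball, Real.dist_eq]; exact hy)
      simp only [mem_compl_iff, Set.mem_sdiff, mem_union, mem_singleton_iff, not_and, not_not] at this
      constructor
      · intro h1; exact hne (this (Or.inl h1))
      · intro h1; exact hne (this (Or.inr h1))
    have h1 := h (x - δ/2) (hnot _ (by rw [abs_lt]; constructor <;> linarith) (by linarith)).2
    have h2 := h (x + δ/2) (hnot _ (by rw [abs_lt]; constructor <;> linarith) (by linarith)).2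
    have hstep : ∀ y ∈ X, (if y = x then (1:ℝ) else 0)
        = (if y < x + δ/2 then (1:ℝ) else 0) - (if y < x - δ/2 then (1:ℝ) else 0) := by
      intro y hy
      have h3 : y = x ∨ y < x - δ/2 ∨ x + δ/2 < y := by
        by_contra hcon
        push Not at hcon
        exact (hnot y (by rw [abs_lt]; constructor <;> linarith) hcon.1).1 hy
      rcases h3 with h3 | h3 | h3
      · subst h3
        rw [if_pos rfl, if_pos (by linarith), if_neg (by linarith)]; ring
      · rw [if_neg (by intro h4; linarith), if_pos (by linarith), if_pos h3]; ring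
      · rw [if_neg (by intro h4; linarith), if_neg (by linarith), if_neg (by linarith)]; ring
    have h3 : ∑ i, c i * ((if p i = x then (1:ℝ) else 0) - (if q i = x then (1:ℝ) else 0))
        = ∑ i, c i * ((if p i < x + δ/2 then (1:ℝ) else 0) - (if q i < x + δ/2 then (1:ℝ) else 0))
        - ∑ i, c i * ((if p i < x - δ/2 then (1:ℝ) else 0) - (if q i < x - δ/2 then (1:ℝ) else 0)) := by
      rw [← Finset.sum_sub_distrib]
      refine Finset.sum_congr rfl (fun i _ => ?_)
      rw [hstep _ (hpX i), hstep _ (hqX i)]; ring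
    rw [h3, h1, h2, sub_zero]
  have hg : ∀ y ∈ X, g y = ∑ x ∈ X, g x * (if y = x then (1:ℝ) else 0) := by
    intro y hy
    simp [Finset.sum_ite_eq, hy]
  calc ∑ i, c i * (g (p i) - g (q i))
      = ∑ i, c i * (∑ x ∈ X, g x * ((if p i = x then (1:ℝ) else 0) - (if q i = x then (1:ℝ) else 0))) := by
        refine Finset.sum_congr rfl (fun i _ => ?_)
        rw [hg _ (hpX i), hg _ (hqX i), ← Finset.sum_sub_distrib]
        congr 1
        refine Finset.sum_congr rfl (fun x _ => ?_)
        ring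
    _ = ∑ x ∈ X, g x * ∑ i, c i * ((if p i = x then (1:ℝ) else 0) - (if q i = x then (1:ℝ) else 0)) := by
        simp only [Finset.mul_sum]
        rw [Finset.sum_comm]
        refine Finset.sum_congr rfl (fun x _ => Finset.sum_congr rfl (fun i _ => ?_))
        ring
    _ = 0 := Finset.sum_eq_zero (fun x _ => by rw [hm x, mul_zero])

/-- parameter of a point on the line `z0 + ℝ u` -/
noncomputable def prm (z0 u z : ℂ) : ℝ := ((z - z0) / u).re

/-- the edge `k` of `P` lies on the line `z0 + ℝ u` -/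
def onl (z0 u : ℂ) (P : Fin 3 → ℂ) (k : Fin 3) : Prop :=
  cr u (P (k+1) - z0) = 0 ∧ cr u (P (k+2) - z0) = 0

theorem prm_spec {z0 u z : ℂ} (hu : u ≠ 0) (h : cr u (z - z0) = 0) : z = z0 + (prm z0 u z : ℂ) * u := by
  have := par_of_cr hu h
  unfold prm
  rw [← this]; ring

theorem prm_line {z0 u : ℂ} (hu : u ≠ 0) (t : ℝ) : prm z0 u (z0 + (t:ℂ) * u) = t := by
  unfold prm
  rw [add_sub_cancel_left, mul_div_assoc, div_self hu, mul_one]
  simp

section
variable {P : Fin 3 → ℂ} (hP : AffineIndependent ℝ P)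

theorem onl_co {z0 u : ℂ} (hu : u ≠ 0) (k : Fin 3) (h : onl z0 u P k) :
    co hP k z0 = 0 ∧ (co hP k).linear u = 0 := by
  have h1 := prm_spec hu h.1
  have h2 := prm_spec hu h.2
  have e1 : co hP k (P (k+1)) = 0 := co_ne hP (f3a k)
  have e2 : co hP k (P (k+2)) = 0 := co_ne hP (f3b k)
  rw [h1, co_add_smul] at e1
  rw [h2, co_add_smul] at e2
  have hne : prm z0 u (P (k+1)) ≠ prm z0 u (P (k+2)) := by
    intro h3
    rw [h3] at h1
    rw [← h2] at h1
    exact f3c k (P_inj hP h1)
  have h3 : (prm z0 u (P (k+1)) - prm z0 u (P (k+2))) * (co hP k).linear u = 0 := by linarith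
  have h4 := (mul_eq_zero.1 h3).resolve_left (sub_ne_zero.2 hne)
  rw [h4] at e1
  exact ⟨by linarith, h4⟩

theorem co_onl {z0 u : ℂ} (k : Fin 3)
    (h : co hP k z0 = 0 ∧ (co hP k).linear u = 0) : onl z0 u P k := by
  have hD := DA_ne hP
  obtain ⟨h1, h2⟩ := h
  rw [lin_cr, div_eq_zero_iff, or_iff_left hD] at h2
  rw [co_cr, div_eq_zero_iff, or_iff_left hD] at h1
  have hw : P (k+2) - P (k+1) ≠ 0 := sub_ne_zero.2 ((P_inj hP).ne (f3c k).symm)
  have h3 := par_of_cr hw h1
  have h2' : cr u (P (k+2) - P (k+1)) = 0 := by rw [cr_swap, h2, neg_zero]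
  have h5 : cr u (P (k+1) - z0) = 0 := by
    have : P (k+1) - z0 = -(z0 - P (k+1)) := by ring
    rw [this, cr_neg_right, h3, cr_smul_right, h2', mul_zero, neg_zero]
  refine ⟨h5, ?_⟩
  have : P (k+2) - z0 = (P (k+2) - P (k+1)) + (P (k+1) - z0) := by ring
  rw [this, cr_add_right, h2', h5, add_zero]

/-- parameters where the position is not generic -/
def badSet (z0 u : ℂ) : Set ℝ :=
  {t | ∃ k, (co hP k).linear u ≠ 0 ∧ co hP k (z0 + (t:ℂ) * u) = 0}

theorem badSet_finite (z0 u : ℂ) : (badSet hP z0 u).Finite := by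
  have : badSet hP z0 u = ⋃ k, {t : ℝ | (co hP k).linear u ≠ 0 ∧ co hP k (z0 + (t:ℂ) * u) = 0} := by
    ext t; simp [badSet]
  rw [this]
  apply Set.finite_iUnion
  intro k
  apply Set.Subsingleton.finite
  rintro s ⟨hs1, hs2⟩ t ⟨ht1, ht2⟩
  rw [co_add_smul] at hs2 ht2
  have h3 : (s - t) * (co hP k).linear u = 0 := by linarith
  exact sub_eq_zero.1 ((mul_eq_zero.1 h3).resolve_right hs1)

theorem lin_I_ne {u : ℂ} (hu : u ≠ 0) (k : Fin 3) (h : (co hP k).linear u = 0) :
    (co hP k).linear (I * u) ≠ 0 := by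
  have hD := DA_ne hP
  rw [lin_cr, div_eq_zero_iff, or_iff_left hD] at h
  have hw : P (k+2) - P (k+1) ≠ 0 := sub_ne_zero.2 ((P_inj hP).ne (f3c k).symm)
  rw [cr_swap, neg_eq_zero] at h
  have h3 := par_of_cr hu h
  rw [lin_cr, h3, cr_smul_left, cr_I]
  have hu2 : ‖u‖^2 ≠ 0 := pow_ne_zero 2 (norm_ne_zero_iff.2 hu)
  have h4 : ((P (k+2) - P (k+1)) / u).re ≠ 0 := by
    intro h5
    rw [h5] at h3
    apply hw
    rw [h3]; simp
  exact div_ne_zero (mul_ne_zero h4 hu2) hD

theorem gen_of {z0 u : ℂ} (hu : u ≠ 0) {t : ℝ} (ht : t ∉ badSet hP z0 u) :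
    Gen hP (z0 + (t:ℂ) * u) (I * u) ∧ Gen hP (z0 + (t:ℂ) * u) (-(I * u)) := by
  have key : ∀ k, co hP k (z0 + (t:ℂ) * u) ≠ 0 ∨ (co hP k).linear (I * u) ≠ 0 := by
    intro k
    by_cases h1 : (co hP k).linear u = 0
    · right; exact lin_I_ne hP hu k h1
    · left
      intro h2
      exact ht ⟨k, h1, h2⟩
  refine ⟨key, fun k => ?_⟩
  rcases key k with h | h
  · left; exact h
  · right; rw [map_neg, neg_ne_zero]; exact h

theorem sgn_lemma {D t1 t2 t A B : ℝ} (hD : D ≠ 0) (ht12 : t1 ≠ t2) (htt1 : t ≠ t1) (htt2 : t ≠ t2)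
    (hA : (t1 - t2) * A = 1) (hB : (t2 - t1) * B = 1) :
    (if 0 < (t2 - t1) / D ∧ 0 < (t - t2) * A ∧ 0 < (t - t1) * B then (1:ℝ) else 0)
      - (if 0 < (t1 - t2) / D ∧ 0 < (t - t2) * A ∧ 0 < (t - t1) * B then (1:ℝ) else 0)
    = (if 0 < D then (1:ℝ) else -1) * ((if t1 < t then (1:ℝ) else 0) - (if t2 < t then (1:ℝ) else 0)) := by
  rcases lt_or_gt_of_ne hD with hD | hD
  · rw [if_neg (not_lt.2 hD.le)]
    rcases lt_or_gt_of_ne ht12 with h12 | h12
    · have hAn : A < 0 := by nlinarith
      have hBp : 0 < B := by nlinarith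
      have s1 : ¬ (0 < (t2 - t1) / D) := not_lt.2 (div_nonpos_of_nonneg_of_nonpos (by linarith) hD.le)
      have s2 : 0 < (t1 - t2) / D := div_pos_of_neg_of_neg (by linarith) hD
      rcases lt_or_gt_of_ne htt1 with h1 | h1
      · have c3 : ¬ 0 < (t - t1) * B := not_lt.2 (by nlinarith)
        simp [s1, c3, not_lt.2 h1.le, not_lt.2 (h1.trans h12).le]
      · rcases lt_or_gt_of_ne htt2 with h2 | h2
        · have c3 : 0 < (t - t1) * B := mul_pos (by linarith) hBp
          have c4 : 0 < (t - t2) * A := mul_pos_of_neg_of_neg (by linarith) hAn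
          simp only [s1, s2, c3, c4, h1, not_lt.2 h2.le]
          norm_num
        · have c4 : ¬ 0 < (t - t2) * A := not_lt.2 (by nlinarith)
          simp [c4, h1, h2]
    · have hAn : 0 < A := by nlinarith
      have hBp : B < 0 := by nlinarith
      have s1 : 0 < (t2 - t1) / D := div_pos_of_neg_of_neg (by linarith) hD
      have s2 : ¬ 0 < (t1 - t2) / D := not_lt.2 (div_nonpos_of_nonneg_of_nonpos (by linarith) hD.le)
      rcases lt_or_gt_of_ne htt2 with h1 | h1
      · have c4 : ¬ 0 < (t - t2) * A := not_lt.2 (by nlinarith)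
        simp [c4, not_lt.2 h1.le, not_lt.2 (h1.trans h12).le]
      · rcases lt_or_gt_of_ne htt1 with h2 | h2
        · have c3 : 0 < (t - t1) * B := mul_pos_of_neg_of_neg (by linarith) hBp
          have c4 : 0 < (t - t2) * A := mul_pos (by linarith) hAn
          simp only [s1, s2, c3, c4, h1, not_lt.2 h2.le]
          norm_num
        · have c3 : ¬ 0 < (t - t1) * B := not_lt.2 (by nlinarith)
          simp [c3, h1, h2]
  · rw [if_pos hD]
    rcases lt_or_gt_of_ne ht12 with h12 | h12
    · have hAn : A < 0 := by nlinarith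
      have hBp : 0 < B := by nlinarith
      have s1 : 0 < (t2 - t1) / D := div_pos (by linarith) hD
      have s2 : ¬ 0 < (t1 - t2) / D := not_lt.2 (div_nonpos_of_nonpos_of_nonneg (by linarith) hD.le)
      rcases lt_or_gt_of_ne htt1 with h1 | h1
      · have c3 : ¬ 0 < (t - t1) * B := not_lt.2 (by nlinarith)
        simp [c3, not_lt.2 h1.le, not_lt.2 (h1.trans h12).le]
      · rcases lt_or_gt_of_ne htt2 with h2 | h2
        · have c3 : 0 < (t - t1) * B := mul_pos (by linarith) hBp
          have c4 : 0 < (t - t2) * A := mul_pos_of_neg_of_neg (by linarith) hAn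
          simp only [s1, s2, c3, c4, h1, not_lt.2 h2.le]
          norm_num
        · have c4 : ¬ 0 < (t - t2) * A := not_lt.2 (by nlinarith)
          simp [c4, h1, h2]
    · have hAn : 0 < A := by nlinarith
      have hBp : B < 0 := by nlinarith
      have s1 : ¬ 0 < (t2 - t1) / D := not_lt.2 (div_nonpos_of_nonpos_of_nonneg (by linarith) hD.le)
      have s2 : 0 < (t1 - t2) / D := div_pos (by linarith) hD
      rcases lt_or_gt_of_ne htt2 with h1 | h1
      · have c4 : ¬ 0 < (t - t2) * A := not_lt.2 (by nlinarith)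
        simp [c4, not_lt.2 h1.le, not_lt.2 (h1.trans h12).le]
      · rcases lt_or_gt_of_ne htt1 with h2 | h2
        · have c3 : 0 < (t - t1) * B := mul_pos_of_neg_of_neg (by linarith) hBp
          have c4 : 0 < (t - t2) * A := mul_pos (by linarith) hAn
          simp only [s1, s2, c3, c4, h1, not_lt.2 h2.le]
          norm_num
        · have c3 : ¬ 0 < (t - t1) * B := not_lt.2 (by nlinarith)
          simp [c3, h1, h2]

open Classical in
theorem up_diff {z0 u : ℂ} (hu : u ≠ 0) {t : ℝ} (ht : t ∉ badSet hP z0 u) :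
    (if Up P (z0 + (t:ℂ) * u) (I * u) then (1:ℝ) else 0)
      - (if Up P (z0 + (t:ℂ) * u) (-(I * u)) then (1:ℝ) else 0)
    = ∑ k, (if onl z0 u P k then ori P else 0) * ((if prm z0 u (P (k+1)) < t then (1:ℝ) else 0)
        - (if prm z0 u (P (k+2)) < t then (1:ℝ) else 0)) := by
  obtain ⟨g1, g2⟩ := gen_of hP hu ht
  rw [if_congr (up_iff hP g1).1 rfl rfl, if_congr (up_iff hP g2).1 rfl rfl]
  have hne : ∀ k, ¬ onl z0 u P k → co hP k (z0 + (t:ℂ) * u) ≠ 0 := by
    intro k hk h1
    apply hk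
    by_cases h2 : (co hP k).linear u = 0
    · apply co_onl hP k
      rw [co_add_smul, h2, mul_zero, add_zero] at h1
      exact ⟨h1, h2⟩
    · exact absurd ⟨k, h2, h1⟩ ht
  by_cases hex : ∃ j, onl z0 u P j
  · obtain ⟨j, hj⟩ := hex
    have hw : P (j+2) - P (j+1) ≠ 0 := sub_ne_zero.2 ((P_inj hP).ne (f3c j).symm)
    obtain ⟨z1, z2⟩ := onl_co hP hu j hj
    have e1 := prm_spec hu hj.1
    have e2 := prm_spec hu hj.2
    set t1 := prm z0 u (P (j+1)) with ht1
    set t2 := prm z0 u (P (j+2)) with ht2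
    have ht12 : t1 ≠ t2 := by
      intro h3
      apply hw
      rw [e1, e2, h3]; ring
    -- uniqueness
    have hcoj : co hP j (z0 + (t:ℂ) * u) = 0 := by rw [co_add_smul, z1, z2]; ring
    -- values of the other coordinates
    have a1 : co hP (j+1) (P (j+1)) = 1 := co_self hP _
    have a2 : co hP (j+1) (P (j+2)) = 0 := co_ne hP (f3c j)
    have b1 : co hP (j+2) (P (j+1)) = 0 := co_ne hP (f3c j).symm
    have b2 : co hP (j+2) (P (j+2)) = 1 := co_self hP _
    rw [e1, co_add_smul] at a1 b1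
    rw [e2, co_add_smul] at a2 b2
    set A := (co hP (j+1)).linear u
    set B := (co hP (j+2)).linear u
    have ca : co hP (j+1) (z0 + (t:ℂ) * u) = (t - t2) * A := by
      rw [co_add_smul]; linarith
    have cb : co hP (j+2) (z0 + (t:ℂ) * u) = (t - t1) * B := by
      rw [co_add_smul]; linarith
    have hA : (t1 - t2) * A = 1 := by linarith
    have hB : (t2 - t1) * B = 1 := by linarith
    have hAne : A ≠ 0 := by rintro h; rw [h] at hA; simp at hA
    have hBne : B ≠ 0 := by rintro h; rw [h] at hB; simp at hB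
    have hn1 : ¬ onl z0 u P (j+1) := by
      intro h
      exact hAne (onl_co hP hu _ h).2
    have hn2 : ¬ onl z0 u P (j+2) := by
      intro h
      exact hBne (onl_co hP hu _ h).2
    have hc1 := hne _ hn1
    have hc2 := hne _ hn2
    have htt2 : t ≠ t2 := by
      intro h; apply hc1; rw [ca, h]; ring
    have htt1 : t ≠ t1 := by
      intro h; apply hc2; rw [cb, h]; ring
    have hwu : P (j+2) - P (j+1) = ((t2 - t1 : ℝ) : ℂ) * u := by
      rw [e1, e2]; push_cast; ring
    have hlin : (co hP j).linear (I * u) = (t2 - t1) * ‖u‖^2 / DA P := by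
      rw [lin_cr, hwu, cr_smul_left, cr_I]
    have hD := DA_ne hP
    have hu2 : 0 < ‖u‖^2 := pow_pos (norm_pos_iff.2 hu) 2
    have hsum : ∑ k, (if onl z0 u P k then ori P else 0)
        * ((if prm z0 u (P (k+1)) < t then (1:ℝ) else 0)
        - (if prm z0 u (P (k+2)) < t then (1:ℝ) else 0))
        = ori P * ((if t1 < t then (1:ℝ) else 0) - (if t2 < t then (1:ℝ) else 0)) := by
      rw [Finset.sum_eq_single j]
      · rw [if_pos hj]
      · intro b _ hb
        rw [if_neg, zero_mul]
        rcases f3d j b with rfl | rfl | rfl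
        · exact absurd rfl hb
        · exact hn1
        · exact hn2
      · intro h1; exact absurd (Finset.mem_univ j) h1
    rw [hsum]
    have up1 : (∀ k, 0 < co hP k (z0 + (t:ℂ) * u) ∨ (co hP k (z0 + (t:ℂ) * u) = 0 ∧
        0 < (co hP k).linear (I * u))) ↔ (0 < (t2 - t1) / DA P ∧ 0 < (t - t2) * A ∧ 0 < (t - t1) * B) := by
      have hpos : (0 < (t2 - t1) / DA P) ↔ 0 < (co hP j).linear (I * u) := by
        rw [hlin, mul_comm, mul_div_assoc]
        exact (mul_pos_iff_of_pos_left hu2).symm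
      rw [hpos]
      constructor
      · intro h
        refine ⟨?_, ?_, ?_⟩
        · rcases h j with h | h
          · rw [hcoj] at h; exact absurd h (lt_irrefl _)
          · exact h.2
        · rcases h (j+1) with h | h
          · rwa [ca] at h
          · exact absurd h.1 hc1
        · rcases h (j+2) with h | h
          · rwa [cb] at h
          · exact absurd h.1 hc2
      · rintro ⟨h1, h2, h3⟩ k
        rcases f3d j k with rfl | rfl | rfl
        · right; exact ⟨hcoj, h1⟩
        · left; rw [ca]; exact h2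
        · left; rw [cb]; exact h3
    have up2 : (∀ k, 0 < co hP k (z0 + (t:ℂ) * u) ∨ (co hP k (z0 + (t:ℂ) * u) = 0 ∧
        0 < (co hP k).linear (-(I * u)))) ↔ (0 < (t1 - t2) / DA P ∧ 0 < (t - t2) * A ∧ 0 < (t - t1) * B) := by
      have hpos : (0 < (t1 - t2) / DA P) ↔ 0 < (co hP j).linear (-(I * u)) := by
        rw [map_neg, hlin]
        have : -((t2 - t1) * ‖u‖^2 / DA P) = ‖u‖^2 * ((t1 - t2) / DA P) := by ring
        rw [this]
        exact (mul_pos_iff_of_pos_left hu2).symm
      rw [hpos]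
      constructor
      · intro h
        refine ⟨?_, ?_, ?_⟩
        · rcases h j with h | h
          · rw [hcoj] at h; exact absurd h (lt_irrefl _)
          · exact h.2
        · rcases h (j+1) with h | h
          · rwa [ca] at h
          · exact absurd h.1 hc1
        · rcases h (j+2) with h | h
          · rwa [cb] at h
          · exact absurd h.1 hc2
      · rintro ⟨h1, h2, h3⟩ k
        rcases f3d j k with rfl | rfl | rfl
        · right; exact ⟨hcoj, h1⟩
        · left; rw [ca]; exact h2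
        · left; rw [cb]; exact h3
    rw [if_congr up1 rfl rfl, if_congr up2 rfl rfl]
    exact sgn_lemma hD ht12 htt1 htt2 hA hB
  · push Not at hex
    have hsum : ∑ k, (if onl z0 u P k then ori P else 0)
        * ((if prm z0 u (P (k+1)) < t then (1:ℝ) else 0)
        - (if prm z0 u (P (k+2)) < t then (1:ℝ) else 0)) = 0 :=
      Finset.sum_eq_zero (fun k _ => by rw [if_neg (hex k), zero_mul])
    rw [hsum]
    have hiff : ∀ v, (∀ k, 0 < co hP k (z0 + (t:ℂ) * u) ∨ (co hP k (z0 + (t:ℂ) * u) = 0 ∧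
        0 < (co hP k).linear v)) ↔ (∀ k, 0 < co hP k (z0 + (t:ℂ) * u)) := by
      intro v
      constructor
      · intro h k
        rcases h k with h | h
        · exact h
        · exact absurd h.1 (hne k (hex k))
      · intro h k; left; exact h k
    rw [if_congr (hiff _) rfl rfl, if_congr (hiff _) rfl rfl, sub_self]

end


open Classical in
/-- signed sum of the increments of `g` over the edges of `P` on the line `z0 + ℝ u` -/
noncomputable def lsum (z0 u : ℂ) (g : ℂ → ℝ) (P : Fin 3 → ℂ) : ℝ :=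
  ∑ k, (if onl z0 u P k then ori P else 0) * (g (P (k+1)) - g (P (k+2)))

section
variable {T : Fin 3 → ℂ} {n : ℕ} {Q : Fin n → Fin 3 → ℂ}

/-- **line lemma** -/
theorem Tiling.line_key (h : Tiling T n Q) {z0 u : ℂ} (hu : u ≠ 0) (g : ℂ → ℝ) :
    ∑ i, lsum z0 u g (Q i) = lsum z0 u g T := by
  classical
  set c : (Fin n × Fin 3) ⊕ Fin 3 → ℝ := Sum.elim
    (fun x => if onl z0 u (Q x.1) x.2 then ori (Q x.1) else 0)
    (fun k => - (if onl z0 u T k then ori T else 0)) with hc
  set p : (Fin n × Fin 3) ⊕ Fin 3 → ℝ := Sum.elim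
    (fun x => prm z0 u (Q x.1 (x.2+1))) (fun k => prm z0 u (T (k+1))) with hp
  set q : (Fin n × Fin 3) ⊕ Fin 3 → ℝ := Sum.elim
    (fun x => prm z0 u (Q x.1 (x.2+2))) (fun k => prm z0 u (T (k+2))) with hq
  set F : Set ℝ := (⋃ i, badSet (h.hQ i) z0 u) ∪ badSet h.hT z0 u with hF
  have hFfin : F.Finite :=
    (Set.finite_iUnion (fun i => badSet_finite (h.hQ i) z0 u)).union (badSet_finite h.hT z0 u)
  have hjump := jump c p q F hFfin (by
    intro t ht
    have ht1 : ∀ i, t ∉ badSet (h.hQ i) z0 u := by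
      intro i hi
      exact ht (Or.inl (mem_iUnion.2 ⟨i, hi⟩))
    have ht2 : t ∉ badSet h.hT z0 u := fun hi => ht (Or.inr hi)
    rw [Fintype.sum_sum_type, Fintype.sum_prod_type]
    simp only [hc, hp, hq, Sum.elim_inl, Sum.elim_inr]
    have e1 : ∀ i, ∑ k, (if onl z0 u (Q i) k then ori (Q i) else 0)
        * ((if prm z0 u (Q i (k+1)) < t then (1:ℝ) else 0)
        - (if prm z0 u (Q i (k+2)) < t then (1:ℝ) else 0))
        = (if Up (Q i) (z0 + (t:ℂ) * u) (I * u) then (1:ℝ) else 0)
          - (if Up (Q i) (z0 + (t:ℂ) * u) (-(I * u)) then (1:ℝ) else 0) :=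
      fun i => (up_diff (h.hQ i) hu (ht1 i)).symm
    have e2 := (up_diff h.hT hu ht2).symm
    rw [Finset.sum_congr rfl (fun i _ => e1 i), Finset.sum_sub_distrib]
    have f1 := h.up_count (z := z0 + (t:ℂ) * u) (v := I * u)
      (up_iff h.hT (gen_of h.hT hu ht2).1).2 (fun i => (up_iff (h.hQ i) (gen_of (h.hQ i) hu (ht1 i)).1).2)
    have f2 := h.up_count (z := z0 + (t:ℂ) * u) (v := -(I * u))
      (up_iff h.hT (gen_of h.hT hu ht2).2).2 (fun i => (up_iff (h.hQ i) (gen_of (h.hQ i) hu (ht1 i)).2).2)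
    rw [f1, f2]
    simp only [neg_mul, Finset.sum_neg_distrib]
    rw [e2]
    ring) (fun t => g (z0 + (t:ℂ) * u))
  rw [Fintype.sum_sum_type, Fintype.sum_prod_type] at hjump
  simp only [hc, hp, hq, Sum.elim_inl, Sum.elim_inr] at hjump
  have hterm : ∀ (P : Fin 3 → ℂ) (k : Fin 3), (if onl z0 u P k then ori P else 0)
      * (g (z0 + (prm z0 u (P (k+1)) : ℂ) * u) - g (z0 + (prm z0 u (P (k+2)) : ℂ) * u))
      = (if onl z0 u P k then ori P else 0) * (g (P (k+1)) - g (P (k+2))) := by
    intro P k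
    by_cases hk : onl z0 u P k
    · rw [← prm_spec hu hk.1, ← prm_spec hu hk.2]
    · rw [if_neg hk, zero_mul, zero_mul]
  unfold lsum
  rw [Finset.sum_congr rfl (fun i _ => Finset.sum_congr rfl (fun k _ => hterm (Q i) k))] at hjump
  have h3 : ∀ k, (-(if onl z0 u T k then ori T else 0))
      * (g (z0 + (prm z0 u (T (k+1)) : ℂ) * u) - g (z0 + (prm z0 u (T (k+2)) : ℂ) * u))
      = - ((if onl z0 u T k then ori T else 0) * (g (T (k+1)) - g (T (k+2)))) := by
    intro k
    rw [← hterm T k]; ring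
  rw [Finset.sum_congr rfl (fun k _ => h3 k), Finset.sum_neg_distrib] at hjump
  linarith

/-- signed boundary sum -/
noncomputable def bsum (G : ℂ → ℂ → ℝ) (P : Fin 3 → ℂ) : ℝ :=
  ori P * (G (P 1) (P 2) + G (P 2) (P 0) + G (P 0) (P 1))

/-- the line through two points -/
def lin2 (p q : ℂ) : Set ℂ := {z | cr (q - p) (z - p) = 0}

/-- **key lemma**: signed boundary sums of functions which are additive along lines -/
theorem Tiling.key (h : Tiling T n Q) (G : ℂ → ℂ → ℝ)
    (hG : ∀ p q r : ℂ, cr (q - p) (r - p) = 0 → G p q + G q r = G p r) :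
    ∑ i, bsum G (Q i) = bsum G T := by
  classical
  have hG0 : ∀ p, G p p = 0 := by
    intro p
    have := hG p p p (by rw [sub_self, cr_zero_left])
    linarith
  -- finite set of lines
  set L : Finset (Set ℂ) := (Finset.univ.image fun x : Fin n × Fin 3 =>
    lin2 (Q x.1 (x.2+1)) (Q x.1 (x.2+2))) ∪ Finset.univ.image fun k : Fin 3 => lin2 (T (k+1)) (T (k+2))
    with hL
  have hrep : ∀ l ∈ L, ∃ z0 u : ℂ, u ≠ 0 ∧ l = {z | cr u (z - z0) = 0} := by
    intro l hl
    rw [hL, Finset.mem_union, Finset.mem_image, Finset.mem_image] at hl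
    rcases hl with ⟨x, -, rfl⟩ | ⟨k, -, rfl⟩
    · exact ⟨_, _, sub_ne_zero.2 ((P_inj (h.hQ x.1)).ne (f3c x.2).symm), rfl⟩
    · exact ⟨_, _, sub_ne_zero.2 ((P_inj h.hT).ne (f3c k).symm), rfl⟩
  choose! z0 u hu hl using hrep
  have huniq : ∀ (p q : ℂ), p ≠ q → lin2 p q ∈ L → ∀ l ∈ L, ((p ∈ l ∧ q ∈ l) ↔ l = lin2 p q) := by
    intro p q hpq _ l hlL
    have hul := hu l hlL
    have hll := hl l hlL
    constructor
    · rintro ⟨h1, h2⟩
      rw [hll, mem_ofPred_eq] at h1 h2
      have hqp : cr (u l) (q - p) = 0 := by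
        have : q - p = (q - z0 l) - (p - z0 l) := by ring
        rw [this, cr_sub_right, h1, h2, sub_zero]
      have hq := par_of_cr hul hqp
      set s := ((q - p) / u l).re with hs
      have hs0 : s ≠ 0 := by
        intro h0
        rw [h0] at hq
        apply hpq
        have : q - p = 0 := by rw [hq]; simp
        exact (sub_eq_zero.1 this).symm
      rw [hll]
      ext z
      unfold lin2
      rw [mem_ofPred_eq, mem_ofPred_eq, hq, cr_smul_left]
      have e : z - p = (z - z0 l) - (p - z0 l) := by ring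
      have e3 : cr (u l) (z - p) = cr (u l) (z - z0 l) := by
        rw [e, cr_sub_right (u l) (z - z0 l), h1, sub_zero]
      rw [e3, mul_eq_zero, or_iff_right hs0]
    · rintro rfl
      unfold lin2
      refine ⟨?_, ?_⟩
      · rw [mem_ofPred_eq, sub_self, cr_zero_right]
      · rw [mem_ofPred_eq, cr_self]
  -- decomposition of the sum over lines
  have hdec : ∀ P : Fin 3 → ℂ, AffineIndependent ℝ P → (∀ k, lin2 (P (k+1)) (P (k+2)) ∈ L) →
      bsum G P = - ∑ l ∈ L, lsum (z0 l) (u l) (fun z => G (z0 l) z) P := by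
    intro P hP hPL
    have e1 : ∀ k, G (P (k+1)) (P (k+2)) = ∑ l ∈ L,
        if onl (z0 l) (u l) P k then G (P (k+1)) (P (k+2)) else 0 := by
      intro k
      have : ∀ l ∈ L, (if onl (z0 l) (u l) P k then G (P (k+1)) (P (k+2)) else 0)
          = if l = lin2 (P (k+1)) (P (k+2)) then G (P (k+1)) (P (k+2)) else 0 := by
        intro l hlL
        have := huniq (P (k+1)) (P (k+2)) ((P_inj hP).ne (f3c k)) (hPL k) l hlL
        refine if_congr ?_ rfl rfl
        rw [← this]
        unfold onl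
        have hll := hl l hlL
        rw [hll, mem_ofPred_eq, mem_ofPred_eq, ← hll]
      rw [Finset.sum_congr rfl this, Finset.sum_ite_eq' L, if_pos (hPL k)]
    have e2 : ∀ l ∈ L, ∀ k, (if onl (z0 l) (u l) P k then ori P else 0)
        * (G (z0 l) (P (k+1)) - G (z0 l) (P (k+2)))
        = - (ori P * (if onl (z0 l) (u l) P k then G (P (k+1)) (P (k+2)) else 0)) := by
      intro l hlL k
      by_cases hk : onl (z0 l) (u l) P k
      · rw [if_pos hk, if_pos hk]
        have hul := hu l hlL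
        have f1 := prm_spec hul hk.1
        have f2 := prm_spec hul hk.2
        have := hG (z0 l) (P (k+1)) (P (k+2)) (by
          rw [f1, f2]
          have a1 : z0 l + (prm (z0 l) (u l) (P (k+1)) : ℂ) * u l - z0 l
            = (prm (z0 l) (u l) (P (k+1)) : ℂ) * u l := by ring
          have a2 : z0 l + (prm (z0 l) (u l) (P (k+2)) : ℂ) * u l - z0 l
            = (prm (z0 l) (u l) (P (k+2)) : ℂ) * u l := by ring
          rw [a1, a2, cr_smul_left, cr_smul_right, cr_self]; ring)
        rw [← this]; ring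
      · rw [if_neg hk, if_neg hk]; ring
    unfold lsum
    rw [Finset.sum_congr rfl (fun l hlL => Finset.sum_congr rfl (fun k _ => e2 l hlL k))]
    rw [Finset.sum_comm]
    simp only [Finset.sum_neg_distrib, neg_neg, ← Finset.mul_sum]
    rw [Finset.sum_congr rfl (fun k _ => by rw [← e1 k])]
    unfold bsum
    rw [Fin.sum_univ_three]
    rfl
  have hQL : ∀ i k, lin2 (Q i (k+1)) (Q i (k+2)) ∈ L := fun i k =>
    Finset.mem_union_left _ (Finset.mem_image.2 ⟨(i, k), Finset.mem_univ _, rfl⟩)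
  have hTL : ∀ k, lin2 (T (k+1)) (T (k+2)) ∈ L := fun k =>
    Finset.mem_union_right _ (Finset.mem_image.2 ⟨k, Finset.mem_univ _, rfl⟩)
  rw [Finset.sum_congr rfl (fun i _ => hdec (Q i) (h.hQ i) (hQL i)), hdec T h.hT hTL,
    Finset.sum_neg_distrib, Finset.sum_comm]
  congr 1
  exact Finset.sum_congr rfl (fun l hlL => h.line_key (hu l hlL) _)

end

end Pool.Agent.Helper27.Sq
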