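import Pool.Agent.Helper27.SqSide
import Pool.Agent.Helper27.SqAlg

/-!
The square-only theorem for triangles with a transcendental side ratio.
-/

open MeasureTheory Set Filter Topology
open scoped ENNReal Real

namespace Pool.Agent.Helper27.Sq

theorem ang_congr {P P' : Fin 3 → ℂ} (h : Congruent P P') (k : Fin 3) : ang P k = ang P' k :=
  EuclideanGeometry.angle_eq_of_congruent h (k+1) k (k+2)

theorem side_congr {P P' : Fin 3 → ℂ} (h : Congruent P P') (k : Fin 3) : side P k = side P' k :=
  h.dist_eq _ _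

theorem ar_congr {P P' : Fin 3 → ℂ} (h : Congruent P P') : ar P = ar P' := by
  rw [ar_eq P 0, ar_eq P' 0, side_congr h, side_congr h, ang_congr h]

theorem ang_sum {P : Fin 3 → ℂ} (hP : AffineIndependent ℝ P) : ang P 0 + ang P 1 + ang P 2 = π := by
  have h01 : P 1 ≠ P 0 := (P_inj hP).ne (by decide)
  have h := EuclideanGeometry.angle_add_angle_add_angle_eq_pi (P 2) h01
  have e1 : EuclideanGeometry.angle (P 0) (P 1) (P 2) = ang P 1 := by
    rw [EuclideanGeometry.angle_comm]; rfl
  have e2 : EuclideanGeometry.angle (P 1) (P 2) (P 0) = ang P 2 := by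
    rw [EuclideanGeometry.angle_comm]; rfl
  have e3 : EuclideanGeometry.angle (P 2) (P 0) (P 1) = ang P 0 := by
    rw [EuclideanGeometry.angle_comm]; rfl
  rw [e1, e2, e3] at h
  linarith

theorem ang_pos {P : Fin 3 → ℂ} (hP : AffineIndependent ℝ P) (k : Fin 3) : 0 < ang P k := by
  rcases (ang_nonneg P k).lt_or_eq with h | h
  · exact h
  · exfalso
    have h1 := ar_eq P k
    rw [← h, Real.sin_zero, mul_zero] at h1
    exact (ar_pos hP).ne' h1

/-- product of the sides -/
noncomputable def pr (P : Fin 3 → ℂ) : ℝ := side P 0 * side P 1 * side P 2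

theorem pr_pos {P : Fin 3 → ℂ} (hP : AffineIndependent ℝ P) : 0 < pr P :=
  mul_pos (mul_pos (side_pos hP 0) (side_pos hP 1)) (side_pos hP 2)

theorem prodR (f : Fin 3 → ℝ) (j : Fin 3) : f 0 * f 1 * f 2 = f j * f (j+1) * f (j+2) := by
  fin_cases j <;> simp <;> ring

theorem prod_perm (f : Fin 3 → ℝ) {k l m : Fin 3} (h1 : k ≠ l) (h2 : l ≠ m) (h3 : k ≠ m) :
    f k * f l * f m = f 0 * f 1 * f 2 := by
  fin_cases k <;> fin_cases l <;> fin_cases m <;>
    first
      | exact absurd rfl h1
      | exact absurd rfl h2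
      | exact absurd rfl h3
      | (simp only [Fin.mk_zero, Fin.mk_one, Fin.reduceFinMk]; ring)
      | simp only [Fin.mk_zero, Fin.mk_one, Fin.reduceFinMk]

theorem sin_ang {P : Fin 3 → ℂ} (hP : AffineIndependent ℝ P) (k : Fin 3) :
    Real.sin (ang P k) = ar P / pr P * side P k := by
  have h1 := ar_eq P k
  have h2 : pr P = side P k * side P (k+1) * side P (k+2) := prodR (side P) k
  have a1 := (side_pos hP k).ne'
  have a2 := (side_pos hP (k+1)).ne'
  have a3 := (side_pos hP (k+2)).ne'
  rw [h2, h1]
  field_simp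

section
variable {T : Fin 3 → ℂ} {n : ℕ} {Q : Fin n → Fin 3 → ℂ}

open Classical in
/-- number of tiles with the vertex `j` at `T k` -/
noncomputable def MM (T : Fin 3 → ℂ) (Q : Fin n → Fin 3 → ℂ) (k j : Fin 3) : ℕ :=
  (Finset.univ.filter fun i => Q i j = T k).card

open Classical in
/-- number of tiles with the edge `j` on the side `k` of `T` -/
noncomputable def DD (hT : AffineIndependent ℝ T) (Q : Fin n → Fin 3 → ℂ) (k j : Fin 3) : ℕ :=
  (Finset.univ.filter fun i => onLine hT k (Q i) j).card

theorem Tiling.angle_sum (h : Tiling T n Q) (i0 : Fin n) (k : Fin 3) :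
    ang T k = MM T Q k 0 * ang (Q i0) 0 + MM T Q k 1 * ang (Q i0) 1
      + MM T Q k 2 * ang (Q i0) 2 := by
  classical
  rw [h.angle_rel k, Finset.sum_comm, ← Fin.sum_univ_three
    (fun j => (MM T Q k j : ℝ) * ang (Q i0) j)]
  refine Finset.sum_congr rfl (fun j _ => ?_)
  rw [← Finset.sum_filter, MM]
  rw [Finset.sum_congr rfl (fun i _ => ang_congr (h.hcong i i0) j), Finset.sum_const, nsmul_eq_mul]

theorem Tiling.side_sum (h : Tiling T n Q) (i0 : Fin n) (k : Fin 3) :
    side T k = DD h.hT Q k 0 * side (Q i0) 0 + DD h.hT Q k 1 * side (Q i0) 1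
      + DD h.hT Q k 2 * side (Q i0) 2 := by
  classical
  have hpos := side_pos h.hT k
  have h1 := h.tr_add k
  have h2 : ∑ i, volume (tr T k (Q i))
      = ENNReal.ofReal (∑ j, (DD h.hT Q k j : ℝ) * (side (Q i0) j / side T k)) := by
    rw [ENNReal.ofReal_sum_of_nonneg (fun j _ => mul_nonneg (by positivity)
      (div_nonneg (side_pos (h.hQ i0) j).le hpos.le))]
    rw [Finset.sum_congr rfl (fun i _ => h.tr_vol k i), Finset.sum_comm]
    refine Finset.sum_congr rfl (fun j _ => ?_)
    rw [← Finset.sum_filter, DD]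
    rw [Finset.sum_congr rfl (fun i _ => by rw [side_congr (h.hcong i i0) j]), Finset.sum_const,
      nsmul_eq_mul, ENNReal.ofReal_mul (by positivity), ENNReal.ofReal_natCast]
  rw [h2, ← ENNReal.ofReal_one, ENNReal.ofReal_eq_ofReal_iff zero_le_one
    (Finset.sum_nonneg fun j _ => mul_nonneg (by positivity)
      (div_nonneg (side_pos (h.hQ i0) j).le hpos.le)), Fin.sum_univ_three] at h1
  have h3 := congrArg (· * side T k) h1
  simp only [one_mul] at h3
  rw [h3]
  field_simp

theorem Tiling.area_sum (h : Tiling T n Q) (i0 : Fin n) : ar T = n * ar (Q i0) := by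
  rw [h.area_rel, Finset.sum_congr rfl (fun i _ => ar_congr (h.hcong i i0)), Finset.sum_const,
    Finset.card_univ, Fintype.card_fin, nsmul_eq_mul]

theorem Tiling.algebraic (h : Tiling T n Q) (hn : ¬ IsSquare n)
    (hsc : Function.Injective (side T)) (k l : Fin 3) : IsAlgebraic ℚ (side T k / side T l) := by
  have hn0 : 0 < n := Nat.pos_of_ne_zero (by rintro rfl; exact hn ⟨0, rfl⟩)
  set i0 : Fin n := ⟨0, hn0⟩
  have hTa := h.hT
  have hPa := h.hQ i0
  have key : ∀ k l, IsAlgebraic ℚ (Real.sin (ang T k) / Real.sin (ang T l)) := by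
    have hc := ar_pos hPa
    have hC := ar_pos hTa
    have hp := pr_pos hPa
    have hpT := pr_pos hTa
    have hS : ∀ k, (DD hTa Q k 0 : ℝ) * Real.sin (ang (Q i0) 0)
        + DD hTa Q k 1 * Real.sin (ang (Q i0) 1) + DD hTa Q k 2 * Real.sin (ang (Q i0) 2)
        = ar (Q i0) / pr (Q i0) * side T k := by
      intro k
      rw [sin_ang hPa, sin_ang hPa, sin_ang hPa, h.side_sum i0 k]
      ring
    refine alg_main (ang (Q i0)) (ang T) (ang_pos hPa) (ang_sum hPa) (ang_pos hTa) (ang_sum hTa)
      (MM T Q) (DD hTa Q) (h.angle_sum i0) (fun k => ar (Q i0) / pr (Q i0) * side T k)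
      (fun k => (hS k).symm) ?_ n hn ?_ ?_
    · intro k l
      rw [sin_ang hTa, sin_ang hTa]
      ring
    · intro k l m h1 h2 h3
      have hprod : side T k * side T l * side T m = pr T := by
        unfold pr
        exact prod_perm (side T) h1 h2 h3
      have e1 : ar (Q i0) / pr (Q i0) * side T k * (ar (Q i0) / pr (Q i0) * side T l)
          * Real.sin (ang T m)
          = (ar (Q i0) / pr (Q i0))^2 * (ar T / pr T) * (side T k * side T l * side T m) := by
        rw [sin_ang hTa]; ring
      have e2 : Real.sin (ang (Q i0) 0) * Real.sin (ang (Q i0) 1) * Real.sin (ang (Q i0) 2)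
          = (ar (Q i0) / pr (Q i0))^3 * pr (Q i0) := by
        rw [sin_ang hPa, sin_ang hPa, sin_ang hPa]; unfold pr; ring
      rw [e1, e2, hprod, h.area_sum i0]
      field_simp
    · intro k l hkl
      apply hsc
      have h1 := sin_ang hTa k
      have h2 := sin_ang hTa l
      rw [hkl] at h1
      rw [h1] at h2
      exact mul_left_cancel₀ (div_pos hC hpT).ne' h2
  have := key k l
  rw [sin_ang hTa, sin_ang hTa] at this
  have hq : ar T / pr T ≠ 0 := (div_pos (ar_pos hTa) (pr_pos hTa)).ne'
  rwa [mul_div_mul_left _ _ hq] at this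

end

section transfer
variable {V W : Type*} [NormedAddCommGroup V] [InnerProductSpace ℝ V] [NormedAddCommGroup W]
  [InnerProductSpace ℝ W]

theorem tri_image (e : V ≃ₗᵢ[ℝ] W) (P : Fin 3 → V) : tri (e ∘ P) = e '' tri P := by
  unfold tri
  rw [range_comp]
  exact (e.toLinearEquiv.toLinearMap.image_convexHull (range P)).symm

theorem CanCut.map {T : Fin 3 → V} {n : ℕ} (h : CanCut T n) (e : V ≃ₗᵢ[ℝ] W) :
    CanCut (e ∘ T) n := by
  obtain ⟨Q, h1, h2, h3, h4⟩ := h
  refine ⟨fun i => e ∘ Q i, ?_, ?_, ?_, ?_⟩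
  · intro i
    exact (h1 i).map' e.toLinearEquiv.toLinearMap.toAffineMap e.injective
  · intro i j a b
    simp only [Function.comp_apply, e.isometry.edist_eq]
    exact h2 i j a b
  · simp only [tri_image]
    rw [← image_iUnion, h3]
  · intro i j hij
    have h5 := h4 hij
    simp only [tri_image] at h5 ⊢
    have h6 : ∀ S : Set V, interior (e '' S) = e '' interior S := fun S =>
      (e.toHomeomorph.image_interior S).symm
    rw [h6, h6]
    exact (disjoint_image_iff e.injective).2 h5

theorem side_map (e : V ≃ₗᵢ[ℝ] W) (P : Fin 3 → V) (k : Fin 3) : side (e ∘ P) k = side P k :=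
  e.isometry.dist_eq _ _

end transfer

theorem ai_iff {V : Type*} [NormedAddCommGroup V] [NormedSpace ℝ V] (P : Fin 3 → V) :
    AffineIndependent ℝ P ↔ ∀ a b c : ℝ, a + b + c = 0 → a • P 0 + b • P 1 + c • P 2 = 0 →
      a = 0 ∧ b = 0 ∧ c = 0 := by
  rw [affineIndependent_iff_of_fintype]
  constructor
  · intro h a b c h1 h2
    have := h ![a, b, c] (by simpa [Fin.sum_univ_three] using h1) (by
      rw [Finset.weightedVSub_eq_linear_combination (s := Finset.univ)
        (by simpa [Fin.sum_univ_three] using h1)]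
      simpa [Fin.sum_univ_three] using h2)
    exact ⟨this 0, this 1, this 2⟩
  · intro h w h1 h2
    rw [Finset.weightedVSub_eq_linear_combination (s := Finset.univ) h1, Fin.sum_univ_three] at h2
    rw [Fin.sum_univ_three] at h1
    obtain ⟨a, b, c⟩ := h (w 0) (w 1) (w 2) h1 h2
    intro i
    fin_cases i
    · exact a
    · exact b
    · exact c

theorem mem_tri {V : Type*} [NormedAddCommGroup V] [NormedSpace ℝ V] (P : Fin 3 → V) {a b c : ℝ}
    (ha : 0 ≤ a) (hb : 0 ≤ b) (hc : 0 ≤ c) (h : a + b + c = 1) :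
    a • P 0 + b • P 1 + c • P 2 ∈ tri P := by
  have := (convex_convexHull ℝ (range P)).sum_mem (t := Finset.univ) (w := ![a, b, c]) (z := P)
    (by intro i _; fin_cases i; exacts [ha, hb, hc]) (by simpa [Fin.sum_univ_three] using h)
    (fun i _ => subset_convexHull ℝ _ (mem_range_self i))
  unfold tri
  simpa [Fin.sum_univ_three] using this

/-- an isosceles triangle can be cut into two congruent triangles -/
theorem iso_cut (T : Fin 3 → ℂ) (hT : AffineIndependent ℝ T) (m : Fin 3)
    (h : side T (m+1) = side T (m+2)) : CanCut T 2 := by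
  have hdist : dist (T m) (T (m+1)) = dist (T m) (T (m+2)) := by
    unfold side at h
    rw [f3s3, f3s4, f3s1, f3s2] at h
    rw [← h, dist_comm]
  set N : ℂ := (1/2 : ℝ) • T (m+1) + (1/2 : ℝ) • T (m+2) with hN
  have hai : ∀ k l : Fin 3, (k = m+1 ∧ l = m+2) ∨ (k = m+2 ∧ l = m+1) →
      AffineIndependent ℝ ![N, T m, T k] := by
    intro k l hkl
    have hNk : N = (1/2 : ℝ) • T k + (1/2 : ℝ) • T l := by
      rcases hkl with ⟨rfl, rfl⟩ | ⟨rfl, rfl⟩
      · rfl
      · rw [hN, add_comm]
    have hgen := (ai_iff T).1 hT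
    rw [ai_iff]
    intro a b c h1 h2
    simp only [Matrix.cons_val_zero, Matrix.cons_val_one, Matrix.cons_val] at h2
    have hcomb : b • T m + (a/2 + c) • T k + (a/2) • T l = 0 := by
      rw [← h2, hNk]
      simp only [Complex.real_smul]; push_cast; ring
    have hz : b = 0 ∧ a/2 + c = 0 ∧ a/2 = 0 := by
      have hw := hgen (if (0:Fin 3) = m then b else if (0:Fin 3) = k then a/2 + c else a/2)
        (if (1:Fin 3) = m then b else if (1:Fin 3) = k then a/2 + c else a/2)
        (if (2:Fin 3) = m then b else if (2:Fin 3) = k then a/2 + c else a/2)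
      rcases hkl with ⟨rfl, rfl⟩ | ⟨rfl, rfl⟩
      · fin_cases m
        · simp at hw hcomb
          have := hw (by linarith) (by rw [← hcomb])
          exact ⟨this.1, this.2.1, by linarith [this.2.2]⟩
        · simp at hw hcomb
          have := hw (by linarith) (by rw [← hcomb]; ring)
          exact ⟨this.2.1, this.2.2, by linarith [this.1]⟩
        · simp at hw hcomb
          have := hw (by linarith) (by rw [← hcomb]; ring)
          exact ⟨this.2.2, this.1, by linarith [this.2.1]⟩
      · fin_cases m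
        · simp at hw hcomb
          have := hw (by linarith) (by rw [← hcomb]; ring)
          exact ⟨this.1, this.2.2, by linarith [this.2.1]⟩
        · simp at hw hcomb
          have := hw (by linarith) (by rw [← hcomb]; ring)
          exact ⟨this.2.1, this.1, by linarith [this.2.2]⟩
        · simp at hw hcomb
          have := hw (by linarith) (by rw [← hcomb]; ring)
          exact ⟨this.2.2, this.2.1, by linarith [this.1]⟩
    exact ⟨by linarith [hz.2.2], hz.1, by linarith [hz.2.1, hz.2.2]⟩
  have hA0 := hai (m+1) (m+2) (Or.inl ⟨rfl, rfl⟩)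
  have hA1 := hai (m+2) (m+1) (Or.inr ⟨rfl, rfl⟩)
  have hNm : N ∈ tri T := by
    rw [hN]
    exact tri_convex (P_mem _) (P_mem _) (by norm_num) (by norm_num) (by norm_num)
  -- distances
  have hd1 : dist N (T (m+1)) = dist N (T (m+2)) := by
    rw [dist_eq_norm, dist_eq_norm]
    have e1 : N - T (m+1) = -(N - T (m+2)) := by
      rw [hN]; simp only [Complex.real_smul]; push_cast; ring
    rw [e1, norm_neg]
  have hcong : Congruent ![N, T m, T (m+1)] ![N, T m, T (m+2)] := by
    refine EuclideanGeometry.side_side_side rfl hdist ?_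
    rw [dist_comm _ N, dist_comm _ N]; exact hd1
  refine ⟨![![N, T m, T (m+1)], ![N, T m, T (m+2)]], ?_, ?_, ?_, ?_⟩
  · intro i; fin_cases i
    · exact hA0
    · exact hA1
  · intro i j; fin_cases i <;> fin_cases j
    · exact Congruent.refl _
    · exact hcong
    · exact hcong.symm
    · exact Congruent.refl _
  · apply Subset.antisymm
    · apply iUnion_subset
      intro i
      unfold tri
      apply convexHull_min _ (convex_convexHull ℝ _)
      rintro _ ⟨j, rfl⟩
      fin_cases i <;> fin_cases j
      · exact hNm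
      · exact P_mem m
      · exact P_mem _
      · exact hNm
      · exact P_mem m
      · exact P_mem _
    · intro x hx
      have hc : ∀ l, 0 ≤ co hT l x := by rw [tri_eq hT] at hx; exact hx
      have hs := co_sum hT x
      rw [sumR (fun l => co hT l x) m] at hs
      have hr := co_rep hT x
      rw [sumC (fun l => co hT l x • T l) m] at hr
      rw [mem_iUnion]
      rcases le_total (co hT (m+2) x) (co hT (m+1) x) with hle | hle
      · refine ⟨0, ?_⟩
        have := mem_tri ![N, T m, T (m+1)] (a := 2 * co hT (m+2) x) (b := co hT m x)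
          (c := co hT (m+1) x - co hT (m+2) x) (by have := hc (m+2); linarith) (hc m)
          (by linarith) (by linarith)
        convert this using 1
        simp only [Matrix.cons_val_zero, Matrix.cons_val_one, Matrix.cons_val]
        rw [hN]
        simp only [Complex.real_smul] at hr ⊢
        push_cast
        linear_combination hr
      · refine ⟨1, ?_⟩
        have := mem_tri ![N, T m, T (m+2)] (a := 2 * co hT (m+1) x) (b := co hT m x)
          (c := co hT (m+2) x - co hT (m+1) x) (by have := hc (m+1); linarith) (hc m)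
          (by linarith) (by linarith)
        convert this using 1
        simp only [Matrix.cons_val_zero, Matrix.cons_val_one, Matrix.cons_val]
        rw [hN]
        simp only [Complex.real_smul] at hr ⊢
        push_cast
        linear_combination hr
  · -- disjointness
    have hf : ∀ k : Fin 3, k = m + 1 ∨ k = m + 2 → ∀ hA : AffineIndependent ℝ ![N, T m, T k],
        ∀ x ∈ interior (tri ![N, T m, T k]),
        0 < co hA 2 x ∧ co hT (m+1) x - co hT (m+2) x
          = co hA 2 x * (co hT (m+1) (T k) - co hT (m+2) (T k)) := by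
      intro k _ hA x hx
      rw [int_eq hA] at hx
      refine ⟨hx 2, ?_⟩
      have e1 := aff_co hA (co hT (m+1)) x
      have e2 := aff_co hA (co hT (m+2)) x
      have e3 : ∀ f : ℂ →ᵃ[ℝ] ℝ, f N = (1/2) * f (T (m+1)) + (1/2) * f (T (m+2)) := by
        intro f
        have := aff_comb f (T (m+1)) (T (m+2)) (T (m+2)) (1/2) 0
        rw [Complex.ofReal_zero, zero_mul, add_zero, zero_mul, add_zero] at this
        have e4 : T (m+1) + ((1/2 : ℝ) : ℂ) * (T (m+2) - T (m+1)) = N := by
          rw [hN]; simp only [Complex.real_smul]; push_cast; ring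
        rw [e4] at this
        rw [this]; ring
      simp only [Matrix.cons_val_zero, Matrix.cons_val_one, Matrix.cons_val] at e1 e2
      rw [e3, co_self, co_ne hT (f3c m), co_ne hT (f3a m).symm] at e1
      rw [e3, co_self, co_ne hT (f3c m).symm, co_ne hT (f3b m).symm] at e2
      rw [e1, e2]; ring
    have hdis : Disjoint (interior (tri ![N, T m, T (m+1)])) (interior (tri ![N, T m, T (m+2)])) := by
      rw [Set.disjoint_left]
      intro x hx1 hx2
      obtain ⟨p1, q1⟩ := hf (m+1) (Or.inl rfl) hA0 x hx1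
      obtain ⟨p2, q2⟩ := hf (m+2) (Or.inr rfl) hA1 x hx2
      rw [co_self, co_ne hT (f3c m).symm] at q1
      rw [co_self, co_ne hT (f3c m)] at q2
      linarith
    intro i j hij
    fin_cases i <;> fin_cases j
    · exact absurd rfl hij
    · exact hdis
    · exact hdis.symm
    · exact absurd rfl hij

/-- the Euclidean plane -/
abbrev Plane := EuclideanSpace ℝ (Fin 2)

theorem not_sq_two : ¬ IsSquare (2:ℕ) := by
  rintro ⟨r, hr⟩
  have h1 : r < 2 := by nlinarith
  interval_cases r <;> omega

theorem inj_iff (f : Fin 3 → ℝ) : Function.Injective f ↔ (f 0 ≠ f 1 ∧ f 1 ≠ f 2 ∧ f 2 ≠ f 0) := by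
  constructor
  · intro h
    exact ⟨h.ne (by decide), h.ne (by decide), h.ne (by decide)⟩
  · rintro ⟨h1, h2, h3⟩ k l hkl
    by_contra hne
    fin_cases k <;> fin_cases l <;> simp at hne hkl <;>
      first | exact h1 hkl | exact h1 hkl.symm | exact h2 hkl | exact h2 hkl.symm
            | exact h3 hkl | exact h3 hkl.symm

/-- a scalene triangle that is not square-only has algebraic side ratios -/
theorem algebraic_of_cut (T : Fin 3 → Plane) (hT : AffineIndependent ℝ T) {n : ℕ}
    (hc : CanCut T n) (hn : ¬ IsSquare n) (hsc : Function.Injective (side T)) (k l : Fin 3) :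
    IsAlgebraic ℚ (side T k / side T l) := by
  set e : Plane ≃ₗᵢ[ℝ] ℂ := Complex.orthonormalBasisOneI.repr.symm
  obtain ⟨Q, h1, h2, h3, h4⟩ := hc.map e
  have hT' : AffineIndependent ℝ (e ∘ T) :=
    hT.map' e.toLinearEquiv.toLinearMap.toAffineMap e.injective
  have h : Tiling (e ∘ T) n Q := ⟨hT', h1, h2, h3, h4⟩
  have hs : ∀ k, side (e ∘ T) k = side T k := side_map e T
  have := h.algebraic hn (by
    intro a b hab
    rw [hs, hs] at hab
    exact hsc hab) k l
  rwa [hs, hs] at this

theorem not_squareOnly_of_iso (T : Fin 3 → Plane) (hT : AffineIndependent ℝ T) (m : Fin 3)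
    (h : side T (m+1) = side T (m+2)) : ¬ SquareOnly T := by
  intro hsq
  set e : Plane ≃ₗᵢ[ℝ] ℂ := Complex.orthonormalBasisOneI.repr.symm
  have hT' : AffineIndependent ℝ (e ∘ T) :=
    hT.map' e.toLinearEquiv.toLinearMap.toAffineMap e.injective
  have h1 := (iso_cut (e ∘ T) hT' m (by rw [side_map, side_map]; exact h)).map e.symm
  have h2 : e.symm ∘ (e ∘ T) = T := by
    funext k; simp
  rw [h2] at h1
  exact not_sq_two (hsq 2 h1)

/-- **main theorem** -/
theorem squareOnly_iff (T : Fin 3 → Plane) (hT : AffineIndependent ℝ T)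
    (htr : ∃ k l : Fin 3, Transcendental ℚ (side T k / side T l)) :
    SquareOnly T ↔ side T 0 ≠ side T 1 ∧ side T 1 ≠ side T 2 ∧ side T 2 ≠ side T 0 := by
  constructor
  · intro h
    refine ⟨fun h0 => ?_, fun h0 => ?_, fun h0 => ?_⟩
    · exact not_squareOnly_of_iso T hT 2 h0 h
    · exact not_squareOnly_of_iso T hT 0 h0 h
    · exact not_squareOnly_of_iso T hT 1 h0 h
  · intro h n hc
    by_contra hn
    obtain ⟨k, l, hkl⟩ := htr
    exact hkl (algebraic_of_cut T hT hc hn ((inj_iff _).2 h) k l)

/-- outside a countable set of similarity classes, scalene triangles are square-only -/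
theorem countable_exceptions : {p : ℝ × ℝ | ∃ T : Fin 3 → Plane, AffineIndependent ℝ T ∧
    (side T 0 ≠ side T 1 ∧ side T 1 ≠ side T 2 ∧ side T 2 ≠ side T 0) ∧ ¬ SquareOnly T ∧
    p = (side T 1 / side T 0, side T 2 / side T 0)}.Countable := by
  have h1 : ({x : ℝ | IsAlgebraic ℚ x} ×ˢ {x : ℝ | IsAlgebraic ℚ x}).Countable :=
    (Algebraic.countable ℚ ℝ).prod (Algebraic.countable ℚ ℝ)
  refine h1.mono ?_
  rintro p ⟨T, hT, hsc, hns, rfl⟩
  have hall : ∀ k l : Fin 3, IsAlgebraic ℚ (side T k / side T l) := by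
    intro k l
    by_contra hkl
    exact hns ((squareOnly_iff T hT ⟨k, l, hkl⟩).2 hsc)
  exact ⟨hall 1 0, hall 2 0⟩

end Pool.Agent.Helper27.Sq
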