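import Pool.Agent.Helper27.SqCol

/-!
Ray casting: crossing numbers of triangles.
-/

open MeasureTheory Set Complex Filter Topology
open scoped ENNReal Real

namespace Pool.Agent.Helper27.Sq

open Classical in
/-- signed crossing of the segment from `a` to `b` with the positive real half line -/
noncomputable def cx (a b : ℂ) : ℝ :=
  if 0 < cr a b * (b.im - a.im) then
    (if 0 < b.im then 1 else 0) - (if 0 < a.im then 1 else 0) else 0

theorem cx_self (a : ℂ) : cx a a = 0 := by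
  unfold cx; rw [sub_self, mul_zero, if_neg (lt_irrefl _)]

theorem cx_add {a b c : ℂ} (h : cr (b - a) (c - a) = 0) : cx a b + cx b c = cx a c := by
  -- a direction
  obtain ⟨v, s, r, hb, hc⟩ : ∃ (v : ℂ) (s r : ℝ), b - a = (s:ℂ) * v ∧ c - a = (r:ℂ) * v := by
    by_cases hba : b - a = 0
    · exact ⟨c - a, 0, 1, by rw [hba]; simp, by simp⟩
    · exact ⟨b - a, 1, _, by simp, par_of_cr hba h⟩
  have hb' : b = a + (s:ℂ) * v := by rw [← hb]; ring
  have hc' : c = a + (r:ℂ) * v := by rw [← hc]; ring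
  have i1 : b.im - a.im = s * v.im := by rw [hb']; simp
  have i2 : c.im - a.im = r * v.im := by rw [hc']; simp
  have i3 : c.im - b.im = (r - s) * v.im := by linarith
  have c1 : cr a b = s * cr a v := by rw [hb', cr_add_right, cr_self, cr_smul_right]; ring
  have c2 : cr a c = r * cr a v := by rw [hc', cr_add_right, cr_self, cr_smul_right]; ring
  have c3 : cr b c = (r - s) * cr a v := by
    rw [hb', hc', cr_add_right, cr_add_left, cr_add_left, cr_self, cr_smul_left, cr_smul_left,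
      cr_smul_right, cr_smul_right, cr_self, cr_swap v a]; ring
  set k := cr a v * v.im with hk
  have p1 : cr a b * (b.im - a.im) = s^2 * k := by rw [c1, i1, hk]; ring
  have p2 : cr a c * (c.im - a.im) = r^2 * k := by rw [c2, i2, hk]; ring
  have p3 : cr b c * (c.im - b.im) = (r - s)^2 * k := by rw [c3, i3, hk]; ring
  unfold cx
  rw [p1, p2, p3]
  by_cases hk0 : 0 < k
  · have gen : ∀ x y : ℂ, ∀ q : ℝ, y.im - x.im = q * v.im →
        (if 0 < q^2 * k then ((if 0 < y.im then (1:ℝ) else 0) - (if 0 < x.im then 1 else 0)) else 0)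
        = (if 0 < y.im then (1:ℝ) else 0) - (if 0 < x.im then 1 else 0) := by
      intro x y q hq
      by_cases hq0 : q = 0
      · subst hq0
        have : y.im = x.im := by linarith
        rw [this]; simp
      · rw [if_pos (by positivity)]
    rw [gen a b s i1, gen a c r i2, gen b c (r - s) i3]
    ring
  · have gen : ∀ q : ℝ, ¬ 0 < q^2 * k := fun q =>
      not_lt.2 (mul_nonpos_of_nonneg_of_nonpos (sq_nonneg q) (not_lt.1 hk0))
    rw [if_neg (gen _), if_neg (gen _), if_neg (gen _)]; ring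

theorem cx_sum_aux {m y1 y2 : ℝ} (h1 : y1 ≠ 0) (h2 : y2 ≠ 0) :
    (if 0 < m * (y2 - y1) then ((if 0 < y2 then (1:ℝ) else 0) - (if 0 < y1 then 1 else 0)) else 0)
    = (if 0 < y2 ∧ y1 < 0 ∧ 0 < m then (1:ℝ) else 0) - (if y2 < 0 ∧ 0 < y1 ∧ m < 0 then 1 else 0) := by
  rcases lt_or_gt_of_ne h1 with a1 | a1 <;> rcases lt_or_gt_of_ne h2 with a2 | a2
  · simp [not_lt.2 a1.le, not_lt.2 a2.le]
  · have e : (0 < m * (y2 - y1)) ↔ 0 < m := mul_pos_iff_of_pos_right (by linarith)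
    simp [e, a1, a2, not_lt.2 a1.le, not_lt.2 a2.le]
  · have e : (0 < m * (y2 - y1)) ↔ m < 0 := by
      constructor
      · intro h; by_contra hc; push Not at hc; nlinarith
      · intro h; exact mul_pos_of_neg_of_neg h (by linarith)
    by_cases hm : m < 0 <;> simp [e, a1, a2, hm, not_lt.2 a1.le, not_lt.2 a2.le]
  · simp [a1, a2, not_lt.2 a1.le, not_lt.2 a2.le]

theorem cx_tri_aux {m0 m1 m2 y0 y1 y2 : ℝ} (hm0 : m0 ≠ 0) (hm1 : m1 ≠ 0) (hm2 : m2 ≠ 0)
    (hy0 : y0 ≠ 0) (hy1 : y1 ≠ 0) (hy2 : y2 ≠ 0) (h : m0 * y0 + m1 * y1 + m2 * y2 = 0) :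
    ((if 0 < y2 ∧ y1 < 0 ∧ 0 < m0 then (1:ℝ) else 0) - (if y2 < 0 ∧ 0 < y1 ∧ m0 < 0 then 1 else 0))
    + ((if 0 < y0 ∧ y2 < 0 ∧ 0 < m1 then (1:ℝ) else 0) - (if y0 < 0 ∧ 0 < y2 ∧ m1 < 0 then 1 else 0))
    + ((if 0 < y1 ∧ y0 < 0 ∧ 0 < m2 then (1:ℝ) else 0) - (if y1 < 0 ∧ 0 < y0 ∧ m2 < 0 then 1 else 0))
    = (if 0 < m0 ∧ 0 < m1 ∧ 0 < m2 then (1:ℝ) else 0) - (if m0 < 0 ∧ m1 < 0 ∧ m2 < 0 then 1 else 0) := by
  rcases lt_or_gt_of_ne hm0 with a0 | a0 <;> rcases lt_or_gt_of_ne hm1 with a1 | a1 <;>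
  rcases lt_or_gt_of_ne hm2 with a2 | a2 <;> rcases lt_or_gt_of_ne hy0 with b0 | b0 <;>
  rcases lt_or_gt_of_ne hy1 with b1 | b1 <;> rcases lt_or_gt_of_ne hy2 with b2 | b2 <;>
  first
    | (simp [a0, a1, a2, b0, b1, b2, not_lt.2 a0.le, not_lt.2 a1.le, not_lt.2 a2.le,
        not_lt.2 b0.le, not_lt.2 b1.le, not_lt.2 b2.le]; done)
    | (exfalso
       have := mul_pos_of_neg_of_neg a0 b0
       have := mul_pos_of_neg_of_neg a1 b1
       have := mul_pos_of_neg_of_neg a2 b2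
       linarith)
    | (exfalso
       nlinarith [mul_pos_iff.2 (Or.inl ⟨a0, b0⟩), mul_pos_iff.2 (Or.inl ⟨a1, b1⟩),
        mul_pos_iff.2 (Or.inl ⟨a2, b2⟩)])
    | (exfalso
       nlinarith)


section
variable {P : Fin 3 → ℂ} (hP : AffineIndependent ℝ P)

include hP in
theorem cr_vertices (k : Fin 3) (x : ℂ) :
    cr (P (k+1) - x) (P (k+2) - x) = co hP k x * DA P := by
  rw [co_cr, div_mul_cancel₀ _ (DA_ne hP)]
  unfold cr
  simp
  ring

open Classical in
include hP in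
theorem cx_tri {x : ℂ} (h1 : ∀ k, (P k - x).im ≠ 0) (h2 : ∀ k, co hP k x ≠ 0) :
    cx (P 1 - x) (P 2 - x) + cx (P 2 - x) (P 0 - x) + cx (P 0 - x) (P 1 - x)
      = ori P * (if x ∈ interior (tri P) then 1 else 0) := by
  have hD := DA_ne hP
  set m0 := cr (P 1 - x) (P 2 - x) with hm0
  set m1 := cr (P 2 - x) (P 0 - x) with hm1
  set m2 := cr (P 0 - x) (P 1 - x) with hm2
  have e0 : m0 = co hP 0 x * DA P := cr_vertices hP 0 x
  have e1 : m1 = co hP 1 x * DA P := cr_vertices hP 1 x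
  have e2 : m2 = co hP 2 x * DA P := cr_vertices hP 2 x
  have n0 : m0 ≠ 0 := by rw [e0]; exact mul_ne_zero (h2 0) hD
  have n1 : m1 ≠ 0 := by rw [e1]; exact mul_ne_zero (h2 1) hD
  have n2 : m2 ≠ 0 := by rw [e2]; exact mul_ne_zero (h2 2) hD
  have hid : m0 * (P 0 - x).im + m1 * (P 1 - x).im + m2 * (P 2 - x).im = 0 := by
    rw [hm0, hm1, hm2]; unfold cr; ring
  have hmain : cx (P 1 - x) (P 2 - x) + cx (P 2 - x) (P 0 - x) + cx (P 0 - x) (P 1 - x)
      = (if 0 < m0 ∧ 0 < m1 ∧ 0 < m2 then (1:ℝ) else 0)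
        - (if m0 < 0 ∧ m1 < 0 ∧ m2 < 0 then 1 else 0) := by
    rw [← cx_tri_aux n0 n1 n2 (h1 0) (h1 1) (h1 2) hid]
    unfold cx
    rw [← hm0, ← hm1, ← hm2, cx_sum_aux (h1 1) (h1 2), cx_sum_aux (h1 2) (h1 0),
      cx_sum_aux (h1 0) (h1 1)]
  rw [hmain]
  have hsum := co_sum hP x
  have hint : x ∈ interior (tri P) ↔ 0 < co hP 0 x ∧ 0 < co hP 1 x ∧ 0 < co hP 2 x := by
    rw [int_eq hP]
    constructor
    · intro h; exact ⟨h 0, h 1, h 2⟩
    · rintro ⟨a, b, c⟩ i
      fin_cases i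
      · exact a
      · exact b
      · exact c
  rw [if_congr hint rfl rfl]
  unfold ori
  rcases lt_or_gt_of_ne hD with hneg | hpos
  · rw [if_neg (not_lt.2 hneg.le)]
    have q : ∀ y : ℝ, (0 < y * DA P ↔ y < 0) ∧ (y * DA P < 0 ↔ 0 < y) := by
      intro y
      constructor
      · constructor
        · intro h; by_contra hc; push Not at hc; nlinarith
        · intro h; exact mul_pos_of_neg_of_neg h hneg
      · constructor
        · intro h; by_contra hc; push Not at hc; nlinarith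
        · intro h; exact mul_neg_of_pos_of_neg h hneg
    rw [e0, e1, e2]
    simp only [(q _).1, (q _).2]
    have hno : ¬ (co hP 0 x < 0 ∧ co hP 1 x < 0 ∧ co hP 2 x < 0) := by
      rintro ⟨a, b, c⟩; linarith
    rw [if_neg hno]; ring
  · rw [if_pos hpos]
    have q : ∀ y : ℝ, (0 < y * DA P ↔ 0 < y) ∧ (y * DA P < 0 ↔ y < 0) := by
      intro y
      constructor
      · exact mul_pos_iff_of_pos_right hpos
      · constructor
        · intro h; by_contra hc; push Not at hc; nlinarith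
        · intro h; exact mul_neg_of_neg_of_pos h hpos
    rw [e0, e1, e2]
    simp only [(q _).1, (q _).2]
    have hno : ¬ (co hP 0 x < 0 ∧ co hP 1 x < 0 ∧ co hP 2 x < 0) := by
      rintro ⟨a, b, c⟩; linarith
    rw [if_neg hno]; ring

end

/-- lines have measure zero -/
theorem line_null (u p : ℂ) (hu : u ≠ 0) : ∀ᵐ x : ℂ, cr u (x - p) ≠ 0 := by
  have hconv : Convex ℝ {x : ℂ | 0 ≤ cr u (x - p)} := by
    intro x hx y hy a b ha hb hab
    have e : cr u (a • x + b • y - p) = a * cr u (x - p) + b * cr u (y - p) := by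
      have hp : p = (a:ℂ) * p + (b:ℂ) * p := by
        rw [← add_mul, ← ofReal_add, hab]; simp
      have : a • x + b • y - p = (a:ℂ) * (x - p) + (b:ℂ) * (y - p) := by
        simp only [Complex.real_smul]
        linear_combination -hp
      rw [this, cr_add_right, cr_smul_right, cr_smul_right]
    change 0 ≤ cr u (a • x + b • y - p)
    rw [e]
    exact add_nonneg (mul_nonneg ha hx) (mul_nonneg hb hy)
  have hnull := hconv.addHaar_frontier volume
  have hsub : {x : ℂ | ¬ cr u (x - p) ≠ 0} ⊆ frontier {x : ℂ | 0 ≤ cr u (x - p)} := by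
    intro x hx
    simp only [ne_eq, not_not, mem_ofPred_eq] at hx
    refine ⟨subset_closure (by change 0 ≤ cr u (x - p); rw [hx]), ?_⟩
    intro hint
    have hcont : Continuous fun ε : ℝ => x + (ε:ℂ) * (-(I * u)) := by fun_prop
    have h0 : x + ((0:ℝ):ℂ) * (-(I * u)) ∈ interior {x : ℂ | 0 ≤ cr u (x - p)} := by simpa using hint
    have hev : ∀ᶠ ε : ℝ in 𝓝 (0:ℝ), x + (ε:ℂ) * (-(I * u)) ∈ interior {x : ℂ | 0 ≤ cr u (x - p)} :=
      (hcont.tendsto 0).eventually (isOpen_interior.mem_nhds h0)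
    have hev1 : ∀ᶠ ε : ℝ in 𝓝[>] (0:ℝ), x + (ε:ℂ) * (-(I * u)) ∈ interior {x : ℂ | 0 ≤ cr u (x - p)} :=
      nhdsWithin_le_nhds hev
    have hev2 : ∀ᶠ ε : ℝ in 𝓝[>] (0:ℝ), 0 < ε := self_mem_nhdsWithin
    obtain ⟨ε, h3, h4⟩ := (hev1.and hev2).exists
    have h5 := interior_subset h3
    have h6 : cr u (x + (ε:ℂ) * (-(I * u)) - p) = - ε * ‖u‖^2 := by
      have : x + (ε:ℂ) * (-(I * u)) - p = (x - p) + (ε:ℂ) * (-(I * u)) := by ring
      rw [this, cr_add_right, cr_smul_right, cr_neg_right, cr_I, hx]; ring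
    change 0 ≤ cr u (x + (ε:ℂ) * (-(I * u)) - p) at h5
    rw [h6] at h5
    have : 0 < ‖u‖^2 := pow_pos (norm_pos_iff.2 hu) 2
    nlinarith
  exact measure_mono_null hsub hnull

theorem gen_ae {P : Fin 3 → ℂ} (hP : AffineIndependent ℝ P) :
    ∀ᵐ x : ℂ, (∀ k, (P k - x).im ≠ 0) ∧ (∀ k, co hP k x ≠ 0) := by
  have h1 : ∀ k, ∀ᵐ x : ℂ, (P k - x).im ≠ 0 := by
    intro k
    filter_upwards [line_null 1 (P k) one_ne_zero] with x hx hx2
    apply hx
    unfold cr
    simp at hx2 ⊢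
    linarith
  have h2 : ∀ k, ∀ᵐ x : ℂ, co hP k x ≠ 0 := by
    intro k
    filter_upwards [line_null (P (k+2) - P (k+1)) (P (k+1))
      (sub_ne_zero.2 ((P_inj hP).ne (f3c k).symm))] with x hx
    rw [co_cr]
    exact div_ne_zero hx (DA_ne hP)
  filter_upwards [ae_all_iff.2 h1, ae_all_iff.2 h2] with x hx1 hx2
  exact ⟨hx1, hx2⟩

section
variable {T : Fin 3 → ℂ} {n : ℕ} {Q : Fin n → Fin 3 → ℂ}

open Classical in
/-- crossing function of the image of a segment with a good direction -/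
noncomputable def GG (Φ : ℂ →+ ℂ) (Gd : ℂ → Prop) (x p q : ℂ) : ℝ :=
  if Gd (q - p) then cx (Φ p - x) (Φ q - x) else 0

theorem GG_self (Φ : ℂ →+ ℂ) (Gd : ℂ → Prop) (x p : ℂ) : GG Φ Gd x p p = 0 := by
  unfold GG; rw [cx_self]; simp

theorem Tiling.ray (h : Tiling T n Q) (Φ : ℂ →+ ℂ) (Gd : ℂ → Prop)
    (hG : ∀ z, Gd z → ∀ r : ℝ, Gd ((r:ℂ) * z))
    (hΦ : ∀ z, Gd z → ∀ r : ℝ, cr (Φ z) (Φ ((r:ℂ) * z)) = 0) (x : ℂ) :
    ∑ i, bsum (GG Φ Gd x) (Q i) = bsum (GG Φ Gd x) T := by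
  apply h.key
  intro p q r hpqr
  by_cases hqp : q = p
  · subst hqp
    rw [GG_self, zero_add]
  · have hqp' : q - p ≠ 0 := sub_ne_zero.2 hqp
    have hpar := par_of_cr hqp' hpqr
    set s := ((r - p) / (q - p)).re with hs
    have hrq : r - q = ((s - 1 : ℝ) : ℂ) * (q - p) := by
      have : r - q = (r - p) - (q - p) := by ring
      rw [this, hpar]; push_cast; ring
    by_cases hgd : Gd (q - p)
    · have g1 : Gd (r - p) := by rw [hpar]; exact hG _ hgd s
      have g2 : Gd (r - q) := by rw [hrq]; exact hG _ hgd _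
      unfold GG
      rw [if_pos hgd, if_pos g1, if_pos g2]
      apply cx_add
      have e1 : Φ q - x - (Φ p - x) = Φ (q - p) := by rw [map_sub]; ring
      have e2 : Φ r - x - (Φ p - x) = Φ (r - p) := by rw [map_sub]; ring
      rw [e1, e2, hpar]
      exact hΦ _ hgd s
    · have f1 : GG Φ Gd x p q = 0 := by unfold GG; rw [if_neg hgd]
      have f2 : GG Φ Gd x p r = 0 := by
        by_cases hs0 : s = 0
        · have : r = p := by
            rw [hs0] at hpar
            have : r - p = 0 := by rw [hpar]; simp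
            exact sub_eq_zero.1 this
          rw [this, GG_self]
        · unfold GG
          rw [if_neg]
          intro hg
          apply hgd
          have := hG _ hg s⁻¹
          rw [hpar] at this
          have e : ((s⁻¹ : ℝ) : ℂ) * ((s:ℂ) * (q - p)) = q - p := by
            push_cast
            field_simp [show (s:ℂ) ≠ 0 by exact_mod_cast hs0]
          rwa [e] at this
      have f3 : GG Φ Gd x q r = 0 := by
        by_cases hs0 : s - 1 = 0
        · have : r = q := by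
            rw [hs0] at hrq
            have : r - q = 0 := by rw [hrq]; simp
            exact sub_eq_zero.1 this
          rw [this, GG_self]
        · unfold GG
          rw [if_neg]
          intro hg
          apply hgd
          have := hG _ hg (s-1)⁻¹
          rw [hrq] at this
          have e : (((s-1)⁻¹ : ℝ) : ℂ) * (((s-1 : ℝ):ℂ) * (q - p)) = q - p := by
            have hne : ((s - 1 : ℝ) : ℂ) ≠ 0 := by exact_mod_cast hs0
            rw [ofReal_inv, ← mul_assoc, inv_mul_cancel₀ hne, one_mul]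
          rwa [e] at this
      rw [f1, f2, f3, add_zero]

/-- contribution of a triangle all of whose edges are good -/
theorem bsum_good {P : Fin 3 → ℂ} (Φ : ℂ →+ ℂ) (Gd : ℂ → Prop)
    (hP : ∀ k, Gd (P (k+2) - P (k+1))) (hΦP : AffineIndependent ℝ (Φ ∘ P)) {x : ℂ}
    (h1 : ∀ k, (Φ (P k) - x).im ≠ 0) (h2 : ∀ k, co hΦP k x ≠ 0) [Decidable (x ∈ interior (tri (Φ ∘ P)))] :
    bsum (GG Φ Gd x) P = ori P * (ori (Φ ∘ P) * (if x ∈ interior (tri (Φ ∘ P)) then 1 else 0)) := by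
  classical
  have := cx_tri hΦP h1 h2
  unfold bsum GG
  rw [if_pos (show Gd (P 2 - P 1) from hP 0), if_pos (show Gd (P 0 - P 2) from hP 1),
    if_pos (show Gd (P 1 - P 0) from hP 2)]
  simp only [Function.comp_apply] at this
  rw [this]
  congr 1
  congr 1
  split_ifs <;> rfl

theorem bsum_bad {P : Fin 3 → ℂ} (Φ : ℂ →+ ℂ) (Gd : ℂ → Prop)
    (hP : ∀ k, ¬ Gd (P (k+2) - P (k+1))) (x : ℂ) : bsum (GG Φ Gd x) P = 0 := by
  unfold bsum GG
  rw [if_neg (show ¬ Gd (P 2 - P 1) from hP 0), if_neg (show ¬ Gd (P 0 - P 2) from hP 1),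
    if_neg (show ¬ Gd (P 1 - P 0) from hP 2)]
  ring

end

end Pool.Agent.Helper27.Sq
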