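import Mathlib

/-!
Area of circular sectors in the complex plane.
-/

open MeasureTheory Set Complex
open scoped ENNReal Real

namespace Pool.Agent.Helper27.Sq

/-- `∫ x dx` over `(0,r)` -/
noncomputable def cst (r : ℝ) : ℝ≥0∞ := ∫⁻ x in Ioo 0 r, ENNReal.ofReal x

theorem cst_ne_zero {r : ℝ} (hr : 0 < r) : cst r ≠ 0 := by
  unfold cst
  intro h
  rw [setLIntegral_eq_zero_iff measurableSet_Ioo (by fun_prop)] at h
  have h2 : volume (Ioo 0 r) = 0 := by
    rw [measure_eq_zero_iff_ae_notMem]
    filter_upwards [h] with x hx hx2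
    have := hx hx2
    rw [ENNReal.ofReal_eq_zero] at this
    exact absurd hx2.1 (not_lt.2 this)
  rw [Real.volume_Ioo, ENNReal.ofReal_eq_zero] at h2
  linarith

theorem cst_ne_top {r : ℝ} : cst r ≠ ⊤ := by
  unfold cst
  refine ne_of_lt (lt_of_le_of_lt (setLIntegral_mono (g := fun _ => ENNReal.ofReal r)
    measurable_const (fun x hx => ENNReal.ofReal_le_ofReal hx.2.le)) ?_)
  rw [setLIntegral_const]
  exact ENNReal.mul_lt_top ENNReal.ofReal_lt_top (by rw [Real.volume_Ioo]; exact ENNReal.ofReal_lt_top)

theorem vol_wedge {θ r : ℝ} (h1 : θ ≤ π) :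
    volume {z : ℂ | ‖z‖ < r ∧ 0 < arg z ∧ arg z < θ} = cst r * ENNReal.ofReal θ := by
  set W := {z : ℂ | ‖z‖ < r ∧ 0 < arg z ∧ arg z < θ} with hW
  have hWm : MeasurableSet W := by
    apply MeasurableSet.inter
    · exact measurableSet_lt measurable_norm measurable_const
    · apply MeasurableSet.inter
      · exact measurableSet_lt measurable_const measurable_arg
      · exact measurableSet_lt measurable_arg measurable_const
  rw [← lintegral_indicator_one hWm, ← Complex.lintegral_comp_polarCoord_symm]
  have hpm : MeasurableSet polarCoord.target := polarCoord.open_target.measurableSet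
  rw [← lintegral_indicator hpm]
  have key : (polarCoord.target.indicator fun p : ℝ × ℝ =>
      ENNReal.ofReal p.1 • W.indicator 1 (Complex.polarCoord.symm p))
      = (Ioo 0 r ×ˢ Ioo 0 θ).indicator fun p : ℝ × ℝ => ENNReal.ofReal p.1 * 1 := by
    funext p
    by_cases hp : p ∈ polarCoord.target
    · rw [indicator_of_mem hp]
      have hp' : 0 < p.1 ∧ -π < p.2 ∧ p.2 < π := by
        have := hp
        rw [polarCoord_target] at this
        exact ⟨this.1, this.2.1, this.2.2⟩
      have hn : ‖Complex.polarCoord.symm p‖ = p.1 := by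
        rw [Complex.norm_polarCoord_symm, abs_of_pos hp'.1]
      have ha : arg (Complex.polarCoord.symm p) = p.2 := by
        rw [Complex.polarCoord_symm_apply]
        push_cast
        rw [Complex.arg_mul_cos_add_sin_mul_I hp'.1 ⟨hp'.2.1, hp'.2.2.le⟩]
      by_cases hq : p ∈ Ioo 0 r ×ˢ Ioo 0 θ
      · rw [indicator_of_mem hq, indicator_of_mem]
        · simp
        · rw [hW, mem_ofPred_eq, hn, ha]
          exact ⟨hq.1.2, hq.2.1, hq.2.2⟩
      · rw [indicator_of_notMem hq, indicator_of_notMem]
        · simp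
        · rw [hW, mem_ofPred_eq, hn, ha]
          rintro ⟨a, b, c⟩
          exact hq ⟨⟨hp'.1, a⟩, ⟨b, c⟩⟩
    · rw [indicator_of_notMem hp, indicator_of_notMem]
      rintro ⟨a, b⟩
      apply hp
      rw [polarCoord_target]
      exact ⟨a.1, by have := b.1; linarith [Real.pi_pos], by have := b.2; linarith⟩
  rw [key, lintegral_indicator (measurableSet_Ioo.prod measurableSet_Ioo), Measure.volume_eq_prod,
    ← Measure.prod_restrict]
  rw [lintegral_prod_mul (f := fun x : ℝ => ENNReal.ofReal x) (g := fun _ : ℝ => (1:ℝ≥0∞))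
    (by fun_prop) (by fun_prop)]
  rw [lintegral_one, Measure.restrict_apply_univ, Real.volume_Ioo, sub_zero]
  rfl

/-- cross product -/
def cr (u v : ℂ) : ℝ := u.re * v.im - u.im * v.re

/-- open sector of radius `r` at the origin spanned by `u`, `v` -/
def sect (u v : ℂ) (r : ℝ) : Set ℂ :=
  {z | ‖z‖ < r ∧ ∃ s t : ℝ, 0 < s ∧ 0 < t ∧ z = s * u + t * v}

theorem sect_one {w : ℂ} (hw : 0 < w.im) (r : ℝ) :
    sect 1 w r = {z : ℂ | ‖z‖ < r ∧ 0 < arg z ∧ arg z < arg w} := by
  have hw0 : w ≠ 0 := by
    rintro rfl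
    simp at hw
  have hargw := arg_nonneg_iff.2 hw.le
  -- characterization of `arg z < arg w` for z in the upper half plane
  have key : ∀ z : ℂ, 0 < z.im → (arg z < arg w ↔ 0 < z.re * w.im - z.im * w.re) := by
    intro z hz
    have hz0 : z ≠ 0 := by rintro rfl; simp at hz
    have e1 : z.re * w.im - z.im * w.re = ‖z‖ * ‖w‖ * Real.sin (arg w - arg z) := by
      rw [Real.sin_sub, sin_arg, cos_arg hz0, cos_arg hw0, sin_arg]
      have a := norm_ne_zero_iff.2 hz0
      have b := norm_ne_zero_iff.2 hw0
      field_simp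
    rw [e1]
    have hzpos := norm_pos_iff.2 hz0
    have hwpos := norm_pos_iff.2 hw0
    have b1 : 0 ≤ arg z := arg_nonneg_iff.2 hz.le
    have b2 : arg z ≤ π := arg_le_pi z
    have b3 : arg w ≤ π := arg_le_pi w
    have b4 : 0 < arg z := by
      rcases b1.lt_or_eq with h | h
      · exact h
      · have := (arg_eq_zero_iff.1 h.symm).2
        linarith
    constructor
    · intro h
      exact mul_pos (mul_pos hzpos hwpos)
        (Real.sin_pos_of_pos_of_lt_pi (by linarith) (by linarith))
    · intro h
      by_contra hcon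
      push Not at hcon
      have : Real.sin (arg w - arg z) ≤ 0 :=
        Real.sin_nonpos_of_nonpos_of_neg_pi_le (by linarith) (by linarith)
      have := mul_nonpos_of_nonneg_of_nonpos (mul_pos hzpos hwpos).le this
      linarith
  ext z
  constructor
  · rintro ⟨h1, s, t, hs, ht, rfl⟩
    have him : 0 < ((s:ℂ) * 1 + t * w).im := by
      simp
      positivity
    refine ⟨h1, ?_, ?_⟩
    · rcases (arg_nonneg_iff.2 him.le).lt_or_eq with h | h
      · exact h
      · have := (arg_eq_zero_iff.1 h.symm).2
        linarith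
    · rw [key _ him]
      have e : ((s:ℂ) * 1 + t * w).re * w.im - ((s:ℂ) * 1 + t * w).im * w.re = s * w.im := by
        simp
        ring
      rw [e]
      exact mul_pos hs hw
  · rintro ⟨h1, h2, h3⟩
    have him : 0 < z.im := by
      rcases (arg_nonneg_iff.1 h2.le).lt_or_eq with h | h
      · exact h
      · exfalso
        by_cases hre : 0 ≤ z.re
        · exact h2.ne' (arg_eq_zero_iff.2 ⟨hre, h.symm⟩)
        · push Not at hre
          have := arg_eq_pi_iff.2 ⟨hre, h.symm⟩
          have := arg_le_pi w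
          linarith
    have h4 := (key z him).1 h3
    refine ⟨h1, (z.re * w.im - z.im * w.re) / w.im, z.im / w.im, by positivity, by positivity, ?_⟩
    apply Complex.ext
    · simp
      field_simp
      ring
    · simp
      field_simp

theorem vol_sect_one {w : ℂ} (hw : 0 < w.im) (r : ℝ) :
    volume (sect 1 w r) = cst r * ENNReal.ofReal (arg w) := by
  rw [sect_one hw, vol_wedge (arg_le_pi w)]

theorem vol_sect {u v : ℂ} (h : cr u v ≠ 0) (r : ℝ) :
    volume (sect u v r) = cst r * ENNReal.ofReal (InnerProductGeometry.angle u v) := by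
  have hu : u ≠ 0 := by
    rintro rfl
    simp [cr] at h
  have hv : v ≠ 0 := by
    rintro rfl
    simp [cr] at h
  have hun := norm_pos_iff.2 hu
  set w := v / u with hw
  have hvw : v = u * w := by rw [hw]; field_simp
  have hcr : cr u v = ‖u‖^2 * w.im := by
    rw [hvw, ← normSq_eq_norm_sq, normSq_apply]
    unfold cr
    simp
    ring
  have hwi : w.im ≠ 0 := by
    intro h0
    rw [hcr, h0, mul_zero] at h
    exact h rfl
  -- the rotation
  have hnorm : ‖u / ‖u‖‖ = 1 := by
    rw [norm_div, norm_real, norm_norm, div_self hun.ne']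
  set c : Circle := ⟨u / ‖u‖, mem_sphere_zero_iff_norm.2 hnorm⟩ with hc
  have hrot : MeasurePreserving (rotation c) volume volume := (rotation c).measurePreserving
  have hcc : (c : ℂ) = u / ‖u‖ := rfl
  have hun' : (‖u‖ : ℂ) ≠ 0 := by exact_mod_cast hun.ne'
  have e1 : (rotation c) ⁻¹' (sect u v r) = sect 1 w r := by
    ext z
    simp only [sect, mem_preimage, mem_ofPred_eq, rotation_apply, hcc, norm_mul, hnorm, one_mul]
    constructor
    · rintro ⟨h1, s, t, hs, ht, h2⟩
      refine ⟨h1, s * ‖u‖, t * ‖u‖, by positivity, by positivity, ?_⟩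
      rw [hvw] at h2
      push_cast
      have : u * z = u * (s * ‖u‖ * 1 + t * ‖u‖ * w) := by
        have h3 : u * z = ‖u‖ * (u / ‖u‖ * z) := by field_simp
        rw [h3, h2]; ring
      exact mul_left_cancel₀ hu this
    · rintro ⟨h1, s, t, hs, ht, h2⟩
      refine ⟨h1, s / ‖u‖, t / ‖u‖, by positivity, by positivity, ?_⟩
      rw [h2, hvw]
      push_cast
      field_simp
  have hm : volume (sect u v r) = volume (sect 1 w r) := by
    rw [← e1]
    exact (hrot.measure_preimage_equiv (f := (rotation c).toHomeomorph.toMeasurableEquiv) _).symm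
  rw [hm, InnerProductGeometry.angle_comm, angle_eq_abs_arg hv hu, ← hw]
  rcases lt_or_gt_of_ne hwi with hneg | hpos
  · -- conjugate
    have hconj : MeasurePreserving conjLIE volume volume := conjLIE.measurePreserving
    have e2 : conjLIE ⁻¹' (sect 1 w r) = sect 1 ((starRingEnd ℂ) w) r := by
      ext z
      simp only [sect, mem_preimage, mem_ofPred_eq, conjLIE_apply, Complex.norm_conj]
      constructor
      · rintro ⟨h1, s, t, hs, ht, h2⟩
        refine ⟨h1, s, t, hs, ht, ?_⟩
        have := congrArg (starRingEnd ℂ) h2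
        simpa using this
      · rintro ⟨h1, s, t, hs, ht, h2⟩
        refine ⟨h1, s, t, hs, ht, ?_⟩
        rw [h2]; simp
    have e3 : volume (sect 1 w r) = volume (sect 1 ((starRingEnd ℂ) w) r) := by
      rw [← e2]
      exact (hconj.measure_preimage_equiv (f := conjLIE.toHomeomorph.toMeasurableEquiv) _).symm
    rw [e3, vol_sect_one (by simpa using hneg)]
    have : arg ((starRingEnd ℂ) w) = |arg w| := by
      rw [arg_conj, if_neg, abs_of_neg (arg_neg_iff.2 hneg)]
      intro h0
      have := (arg_eq_pi_iff.1 h0).2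
      exact hwi this
    rw [this]
  · rw [vol_sect_one hpos, abs_of_nonneg (arg_nonneg_iff.2 hpos.le)]

end Pool.Agent.Helper27.Sq
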