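import Pool.Agent.Helper27.SqGeo

/-!
Areas and side lengths in a tiling of a triangle by triangles.
-/

open MeasureTheory Set Complex Filter Topology
open scoped ENNReal Real Pointwise

namespace Pool.Agent.Helper27.Sq

/-- the linear map `z ↦ z.re u + z.im v` -/
noncomputable def Lin (u v : ℂ) : ℂ →ₗ[ℝ] ℂ :=
  Complex.reLm.smulRight u + Complex.imLm.smulRight v

theorem Lin_apply (u v z : ℂ) : Lin u v z = (z.re : ℝ) • u + (z.im : ℝ) • v := rfl

theorem Lin_det (u v : ℂ) : LinearMap.det (Lin u v) = cr u v := by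
  rw [← LinearMap.det_toMatrix Complex.basisOneI, Matrix.det_fin_two]
  simp only [LinearMap.toMatrix_apply, Complex.coe_basisOneI, Complex.coe_basisOneI_repr, Lin_apply]
  simp [cr]
  ring

theorem vol_tri (P : Fin 3 → ℂ) :
    volume (tri P) = ENNReal.ofReal |cr (P 1 - P 0) (P 2 - P 0)| * volume (tri ![(0:ℂ), 1, I]) := by
  set u := P 1 - P 0 with hu
  set v := P 2 - P 0 with hv
  rw [← Lin_det, ← Measure.addHaar_image_linearMap]
  unfold tri
  rw [(Lin u v).image_convexHull]
  have h1 : volume (convexHull ℝ (range P))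
      = volume (convexHull ℝ ((fun z => z + P 0) '' (Lin u v '' range ![(0:ℂ), 1, I]))) := by
    congr 2
    rw [← image_comp, ← range_comp]
    congr 1
    funext k
    fin_cases k <;> simp [Lin_apply, hu, hv]
  rw [h1]
  have h2 : (fun z => z + P 0) '' (Lin u v '' range ![(0:ℂ), 1, I])
      = P 0 +ᵥ (Lin u v '' range ![(0:ℂ), 1, I]) := by
    rw [← image_vadd]
    apply image_congr
    intro z _
    rw [vadd_eq_add, add_comm]
  rw [h2, convexHull_vadd, measure_vadd]

/-- twice the area -/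
noncomputable def ar (P : Fin 3 → ℂ) : ℝ := |cr (P 1 - P 0) (P 2 - P 0)|

theorem ar_pos {P : Fin 3 → ℂ} (hP : AffineIndependent ℝ P) : 0 < ar P :=
  abs_pos.2 (cr_ne hP 0)

theorem ar_nonneg (P : Fin 3 → ℂ) : 0 ≤ ar P := abs_nonneg _

theorem vol_tri' (P : Fin 3 → ℂ) :
    volume (tri P) = ENNReal.ofReal (ar P) * volume (tri ![(0:ℂ), 1, I]) := vol_tri P

theorem sumR (f : Fin 3 → ℝ) (j : Fin 3) : f 0 + f 1 + f 2 = f j + f (j+1) + f (j+2) := by
  fin_cases j <;> simp <;> ring

theorem sumC (f : Fin 3 → ℂ) (j : Fin 3) : f 0 + f 1 + f 2 = f j + f (j+1) + f (j+2) := by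
  fin_cases j <;> simp <;> ring

theorem f3e : ∀ l l' : Fin 3, l ≠ l' → ∃ j, (l = j + 1 ∧ l' = j + 2) ∨ (l = j + 2 ∧ l' = j + 1) := by
  decide

theorem Tiling.area_rel {T : Fin 3 → ℂ} {n : ℕ} {Q : Fin n → Fin 3 → ℂ} (h : Tiling T n Q) :
    ar T = ∑ i, ar (Q i) := by
  have h1 := h.add volume Measure.AbsolutelyContinuous.rfl
  have hne : volume (tri T) ≠ 0 := by
    have h2 : (interior (tri T)).Nonempty :=
      ⟨_, (bas T h.hT).centroid_mem_interior_convexHull⟩
    have h3 := isOpen_interior.measure_pos volume h2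
    exact (lt_of_lt_of_le h3 (measure_mono interior_subset)).ne'
  rw [vol_tri' T] at h1 hne
  have hκ : volume (tri ![(0:ℂ), 1, I]) ≠ 0 := right_ne_zero_of_mul hne
  have hκ2 : volume (tri ![(0:ℂ), 1, I]) ≠ ⊤ := tri_compact.measure_lt_top.ne
  have h2 : ∑ i, volume (tri (Q i))
      = ENNReal.ofReal (∑ i, ar (Q i)) * volume (tri ![(0:ℂ), 1, I]) := by
    rw [ENNReal.ofReal_sum_of_nonneg (fun i _ => ar_nonneg _), Finset.sum_mul]
    exact Finset.sum_congr rfl (fun i _ => vol_tri' (Q i))
  rw [h2] at h1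
  have h3 := (ENNReal.mul_left_inj hκ hκ2).1 h1
  rwa [ENNReal.ofReal_eq_ofReal_iff (ar_nonneg _) (Finset.sum_nonneg fun i _ => ar_nonneg _)] at h3

theorem abs_cr (u v : ℂ) : |cr u v| = ‖u‖ * ‖v‖ * Real.sin (InnerProductGeometry.angle u v) := by
  have h1 := InnerProductGeometry.sin_angle_mul_norm_mul_norm u v
  have h2 : inner ℝ u u * inner ℝ v v - inner ℝ u v * inner ℝ u v = (cr u v)^2 := by
    simp only [Complex.inner, cr]
    simp
    ring
  rw [h2, Real.sqrt_sq_eq_abs] at h1
  rw [← h1]; ring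

theorem f3s1 : ∀ k : Fin 3, k + 2 + 1 = k := by decide
theorem f3s2 : ∀ k : Fin 3, k + 2 + 2 = k + 1 := by decide
theorem f3s3 : ∀ k : Fin 3, k + 1 + 1 = k + 2 := by decide
theorem f3s4 : ∀ k : Fin 3, k + 1 + 2 = k := by decide

theorem ar_eq (P : Fin 3 → ℂ) (k : Fin 3) :
    ar P = side P (k+1) * side P (k+2) * Real.sin (ang P k) := by
  have h1 : ar P = |cr (P (k+1) - P k) (P (k+2) - P k)| := by
    unfold ar
    fin_cases k
    · rfl
    · congr 1
      simp [cr]
      ring
    · congr 1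
      simp [cr]
      ring
  rw [h1, abs_cr]
  unfold side ang
  rw [f3s3, f3s4, f3s1, f3s2, dist_eq_norm, dist_eq_norm, norm_sub_rev (P k) (P (k+1))]
  ring

section
variable {T : Fin 3 → ℂ} {n : ℕ} {Q : Fin n → Fin 3 → ℂ}

theorem side_pos {P : Fin 3 → ℂ} (hP : AffineIndependent ℝ P) (k : Fin 3) : 0 < side P k :=
  dist_pos.2 ((P_inj hP).ne (f3c k))

/-- parametrization of the line through the side opposite to `k` -/
noncomputable def fl (T : Fin 3 → ℂ) (k : Fin 3) (t : ℝ) : ℂ :=
  T (k+1) + (t:ℂ) * (T (k+2) - T (k+1))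

theorem fl_aff (f : ℂ →ᵃ[ℝ] ℝ) (T : Fin 3 → ℂ) (k : Fin 3) (t : ℝ) :
    f (fl T k t) = f (T (k+1)) + t * (f (T (k+2)) - f (T (k+1))) := by
  have := aff_comb f (T (k+1)) (T (k+2)) (T (k+2)) t 0
  rw [Complex.ofReal_zero, zero_mul, add_zero, zero_mul, add_zero] at this
  exact this

theorem fl_co {T : Fin 3 → ℂ} (hT : AffineIndependent ℝ T) (k : Fin 3) (t : ℝ) :
    co hT k (fl T k t) = 0 := by
  rw [fl_aff, co_ne hT (f3a k), co_ne hT (f3b k)]; ring

theorem fl_inj {T : Fin 3 → ℂ} (hT : AffineIndependent ℝ T) (k : Fin 3) :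
    Function.Injective (fl T k) := by
  intro s t h
  have h1 : T (k+2) - T (k+1) ≠ 0 := sub_ne_zero.2 ((P_inj hT).ne (f3c k).symm)
  unfold fl at h
  have h2 := add_left_cancel h
  exact_mod_cast mul_right_cancel₀ h1 h2

theorem fl_dist (T : Fin 3 → ℂ) (k : Fin 3) (s t : ℝ) :
    dist (fl T k s) (fl T k t) = |s - t| * side T k := by
  unfold fl side
  rw [dist_add_left, dist_eq_norm, ← sub_mul, norm_mul, dist_eq_norm, norm_sub_rev (T (k+1)),
    ← Complex.ofReal_sub, Complex.norm_real, Real.norm_eq_abs]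

theorem fl_surj {T : Fin 3 → ℂ} (hT : AffineIndependent ℝ T) (k : Fin 3) {x : ℂ}
    (hx : co hT k x = 0) : ∃ t, fl T k t = x := by
  refine ⟨co hT (k+2) x, ?_⟩
  apply co_ext hT
  have hs : co hT k x + co hT (k+1) x + co hT (k+2) x = 1 := by
    have := co_sum hT x
    fin_cases k <;> simp at this ⊢ <;> linarith
  intro i
  rcases f3d k i with rfl | rfl | rfl
  · rw [fl_co, hx]
  · rw [fl_aff, co_self, co_ne hT (f3c k)]; linarith
  · rw [fl_aff, co_self, co_ne hT (f3c k).symm]; ring

theorem fl_mem {T : Fin 3 → ℂ} (hT : AffineIndependent ℝ T) (k : Fin 3) (t : ℝ) :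
    fl T k t ∈ tri T ↔ t ∈ Icc (0:ℝ) 1 := by
  rw [tri_eq hT]
  constructor
  · intro h
    have h1 := h (k+1)
    have h2 := h (k+2)
    rw [fl_aff, co_self, co_ne hT (f3c k)] at h1
    rw [fl_aff, co_self, co_ne hT (f3c k).symm] at h2
    exact ⟨by linarith, by linarith⟩
  · rintro ⟨h1, h2⟩ i
    rcases f3d k i with rfl | rfl | rfl
    · rw [fl_co]
    · rw [fl_aff, co_self, co_ne hT (f3c k)]; linarith
    · rw [fl_aff, co_self, co_ne hT (f3c k).symm]; linarith

theorem fl_continuous (T : Fin 3 → ℂ) (k : Fin 3) : Continuous (fl T k) := by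
  unfold fl; fun_prop

/-- trace of a tile on the line -/
def tr (T : Fin 3 → ℂ) (k : Fin 3) (P : Fin 3 → ℂ) : Set ℝ := {t | fl T k t ∈ tri P}

theorem tr_meas (T : Fin 3 → ℂ) (k : Fin 3) (P : Fin 3 → ℂ) : MeasurableSet (tr T k P) :=
  (tri_compact.isClosed.preimage (fl_continuous T k)).measurableSet

theorem fl_comb (T : Fin 3 → ℂ) (k : Fin 3) {a b s t : ℝ} (hab : a + b = 1) :
    fl T k (a * s + b * t) = (a:ℂ) * fl T k s + (b:ℂ) * fl T k t := by
  unfold fl
  have : (a:ℂ) = 1 - b := by
    have : a = 1 - b := by linarith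
    rw [this]; push_cast; ring
  push_cast
  rw [this]; ring

theorem tr_convex (T : Fin 3 → ℂ) (k : Fin 3) (P : Fin 3 → ℂ) {s t a b : ℝ}
    (hs : s ∈ tr T k P) (ht : t ∈ tr T k P) (ha : 0 ≤ a) (hb : 0 ≤ b) (hab : a + b = 1) :
    a * s + b * t ∈ tr T k P := by
  change fl T k _ ∈ tri P
  rw [fl_comb T k hab]
  have := tri_convex (P := P) hs ht ha hb hab
  simpa [Complex.real_smul] using this

/-- a tile whose trace on the line has two points is locally full next to the midpoint -/
theorem Tiling.near (h : Tiling T n Q) (k : Fin 3) (i : Fin n) {s t : ℝ} (hst : s ≠ t)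
    (hs : s ∈ tr T k (Q i)) (ht : t ∈ tr T k (Q i)) :
    ∀ᶠ ε : ℝ in 𝓝[>] (0:ℝ), fl T k ((s+t)/2) + (ε:ℂ) * (T k - fl T k ((s+t)/2))
      ∈ interior (tri (Q i)) := by
  have hTQ := h.hQ i
  set p := fl T k ((s+t)/2) with hp
  have hs' : ∀ l, 0 ≤ co hTQ l (fl T k s) := by
    have := hs; unfold tr at this; rw [tri_eq hTQ] at this; exact this
  have ht' : ∀ l, 0 ≤ co hTQ l (fl T k t) := by
    have := ht; unfold tr at this; rw [tri_eq hTQ] at this; exact this
  rw [int_eq hTQ]
  simp only [mem_ofPred_eq]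
  rw [eventually_all]
  intro l
  have hform : ∀ ε : ℝ, co hTQ l (p + (ε:ℂ) * (T k - p))
      = co hTQ l p + ε * (co hTQ l (T k) - co hTQ l p) := by
    intro ε
    have := aff_comb (co hTQ l) p (T k) (T k) ε 0
    rw [Complex.ofReal_zero, zero_mul, add_zero, zero_mul, add_zero] at this
    exact this
  have hpl : co hTQ l p = (co hTQ l (fl T k s) + co hTQ l (fl T k t)) / 2 := by
    rw [hp, fl_aff, fl_aff, fl_aff]; ring
  rcases (by rw [hpl]; have := hs' l; have := ht' l; linarith : 0 ≤ co hTQ l p).lt_or_eq with hpos | hzero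
  · have hcont : Continuous fun ε : ℝ => co hTQ l p + ε * (co hTQ l (T k) - co hTQ l p) := by
      fun_prop
    have h0 : (0:ℝ) < co hTQ l p + 0 * (co hTQ l (T k) - co hTQ l p) := by linarith
    have hev := (hcont.tendsto 0).eventually_const_lt h0
    filter_upwards [nhdsWithin_le_nhds hev] with ε hε
    rw [hform]; exact hε
  · -- the coordinate vanishes at both points, so on the whole line
    have z1 : co hTQ l (fl T k s) = 0 := by
      have := hs' l; have := ht' l; linarith
    have z2 : co hTQ l (fl T k t) = 0 := by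
      have := hs' l; have := ht' l; linarith
    rw [fl_aff] at z1 z2
    have z3 : (s - t) * (co hTQ l (T (k+2)) - co hTQ l (T (k+1))) = 0 := by linarith
    have z4 := (mul_eq_zero.1 z3).resolve_left (sub_ne_zero.2 hst)
    have z5 : co hTQ l (T (k+1)) = 0 := by rw [z4] at z1; linarith
    have z6 : co hTQ l (T (k+2)) = 0 := by linarith
    -- value at the vertex
    have z7 : 1 = co h.hT k (Q i l) * co hTQ l (T k) := by
      have := aff_co h.hT (co hTQ l) (Q i l)
      rw [co_self] at this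
      fin_cases k
      · simp at z5 z6 this ⊢; rw [z5, z6] at this; linarith
      · simp at z5 z6 this ⊢; rw [z5, z6] at this; linarith
      · simp at z5 z6 this ⊢; rw [z5, z6] at this; linarith
    have z8 : 0 ≤ co h.hT k (Q i l) := by
      have := h.sub i (P_mem (P := Q i) l)
      rw [tri_eq h.hT] at this
      exact this k
    have z9 : 0 < co hTQ l (T k) := by
      by_contra hcon
      push Not at hcon
      have := mul_nonpos_of_nonneg_of_nonpos z8 hcon
      linarith
    have hev : ∀ᶠ ε in 𝓝[>] (0:ℝ), ε ∈ Ioo (0:ℝ) 1 := Ioo_mem_nhdsGT one_pos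
    filter_upwards [hev] with ε hε
    rw [hform, ← hzero]
    have := mul_pos hε.1 z9
    linarith

theorem Tiling.tr_aed (h : Tiling T n Q) (k : Fin 3) {i j : Fin n} (hij : i ≠ j) :
    AEDisjoint volume (tr T k (Q i)) (tr T k (Q j)) := by
  unfold AEDisjoint
  apply Set.Subsingleton.measure_zero
  intro s hs t ht
  by_contra hst
  obtain ⟨ε, h1, h2⟩ := ((h.near k i hst hs.1 ht.1).and (h.near k j hst hs.2 ht.2)).exists
  exact Set.disjoint_left.1 (h.hd hij) h1 h2

theorem Tiling.tr_add (h : Tiling T n Q) (k : Fin 3) :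
    (1:ℝ≥0∞) = ∑ i, volume (tr T k (Q i)) := by
  have h1 : (⋃ i, tr T k (Q i)) = Icc (0:ℝ) 1 := by
    ext t
    rw [← fl_mem h.hT k, ← h.hU]
    simp [tr]
  have h2 : volume (⋃ i, tr T k (Q i)) = 1 := by
    rw [h1, Real.volume_Icc]; simp
  rw [← h2, measure_iUnion₀ (fun i j hij => h.tr_aed k hij)
    (fun i => (tr_meas T k (Q i)).nullMeasurableSet), tsum_fintype]

/-- the edge of the tile `P` opposite to `j` lies on the line of the side `k` of `T` -/
def onLine (hT : AffineIndependent ℝ T) (k : Fin 3) (P : Fin 3 → ℂ) (j : Fin 3) : Prop :=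
  co hT k (P (j+1)) = 0 ∧ co hT k (P (j+2)) = 0

open Classical in
theorem Tiling.tr_vol (h : Tiling T n Q) (k : Fin 3) (i : Fin n) :
    volume (tr T k (Q i)) = ∑ j, if onLine h.hT k (Q i) j then
      ENNReal.ofReal (side (Q i) j / side T k) else 0 := by
  have hTQ := h.hQ i
  have hnn : ∀ l, 0 ≤ co h.hT k (Q i l) := by
    intro l
    have := h.sub i (P_mem (P := Q i) l)
    rw [tri_eq h.hT] at this
    exact this k
  have hnot : ¬ (∀ l, co h.hT k (Q i l) = 0) := by
    intro h0
    have := aff_co hTQ (co h.hT k) (T k)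
    rw [co_self, h0 0, h0 1, h0 2] at this
    norm_num at this
  -- a point of the trace
  have hpt : ∀ t ∈ tr T k (Q i), ∀ l, co h.hT k (Q i l) ≠ 0 → co hTQ l (fl T k t) = 0 := by
    intro t ht
    have ht' : ∀ l, 0 ≤ co hTQ l (fl T k t) := by
      have := ht; unfold tr at this; rw [tri_eq hTQ] at this; exact this
    have h1 := aff_co hTQ (co h.hT k) (fl T k t)
    rw [fl_co] at h1
    intro l hl
    have hm : ∀ l, 0 ≤ co hTQ l (fl T k t) * co h.hT k (Q i l) := fun l => mul_nonneg (ht' l) (hnn l)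
    have h2 := sumR (fun l => co hTQ l (fl T k t) * co h.hT k (Q i l)) l
    have : co hTQ l (fl T k t) * co h.hT k (Q i l) = 0 := by
      have a1 := hm l
      have a2 := hm (l+1)
      have a3 := hm (l+2)
      linarith
    exact (mul_eq_zero.1 this).resolve_right hl
  by_cases hex : ∃ j, onLine h.hT k (Q i) j
  · obtain ⟨j, hj⟩ := hex
    have hjne : co h.hT k (Q i j) ≠ 0 := by
      intro h0
      apply hnot
      intro l
      rcases f3d j l with rfl | rfl | rfl
      · exact h0
      · exact hj.1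
      · exact hj.2
    have huniq : ∀ j', onLine h.hT k (Q i) j' → j' = j := by
      intro j' hj'
      rcases f3d j j' with h1 | h1 | h1
      · exact h1
      · exfalso
        apply hjne
        have := hj'.2
        rw [h1, f3s4] at this
        exact this
      · exfalso
        apply hjne
        have := hj'.1
        rw [h1, f3s1] at this
        exact this
    rw [Finset.sum_eq_single j (fun b _ hb => if_neg (fun h1 => hb (huniq b h1)))
      (fun h1 => absurd (Finset.mem_univ j) h1), if_pos hj]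
    obtain ⟨t1, ht1⟩ := fl_surj h.hT k hj.1
    obtain ⟨t2, ht2⟩ := fl_surj h.hT k hj.2
    have m1 : t1 ∈ tr T k (Q i) := by
      change fl T k t1 ∈ tri (Q i); rw [ht1]; exact P_mem _
    have m2 : t2 ∈ tr T k (Q i) := by
      change fl T k t2 ∈ tri (Q i); rw [ht2]; exact P_mem _
    have hset : tr T k (Q i) = uIcc t1 t2 := by
      rw [← segment_eq_uIcc]
      apply Subset.antisymm
      · intro t ht
        have h0 := hpt t ht j hjne
        have ht' : ∀ l, 0 ≤ co hTQ l (fl T k t) := by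
          have := ht; unfold tr at this; rw [tri_eq hTQ] at this; exact this
        have hs := co_sum hTQ (fl T k t)
        rw [sumR (fun l => co hTQ l (fl T k t)) j, h0, zero_add] at hs
        have hs2 : co hTQ (j+1) (fl T k t) + co hTQ (j+2) (fl T k t) = 1 := hs
        refine ⟨co hTQ (j+1) (fl T k t), co hTQ (j+2) (fl T k t), ht' _, ht' _, hs2, ?_⟩
        apply fl_inj h.hT k
        rw [smul_eq_mul, smul_eq_mul, fl_comb T k hs2, ht1, ht2]
        have hrep := co_rep hTQ (fl T k t)
        rw [sumC (fun l => co hTQ l (fl T k t) • Q i l) j, h0, zero_smul, zero_add] at hrep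
        simp only [Complex.real_smul] at hrep
        exact hrep.symm
      · rintro t ⟨a, b, ha, hb, hab, rfl⟩
        exact tr_convex T k (Q i) m1 m2 ha hb hab
    rw [hset, Real.volume_interval]
    congr 1
    have hd : side (Q i) j = |t1 - t2| * side T k := by
      rw [← fl_dist, ht1, ht2]; rfl
    rw [hd, mul_div_assoc, div_self (side_pos h.hT k).ne', mul_one, abs_sub_comm]
  · rw [Finset.sum_eq_zero (fun j _ => if_neg (fun h1 => hex ⟨j, h1⟩))]
    apply Set.Subsingleton.measure_zero
    intro s hs t ht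
    apply fl_inj h.hT k
    apply co_ext hTQ
    -- two of the three vertices are off the line
    have hone : ∀ l l', l ≠ l' → co h.hT k (Q i l) ≠ 0 ∨ co h.hT k (Q i l') ≠ 0 := by
      intro l l' hll
      by_contra hcon
      push Not at hcon
      apply hex
      have hcases := f3e l l' hll
      obtain ⟨j, ⟨rfl, rfl⟩ | ⟨rfl, rfl⟩⟩ := hcases
      · exact ⟨j, hcon.1, hcon.2⟩
      · exact ⟨j, hcon.2, hcon.1⟩
    have hs1 := co_sum hTQ (fl T k s)
    have ht1 := co_sum hTQ (fl T k t)
    have hps := hpt s hs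
    have hpt' := hpt t ht
    by_cases c0 : co h.hT k (Q i 0) = 0
    · have c1 := (hone 0 1 (by decide)).resolve_left (not_not.2 c0)
      have c2 := (hone 0 2 (by decide)).resolve_left (not_not.2 c0)
      have a1 := hps 1 c1
      have a2 := hps 2 c2
      have b1 := hpt' 1 c1
      have b2 := hpt' 2 c2
      intro l
      fin_cases l <;> simp <;> linarith
    · have a0 := hps 0 c0
      have b0 := hpt' 0 c0
      by_cases c1 : co h.hT k (Q i 1) = 0
      · have c2 := (hone 1 2 (by decide)).resolve_left (not_not.2 c1)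
        have a2 := hps 2 c2
        have b2 := hpt' 2 c2
        intro l
        fin_cases l <;> simp <;> linarith
      · have a1 := hps 1 c1
        have b1 := hpt' 1 c1
        intro l
        fin_cases l <;> simp <;> linarith

end

end Pool.Agent.Helper27.Sq
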