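import Mathlib

/-!
Structure of the side matrix when the triangle is similar to the tile and the ratio is irrational.
-/

namespace Pool.Agent.Helper27.Sq

/-- a real conjugate eigenvector -/
theorem conj_vec (D : Fin 3 → Fin 3 → ℕ) (a : Fin 3 → ℝ) (ha : ∀ j, 0 < a j) (R : ℝ)
    (hR : Irrational R) (N : ℕ) (hRN : R^2 = N)
    (h : ∀ l, D l 0 * a 0 + D l 1 * a 1 + D l 2 * a 2 = R * a l) :
    ∃ b : Fin 3 → ℝ, (∀ l, D l 0 * b 0 + D l 1 * b 1 + D l 2 * b 2 = - R * b l) ∧ b 0 ≠ 0 := by
  obtain ⟨f, hf⟩ : ∃ f : ℝ →ₗ[ℚ] ℚ, f (a 0) = 1 := by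
    obtain ⟨f, hf⟩ := (LinearMap.toSpanSingleton ℚ ℝ (a 0)).exists_leftInverse_of_injective
      (LinearMap.ker_toSpanSingleton ℚ (ha 0).ne')
    refine ⟨f, ?_⟩
    have := LinearMap.congr_fun hf 1
    simpa using this
  have hfn : ∀ (m : ℕ) (x : ℝ), f (m * x) = m * f x := by
    intro m x
    have : (m:ℝ) * x = (m:ℕ) • x := by simp
    rw [this, map_nsmul]; simp
  refine ⟨fun l => R * (f (a l) : ℝ) - f (R * a l), ?_, ?_⟩
  · intro l
    have h1 : (f (R * a l) : ℝ) = D l 0 * f (a 0) + D l 1 * f (a 1) + D l 2 * f (a 2) := by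
      rw [← h l, map_add, map_add, hfn, hfn, hfn]; push_cast; ring
    have h2 : (N * f (a l) : ℝ) = D l 0 * f (R * a 0) + D l 1 * f (R * a 1) + D l 2 * f (R * a 2) := by
      have e : (N:ℝ) * a l = D l 0 * (R * a 0) + D l 1 * (R * a 1) + D l 2 * (R * a 2) := by
        rw [← hRN]
        have := h l
        linear_combination (- R) * this
      have e2 := congrArg f e
      rw [map_add, map_add, hfn, hfn, hfn, hfn] at e2
      have e3 : ((N * f (a l) : ℚ) : ℝ) = ((D l 0 * f (R * a 0) + D l 1 * f (R * a 1)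
        + D l 2 * f (R * a 2) : ℚ) : ℝ) := by rw [e2]
      push_cast at e3
      exact e3
    have h3 : R * R = N := by rw [← hRN]; ring
    simp only
    linear_combination (-R) * h1 - (-1) * h2 - (-1) * (f (a l) : ℝ) * h3
  · simp only
    rw [hf]
    intro h0
    apply hR
    refine ⟨f (R * a 0), ?_⟩
    push_cast at h0
    linarith


theorem f3third : ∀ i j : Fin 3, i ≠ j → ∃ k, k ≠ i ∧ k ≠ j ∧ ∀ l, l = i ∨ l = j ∨ l = k := by
  decide

theorem sim_struct (D : Fin 3 → Fin 3 → ℕ) (a : Fin 3 → ℝ) (ha : ∀ j, 0 < a j) (R : ℝ)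
    (hR : Irrational R) (hR0 : 0 < R) (N : ℕ) (hRN : R^2 = N)
    (h : ∀ l, D l 0 * a 0 + D l 1 * a 1 + D l 2 * a 2 = R * a l) :
    (∃ i j, i ≠ j ∧ (∀ e, e ≠ j → D i e = 0) ∧ (∀ e, e ≠ i → D j e = 0)) ∨
    (∃ i, ∀ l, l ≠ i → ∀ e, e ≠ i → D l e = 0) := by
  obtain ⟨b, hb, hb0⟩ := conj_vec D a ha R hR N hRN h
  obtain ⟨l0, -, hl0⟩ := Finset.exists_max_image Finset.univ (fun l => |b l| / a l) Finset.univ_nonempty
  set m := |b l0| / a l0 with hm
  have hmle : ∀ l, |b l| ≤ m * a l := by
    intro l
    have := hl0 l (Finset.mem_univ l)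
    rwa [div_le_iff₀ (ha l)] at this
  have hm0 : 0 < m := by
    have h1 := hmle 0
    have h2 : 0 < |b 0| := abs_pos.2 hb0
    by_contra hcon
    push Not at hcon
    have := mul_nonpos_of_nonpos_of_nonneg hcon (ha 0).le
    linarith
  have hD0 : ∀ l, ∃ e, D l e ≠ 0 := by
    intro l
    by_contra hcon
    push Not at hcon
    have := h l
    rw [hcon 0, hcon 1, hcon 2] at this
    have h2 := mul_pos hR0 (ha l)
    simp at this
    rcases this with h3 | h3
    · exact hR0.ne' h3
    · exact (ha l).ne' h3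
  have hP : ∀ l, b l = m * a l → ∀ e, D l e ≠ 0 → b e = - (m * a e) := by
    intro l hl
    have hnn : ∀ e, 0 ≤ (D l e : ℝ) * (b e + m * a e) := fun e =>
      mul_nonneg (Nat.cast_nonneg _) (by have := neg_abs_le (b e); have := hmle e; linarith)
    have hs : (D l 0 : ℝ) * (b 0 + m * a 0) + D l 1 * (b 1 + m * a 1) + D l 2 * (b 2 + m * a 2) = 0 := by
      have h1 := hb l
      have h2 := h l
      rw [hl] at h1
      linear_combination h1 + m * h2
    intro e he
    have h0 : (D l e : ℝ) * (b e + m * a e) = 0 := by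
      have a0 := hnn 0
      have a1 := hnn 1
      have a2 := hnn 2
      have c0 := le_antisymm (by linarith) a0
      have c1 := le_antisymm (by linarith) a1
      have c2 := le_antisymm (by linarith) a2
      fin_cases e
      · exact c0
      · exact c1
      · exact c2
    have h3 := (mul_eq_zero.1 h0).resolve_left (by exact_mod_cast he)
    linarith
  have hN : ∀ l, b l = - (m * a l) → ∀ e, D l e ≠ 0 → b e = m * a e := by
    intro l hl
    have hnn : ∀ e, 0 ≤ (D l e : ℝ) * (m * a e - b e) := fun e =>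
      mul_nonneg (Nat.cast_nonneg _) (by have := le_abs_self (b e); have := hmle e; linarith)
    have hs : (D l 0 : ℝ) * (m * a 0 - b 0) + D l 1 * (m * a 1 - b 1) + D l 2 * (m * a 2 - b 2) = 0 := by
      have h1 := hb l
      have h2 := h l
      rw [hl] at h1
      linear_combination (-1) * h1 + m * h2
    intro e he
    have h0 : (D l e : ℝ) * (m * a e - b e) = 0 := by
      have a0 := hnn 0
      have a1 := hnn 1
      have a2 := hnn 2
      have c0 := le_antisymm (by linarith) a0
      have c1 := le_antisymm (by linarith) a1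
      have c2 := le_antisymm (by linarith) a2
      fin_cases e
      · exact c0
      · exact c1
      · exact c2
    have h3 := (mul_eq_zero.1 h0).resolve_left (by exact_mod_cast he)
    linarith
  have hneq : ∀ l, b l = m * a l → b l = - (m * a l) → False := by
    intro l h1 h2
    have := mul_pos hm0 (ha l)
    linarith
  -- both classes are nonempty
  obtain ⟨i, j, hi, hj⟩ : ∃ i j, b i = m * a i ∧ b j = - (m * a j) := by
    have h1 : |b l0| = m * a l0 := by rw [hm]; field_simp [(ha l0).ne']
    obtain ⟨e, he⟩ := hD0 l0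
    rcases abs_cases (b l0) with ⟨h2, -⟩ | ⟨h2, -⟩
    · rw [h2] at h1
      exact ⟨l0, e, h1, hP l0 h1 e he⟩
    · rw [h2] at h1
      have h3 : b l0 = - (m * a l0) := by linarith
      exact ⟨e, l0, hN l0 h3 e he, h3⟩
  have hij : i ≠ j := by
    rintro rfl
    exact hneq i hi hj
  obtain ⟨k, hki, hkj, hall⟩ : ∃ k, k ≠ i ∧ k ≠ j ∧ ∀ l, l = i ∨ l = j ∨ l = k :=
    f3third i j hij
  by_cases hkP : b k = m * a k
  · right
    refine ⟨j, fun l hl e he => ?_⟩
    by_contra hD
    have hlP : b l = m * a l := by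
      rcases hall l with rfl | rfl | rfl
      · exact hi
      · exact absurd rfl hl
      · exact hkP
    have h4 := hP l hlP e hD
    rcases hall e with rfl | rfl | rfl
    · exact hneq _ hi h4
    · exact he rfl
    · exact hneq _ hkP h4
  · by_cases hkN : b k = - (m * a k)
    · right
      refine ⟨i, fun l hl e he => ?_⟩
      by_contra hD
      have hlN : b l = - (m * a l) := by
        rcases hall l with rfl | rfl | rfl
        · exact absurd rfl hl
        · exact hj
        · exact hkN
      have h4 := hN l hlN e hD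
      rcases hall e with rfl | rfl | rfl
      · exact he rfl
      · exact hneq _ h4 hj
      · exact hneq _ h4 hkN
    · left
      refine ⟨i, j, hij, ?_, ?_⟩
      · intro e he
        by_contra hD
        have h4 := hP i hi e hD
        rcases hall e with rfl | rfl | rfl
        · exact hneq _ hi h4
        · exact he rfl
        · exact hkN h4
      · intro e he
        by_contra hD
        have h4 := hN j hj e hD
        rcases hall e with rfl | rfl | rfl
        · exact he rfl
        · exact hneq _ h4 hj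
        · exact hkP h4

end Pool.Agent.Helper27.Sq
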