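import Pool.Agent.Helper27.SqExc

/-!
Specifications of independent modules (no proofs here; each `Spec...` is to be proved in its own
file).
-/

namespace Pool.Agent.Helper27.Sq

/-- module H: every exceptional triangle has a tiling with a non-square number of tiles.
(Choose any coordinates: it is stated in `ℂ`.) -/
def SpecH : Prop :=
  ∀ (x : Fin 3 → ℝ), Exc x → ∀ P : Fin 3 → ℂ, AffineIndependent ℝ P →
    ∀ r : ℝ, 0 < r → (∀ k, side P k = r * x k) → ∃ n : ℕ, ¬ IsSquare n ∧ CanCut P n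

/-- module F1: additive maps semilinear with respect to a cyclotomic automorphism -/
def SpecF1 : Prop :=
  ∀ (N : ℕ), 0 < N → ∀ c : ℤ, IsCoprime c (N : ℤ) → ∀ l : ℝ, l ≠ 0 →
    ∃ f : ℝ →+ ℝ, f l = 1 ∧ ∀ (j : ℤ) (x : ℝ),
      f (Real.cos (2 * Real.pi * j / N) * x) = Real.cos (2 * Real.pi * (c * j) / N) * f x

/-- module G: arithmetic of the rational case. `x0, x1, 1 - x0 - x1` are the angles of the tile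
divided by `π`. -/
def SpecG : Prop :=
  ∀ (P Q : ℕ) (x0 x1 : ℚ), 0 < x0 → 0 < x1 → x0 + x1 < 1 → P * x0 + Q * x1 = 1 →
    ∀ D : ℕ, 0 < D → (∃ k : ℤ, x0 * D = k) → (∃ k : ℤ, x1 * D = k) →
    (∀ c : ℤ, IsCoprime c (4 * D : ℤ) → ∃ (e k0 k1 k2 : ℤ), (e = 1 ∨ e = -1) ∧
      0 < e * c * x0 - k0 ∧ 0 < e * c * x1 - k1 ∧ 0 < e * c * (1 - x0 - x1) - k2 ∧
      (e * c * x0 - k0) + (e * c * x1 - k1) + (e * c * (1 - x0 - x1) - k2) = 1 ∧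
      P * (e * c * x0 - k0) + Q * (e * c * x1 - k1) ≤ 1) →
    (P ≤ 2 ∧ Q ≤ 2) ∨
    (Q = 0 ∧ (P = 3 ∨ P = 4 ∨ P = 6)) ∨ (P = 0 ∧ (Q = 3 ∨ Q = 4 ∨ Q = 6)) ∨
    ((∃ k : ℤ, x0 * 6 = k) ∧ ∃ k : ℤ, x1 * 6 = k) ∨
    ((∃ k : ℤ, x0 * 4 = k) ∧ ∃ k : ℤ, x1 * 4 = k) ∨
    (P = 3 ∧ Q = 1 ∧ ((x0 = 1/10 ∧ x1 = 7/10) ∨ (x0 = 3/10 ∧ x1 = 1/10))) ∨
    (P = 1 ∧ Q = 3 ∧ ((x1 = 1/10 ∧ x0 = 7/10) ∨ (x1 = 3/10 ∧ x0 = 1/10)))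

end Pool.Agent.Helper27.Sq
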