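import Pool.Agent.Helper27.SqKey
import Pool.Agent.Helper27.SqFacts

/-!
Angles at points which are not corners; relabelling; tiles at the corners.
-/

open MeasureTheory Set Complex Filter Topology
open scoped ENNReal Real

namespace Pool.Agent.Helper27.Sq

theorem cst_eq {r : ℝ} (hr : 0 < r) : cst r = ENNReal.ofReal (r^2/2) := by
  unfold cst
  rw [← ofReal_integral_eq_lintegral_ofReal]
  · congr 1
    rw [← integral_Ioc_eq_integral_Ioo, ← intervalIntegral.integral_of_le hr.le, integral_id]
    ring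
  · have h1 : IntegrableOn (fun x : ℝ => x) (Ioc 0 r) volume :=
      ((continuous_id.intervalIntegrable 0 r).1 : IntegrableOn (fun x : ℝ => x) (Ioc 0 r) volume)
    exact h1.mono_set Ioo_subset_Ioc_self
  · exact (ae_restrict_mem measurableSet_Ioo).mono (fun x hx => hx.1.le)

theorem vol_disc {r : ℝ} (hr : 0 < r) (p : ℂ) :
    volume (Metric.ball p r) = cst r * ENNReal.ofReal (2 * π) := by
  rw [Complex.volume_ball, cst_eq hr, ← ENNReal.ofReal_mul (by positivity), ← ENNReal.ofReal_pow hr.le]
  have : ((NNReal.pi : NNReal) : ℝ≥0∞) = ENNReal.ofReal π := by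
    rw [ENNReal.ofReal, ← NNReal.coe_real_pi, Real.toNNReal_coe]
  rw [this, ← ENNReal.ofReal_mul (by positivity)]
  congr 1
  ring

theorem vol_half {u : ℂ} (hu : u ≠ 0) (r : ℝ) :
    volume {z : ℂ | ‖z‖ < r ∧ 0 < cr u z} = cst r * ENNReal.ofReal π := by
  have hun := norm_pos_iff.2 hu
  have hnorm : ‖u / ‖u‖‖ = 1 := by
    rw [norm_div, norm_real, norm_norm, div_self hun.ne']
  set c : Circle := ⟨u / ‖u‖, mem_sphere_zero_iff_norm.2 hnorm⟩ with hc
  have hrot : MeasurePreserving (rotation c) volume volume := (rotation c).measurePreserving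
  have hcc : (c : ℂ) = u / ‖u‖ := rfl
  have e1 : (rotation c) ⁻¹' {z : ℂ | ‖z‖ < r ∧ 0 < cr u z} = {z : ℂ | ‖z‖ < r ∧ 0 < arg z ∧ arg z < π} := by
    ext z
    simp only [mem_preimage, mem_ofPred_eq, rotation_apply, hcc, norm_mul, hnorm, one_mul]
    have h1 : cr u (u / ‖u‖ * z) = ‖u‖ * z.im := by
      have : u / ‖u‖ * z = ((1/‖u‖ : ℝ) : ℂ) * (u * z) := by push_cast; ring
      rw [this, cr_smul_right]
      have h2 : cr u (u * z) = ‖u‖^2 * z.im := by
        rw [← normSq_eq_norm_sq, normSq_apply]; unfold cr; simp; ring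
      rw [h2]; field_simp
    rw [h1, mul_pos_iff_of_pos_left hun]
    refine and_congr_right (fun _ => ?_)
    constructor
    · intro h
      constructor
      · rcases (arg_nonneg_iff.2 h.le).lt_or_eq with h' | h'
        · exact h'
        · have := (arg_eq_zero_iff.1 h'.symm).2
          linarith
      · rcases (arg_le_pi z).lt_or_eq with h' | h'
        · exact h'
        · have := (arg_eq_pi_iff.1 h').2
          linarith
    · rintro ⟨h2, h3⟩
      rcases (arg_nonneg_iff.1 h2.le).lt_or_eq with h | h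
      · exact h
      · exfalso
        by_cases hre : 0 ≤ z.re
        · exact h2.ne' (arg_eq_zero_iff.2 ⟨hre, h.symm⟩)
        · push Not at hre
          exact h3.ne (arg_eq_pi_iff.2 ⟨hre, h.symm⟩)
  have hm : volume {z : ℂ | ‖z‖ < r ∧ 0 < cr u z} = volume {z : ℂ | ‖z‖ < r ∧ 0 < arg z ∧ arg z < π} := by
    rw [← e1]
    exact (hrot.measure_preimage_equiv (f := (rotation c).toHomeomorph.toMeasurableEquiv) _).symm
  rw [hm, vol_wedge le_rfl]

theorem f3fourth : ∀ k l : Fin 3, l ≠ k → ∃ m, m ≠ k ∧ m ≠ l ∧ ∀ i, i = k ∨ i = l ∨ i = m := by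
  decide

section
variable {P : Fin 3 → ℂ} (hP : AffineIndependent ℝ P)

include hP in
/-- density of a triangle at a point which is not a vertex -/
theorem near_point {p : ℂ} (hp : ∀ j, P j ≠ p) : ∃ v : ℕ, v ≤ 2 ∧ ∀ᶠ r in 𝓝[>] (0:ℝ),
    volume (tri P ∩ Metric.ball p r) = cst r * ENNReal.ofReal (v * π) := by
  by_cases hneg : ∃ k, co hP k p < 0
  · obtain ⟨k, hk⟩ := hneg
    refine ⟨0, by norm_num, ?_⟩
    have hopen : IsOpen {x | co hP k x < 0} := isOpen_lt (co_continuous hP k) continuous_const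
    obtain ⟨ε, hε, hball⟩ := Metric.isOpen_iff.1 hopen _ hk
    have hev : ∀ᶠ r in 𝓝[>] (0:ℝ), r ∈ Ioo 0 ε := Ioo_mem_nhdsGT hε
    filter_upwards [hev] with r hr
    have h1 : tri P ∩ Metric.ball p r = ∅ := by
      rw [eq_empty_iff_forall_notMem]
      rintro x ⟨hx1, hx2⟩
      rw [tri_eq hP] at hx1
      have h2 := hx1 k
      have h3 := hball (Metric.ball_subset_ball hr.2.le hx2)
      exact absurd h3 (not_lt.2 h2)
    rw [h1]; simp
  · push Not at hneg
    by_cases hall : ∀ k, 0 < co hP k p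
    · refine ⟨2, le_rfl, ?_⟩
      have hopen : IsOpen (interior (tri P)) := isOpen_interior
      have hmem : p ∈ interior (tri P) := by rw [int_eq hP]; exact hall
      obtain ⟨ε, hε, hball⟩ := Metric.isOpen_iff.1 hopen _ hmem
      have hev : ∀ᶠ r in 𝓝[>] (0:ℝ), r ∈ Ioo 0 ε := Ioo_mem_nhdsGT hε
      filter_upwards [hev] with r hr
      have h1 : tri P ∩ Metric.ball p r = Metric.ball p r := by
        apply inter_eq_right.2
        exact (Metric.ball_subset_ball hr.2.le).trans (hball.trans interior_subset)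
      rw [h1, vol_disc hr.1]; norm_num
    · push Not at hall
      obtain ⟨k, hk⟩ := hall
      have hk0 : co hP k p = 0 := le_antisymm hk (hneg k)
      have hsum := co_sum hP p
      rw [sumR (fun l => co hP l p) k] at hsum
      have hpos : ∀ l, l ≠ k → 0 < co hP l p := by
        intro l hl
        rcases (hneg l).lt_or_eq with h | h
        · exact h
        · exfalso
          obtain ⟨m, hmk, hml, hm⟩ := f3fourth k l hl
          apply hp m
          apply co_ext hP
          have hm1 : co hP m p = 1 := by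
            rcases f3d k l with h1 | h1 | h1 <;> rcases f3d k m with h2 | h2 | h2
            · exact absurd h1 hl
            · exact absurd h1 hl
            · exact absurd h1 hl
            · exact absurd h2 hmk
            · exact absurd (h2.trans h1.symm) hml
            · rw [h2]; rw [h1] at h; linarith
            · exact absurd h2 hmk
            · rw [h2]; rw [h1] at h; linarith
            · exact absurd (h2.trans h1.symm) hml
          intro i
          rcases hm i with rfl | rfl | rfl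
          · rw [hk0, co_ne hP hmk.symm]
          · rw [← h, co_ne hP hml.symm]
          · rw [hm1, co_self]
      refine ⟨1, by norm_num, ?_⟩
      have hp1 := hpos (k+1) (f3a k).symm
      have hp2 := hpos (k+2) (f3b k).symm
      have hopen : IsOpen {x | 0 < co hP (k+1) x ∧ 0 < co hP (k+2) x} :=
        (isOpen_lt continuous_const (co_continuous hP _)).inter
          (isOpen_lt continuous_const (co_continuous hP _))
      obtain ⟨ε, hε, hball⟩ := Metric.isOpen_iff.1 hopen p ⟨hp1, hp2⟩
      have hev : ∀ᶠ r in 𝓝[>] (0:ℝ), r ∈ Ioo 0 ε := Ioo_mem_nhdsGT hε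
      filter_upwards [hev] with r hr
      have hD := DA_ne hP
      set w := P (k+2) - P (k+1) with hw
      have hw0 : w ≠ 0 := sub_ne_zero.2 ((P_inj hP).ne (f3c k).symm)
      set u : ℂ := if 0 < DA P then w else -w with hu
      have hu0 : u ≠ 0 := by rw [hu]; split_ifs; exacts [hw0, neg_ne_zero.2 hw0]
      have hcond : ∀ z : ℂ, 0 < co hP k (p + z) ↔ 0 < cr u z := by
        intro z
        rw [co_add, hk0, zero_add, lin_cr, ← hw, hu]
        split_ifs with h
        · exact div_pos_iff_of_pos_right h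
        · have h' : DA P < 0 := lt_of_le_of_ne (not_lt.1 h) hD
          rw [cr_neg_left, ← neg_div_neg_eq, div_pos_iff_of_pos_right (by linarith)]
      have hpre : (fun z => p + z) ⁻¹' (interior (tri P) ∩ Metric.ball p r)
          = {z : ℂ | ‖z‖ < r ∧ 0 < cr u z} := by
        ext z
        rw [int_eq hP]
        simp only [mem_preimage, mem_inter_iff, mem_ofPred_eq, Metric.mem_ball, dist_self_add_left]
        constructor
        · rintro ⟨h1, h2⟩
          exact ⟨h2, (hcond z).1 (h1 k)⟩
        · rintro ⟨h1, h2⟩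
          refine ⟨?_, h1⟩
          have h3 := hball (show p + z ∈ Metric.ball p ε by
            rw [Metric.mem_ball, dist_self_add_left]; exact h1.trans hr.2)
          intro i
          rcases f3d k i with rfl | rfl | rfl
          · exact (hcond z).2 h2
          · exact h3.1
          · exact h3.2
      rw [← vol_int_inter, ← measure_preimage_add volume p, hpre, vol_half hu0]
      simp

end

open Classical in
/-- number of tiles with the vertex `j` at `p` -/
noncomputable def CN {n : ℕ} (Q : Fin n → Fin 3 → ℂ) (p : ℂ) (j : Fin 3) : ℕ :=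
  (Finset.univ.filter fun i => Q i j = p).card

section
variable {T : Fin 3 → ℂ} {n : ℕ} {Q : Fin n → Fin 3 → ℂ}

theorem Tiling.point_rel (h : Tiling T n Q) (i0 : Fin n) {p : ℂ} (hp : ∀ k, T k ≠ p) :
    ∃ E : ℤ, E ≤ 2 ∧ (CN Q p 0 : ℝ) * ang (Q i0) 0 + CN Q p 1 * ang (Q i0) 1
      + CN Q p 2 * ang (Q i0) 2 = E * π := by
  classical
  obtain ⟨vT, hvT, hT⟩ := near_point h.hT hp
  -- contribution of each tile
  have hcon : ∀ i, ∃ v : ℕ, ∀ᶠ r in 𝓝[>] (0:ℝ), volume (tri (Q i) ∩ Metric.ball p r)
      = cst r * ENNReal.ofReal ((∑ j, if Q i j = p then ang (Q i) j else 0) + v * π) := by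
    intro i
    by_cases hk : ∃ j, Q i j = p
    · obtain ⟨j, hj⟩ := hk
      refine ⟨0, ?_⟩
      filter_upwards [near_vertex (h.hQ i) j] with r hr
      have hs : ∑ j', (if Q i j' = p then ang (Q i) j' else 0) = ang (Q i) j := by
        rw [Finset.sum_eq_single j]
        · rw [if_pos hj]
        · intro b _ hb
          rw [if_neg]
          intro h1
          rw [← hj] at h1
          exact hb (P_inj (h.hQ i) h1)
        · intro h1; exact absurd (Finset.mem_univ j) h1
      rw [hs, ← hj, ← vol_int_inter, hr]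
      simp
    · push Not at hk
      obtain ⟨v, -, hv⟩ := near_point (h.hQ i) hk
      refine ⟨v, ?_⟩
      filter_upwards [hv] with r hr
      rw [hr, Finset.sum_eq_zero (fun j _ => if_neg (hk j)), zero_add]
  choose v hv using hcon
  have h3 : ∀ᶠ r in 𝓝[>] (0:ℝ), 0 < r := self_mem_nhdsWithin
  obtain ⟨r, hr1, hr2, hr3⟩ := ((eventually_all.2 hv).and (hT.and h3)).exists
  have hadd := h.add (volume.restrict (Metric.ball p r)) Measure.restrict_le_self.absolutelyContinuous
  rw [Measure.restrict_apply (tri_compact.isClosed.measurableSet)] at hadd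
  have hadd' : volume (tri T ∩ Metric.ball p r)
      = ∑ i, volume (tri (Q i) ∩ Metric.ball p r) := by
    rw [hadd]
    exact Finset.sum_congr rfl (fun i _ =>
      Measure.restrict_apply (tri_compact.isClosed.measurableSet))
  rw [hr2] at hadd'
  have hnn : ∀ i, 0 ≤ (∑ j, if Q i j = p then ang (Q i) j else 0) + v i * π := fun i =>
    add_nonneg (Finset.sum_nonneg (fun j _ => by
      split_ifs; exacts [ang_nonneg _ _, le_refl _])) (by positivity)
  have h4 : ∑ i, volume (tri (Q i) ∩ Metric.ball p r)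
      = cst r * ENNReal.ofReal (∑ i, ((∑ j, if Q i j = p then ang (Q i) j else 0) + v i * π)) := by
    rw [ENNReal.ofReal_sum_of_nonneg (fun i _ => hnn i), Finset.mul_sum]
    exact Finset.sum_congr rfl (fun i _ => hr1 i)
  rw [h4] at hadd'
  have h5 := (ENNReal.mul_right_inj (cst_ne_zero hr3) cst_ne_top).1 hadd'
  rw [ENNReal.ofReal_eq_ofReal_iff (by positivity) (Finset.sum_nonneg (fun i _ => hnn i))] at h5
  have h6 : ∑ i, ((∑ j, if Q i j = p then ang (Q i) j else 0) + v i * π)
      = ((CN Q p 0 : ℝ) * ang (Q i0) 0 + CN Q p 1 * ang (Q i0) 1 + CN Q p 2 * ang (Q i0) 2)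
        + ((∑ i, v i : ℕ) : ℝ) * π := by
    rw [Finset.sum_add_distrib, Finset.sum_comm, ← Finset.sum_mul, Nat.cast_sum,
      ← Fin.sum_univ_three (fun j => (CN Q p j : ℝ) * ang (Q i0) j)]
    congr 1
    refine Finset.sum_congr rfl (fun j _ => ?_)
    rw [← Finset.sum_filter, CN]
    rw [Finset.sum_congr rfl (fun i _ => ang_congr (h.hcong i i0) j), Finset.sum_const, nsmul_eq_mul]
  rw [h6] at h5
  refine ⟨(vT : ℤ) - (∑ i, v i : ℕ), by omega, ?_⟩
  push_cast at h5 ⊢
  linarith

theorem Tiling.vert (h : Tiling T n Q) (i0 : Fin n) (p q : Fin 3)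
    (hpq : MM T Q 0 q + MM T Q 1 q + MM T Q 2 q < MM T Q 0 p + MM T Q 1 p + MM T Q 2 p) :
    ∃ (m : Fin 3 → ℕ) (E : ℕ), (E = 1 ∨ E = 2) ∧ m p < m q ∧
      (m 0 : ℝ) * ang (Q i0) 0 + m 1 * ang (Q i0) 1 + m 2 * ang (Q i0) 2 = E * π := by
  classical
  set C : Finset ℂ := Finset.univ.image T with hC
  set V : Finset ℂ := (Finset.univ.image fun x : Fin n × Fin 3 => Q x.1 x.2) with hV
  have hsum : ∀ j, ∑ x ∈ V \ C, CN Q x j + ∑ x ∈ C, CN Q x j = n := by
    intro j
    have h1 : ∑ x ∈ V ∪ C, CN Q x j = n := by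
      have := Finset.card_eq_sum_card_fiberwise (s := (Finset.univ : Finset (Fin n))) (t := V ∪ C)
        (f := fun i => Q i j) (fun i _ => by
          simp only [Finset.coe_union, mem_union, Finset.mem_coe]
          left
          exact Finset.mem_image.2 ⟨(i, j), Finset.mem_univ _, rfl⟩)
      rw [Finset.card_univ, Fintype.card_fin] at this
      exact this.symm
    rw [← Finset.sum_union (Finset.sdiff_disjoint), Finset.sdiff_union_self_eq_union]
    exact h1
  have hCsum : ∀ j, ∑ x ∈ C, CN Q x j = MM T Q 0 j + MM T Q 1 j + MM T Q 2 j := by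
    intro j
    rw [hC, Finset.sum_image (fun a _ b _ hab => P_inj h.hT hab), Fin.sum_univ_three]
    rfl
  have h1 := hsum p
  have h2 := hsum q
  rw [hCsum] at h1 h2
  have hlt : ∑ x ∈ V \ C, CN Q x p < ∑ x ∈ V \ C, CN Q x q := by omega
  obtain ⟨x, hx, hxlt⟩ := Finset.exists_lt_of_sum_lt hlt
  have hxC : ∀ k, T k ≠ x := by
    intro k hk
    rw [Finset.mem_sdiff] at hx
    exact hx.2 (Finset.mem_image.2 ⟨k, Finset.mem_univ _, hk⟩)
  obtain ⟨E, hE, hrel⟩ := h.point_rel i0 hxC
  have hpos : 0 < (E:ℝ) * π := by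
    rw [← hrel]
    have hq : (1:ℝ) ≤ CN Q x q := by exact_mod_cast (by omega : 1 ≤ CN Q x q)
    have a0 := ang_pos (h.hQ i0) 0
    have a1 := ang_pos (h.hQ i0) 1
    have a2 := ang_pos (h.hQ i0) 2
    have b0 : (0:ℝ) ≤ CN Q x 0 := Nat.cast_nonneg _
    have b1 : (0:ℝ) ≤ CN Q x 1 := Nat.cast_nonneg _
    have b2 : (0:ℝ) ≤ CN Q x 2 := Nat.cast_nonneg _
    fin_cases q
    · simp only [Fin.zero_eta] at hq
      nlinarith [mul_nonneg b1 a1.le, mul_nonneg b2 a2.le]
    · simp only [Fin.mk_one] at hq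
      nlinarith [mul_nonneg b0 a0.le, mul_nonneg b2 a2.le]
    · simp only [Fin.reduceFinMk] at hq
      nlinarith [mul_nonneg b0 a0.le, mul_nonneg b1 a1.le]
  have hE0 : 0 < E := by
    have := (mul_pos_iff_of_pos_right Real.pi_pos).1 hpos
    exact_mod_cast this
  refine ⟨fun j => CN Q x j, E.toNat, by omega, hxlt, ?_⟩
  rw [hrel]
  congr 1
  have : ((E.toNat : ℤ) : ℝ) = (E : ℝ) := by rw [Int.toNat_of_nonneg hE0.le]
  exact_mod_cast this.symm

end

end Pool.Agent.Helper27.Sq
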